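import Mathlib
import Pool.Agent.H74.R45.Wa
import Pool.Agent.H74.R45.S12
import Pool.Agent.Q1.M6f.GlueRel

set_option autoImplicit false
open Finset

/-!
# Theorem C for the rectangles along the tile axes: the statement

`CMeas ν C₀ c₀ Y₀` : bounds for the contact measure. `OFar O L` : the surroundings of the rectangle up to
distance `L` (thin wires in the row `y = -1`). `ThmC ν` : linear response of the potentials of the environments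
`0` and `h` to the weights of the ties. `ThmN` : the response to a natural row or column is small.
-/

namespace Pool.Agent.Q1.M6e

open Pool.Agent.H75.Perc Pool.Agent.H75.TwoArm Pool.Agent.Q1 Pool.Agent.H33.Q1
open Pool.Agent.H74.R45 Pool.Agent.H64.Q1 Pool.Agent.Q1.M6f.Glue Pool.Agent.H25.Q1.Close

/-- bounds for the contact measure (see `TrackIn`) -/
structure CMeas (ν : ℕ → ℝ) (C₀ c₀ Y₀ : ℝ) : Prop where
  pos : 0 < c₀
  nn : ∀ m, 0 ≤ ν m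
  sum : ∀ r : ℝ, 0 ≤ r → r < 1 → Summable fun m => ν m * r ^ m
  up : ∀ r : ℝ, 0 ≤ r → r < 1 → (∑' m, ν m * r ^ m) * (1 - r) ^ (3 / 2 : ℝ) ≤ C₀
  low : ∀ y : ℝ, Y₀ ≤ y → c₀ ≤ (∑' m, ν m * s₀ y ^ m) * (1 - s₀ y) ^ (3 / 2 : ℝ)

/-- the surroundings of the rectangle: thin wires in the row `-1`, everything else at distance `L` -/
structure OFar {w h : ℤ} (O : Out w h) (L : ℤ) : Prop where
  wo : ∀ x y, lt (x, y) ∈ O.Wo → (y = -1 ∧ (x ≤ -3 ∨ w + 2 ≤ x)) ∨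
    x ≤ -L ∨ w + L ≤ x ∨ y ≤ -L ∨ h + L ≤ y
  root : ∀ x y : ℤ, (x, y) = tv (vx O.c0) → x ≤ -L ∨ w + L ≤ x ∨ y ≤ -L ∨ h + L ≤ y

/-- points at distance at least `d` from the boundary of the rectangle -/
def Inn (w h : ℤ) (d : ℝ) (p : ℤ × ℤ) : Prop :=
  d ≤ p.1 ∧ p.1 + d ≤ w ∧ d ≤ p.2 ∧ p.2 + d ≤ h

/-- increment of a potential -/
def inc2 (H : ℤ → ℤ → ℂ) (p q : ℤ × ℤ) : ℂ := H p.1 p.2 - H q.1 q.2

/-- **Theorem C** for the environment number `j` (`j = 0` or `j = h`), on `[0, w] × [y0, y1]` -/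
def ThmCj (ν : ℕ → ℝ) (top : Bool) : Prop :=
  ∀ η : ℝ, 0 < η → ∀ ε : ℝ, 0 < ε → ∃ ρ1 : ℝ, 0 < ρ1 ∧ ∀ ρ : ℝ, 0 < ρ → ρ < ρ1 → ∃ R0 : ℕ,
    ∀ R : ℕ, R0 ≤ R → ∀ w h : ℤ, η * R ≤ w → w ≤ R / η → η * R ≤ h → h ≤ R / η →
    ∀ O : Out w h, RootOut O → OFar O ⌊η * R⌋ → ∀ t : ℝ, |t| ≤ 1 → ∀ H H0 H1 H2 : ℤ → ℤ → ℂ,
    Pot (FJ O (wa (rap ⌊ρ * R⌋₊ t)) (wa (rap ⌊ρ * R⌋₊ t + Real.pi / 2)) (if top then h else 0)) H 0 w
      (if top then -1 else 0) (if top then h - 1 else h) →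
    Pot (FJ O 0 1 (if top then h else 0)) H0 0 w (if top then -1 else 0) (if top then h - 1 else h) →
    Pot (FJ O (1 / 2) 1 (if top then h else 0)) H1 0 w (if top then -1 else 0)
      (if top then h - 1 else h) →
    Pot (FJ O 0 (1 / 2) (if top then h else 0)) H2 0 w (if top then -1 else 0)
      (if top then h - 1 else h) →
    ∀ p q : ℤ × ℤ, Inn w h (η * R) p → Inn w h (η * R) q →
    ‖inc2 H p q - inc2 H0 p q - (DD ν (rap ⌊ρ * R⌋₊ t) * (inc2 H1 p q - inc2 H0 p q) +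
      DD ν (rap ⌊ρ * R⌋₊ t + (Real.pi / 2 : ℝ)) * (inc2 H2 p q - inc2 H0 p q))‖ ≤
        ε * ρ * (R : ℝ) ^ (2 / 3 : ℝ)

/-- a natural row or column more -/
def ThmNj (top : Bool) : Prop :=
  ∀ η : ℝ, 0 < η → ∀ ε : ℝ, 0 < ε → ∃ R0 : ℕ,
    ∀ R : ℕ, R0 ≤ R → ∀ w h : ℤ, η * R ≤ w → w ≤ R / η → η * R ≤ h → h ≤ R / η →
    ∀ O : Out w h, RootOut O → OFar O ⌊η * R⌋ → ∀ H0 H1 H2 : ℤ → ℤ → ℂ,
    Pot (FJ O 0 1 (if top then h else 0)) H0 0 w (if top then -1 else 0) (if top then h - 1 else h) →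
    Pot (FJ O (1 / 2) 1 (if top then h else 0)) H1 0 w (if top then -1 else 0)
      (if top then h - 1 else h) →
    Pot (FJ O 0 (1 / 2) (if top then h else 0)) H2 0 w (if top then -1 else 0)
      (if top then h - 1 else h) →
    ∀ p q : ℤ × ℤ, Inn w h (η * R) p → Inn w h (η * R) q →
    ‖inc2 H1 p q - inc2 H0 p q‖ ≤ ε * (R : ℝ) ^ (2 / 3 : ℝ) ∧
    ‖inc2 H2 p q - inc2 H0 p q‖ ≤ ε * (R : ℝ) ^ (2 / 3 : ℝ)

/-- **Theorem C** (45 degree rectangles) -/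
structure ThmC (ν : ℕ → ℝ) (C₀ c₀ Y₀ : ℝ) : Prop where
  meas : CMeas ν C₀ c₀ Y₀
  low : ThmCj ν false
  upp : ThmCj ν true
  nlow : ThmNj false
  nupp : ThmNj true

end Pool.Agent.Q1.M6e
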