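import Mathlib
import Pool.Agent.H59.Q1.Arm1
import Pool.Agent.H60.Q1.RingH

set_option autoImplicit false
open Finset

/-!
# One arm above a wall: annuli and pairs

`Cr` : an open crossing of a half annulus; `Cr_le` : its probability is at most `C (ρ/R)^(1/3)`.
`pair_le` : `P(W1 x D, W1 y D) ≤ C (s D)^(-1/3)` if `x`, `y` are wall vertices at distance `s`.
-/

namespace Pool.Agent.Q1.M6e

open Pool.Agent.H75.Perc Pool.Agent.H75.TwoArm Pool.Agent.H75.Four Pool.Agent.H49.Perc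
open Pool.Agent.H99.NC Pool.Agent.H60.Q1 Pool.Agent.H20.Q1 Pool.Agent.H59.Q1

/-- an open crossing of a half annulus -/
def Cr (κ : ℤ) (z : ℤ × ℤ) (ρ R : ℤ) (ω : Finset (ℤ × ℤ)) : Prop :=
  ∃ u v, Near z ρ u ∧ Far z R v ∧ Co (ω ∩ AL κ z ρ R) u v

variable {κ : ℤ} {x y z : ℤ × ℤ} {n ρ R D s t M : ℤ} {E ω : Finset (ℤ × ℤ)}

lemma Cr_inc : Inc (Cr κ z ρ R) := by
  rintro ω ω' h ⟨u, v, h1, h2, h3⟩
  exact ⟨u, v, h1, h2, h3.mono (inter_subset_inter_right h)⟩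

lemma W1_inc : Inc (W1 κ z R) := by
  rintro ω ω' h ⟨v, h1, h2⟩
  exact ⟨v, h1, h2.mono (inter_subset_inter_right h)⟩

lemma Cr_local : Cr κ z ρ R ω ↔ Cr κ z ρ R (ω ∩ AL κ z ρ R) := by
  unfold Cr
  rw [inter_assoc, inter_self]

lemma AL_eq : ω ∩ AL κ z ρ R = (ω ∩ HL κ z R) \ BR z ρ := by
  ext l
  unfold AL BR
  simp only [mem_inter, mem_sdiff]
  tauto

lemma HL_mono (h : ρ ≤ R) : HL κ z ρ ⊆ HL κ z R := by
  intro l hl
  rw [mem_HL] at hl ⊢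
  omega

lemma near_inR : Near z ρ x ↔ inR z ρ x := by
  unfold Near
  rw [inR_iff, abs_le, abs_le]
  omega

lemma far_not_inR (hρ : ρ < R) (h : Far z R x) : ¬ inR z ρ x := by
  unfold Far at h
  rw [le_abs, le_abs] at h
  rw [inR_iff]
  omega

/-- the outer part of an arm -/
lemma arm_split (h0 : 0 ≤ ρ) (hρ : ρ < R) (h : W1 κ x R ω) :
    ∃ u v, Near x ρ u ∧ Far x R v ∧ Co (ω ∩ AL κ x ρ R) u v ∧ Co (ω ∩ HL κ x R) x u := by
  obtain ⟨v, hv, h1⟩ := h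
  obtain ⟨u, hu, h2⟩ := last_exit (w := x) (c := ρ) h1 (by rw [inR_iff]; omega) (far_not_inR hρ hv)
  refine ⟨u, v, near_inR.2 hu, hv, ?_, ?_⟩
  · rw [AL_eq]; exact h2
  · exact h1.trans (h2.mono sdiff_subset).symm

lemma W1_mono (h0 : 1 ≤ ρ) (hρ : ρ ≤ R) (h : W1 κ x R ω) : W1 κ x ρ ω := by
  obtain ⟨v, hv, h1⟩ := h
  obtain ⟨v', h2, h3⟩ := open_exit (o := x) (M := ρ) h1
    (by rw [sub_self, sub_self, abs_zero]; omega) (by
      unfold Far at hv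
      omega)
  refine ⟨v', h2, h3.mono ?_⟩
  intro l hl
  obtain ⟨g1, g2⟩ := mem_inter.1 hl
  obtain ⟨g3, g4⟩ := mem_inter.1 g1
  refine mem_inter.2 ⟨g3, ?_⟩
  rw [mem_HL] at g4 ⊢
  rw [mem_Bx] at g2
  omega

/-- the inner part of a crossing -/
lemma Cr_cut {u v : ℤ × ℤ} (hρ : ρ < M) (hM : M ≤ R) (hu : Near z ρ u) (hv : Far z R v)
    (h : Co (ω ∩ AL κ z ρ R) u v) : ∃ v', Far z M v' ∧ Co (ω ∩ AL κ z ρ M) u v' := by
  obtain ⟨v', h2, h3⟩ := open_exit (o := z) (M := M) h (by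
    unfold Near at hu; omega) (by unfold Far at hv; omega)
  refine ⟨v', h2, h3.mono ?_⟩
  intro l hl
  obtain ⟨g1, g2⟩ := mem_inter.1 hl
  obtain ⟨g3, g4⟩ := mem_inter.1 g1
  refine mem_inter.2 ⟨g3, ?_⟩
  rw [mem_AL] at g4 ⊢
  rw [mem_Bx] at g2
  omega

/-- a crossing meets every half ring -/
lemma ring_meet (hκ : κ = 0 ∨ κ = 1) (hρ : 1 ≤ ρ) (hρR : ρ < R) {p p' u v : ℤ × ℤ}
    (hp : WS κ z (-1) p) (hp' : WS κ z 1 p') (h1 : Co (ω ∩ AL κ z ρ R) p p')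
    (hu : Near z ρ u) (hv : Far z R v) (h2 : Co (ω ∩ AL κ z ρ R) u v) :
    Co (ω ∩ AL κ z ρ R) u p := by
  have hne : p ≠ p' := by
    rintro rfl
    have := hp.2
    have := hp'.2
    omega
  have hne' : u ≠ v := near_ne_far hρR hu hv
  have r1 := Co.reg hκ inter_subset_right h1 hne
  have r2 := Co.reg hκ inter_subset_right h2 hne'
  obtain ⟨w, h3, h4⟩ := PL hκ hρ (Co.pth h1) (Co.refl _ _) (Co.pth h2) (Co.refl _ _) r1.2 r2.2 hp hp' hu hv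
  exact h4.trans h3.symm

/-- gluing of an arm and a crossing by a half ring -/
lemma W1_glue (hκ : κ = 0 ∨ κ = 1) (hρ : 1 ≤ ρ) (hR : 6 * ρ ≤ R) (h1 : W1 κ x (6 * ρ) ω)
    (h2 : RO κ x ρ (6 * ρ) M ω) (h3 : Cr κ x ρ R ω) : W1 κ x R ω := by
  obtain ⟨u1, v1, hu1, hv1, h4, h5⟩ := arm_split (ρ := ρ) (by omega) (by omega) h1
  obtain ⟨p, p', hp, hp', -, -, h6⟩ := h2
  obtain ⟨u, v, hu, hv, h7⟩ := h3
  obtain ⟨v', hv', h8⟩ := Cr_cut (M := 6 * ρ) (by omega) hR hu hv h7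
  have e1 := ring_meet hκ hρ (by omega) hp hp' h6 hu1 hv1 h4
  have e2 := ring_meet hκ hρ (by omega) hp hp' h6 hu hv' h8
  have s1 : ω ∩ AL κ x ρ (6 * ρ) ⊆ ω ∩ HL κ x R :=
    inter_subset_inter_left (AL_sub_HL.trans (HL_mono hR))
  have s2 : ω ∩ HL κ x (6 * ρ) ⊆ ω ∩ HL κ x R := inter_subset_inter_left (HL_mono hR)
  have s3 : ω ∩ AL κ x ρ R ⊆ ω ∩ HL κ x R := inter_subset_inter_left AL_sub_HL
  exact ⟨v, hv, (((h5.mono s2).trans (e1.mono s1)).trans (e2.mono s1).symm).trans (h7.mono s3)⟩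

/-- **crossings of half annuli** -/
theorem Cr_le : ∃ C : ℝ, 1 ≤ C ∧ ∀ κ : ℤ, (κ = 0 ∨ κ = 1) → ∀ (z : ℤ × ℤ) (ρ R : ℤ), 1 ≤ ρ → 1 ≤ R →
    ∀ E : Finset (ℤ × ℤ), AL κ z ρ R ⊆ E →
    Pr E (Cr κ z ρ R) ≤ C * ((ρ : ℝ) / R) ^ (1 / 3 : ℝ) := by
  obtain ⟨c1, C1, hc1, hc11, hC1, ha⟩ := a1_bd
  obtain ⟨c, hc, hring⟩ := RO_prob
  set C0 : ℝ := max 1 (C1 / (c * c1)) with hC0
  refine ⟨C0 * 6 ^ (1 / 3 : ℝ), ?_, fun κ hκ z ρ R hρ hR E hE => ?_⟩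
  · have h1 : (1 : ℝ) ≤ C0 := le_max_left _ _
    have h2 : (1 : ℝ) ≤ 6 ^ (1 / 3 : ℝ) := Real.one_le_rpow (by norm_num) (by norm_num)
    nlinarith
  have hρ' : (1 : ℝ) ≤ ρ := by exact_mod_cast hρ
  have hR' : (1 : ℝ) ≤ R := by exact_mod_cast hR
  have e0 : C0 * 6 ^ (1 / 3 : ℝ) * ((ρ : ℝ) / R) ^ (1 / 3 : ℝ) = C0 * (6 * ρ / R) ^ (1 / 3 : ℝ) := by
    rw [mul_assoc, ← Real.mul_rpow (by norm_num) (by positivity), mul_div_assoc]
  rw [e0]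
  rcases lt_or_ge R (6 * ρ) with h6 | h6
  · have h7 : (R : ℝ) ≤ 6 * ρ := by exact_mod_cast h6.le
    have h8 : (1 : ℝ) ≤ (6 * ρ / R) ^ (1 / 3 : ℝ) :=
      Real.one_le_rpow (by rw [le_div_iff₀ (by linarith)]; linarith) (by norm_num)
    have h1 : (1 : ℝ) ≤ C0 := le_max_left _ _
    have := Pr_le_one E (Cr κ z ρ R)
    nlinarith
  have hF : AL κ z ρ R ⊆ HL κ z R := AL_sub_HL
  have hloc : ∀ F : Finset (ℤ × ℤ), AL κ z ρ R ⊆ F → Pr F (Cr κ z ρ R) =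
      Pr (AL κ z ρ R) (Cr κ z ρ R) := fun F hF => by
    rw [← Pr_restrict hF (Cr κ z ρ R)]
    exact Pr_congr fun ω _ => Cr_local
  rw [hloc E hE, ← hloc (HL κ z R) hF]
  set F := HL κ z R with hFd
  have h1 : c ≤ Pr F (RO κ z ρ (6 * ρ) (3 * (ρ + 1))) := by
    rw [← hf_Pr]
    refine hring hf hf_Qh κ hκ z ρ (6 * ρ) (ρ + 1) F hρ (by omega) (by omega) ?_
    exact AL_sub_HL.trans (HL_mono h6)
  have h2 : Pr F (W1 κ z (6 * ρ)) = a1 κ (6 * ρ) := Pr_W1 (HL_mono h6)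
  have h3 : Pr F (W1 κ z R) = a1 κ R := Pr_W1 (subset_refl _)
  have h4 := harris3 F (W1_inc (κ := κ) (z := z) (R := 6 * ρ)) (RO_inc (κ := κ) (z := z) (ρ := ρ)
    (R := 6 * ρ) (M := 3 * (ρ + 1))) (Cr_inc (κ := κ) (z := z) (ρ := ρ) (R := R))
  have h5 : Pr F (fun ω => W1 κ z (6 * ρ) ω ∧ RO κ z ρ (6 * ρ) (3 * (ρ + 1)) ω ∧ Cr κ z ρ R ω) ≤
      Pr F (W1 κ z R) := Pr_mono fun ω _ h => W1_glue hκ hρ h6 h.1 h.2.1 h.2.2
  rw [h2] at h4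
  rw [h3] at h5
  have g1 := (ha κ hκ (6 * ρ) (by omega)).1
  have g2 := (ha κ hκ R hR).2
  push_cast at g1
  set X := Pr F (Cr κ z ρ R) with hX
  have hX0 : 0 ≤ X := Pr_nonneg _ _
  have hA : 0 < (6 * (ρ : ℝ)) ^ (-(1 / 3) : ℝ) := by positivity
  have hB : 0 < (R : ℝ) ^ (-(1 / 3) : ℝ) := by positivity
  have ha0 : 0 ≤ a1 κ (6 * ρ) := a1_nonneg
  have g3 : c1 * (6 * (ρ : ℝ)) ^ (-(1 / 3) : ℝ) * c * X ≤ C1 * (R : ℝ) ^ (-(1 / 3) : ℝ) := by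
    calc c1 * (6 * (ρ : ℝ)) ^ (-(1 / 3) : ℝ) * c * X ≤ a1 κ (6 * ρ) *
          Pr F (RO κ z ρ (6 * ρ) (3 * (ρ + 1))) * X := by gcongr
      _ ≤ _ := h4.trans (h5.trans g2)
  have e1 : (6 * (ρ : ℝ) / R) ^ (1 / 3 : ℝ) =
      (R : ℝ) ^ (-(1 / 3) : ℝ) / (6 * (ρ : ℝ)) ^ (-(1 / 3) : ℝ) := by
    rw [Real.rpow_neg (by positivity), Real.rpow_neg (by positivity), Real.div_rpow (by positivity)
      (by positivity)]
    field_simp
  rw [e1]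
  have g4 : X ≤ C1 / (c * c1) * ((R : ℝ) ^ (-(1 / 3) : ℝ) / (6 * (ρ : ℝ)) ^ (-(1 / 3) : ℝ)) := by
    rw [div_mul_div_comm, le_div_iff₀ (by positivity)]
    linarith
  refine g4.trans (mul_le_mul_of_nonneg_right (le_max_right _ _) (by positivity))

lemma HL_disj (hst : 2 * t < s) : Disjoint (HL κ x t) (HL κ (wp κ x s) t) := by
  rw [disjoint_left]
  intro l h1 h2
  have h3 := (mem_HL.1 h1).1
  have h4 := (mem_HL.1 h2).1
  unfold wp at h4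
  simp only at h4
  omega

lemma HL_AL_disj (hκ : κ = 0 ∨ κ = 1) (hts : t ≤ s) (h0 : 0 ≤ t) :
    Disjoint (HL κ x t ∪ HL κ (wp κ x s) t) (AL κ x (2 * s) D) := by
  rw [disjoint_left]
  intro l h1 h2
  have h5 := (mem_AL.1 h2).2
  apply h5
  rcases mem_union.1 h1 with h3 | h3
  · have h4 := (mem_HL.1 h3).1
    omega
  · have h4 := (mem_HL.1 h3).1
    unfold wp at h4
    rcases hκ with rfl | rfl <;> simp only [zero_mul, one_mul] at h4 <;> omega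

/-- **two arms from two wall vertices** -/
theorem pair_le : ∃ C : ℝ, 1 ≤ C ∧ ∀ κ : ℤ, (κ = 0 ∨ κ = 1) → ∀ (x : ℤ × ℤ) (s D : ℤ), 1 ≤ s →
    s ≤ D → ∀ E : Finset (ℤ × ℤ), HL κ x D ⊆ E → HL κ (wp κ x s) D ⊆ E →
    Pr E (fun ω => W1 κ x D ω ∧ W1 κ (wp κ x s) D ω) ≤
      C * ((s : ℝ) ^ (-(1 / 3) : ℝ) * (D : ℝ) ^ (-(1 / 3) : ℝ)) := by
  obtain ⟨c1, C1, hc1, hc11, hC1, ha⟩ := a1_bd
  obtain ⟨C2, hC2, hcr⟩ := Cr_le
  refine ⟨8 * C1 ^ 2 * C2, by nlinarith [sq_nonneg (C1 - 1)], fun κ hκ x s D hs hsD E hx hy => ?_⟩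
  have hs' : (1 : ℝ) ≤ s := by exact_mod_cast hs
  have hD' : (s : ℝ) ≤ D := by exact_mod_cast hsD
  have hsp : 0 < (s : ℝ) ^ (-(1 / 3) : ℝ) := by positivity
  have hDp : 0 < (D : ℝ) ^ (-(1 / 3) : ℝ) := Real.rpow_pos_of_pos (by linarith) _
  have hC1' : C1 ≤ C1 ^ 2 * C2 := by nlinarith
  rcases le_or_gt s 2 with h2 | h2
  · have h3 : Pr E (fun ω => W1 κ x D ω ∧ W1 κ (wp κ x s) D ω) ≤ a1 κ D := by
      rw [← Pr_W1 (κ := κ) (z := x) (R := D) hx]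
      exact Pr_mono fun ω _ h => h.1
    have h4 := (ha κ hκ D (by omega)).2
    have h5 : (1 / 2 : ℝ) ≤ (s : ℝ) ^ (-(1 / 3) : ℝ) := by
      have h6 : (s : ℝ) ≤ 2 := by exact_mod_cast h2
      have h7 : (2 : ℝ) ^ (-(1 / 3) : ℝ) ≤ (s : ℝ) ^ (-(1 / 3) : ℝ) :=
        Real.rpow_le_rpow_of_nonpos (by linarith) h6 (by norm_num)
      have h8 : (2 : ℝ) ^ (-1 : ℝ) ≤ (2 : ℝ) ^ (-(1 / 3) : ℝ) :=
        Real.rpow_le_rpow_of_exponent_le (by norm_num) (by norm_num)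
      rw [Real.rpow_neg_one] at h8
      linarith
    calc Pr E (fun ω => W1 κ x D ω ∧ W1 κ (wp κ x s) D ω) ≤ C1 * (D : ℝ) ^ (-(1 / 3) : ℝ) :=
          h3.trans h4
      _ ≤ (C1 ^ 2 * C2) * (D : ℝ) ^ (-(1 / 3) : ℝ) := by gcongr
      _ ≤ (C1 ^ 2 * C2) * (8 * (s : ℝ) ^ (-(1 / 3) : ℝ) * (D : ℝ) ^ (-(1 / 3) : ℝ)) := by
          refine mul_le_mul_of_nonneg_left ?_ (by positivity)
          nlinarith
      _ = _ := by ring
  set t : ℤ := (s - 1) / 2 with ht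
  have ht1 : 1 ≤ t := by omega
  have ht2 : 2 * t < s := by omega
  have ht4 : s ≤ 4 * t := by omega
  have ht1' : (1 : ℝ) ≤ t := by exact_mod_cast ht1
  set y := wp κ x s with hyd
  have hcomb : Pr E (fun ω => W1 κ x D ω ∧ W1 κ y D ω) ≤
      a1 κ t * a1 κ t * (C2 * ((2 * s : ℝ) / D) ^ (1 / 3 : ℝ)) := by
    have hsx : HL κ x t ⊆ E := (HL_mono (by omega)).trans hx
    have hsy : HL κ y t ⊆ E := (HL_mono (by omega)).trans hy
    have hd1 : Disjoint (HL κ x t) (HL κ y t) := HL_disj ht2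
    have hu : HL κ x t ∪ HL κ y t ⊆ E := union_subset hsx hsy
    have e1 : Pr (HL κ x t ∪ HL κ y t) (fun ω => W1 κ x t ω ∧ W1 κ y t ω) = a1 κ t * a1 κ t := by
      have h := Pr_indep (E := HL κ x t ∪ HL κ y t) subset_union_left subset_union_right hd1
        (W1 κ x t) (W1 κ y t)
      rw [Pr_W1 (subset_refl _), Pr_W1 (subset_refl _)] at h
      rw [← h]
      exact Pr_congr fun ω _ => and_congr W1_local W1_local
    have ha0 : 0 ≤ a1 κ t * a1 κ t := mul_nonneg a1_nonneg a1_nonneg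
    rcases lt_or_ge (2 * s) D with h6 | h6
    · have hA : AL κ x (2 * s) D ⊆ E := AL_sub_HL.trans hx
      have hd2 : Disjoint (HL κ x t ∪ HL κ y t) (AL κ x (2 * s) D) :=
        HL_AL_disj hκ (by omega) (by omega)
      have h := Pr_indep hu hA hd2 (fun ω => W1 κ x t ω ∧ W1 κ y t ω) (Cr κ x (2 * s) D)
      rw [e1] at h
      have h7 := hcr κ hκ x (2 * s) D (by omega) (by omega) _ (subset_refl (AL κ x (2 * s) D))
      push_cast at h7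
      calc Pr E (fun ω => W1 κ x D ω ∧ W1 κ y D ω) ≤ Pr E (fun ω =>
            (W1 κ x t (ω ∩ (HL κ x t ∪ HL κ y t)) ∧ W1 κ y t (ω ∩ (HL κ x t ∪ HL κ y t))) ∧
            Cr κ x (2 * s) D (ω ∩ AL κ x (2 * s) D)) := by
            refine Pr_mono fun ω _ h8 => ?_
            obtain ⟨u, v, g1, g2, g3, -⟩ := arm_split (ρ := 2 * s) (by omega) h6 h8.1
            refine ⟨⟨?_, ?_⟩, Cr_local.1 ⟨u, v, g1, g2, g3⟩⟩
            · rw [W1_local, inter_assoc, inter_eq_right.2 (subset_union_left (s₂ := HL κ y t)),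
                ← W1_local]
              exact W1_mono ht1 (by omega) h8.1
            · rw [W1_local, inter_assoc, inter_eq_right.2 (subset_union_right (s₁ := HL κ x t)),
                ← W1_local]
              exact W1_mono ht1 (by omega) h8.2
        _ = a1 κ t * a1 κ t * Pr (AL κ x (2 * s) D) (Cr κ x (2 * s) D) := h
        _ ≤ _ := mul_le_mul_of_nonneg_left h7 ha0
    · have h7 : (1 : ℝ) ≤ ((2 * s : ℝ) / D) ^ (1 / 3 : ℝ) := by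
        refine Real.one_le_rpow ?_ (by norm_num)
        rw [le_div_iff₀ (by linarith)]
        have : (D : ℝ) ≤ 2 * s := by exact_mod_cast h6
        linarith
      calc Pr E (fun ω => W1 κ x D ω ∧ W1 κ y D ω) ≤ Pr E (fun ω =>
            W1 κ x t (ω ∩ (HL κ x t ∪ HL κ y t)) ∧ W1 κ y t (ω ∩ (HL κ x t ∪ HL κ y t))) := by
            refine Pr_mono fun ω _ h8 => ⟨?_, ?_⟩
            · rw [W1_local, inter_assoc, inter_eq_right.2 (subset_union_left (s₂ := HL κ y t)),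
                ← W1_local]
              exact W1_mono ht1 (by omega) h8.1
            · rw [W1_local, inter_assoc, inter_eq_right.2 (subset_union_right (s₁ := HL κ x t)),
                ← W1_local]
              exact W1_mono ht1 (by omega) h8.2
        _ = a1 κ t * a1 κ t * 1 := by
            rw [mul_one, ← e1]
            exact Pr_restrict hu (fun ω => W1 κ x t ω ∧ W1 κ y t ω)
        _ ≤ _ := mul_le_mul_of_nonneg_left (by nlinarith) ha0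
  refine hcomb.trans ?_
  have h8 : a1 κ t ≤ C1 * (2 * (s : ℝ) ^ (-(1 / 3) : ℝ)) := by
    refine (ha κ hκ t ht1).2.trans (mul_le_mul_of_nonneg_left ?_ (by linarith))
    have h9 : (s : ℝ) / 8 ≤ t := by
      have : (s : ℝ) ≤ 4 * t := by exact_mod_cast ht4
      linarith
    refine (Real.rpow_le_rpow_of_nonpos (by positivity) h9 (by norm_num)).trans (le_of_eq ?_)
    rw [Real.div_rpow (by positivity) (by norm_num), div_eq_mul_inv, ← Real.rpow_neg (by norm_num),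
      neg_neg, show (8 : ℝ) = 2 ^ (3 : ℝ) by norm_num, ← Real.rpow_mul (by norm_num)]
    norm_num
    ring
  have h10 : ((2 * s : ℝ) / D) ^ (1 / 3 : ℝ) ≤ 2 * ((s : ℝ) ^ (1 / 3 : ℝ) * (D : ℝ) ^ (-(1 / 3) : ℝ)) := by
    rw [Real.div_rpow (by positivity) (by linarith), Real.mul_rpow (by norm_num) (by positivity),
      div_eq_mul_inv, ← Real.rpow_neg (by linarith), mul_assoc]
    refine mul_le_mul_of_nonneg_right ?_ (by positivity)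
    calc (2 : ℝ) ^ (1 / 3 : ℝ) ≤ 2 ^ (1 : ℝ) :=
          Real.rpow_le_rpow_of_exponent_le (by norm_num) (by norm_num)
      _ = 2 := Real.rpow_one 2
  have h11 : (s : ℝ) ^ (-(1 / 3) : ℝ) * (s : ℝ) ^ (1 / 3 : ℝ) = 1 := by
    rw [← Real.rpow_add (by linarith)]; norm_num
  have ha0 : 0 ≤ a1 κ t := a1_nonneg
  have hC20 : 0 ≤ C2 := by linarith
  have hE0 : 0 ≤ C2 * ((2 * s : ℝ) / D) ^ (1 / 3 : ℝ) :=
    mul_nonneg hC20 (Real.rpow_nonneg (div_nonneg (by linarith) (by linarith)) _)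
  calc a1 κ t * a1 κ t * (C2 * ((2 * s : ℝ) / D) ^ (1 / 3 : ℝ))
      ≤ (C1 * (2 * (s : ℝ) ^ (-(1 / 3) : ℝ))) * (C1 * (2 * (s : ℝ) ^ (-(1 / 3) : ℝ))) *
        (C2 * (2 * ((s : ℝ) ^ (1 / 3 : ℝ) * (D : ℝ) ^ (-(1 / 3) : ℝ)))) := by gcongr
    _ = 8 * C1 ^ 2 * C2 * ((s : ℝ) ^ (-(1 / 3) : ℝ) * (D : ℝ) ^ (-(1 / 3) : ℝ)) *
        ((s : ℝ) ^ (-(1 / 3) : ℝ) * (s : ℝ) ^ (1 / 3 : ℝ)) := by ring
    _ = _ := by rw [h11, mul_one]

end Pool.Agent.Q1.M6e
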