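import Mathlib
import Pool.Agent.Q1.M6e.OneArm

set_option autoImplicit false
open Finset

/-!
# A window of a wall with ties

`tl x` : the label below `x`. `win_ge` : in a window of `m` vertices of the lowest natural row, where the
labels below the row have density `q0` with `q0 m^(2/3) ≥ K`, there is with probability at least `c` a
vertex with an open tie and an arm to distance `D` (`m ≤ D ≤ 64 m`).
-/

namespace Pool.Agent.Q1.M6e

open Pool.Agent.H75.Perc Pool.Agent.H75.TwoArm Pool.Agent.H75.Four Pool.Agent.H49.Perc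
open Pool.Agent.H99.NC Pool.Agent.H60.Q1 Pool.Agent.H20.Q1 Pool.Agent.H59.Q1

/-! ### real numbers -/

lemma rpow_step (s : ℕ) : ((s : ℝ) + 1) ^ (-(1 / 3) : ℝ) ≤
    3 / 2 * (((s : ℝ) + 1) ^ (2 / 3 : ℝ) - (s : ℝ) ^ (2 / 3 : ℝ)) := by
  have hs : (0 : ℝ) < (s : ℝ) + 1 := by positivity
  have h1 : (1 + -(1 / ((s : ℝ) + 1))) ^ (2 / 3 : ℝ) ≤ 1 + 2 / 3 * -(1 / ((s : ℝ) + 1)) := by
    refine rpow_one_add_le_one_add_mul_self ?_ (by norm_num) (by norm_num)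
    rw [neg_le_neg_iff, div_le_one hs]; linarith [(Nat.cast_nonneg s : (0 : ℝ) ≤ s)]
  have e1 : (s : ℝ) = ((s : ℝ) + 1) * (1 + -(1 / ((s : ℝ) + 1))) := by field_simp; ring
  have e2 : (s : ℝ) ^ (2 / 3 : ℝ) =
      ((s : ℝ) + 1) ^ (2 / 3 : ℝ) * (1 + -(1 / ((s : ℝ) + 1))) ^ (2 / 3 : ℝ) := by
    rw [← Real.mul_rpow hs.le ?_, ← e1]
    have : 1 / ((s : ℝ) + 1) ≤ 1 := by
      rw [div_le_one hs]; linarith [(Nat.cast_nonneg s : (0 : ℝ) ≤ s)]
    linarith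
  have h2 : (s : ℝ) ^ (2 / 3 : ℝ) ≤
      ((s : ℝ) + 1) ^ (2 / 3 : ℝ) * (1 + 2 / 3 * -(1 / ((s : ℝ) + 1))) := by
    rw [e2]
    exact mul_le_mul_of_nonneg_left h1 (by positivity)
  have e3 : ((s : ℝ) + 1) ^ (2 / 3 : ℝ) * (1 / ((s : ℝ) + 1)) = ((s : ℝ) + 1) ^ (-(1 / 3) : ℝ) := by
    rw [one_div, ← Real.rpow_neg_one, ← Real.rpow_add hs]
    norm_num
  nlinarith

lemma sum_rpow (m : ℕ) : ∑ s ∈ range m, ((s : ℝ) + 1) ^ (-(1 / 3) : ℝ) ≤
    3 / 2 * (m : ℝ) ^ (2 / 3 : ℝ) := by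
  induction m with
  | zero => simp
  | succ m ih =>
    rw [sum_range_succ]
    have := rpow_step m
    push_cast
    linarith

lemma dbl (f : ℕ → ℕ → ℝ) (hf : ∀ i j, f i j = f j i) (m : ℕ) :
    ∑ i ∈ range m, ∑ j ∈ range m, f i j =
      ∑ i ∈ range m, f i i + 2 * ∑ j ∈ range m, ∑ i ∈ range j, f i j := by
  induction m with
  | zero => simp
  | succ m ih =>
    rw [sum_range_succ, sum_range_succ (fun i => f i i), sum_range_succ (fun j => ∑ i ∈ range j, f i j)]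
    have h1 : ∑ i ∈ range m, ∑ j ∈ range (m + 1), f i j =
        ∑ i ∈ range m, ∑ j ∈ range m, f i j + ∑ i ∈ range m, f i m := by
      rw [← sum_add_distrib]
      exact sum_congr rfl fun i _ => sum_range_succ _ _
    rw [h1, ih, sum_range_succ]
    have h2 : ∑ j ∈ range m, f m j = ∑ i ∈ range m, f i m := sum_congr rfl fun i _ => hf _ _
    rw [h2]
    ring

/-! ### second moment -/

lemma ex_cs {α : Type*} [DecidableEq α] {q : α → ℝ} (hq : Pb q) (E : Finset α)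
    (f : Finset α → ℝ) (A : Finset α → Prop) (hf : ∀ ω, ω ⊆ E → ¬ A ω → f ω = 0) :
    (Ex q E f) ^ 2 ≤ PrP q E A * Ex q E (fun ω => f ω ^ 2) := by
  have h : ∀ x : ℝ, 0 ≤ PrP q E A * (x * x) + (-2 * Ex q E f) * x + Ex q E (fun ω => f ω ^ 2) := by
    intro x
    have h1 : 0 ≤ Ex q E (fun ω => (f ω - x * ind (A ω)) ^ 2) :=
      Ex_nonneg hq fun ω _ => sq_nonneg _
    have h2 : Ex q E (fun ω => (f ω - x * ind (A ω)) ^ 2) =
        Ex q E (fun ω => (f ω ^ 2 + (-2 * x) * f ω) + (x * x) * ind (A ω)) := by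
      refine Ex_congr fun ω hω => ?_
      by_cases hA : A ω
      · rw [ind_true hA]; ring
      · rw [ind_false hA, hf ω hω hA]; ring
    rw [h2, Ex_add, Ex_add, Ex_smul, Ex_smul] at h1
    unfold PrP
    linarith
  have h3 := discrim_le_zero h
  unfold discrim at h3
  nlinarith

/-- number of events, second moment method -/
theorem second_moment {α : Type*} [DecidableEq α] {q : α → ℝ} (hq : Pb q) (E : Finset α) (m : ℕ)
    (A : ℕ → Finset α → Prop) {μ v : ℝ} (hμ : 0 < μ) (hv : 0 < v)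
    (h1 : μ ≤ ∑ i ∈ range m, PrP q E (A i))
    (h2 : ∑ i ∈ range m, PrP q E (A i) +
      2 * ∑ j ∈ range m, ∑ i ∈ range j, PrP q E (fun ω => A i ω ∧ A j ω) ≤ v) :
    μ ^ 2 / v ≤ PrP q E (fun ω => ∃ i, i < m ∧ A i ω) := by
  set f : Finset α → ℝ := fun ω => ∑ i ∈ range m, ind (A i ω) with hf
  have e1 : Ex q E f = ∑ i ∈ range m, PrP q E (A i) := by
    rw [hf, Ex_sum]; rfl
  have e2 : Ex q E (fun ω => f ω ^ 2) = ∑ i ∈ range m, PrP q E (A i) +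
      2 * ∑ j ∈ range m, ∑ i ∈ range j, PrP q E (fun ω => A i ω ∧ A j ω) := by
    have e3 : Ex q E (fun ω => f ω ^ 2) = Ex q E (fun ω => ∑ i ∈ range m, ∑ j ∈ range m,
        ind (A i ω ∧ A j ω)) := by
      refine Ex_congr fun ω _ => ?_
      simp only [hf]
      rw [sq, sum_mul_sum]
      exact sum_congr rfl fun i _ => sum_congr rfl fun j _ => (ind_and _ _).symm
    rw [e3, Ex_sum]
    have e4 : ∀ i ∈ range m, Ex q E (fun ω => ∑ j ∈ range m, ind (A i ω ∧ A j ω)) =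
        ∑ j ∈ range m, PrP q E (fun ω => A i ω ∧ A j ω) := fun i _ => by
      rw [Ex_sum]; rfl
    rw [sum_congr rfl e4, dbl _ (fun i j => PrP_congr fun ω _ => and_comm)]
    congr 1
    exact sum_congr rfl fun i _ => PrP_congr fun ω _ => and_self_iff
  have h3 := ex_cs hq E f (fun ω => ∃ i, i < m ∧ A i ω) (fun ω _ h => by
    simp only [hf]
    refine sum_eq_zero fun i hi => ind_false fun h4 => h ⟨i, mem_range.1 hi, h4⟩)
  rw [e1, e2] at h3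
  set P := PrP q E (fun ω => ∃ i, i < m ∧ A i ω) with hP
  have hP0 : 0 ≤ P := PrP_nonneg hq _ _
  rw [div_le_iff₀ hv]
  calc μ ^ 2 ≤ (∑ i ∈ range m, PrP q E (A i)) ^ 2 := by gcongr
    _ ≤ _ := h3
    _ ≤ P * v := mul_le_mul_of_nonneg_left h2 hP0

/-! ### the window -/

/-- the label below `x` -/
def tl (x : ℤ × ℤ) : ℤ × ℤ := (2 * x.1, 2 * x.2 - 1)

/-- open tie and arm -/
def WN (κ : ℤ) (x : ℤ × ℤ) (D : ℤ) (ω : Finset (ℤ × ℤ)) : Prop := tl x ∈ ω ∧ W1 κ x D ω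

variable {κ : ℤ} {x y z : ℤ × ℤ} {D s h : ℤ} {E ω : Finset (ℤ × ℤ)} {q : ℤ × ℤ → ℝ}

lemma tl_nHL (hx : ht κ x = ht κ y) : tl x ∉ HL κ y D := by
  intro h1
  have h2 := (mem_HL.1 h1).2
  unfold tl at h2
  simp only at h2
  unfold ht at hx
  have h3 : κ * (2 * x.1) = 2 * (κ * x.1) := by ring
  rw [h3] at h2
  omega

lemma tl_ne (hxy : x.1 ≠ y.1) : tl x ≠ tl y := by
  intro h1
  unfold tl at h1
  rw [Prod.ext_iff] at h1
  simp only at h1
  omega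

lemma PrP_WN (hx : tl x ∈ E) (hH : HL κ x D ⊆ E) (hq : ∀ l ∈ HL κ x D, q l = 1 / 2) :
    PrP q E (WN κ x D) = q (tl x) * a1 κ D := by
  have hd : Disjoint ({tl x} : Finset (ℤ × ℤ)) (HL κ x D) := by
    rw [disjoint_singleton_left]; exact tl_nHL rfl
  have h1 := PrP_indep q (singleton_subset_iff.2 hx) hH hd (fun ω => tl x ∈ ω) (W1 κ x D)
  have h2 : PrP q {tl x} (fun ω => tl x ∈ ω) = q (tl x) := PrP_mem q (mem_singleton_self _)
  have h3 : PrP q (HL κ x D) (W1 κ x D) = a1 κ D := by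
    rw [← Pr_W1 (κ := κ) (z := x) (R := D) (subset_refl _), ← hf_Pr]
    unfold PrP
    exact Ex_congr_q hq _
  rw [h2, h3] at h1
  rw [← h1]
  refine PrP_congr fun ω _ => ?_
  unfold WN
  rw [mem_inter, mem_singleton, W1_local]
  tauto

lemma PrP_WN2 (hx : tl x ∈ E) (hy : tl y ∈ E) (hxy : x.1 ≠ y.1) (hht : ht κ x = ht κ y)
    (hH : HL κ x D ⊆ E) (hH' : HL κ y D ⊆ E)
    (hq : ∀ l ∈ HL κ x D, q l = 1 / 2) (hq' : ∀ l ∈ HL κ y D, q l = 1 / 2) :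
    PrP q E (fun ω => WN κ x D ω ∧ WN κ y D ω) =
      q (tl x) * q (tl y) * Pr E (fun ω => W1 κ x D ω ∧ W1 κ y D ω) := by
  set F := HL κ x D ∪ HL κ y D with hF
  have hFE : F ⊆ E := union_subset hH hH'
  have hne := tl_ne hxy
  have hT : ({tl x, tl y} : Finset (ℤ × ℤ)) ⊆ E := by
    intro l hl
    rw [mem_insert, mem_singleton] at hl
    rcases hl with rfl | rfl <;> assumption
  have hd : Disjoint ({tl x, tl y} : Finset (ℤ × ℤ)) F := by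
    rw [disjoint_left]
    intro l hl hl'
    rw [mem_insert, mem_singleton] at hl
    rcases hl with rfl | rfl
    · rcases mem_union.1 hl' with h1 | h1
      · exact tl_nHL rfl h1
      · exact tl_nHL hht h1
    · rcases mem_union.1 hl' with h1 | h1
      · exact tl_nHL hht.symm h1
      · exact tl_nHL rfl h1
  have h1 := PrP_indep q hT hFE hd (fun ω => tl x ∈ ω ∧ tl y ∈ ω)
    (fun ω => W1 κ x D ω ∧ W1 κ y D ω)
  have h2 : PrP q {tl x, tl y} (fun ω => tl x ∈ ω ∧ tl y ∈ ω) = q (tl x) * q (tl y) := by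
    have h3 := PrP_indep q (E := {tl x, tl y}) (E1 := {tl x}) (E2 := {tl y})
      (by intro l hl; rw [mem_insert]; exact Or.inl (mem_singleton.1 hl))
      (by intro l hl; rw [mem_insert]; exact Or.inr hl)
      (by rw [disjoint_singleton]; exact hne) (fun ω => tl x ∈ ω) (fun ω => tl y ∈ ω)
    rw [PrP_mem q (mem_singleton_self _), PrP_mem q (mem_singleton_self _)] at h3
    rw [← h3]
    exact PrP_congr fun ω _ => by simp
  have h4 : PrP q F (fun ω => W1 κ x D ω ∧ W1 κ y D ω) =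
      Pr E (fun ω => W1 κ x D ω ∧ W1 κ y D ω) := by
    have h5 : PrP q F (fun ω => W1 κ x D ω ∧ W1 κ y D ω) =
        Pr F (fun ω => W1 κ x D ω ∧ W1 κ y D ω) := by
      rw [← hf_Pr]
      unfold PrP
      refine Ex_congr_q (fun l hl => ?_) _
      rcases mem_union.1 hl with h6 | h6
      · exact hq l h6
      · exact hq' l h6
    rw [h5, ← Pr_restrict hFE]
    refine Pr_congr fun ω _ => and_congr ?_ ?_
    · rw [W1_local, inter_assoc, inter_eq_right.2 (subset_union_left (s₂ := HL κ y D)), ← W1_local]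
    · rw [W1_local, inter_assoc, inter_eq_right.2 (subset_union_right (s₁ := HL κ x D)), ← W1_local]
  rw [h2, h4] at h1
  rw [← h1]
  refine PrP_congr fun ω _ => ?_
  unfold WN
  have h6 : tl x ∈ ω ∩ {tl x, tl y} ↔ tl x ∈ ω := by simp
  have h7 : tl y ∈ ω ∩ {tl x, tl y} ↔ tl y ∈ ω := by simp
  have h8 : W1 κ x D (ω ∩ F) ↔ W1 κ x D ω := by
    rw [W1_local, inter_assoc, inter_eq_right.2 (subset_union_left (s₂ := HL κ y D)), ← W1_local]
  have h9 : W1 κ y D (ω ∩ F) ↔ W1 κ y D ω := by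
    rw [W1_local, inter_assoc, inter_eq_right.2 (subset_union_right (s₁ := HL κ x D)), ← W1_local]
  rw [h6, h7, h8, h9]
  tauto

lemma wp_wp (i j : ℤ) : wp κ (wp κ x i) j = wp κ x (i + j) := by
  unfold wp
  simp only [Prod.mk.injEq]
  constructor <;> ring

/-- **the window** -/
theorem win_ge : ∃ c K : ℝ, 0 < c ∧ 0 < K ∧ ∀ κ : ℤ, (κ = 0 ∨ κ = 1) → ∀ q : ℤ × ℤ → ℝ, Pb q →
    ∀ (z : ℤ × ℤ) (m : ℕ) (D : ℤ) (q0 : ℝ) (E : Finset (ℤ × ℤ)), 1 ≤ m → (m : ℤ) ≤ D →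
    D ≤ 64 * m → K ≤ q0 * (m : ℝ) ^ (2 / 3 : ℝ) →
    (∀ i : ℕ, i < m → q (tl (wp κ z i)) = q0 ∧ tl (wp κ z i) ∈ E ∧ HL κ (wp κ z i) D ⊆ E ∧
      ∀ l ∈ HL κ (wp κ z i) D, q l = 1 / 2) →
    c ≤ PrP q E (fun ω => ∃ i : ℕ, i < m ∧ WN κ (wp κ z i) D ω) := by
  obtain ⟨c1, C1, hc1, hc11, hC1, ha⟩ := a1_bd
  obtain ⟨C2, hC2, hpair⟩ := pair_le
  refine ⟨(c1 / 4) ^ 2 / (C1 + 3 * C2), 1, by positivity, one_pos, ?_⟩
  intro κ hκ q hq z m D q0 E hm hmD hD hK hall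
  have hm' : (1 : ℝ) ≤ m := by exact_mod_cast hm
  have hD1 : 1 ≤ D := by omega
  have hDm : (m : ℝ) ≤ D := by exact_mod_cast hmD
  have hD64 : (D : ℝ) ≤ 64 * m := by exact_mod_cast hD
  have hq0 : 0 ≤ q0 := by
    have := (hall 0 (by omega)).1
    rw [← this]; exact (hq _).1
  set μ0 : ℝ := q0 * (m : ℝ) ^ (2 / 3 : ℝ) with hμ0
  have hμ1 : 1 ≤ μ0 := hK
  -- one point
  have h1 : ∀ i ∈ range m, PrP q E (WN κ (wp κ z i) D) = q0 * a1 κ D := by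
    intro i hi
    obtain ⟨g1, g2, g3, g4⟩ := hall i (mem_range.1 hi)
    rw [PrP_WN g2 g3 g4, g1]
  have hDlow : (1 / 4 : ℝ) * (m : ℝ) ^ (-(1 / 3) : ℝ) ≤ (D : ℝ) ^ (-(1 / 3) : ℝ) := by
    have h2 : (64 * (m : ℝ)) ^ (-(1 / 3) : ℝ) ≤ (D : ℝ) ^ (-(1 / 3) : ℝ) :=
      Real.rpow_le_rpow_of_nonpos (by linarith) hD64 (by norm_num)
    refine le_trans (le_of_eq ?_) h2
    rw [Real.mul_rpow (by norm_num) (by positivity), show (64 : ℝ) = 4 ^ (3 : ℝ) by norm_num,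
      ← Real.rpow_mul (by norm_num)]
    norm_num
  have hDup : (D : ℝ) ^ (-(1 / 3) : ℝ) ≤ (m : ℝ) ^ (-(1 / 3) : ℝ) :=
    Real.rpow_le_rpow_of_nonpos (by linarith) hDm (by norm_num)
  have em : (m : ℝ) * (m : ℝ) ^ (-(1 / 3) : ℝ) = (m : ℝ) ^ (2 / 3 : ℝ) := by
    nth_rewrite 1 [← Real.rpow_one (m : ℝ)]
    rw [← Real.rpow_add (by linarith)]
    norm_num
  have hsum : ∑ i ∈ range m, PrP q E (WN κ (wp κ z i) D) = m * (q0 * a1 κ D) := by
    rw [sum_congr rfl h1, sum_const, card_range, nsmul_eq_mul]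
  have hlow : c1 / 4 * μ0 ≤ ∑ i ∈ range m, PrP q E (WN κ (wp κ z i) D) := by
    rw [hsum, hμ0, ← em]
    have h3 := (ha κ hκ D hD1).1
    have h4 : c1 * ((1 / 4 : ℝ) * (m : ℝ) ^ (-(1 / 3) : ℝ)) ≤ a1 κ D :=
      (mul_le_mul_of_nonneg_left hDlow hc1.le).trans h3
    calc c1 / 4 * (q0 * (m * (m : ℝ) ^ (-(1 / 3) : ℝ))) =
          m * (q0 * (c1 * ((1 / 4 : ℝ) * (m : ℝ) ^ (-(1 / 3) : ℝ)))) := by ring
      _ ≤ m * (q0 * a1 κ D) := by gcongr
  have hup : ∑ i ∈ range m, PrP q E (WN κ (wp κ z i) D) ≤ C1 * μ0 := by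
    rw [hsum, hμ0, ← em]
    have h3 := (ha κ hκ D hD1).2
    have h4 : a1 κ D ≤ C1 * (m : ℝ) ^ (-(1 / 3) : ℝ) :=
      h3.trans (mul_le_mul_of_nonneg_left hDup (by linarith))
    calc (m : ℝ) * (q0 * a1 κ D) ≤ m * (q0 * (C1 * (m : ℝ) ^ (-(1 / 3) : ℝ))) := by gcongr
      _ = C1 * (q0 * (m * (m : ℝ) ^ (-(1 / 3) : ℝ))) := by ring
  -- two points
  have h2 : ∀ j ∈ range m, ∀ i ∈ range j, PrP q E (fun ω => WN κ (wp κ z i) D ω ∧
      WN κ (wp κ z j) D ω) ≤ q0 * q0 * (C2 * (m : ℝ) ^ (-(1 / 3) : ℝ)) *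
        (((j - 1 - i : ℕ) : ℝ) + 1) ^ (-(1 / 3) : ℝ) := by
    intro j hj i hi
    rw [mem_range] at hj hi
    obtain ⟨g1, g2, g3, g4⟩ := hall i (by omega)
    obtain ⟨k1, k2, k3, k4⟩ := hall j hj
    have e1 : wp κ z (j : ℤ) = wp κ (wp κ z i) ((j : ℤ) - i) := by
      rw [wp_wp]; congr 1; ring
    have hne : (wp κ z (i : ℤ)).1 ≠ (wp κ z (j : ℤ)).1 := by
      unfold wp; simp only; omega
    rw [PrP_WN2 g2 k2 hne (by rw [ht_wp, ht_wp]) g3 k3 g4 k4, g1, k1]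
    have h5 := hpair κ hκ (wp κ z i) ((j : ℤ) - i) D (by omega) (by omega) E g3
      (by rw [← e1]; exact k3)
    rw [← e1] at h5
    have e2 : ((((j : ℤ) - i : ℤ)) : ℝ) = ((j - 1 - i : ℕ) : ℝ) + 1 := by
      have : ((j : ℤ) - i : ℤ) = ((j - 1 - i : ℕ) : ℤ) + 1 := by omega
      rw [this]; push_cast; ring
    rw [e2] at h5
    have h6 : 0 ≤ (((j - 1 - i : ℕ) : ℝ) + 1) ^ (-(1 / 3) : ℝ) := by positivity
    calc q0 * q0 * Pr E (fun ω => W1 κ (wp κ z i) D ω ∧ W1 κ (wp κ z j) D ω)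
        ≤ q0 * q0 * (C2 * ((((j - 1 - i : ℕ) : ℝ) + 1) ^ (-(1 / 3) : ℝ) *
          (D : ℝ) ^ (-(1 / 3) : ℝ))) := by gcongr
      _ ≤ q0 * q0 * (C2 * ((((j - 1 - i : ℕ) : ℝ) + 1) ^ (-(1 / 3) : ℝ) *
          (m : ℝ) ^ (-(1 / 3) : ℝ))) := by gcongr
      _ = _ := by ring
  have h3 : ∑ j ∈ range m, ∑ i ∈ range j, PrP q E (fun ω => WN κ (wp κ z i) D ω ∧
      WN κ (wp κ z j) D ω) ≤ 3 / 2 * C2 * μ0 ^ 2 := by
    have g1 : ∀ j ∈ range m, ∑ i ∈ range j, PrP q E (fun ω => WN κ (wp κ z i) D ω ∧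
        WN κ (wp κ z j) D ω) ≤
        q0 * q0 * (C2 * (m : ℝ) ^ (-(1 / 3) : ℝ)) * (3 / 2 * (m : ℝ) ^ (2 / 3 : ℝ)) := by
      intro j hj
      refine (sum_le_sum fun i hi => h2 j hj i hi).trans ?_
      rw [← mul_sum]
      refine mul_le_mul_of_nonneg_left ?_ (by positivity)
      have g2 : ∑ i ∈ range j, (((j - 1 - i : ℕ) : ℝ) + 1) ^ (-(1 / 3) : ℝ) =
          ∑ i ∈ range j, ((i : ℝ) + 1) ^ (-(1 / 3) : ℝ) :=
        sum_range_reflect (fun i => ((i : ℝ) + 1) ^ (-(1 / 3) : ℝ)) j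
      rw [g2]
      refine (sum_rpow j).trans ?_
      have : (j : ℝ) ≤ m := by exact_mod_cast (mem_range.1 hj).le
      gcongr
    refine (sum_le_sum g1).trans ?_
    rw [sum_const, card_range, nsmul_eq_mul, hμ0]
    refine le_of_eq ?_
    calc (m : ℝ) * (q0 * q0 * (C2 * (m : ℝ) ^ (-(1 / 3) : ℝ)) * (3 / 2 * (m : ℝ) ^ (2 / 3 : ℝ)))
        = 3 / 2 * C2 * (q0 * q0) * ((m * (m : ℝ) ^ (-(1 / 3) : ℝ)) * (m : ℝ) ^ (2 / 3 : ℝ)) := by
          ring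
      _ = _ := by rw [em]; ring
  have h4 := second_moment hq E m (fun i => WN κ (wp κ z i) D) (μ := c1 / 4 * μ0)
    (v := (C1 + 3 * C2) * μ0 ^ 2) (by positivity) (by positivity) hlow (by
      have : C1 * μ0 ≤ C1 * μ0 ^ 2 := by
        refine mul_le_mul_of_nonneg_left ?_ (by linarith)
        nlinarith
      linarith)
  refine le_trans (le_of_eq ?_) h4
  field_simp

end Pool.Agent.Q1.M6e
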