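import Mathlib
import Pool.Agent.Q1.M6e.Window
import Pool.Agent.H60.Q1.Tie

set_option autoImplicit false
open Finset

/-!
# Open half rings at a wall with ties

The labels of height at least `2 h + 2` have density one half, those of height `2 h`, `2 h + 1` have
density `q0`. If `q0 a^(2/3) ≥ K` then there is an open half ring of radii `a`, `3 a` around every wall
vertex of height `h` with probability at least `c` (`tie_ring`).
-/

namespace Pool.Agent.Q1.M6e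

open Pool.Agent.H75.Perc Pool.Agent.H75.TwoArm Pool.Agent.H75.Four Pool.Agent.H49.Perc
open Pool.Agent.H99.NC Pool.Agent.H60.Q1 Pool.Agent.H20.Q1 Pool.Agent.H59.Q1

variable {κ : ℤ} {w x y z : ℤ × ℤ} {ρ R D M : ℤ} {E ω : Finset (ℤ × ℤ)}

/-- the part of a path which crosses a half annulus -/
lemma cross_part {θ : Finset (ℤ × ℤ)} (h0 : 1 ≤ ρ) (hρ : ρ < R)
    (hθ : ∀ l ∈ θ, 2 * ht κ w ≤ ht κ l ∧ (l.1 + l.2) % 2 = 1) (hx : Near w ρ x) (hy : Far w R y)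
    (h : Co θ x y) : ∃ u v, Near w ρ u ∧ Far w R v ∧ Co (θ ∩ AL κ w ρ R) u v ∧ Co θ x u := by
  obtain ⟨u, hu, h2⟩ := last_exit (w := w) (c := ρ) h (near_inR.1 hx) (far_not_inR hρ hy)
  have hu' : Near w ρ u := near_inR.2 hu
  obtain ⟨v, hv, h3⟩ := open_exit (o := w) (M := R) h2 (by
    unfold Near at hu'; omega) (by unfold Far at hy; omega)
  refine ⟨u, v, hu', hv, h3.mono ?_, h.trans (h2.mono sdiff_subset).symm⟩
  intro l hl
  obtain ⟨g1, g2⟩ := mem_inter.1 hl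
  obtain ⟨g3, g4⟩ := mem_sdiff.1 g1
  obtain ⟨g5, g6⟩ := hθ l g3
  refine mem_inter.2 ⟨g3, ?_⟩
  unfold BR at g4
  rw [mem_Bx] at g2 g4
  unfold ht at g5
  rw [mem_AL]
  refine ⟨⟨⟨by omega, by omega, g6⟩, ?_⟩, by omega⟩
  exact g5

/-- labels of the thin box above the wall -/
noncomputable def VB (κ : ℤ) (w : ℤ × ℤ) (ρ t : ℤ) : Finset (ℤ × ℤ) :=
  (Bx (w.1 - ρ) (w.1 + ρ) (w.2 - κ * ρ) t).filter (fun l => 2 * ht κ w ≤ ht κ l)

/-- labels of the thin box below the wall -/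
noncomputable def VS (κ : ℤ) (w : ℤ × ℤ) (ρ t : ℤ) : Finset (ℤ × ℤ) :=
  (Bx (w.1 - ρ) (w.1 + ρ) (w.2 - κ * ρ) t).filter (fun l => ¬ 2 * ht κ w ≤ ht κ l)

/-- a vertical crossing of the thin box down to the wall -/
def VV (κ : ℤ) (w : ℤ × ℤ) (ρ t : ℤ) (ω : Finset (ℤ × ℤ)) : Prop :=
  VC (w.1 - ρ) (w.1 + ρ) (w.2 - κ * ρ) t (ω ∪ VS κ w ρ t)

lemma VV_inc (t : ℤ) : Inc (VV κ w ρ t) := fun ω ω' h h1 =>
  VC_inc _ _ _ _ _ _ (union_subset_union_left h) h1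

lemma VV_local (t : ℤ) : VV κ w ρ t ω ↔ VV κ w ρ t (ω ∩ VB κ w ρ t) := by
  have h : (ω ∪ VS κ w ρ t) ∩ Bx (w.1 - ρ) (w.1 + ρ) (w.2 - κ * ρ) t =
      (ω ∩ VB κ w ρ t ∪ VS κ w ρ t) ∩ Bx (w.1 - ρ) (w.1 + ρ) (w.2 - κ * ρ) t := by
    ext l
    unfold VB VS
    simp only [mem_inter, mem_union, mem_filter]
    tauto
  unfold VV VC
  rw [h]

/-- one side of the ring -/
lemma side (hκ : κ = 0 ∨ κ = 1) (hρ : 1 ≤ ρ) (hR : ρ < R) (hD : R + ρ ≤ D) {m : ℕ} (hm : (m : ℤ) ≤ ρ)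
    {xl xr yt top : ℤ} (h1 : xl ≤ w.1 - ρ) (h2 : w.1 + ρ ≤ xr) (h3 : w.2 + R ≤ yt) (h3' : yt ≤ top)
    {t t' : ℤ × ℤ} (t1 : inB xl xr yt top t) (t2 : t.1 = xl) (t3 : t'.1 = xr)
    (t4 : Co (ω ∩ Bx xl xr yt top) t t') (hV : VV κ w ρ top ω) (hRing : RO κ w ρ R M ω)
    (hW : ∃ i : ℕ, i < m ∧ WN κ (wp κ w i) D ω) :
    ∃ i : ℕ, i < m ∧ Co (ω ∩ (Bx xl xr yt top ∪ VB κ w ρ top ∪ HL κ w (D + ρ) ∪ {tl (wp κ w i)}))
      t (wp κ w i - (0, 1)) := by
  obtain ⟨i, hi, hi1, v, hv, hi2⟩ := hW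
  refine ⟨i, hi, ?_⟩
  obtain ⟨p, p', hp, hp', -, -, hring⟩ := hRing
  obtain ⟨l, l', l1, l2, l3, l4⟩ := hV
  set BT := Bx xl xr yt top with hBT
  set BV := Bx (w.1 - ρ) (w.1 + ρ) (w.2 - κ * ρ) top with hBV
  set S := VS κ w ρ top with hS
  set F := BT ∪ VB κ w ρ top ∪ HL κ w (D + ρ) ∪ {tl (wp κ w i)} with hF
  obtain ⟨y, y1, y2⟩ := cross_co (a := xl) (b := xr) (c := w.2 - κ * ρ)
    (d := top) (ω1 := ω ∩ BT) (ω2 := (ω ∪ S) ∩ BV)
    (inter_subset_right.trans (Bx_sub le_rfl le_rfl (by rcases hκ with rfl | rfl <;> omega) le_rfl))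
    (inter_subset_right.trans (Bx_sub h1 h2 le_rfl le_rfl))
    (by unfold inB at t1 ⊢; rcases hκ with rfl | rfl <;> omega) (by unfold inB at l1 ⊢; omega)
    t4 l4 t2 t3 l2 l3
  have hyT : inB xl xr yt top y := y1.inB inter_subset_right t1
  have hyV : inB (w.1 - ρ) (w.1 + ρ) (w.2 - κ * ρ) top y := y2.inB inter_subset_right l1
  have hyht : ht κ w < ht κ y := by
    unfold inB at hyT hyV
    unfold ht
    rcases hκ with rfl | rfl <;> omega
  have hl : ht κ l ≤ ht κ w := by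
    unfold inB at l1
    unfold ht
    rcases hκ with rfl | rfl <;> omega
  obtain ⟨w', hw', c2⟩ := wall_exit hκ y2.symm hyht hl
  have hyw : y ≠ w' := by rintro rfl; omega
  -- the path of the thin box
  set θ := ω ∩ VB κ w ρ top with hθ
  have c3 : Co θ y w' := by
    refine c2.mono ?_
    intro e he
    obtain ⟨g1, g2⟩ := mem_filter.1 he
    obtain ⟨g3, g4⟩ := mem_inter.1 g1
    have g5 : e ∈ VB κ w ρ top := by
      unfold VB
      exact mem_filter.2 ⟨g4, g2⟩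
    refine mem_inter.2 ⟨?_, g5⟩
    rcases mem_union.1 g3 with g6 | g6
    · exact g6
    · rw [hS] at g6
      unfold VS at g6
      exact absurd g2 (mem_filter.1 g6).2
  have hnear : Near w ρ w' := by
    obtain ⟨b, hb1, hb2⟩ := last_label c3 hyw
    have g1 := (mem_inter.1 hb2).2
    have g2 := unit_cases hb1
    unfold VB at g1
    have g3 := mem_Bx.1 (mem_filter.1 g1).1
    simp only [Prod.fst_add, Prod.snd_add] at g3
    unfold Near
    rw [abs_le, abs_le]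
    unfold ht at hw'
    rcases hκ with rfl | rfl <;> omega
  have hfar : Far w R y := by
    unfold Far
    right
    rw [le_abs]
    unfold inB at hyT
    omega
  have hθ' : ∀ l ∈ θ, 2 * ht κ w ≤ ht κ l ∧ (l.1 + l.2) % 2 = 1 := by
    intro l hl
    have g1 := (mem_inter.1 hl).2
    unfold VB at g1
    obtain ⟨g2, g3⟩ := mem_filter.1 g1
    exact ⟨g3, (mem_Bx.1 g2).2.2⟩
  obtain ⟨u1, v1, a1, a2, a3, a4⟩ := cross_part hρ hR hθ' hnear hfar c3.symm
  have e1 := ring_meet hκ hρ hR hp hp' hring a1 a2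
    (a3.mono (inter_subset_inter_right inter_subset_left))
  -- the arm
  set x := wp κ w (i : ℤ) with hx
  have hxht : ht κ x = ht κ w := by
    rw [hx]; unfold ht wp; simp only; ring
  have hx1 : x.1 = w.1 + i := rfl
  have hx2 : x.2 = w.2 - κ * i := rfl
  have hi3 : (i : ℤ) < ρ := by omega
  have hxnear : Near w ρ x := by
    unfold Near
    rw [hx1, hx2, abs_le, abs_le]
    rcases hκ with rfl | rfl <;> omega
  have hvfar : Far w R v := by
    unfold Near at hxnear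
    unfold Far at hv ⊢
    rw [le_abs, le_abs] at hv ⊢
    rw [abs_le, abs_le] at hxnear
    omega
  set θ2 := ω ∩ HL κ x D with hθ2
  have hθ2' : ∀ l ∈ θ2, 2 * ht κ w ≤ ht κ l ∧ (l.1 + l.2) % 2 = 1 := by
    intro l hl
    have g1 := mem_HL.1 (mem_inter.1 hl).2
    rw [← hxht]
    exact ⟨g1.2, g1.1.2.2⟩
  obtain ⟨u2, v2, b1, b2, b3, b4⟩ := cross_part hρ hR hθ2' hxnear hvfar hi2
  have e2 := ring_meet hκ hρ hR hp hp' hring b1 b2
    (b3.mono (inter_subset_inter_right inter_subset_left))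
  -- the pieces
  have sT : ω ∩ BT ⊆ ω ∩ F := inter_subset_inter_left
    (subset_union_left.trans (subset_union_left.trans subset_union_left))
  have sV : θ ⊆ ω ∩ F := inter_subset_inter_left
    (subset_union_right.trans (subset_union_left.trans subset_union_left))
  have sH : ω ∩ HL κ w (D + ρ) ⊆ ω ∩ F := inter_subset_inter_left
    (subset_union_right.trans subset_union_left)
  have sA : ω ∩ AL κ w ρ R ⊆ ω ∩ F :=
    (inter_subset_inter_left (AL_sub_HL.trans (HL_mono (by omega)))).trans sH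
  have sX : θ2 ⊆ ω ∩ F := by
    refine (inter_subset_inter_left ?_).trans sH
    intro l hl
    have g1 := mem_HL.1 hl
    rw [mem_HL]
    unfold Near at hxnear
    rw [abs_le, abs_le] at hxnear
    unfold ht at hxht
    omega
  have tie : Ad (ω ∩ F) x (x - (0, 1)) := by
    refine ⟨?_, mem_inter.2 ⟨?_, ?_⟩⟩
    · right; right; right
      simp
    · have : x + (x - (0, 1)) = tl x := by
        unfold tl
        rw [Prod.ext_iff]
        simp only [Prod.fst_add, Prod.snd_add, Prod.fst_sub, Prod.snd_sub]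
        constructor <;> ring
      rw [this]; exact hi1
    · have : x + (x - (0, 1)) = tl x := by
        unfold tl
        rw [Prod.ext_iff]
        simp only [Prod.fst_add, Prod.snd_add, Prod.fst_sub, Prod.snd_sub]
        constructor <;> ring
      rw [this]
      exact mem_union_right _ (mem_singleton_self _)
  have k1 : Co (ω ∩ F) t y := y1.mono sT
  have k2 : Co (ω ∩ F) y w' := c3.mono sV
  have k3 : Co (ω ∩ F) w' u1 := a4.mono sV
  have k4 : Co (ω ∩ F) u1 p := e1.mono sA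
  have k5 : Co (ω ∩ F) u2 p := e2.mono sA
  have k6 : Co (ω ∩ F) x u2 := b4.mono sX
  exact Relation.ReflTransGen.tail
    (((((k1.trans k2).trans k3).trans k4).trans k5.symm).trans k6.symm) tie

/-! ### probabilities -/

variable {q : ℤ × ℤ → ℝ}

lemma PrP_nat {F : Finset (ℤ × ℤ)} {A : Finset (ℤ × ℤ) → Prop} (h : F ⊆ E)
    (hq : ∀ l ∈ F, q l = 1 / 2) (hA : ∀ ω, A ω ↔ A (ω ∩ F)) : PrP q E A = PrP hf F A := by
  rw [PrP_local h fun ω _ => hA ω]
  unfold PrP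
  exact Ex_congr_q hq _

lemma harris_cons (hq : Pb q) {A B : Finset (ℤ × ℤ) → Prop} (hA : Inc A) (hB : Inc B) {c d : ℝ}
    (hd : 0 ≤ d) (h1 : c ≤ PrP q E A) (h2 : d ≤ PrP q E B) :
    c * d ≤ PrP q E (fun ω => A ω ∧ B ω) :=
  (mul_le_mul h1 h2 hd (PrP_nonneg hq _ _)).trans (PrP_harris hq E hA hB)

lemma VV_prob : ∃ c : ℝ, 0 < c ∧ ∀ κ : ℤ, (κ = 0 ∨ κ = 1) → ∀ (w : ℤ × ℤ) (ρ t : ℤ)
    (q : ℤ × ℤ → ℝ) (E : Finset (ℤ × ℤ)), 1 ≤ ρ → w.2 ≤ t → t - w.2 ≤ 120 * ρ →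
    VB κ w ρ t ⊆ E → (∀ l ∈ VB κ w ρ t, q l = 1 / 2) → c ≤ PrP q E (VV κ w ρ t) := by
  obtain ⟨k, hk⟩ : ∃ k : ℕ, k = 64 := ⟨_, rfl⟩
  obtain ⟨c, hc, h⟩ := rsw_q k
  refine ⟨c, hc, fun κ hκ w ρ t q E hρ hwt ht hE hq => ?_⟩
  have hk' : (k : ℤ) = 64 := by rw [hk]; rfl
  have hsub : VB κ w ρ t ⊆ Bx (w.1 - ρ) (w.1 + ρ) (w.2 - κ * ρ) t := filter_subset _ _
  have e1 : PrP q E (VV κ w ρ t) = PrP hf (VB κ w ρ t) (VV κ w ρ t) :=
    PrP_nat (A := VV κ w ρ t) hE hq fun ω => VV_local (κ := κ) (w := w) (ρ := ρ) (ω := ω) t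
  have e2 : PrP hf (Bx (w.1 - ρ) (w.1 + ρ) (w.2 - κ * ρ) t) (VV κ w ρ t) =
      PrP hf (VB κ w ρ t) (VV κ w ρ t) :=
    PrP_local (A := VV κ w ρ t) hsub fun ω _ => VV_local (κ := κ) (w := w) (ρ := ρ) (ω := ω) t
  rw [e1, ← e2]
  have h1 : w.1 - ρ ≤ w.1 + ρ := by omega
  have h2 : w.2 - κ * ρ ≤ t := by rcases hκ with rfl | rfl <;> omega
  have h3 : t - (w.2 - κ * ρ) ≤ k * (w.1 + ρ - (w.1 - ρ) + 1) := by
    rw [hk']; rcases hκ with rfl | rfl <;> omega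
  have h4 := (h hf hf_Qh _ (w.1 - ρ) (w.1 + ρ) (w.2 - κ * ρ) t h1 h2 (subset_refl _)).2 h3
  refine h4.trans (PrP_mono hf_Qh.pb fun ω _ h1 => ?_)
  exact VC_inc _ _ _ _ _ _ subset_union_left h1

lemma RO_nat : ∃ c : ℝ, 0 < c ∧ ∀ κ : ℤ, (κ = 0 ∨ κ = 1) → ∀ (w : ℤ × ℤ) (ρ R : ℤ)
    (q : ℤ × ℤ → ℝ) (E : Finset (ℤ × ℤ)), 1 ≤ ρ → 3 * (ρ + 1) ≤ R → AL κ w ρ R ⊆ E →
    (∀ l ∈ AL κ w ρ R, q l = 1 / 2) → c ≤ PrP q E (RO κ w ρ R (3 * (ρ + 1))) := by
  obtain ⟨c, hc, h⟩ := RO_prob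
  refine ⟨c, hc, fun κ hκ w ρ R q E hρ hR hE hq => ?_⟩
  rw [PrP_nat (A := RO κ w ρ R (3 * (ρ + 1))) hE hq fun ω => RO_loc]
  exact h hf hf_Qh κ hκ w ρ R (ρ + 1) _ hρ (by omega) hR (subset_refl _)

/-- the centres of the two sides -/
def cw (κ : ℤ) (z : ℤ × ℤ) (t : ℤ) : ℤ × ℤ := (z.1 + t, z.2 + 1 - κ * t)

lemma ht_cw (κ : ℤ) (z : ℤ × ℤ) (t : ℤ) : ht κ (cw κ z t) = ht κ z + 1 := by
  unfold ht cw; simp only; ring

lemma piece_sub (hκ : κ = 0 ∨ κ = 1) {a t : ℤ} (ha : 64 ≤ a)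
    (ht : t = a + a / 2 ∨ t = -(a + a / 2)) {i : ℕ} (hi : (i : ℤ) < a / 16) :
    Bx (z.1 - (a + a / 2 + a / 16)) (z.1 + (a + a / 2 + a / 16)) (z.2 + 2 * a) (z.2 + 3 * a) ∪
      VB κ (cw κ z t) (a / 16) (z.2 + 3 * a) ∪ HL κ (cw κ z t) (a / 4 + a / 16 + a / 16) ∪
      {tl (wp κ (cw κ z t) i)} ⊆ AL κ z (a - 1) (3 * a) := by
  intro l hl
  rw [mem_AL]
  rw [mem_union, mem_union, mem_union, mem_singleton] at hl
  rcases hl with ((hl | hl) | hl) | rfl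
  · rw [mem_Bx] at hl
    rcases hκ with rfl | rfl <;> omega
  · unfold VB at hl
    rw [mem_filter, mem_Bx, ht_cw] at hl
    unfold H60.Q1.ht at hl
    unfold cw at hl
    simp only at hl
    rcases hκ with rfl | rfl <;> rcases ht with rfl | rfl <;> omega
  · rw [mem_HL] at hl
    unfold cw at hl
    simp only at hl
    rcases hκ with rfl | rfl <;> rcases ht with rfl | rfl <;> omega
  · unfold tl wp cw
    simp only
    rcases hκ with rfl | rfl <;> rcases ht with rfl | rfl <;> omega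

/-- the ring from its parts -/
lemma RO_of_sides (hκ : κ = 0 ∨ κ = 1) {a : ℤ} (ha : 64 ≤ a) {m : ℕ} (hm : (m : ℤ) = a / 16)
    {M : ℤ} (hT : HC (z.1 - (a + a / 2 + a / 16)) (z.1 + (a + a / 2 + a / 16)) (z.2 + 2 * a)
      (z.2 + 3 * a) ω)
    (hL : VV κ (cw κ z (-(a + a / 2))) (a / 16) (z.2 + 3 * a) ω)
    (hR : VV κ (cw κ z (a + a / 2)) (a / 16) (z.2 + 3 * a) ω)
    (sL : RO κ (cw κ z (-(a + a / 2))) (a / 16) (a / 4) M ω)
    (sR : RO κ (cw κ z (a + a / 2)) (a / 16) (a / 4) M ω)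
    (nL : ∃ i : ℕ, i < m ∧ WN κ (wp κ (cw κ z (-(a + a / 2))) i) (a / 4 + a / 16) ω)
    (nR : ∃ i : ℕ, i < m ∧ WN κ (wp κ (cw κ z (a + a / 2)) i) (a / 4 + a / 16) ω) :
    RO κ z (a - 1) (3 * a) (3 * a) ω := by
  obtain ⟨t, t', t1, t2, t3, t4⟩ := hT
  have c1 : (cw κ z (-(a + a / 2))).1 = z.1 + -(a + a / 2) := rfl
  have c2 : (cw κ z (-(a + a / 2))).2 = z.2 + 1 - κ * (-(a + a / 2)) := rfl
  have c3 : (cw κ z (a + a / 2)).1 = z.1 + (a + a / 2) := rfl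
  have c4 : (cw κ z (a + a / 2)).2 = z.2 + 1 - κ * (a + a / 2) := rfl
  obtain ⟨i, hi, hi'⟩ := side hκ (by omega) (by omega) (le_refl _) hm.le
    (by rw [c1]; omega) (by rw [c1]; omega)
    (by rw [c2]; rcases hκ with rfl | rfl <;> omega) (by omega) t1 t2 t3 t4 hL sL nL
  obtain ⟨j, hj, hj'⟩ := side hκ (by omega) (by omega) (le_refl _) hm.le
    (by rw [c3]; omega) (by rw [c3]; omega)
    (by rw [c4]; rcases hκ with rfl | rfl <;> omega) (by omega) t1 t2 t3 t4 hR sR nR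
  have s1 := inter_subset_inter_left (s := ω) (piece_sub (z := z) hκ ha (Or.inr rfl)
    (i := i) (by omega))
  have s2 := inter_subset_inter_left (s := ω) (piece_sub (z := z) hκ ha (Or.inl rfl)
    (i := j) (by omega))
  refine ⟨_, _, ⟨?_, ?_⟩, ⟨?_, ?_⟩, ?_, ?_, (hi'.mono s1).symm.trans (hj'.mono s2)⟩
  · unfold ht wp cw
    simp only [Prod.fst_sub, Prod.snd_sub]
    ring
  · unfold wp cw
    simp only [Prod.fst_sub]
    omega
  · unfold ht wp cw
    simp only [Prod.fst_sub, Prod.snd_sub]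
    ring
  · unfold wp cw
    simp only [Prod.fst_sub]
    omega
  · unfold wp cw
    simp only [Prod.fst_sub]
    rw [abs_le]
    omega
  · unfold wp cw
    simp only [Prod.fst_sub]
    rw [abs_le]
    omega

lemma win_inc {m : ℕ} : Inc (fun ω => ∃ i : ℕ, i < m ∧ WN κ (wp κ w i) D ω) := by
  rintro ω ω' h ⟨i, hi, h1, h2⟩
  exact ⟨i, hi, h h1, W1_inc _ _ h h2⟩

/-- **open half rings at a wall with ties** -/
theorem tie_ring : ∃ c K : ℝ, 0 < c ∧ 0 < K ∧ ∀ κ : ℤ, (κ = 0 ∨ κ = 1) →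
    ∀ (h : ℤ) (q : ℤ × ℤ → ℝ) (q0 : ℝ), Pb q → (∀ l, 2 * (h + 1) ≤ ht κ l → q l = 1 / 2) →
    (∀ l, 2 * h ≤ ht κ l → ht κ l < 2 * (h + 1) → q l = q0) →
    ∀ z : ℤ × ℤ, ht κ z = h → ∀ a : ℤ, 1 ≤ a → K ≤ q0 * (a : ℝ) ^ (2 / 3 : ℝ) →
    ∀ E : Finset (ℤ × ℤ), AL κ z (a - 1) (3 * a) ⊆ E → c ≤ PrP q E (RO κ z (a - 1) (3 * a) (3 * a)) := by
  obtain ⟨k, hk⟩ : ∃ k : ℕ, k = 64 := ⟨_, rfl⟩
  obtain ⟨c1, hc1, hrsw⟩ := rsw_q k
  obtain ⟨c2, hc2, hV⟩ := VV_prob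
  obtain ⟨c3, hc3, hRO⟩ := RO_nat
  obtain ⟨c4, K, hc4, hK, hwin⟩ := win_ge
  refine ⟨c1 * (c2 * (c2 * (c3 * (c3 * (c4 * c4))))), 16 + 32 * K, by positivity, by positivity, ?_⟩
  intro κ hκ h q q0 hq hnat htie z hz a ha1 hKa E hE
  have hk' : (k : ℤ) = 64 := by rw [hk]; rfl
  have ha1' : (1 : ℝ) ≤ a := by exact_mod_cast ha1
  have hq01 : q0 ≤ 1 := by
    have h1 := htie (tl (z + (0, 1))) (by
      unfold ht tl at *; simp only [Prod.fst_add, Prod.snd_add]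
      rcases hκ with rfl | rfl <;> omega) (by
      unfold ht tl at *; simp only [Prod.fst_add, Prod.snd_add]
      rcases hκ with rfl | rfl <;> omega)
    rw [← h1]; exact (hq _).2
  have hapos : 0 < (a : ℝ) ^ (2 / 3 : ℝ) := by positivity
  have ha : 64 ≤ a := by
    by_contra hlt
    push Not at hlt
    have h1 : (a : ℝ) < 64 := by exact_mod_cast hlt
    have h2 : (a : ℝ) ^ (2 / 3 : ℝ) ≤ 64 ^ (2 / 3 : ℝ) :=
      Real.rpow_le_rpow (by linarith) h1.le (by norm_num)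
    have h3 : (64 : ℝ) ^ (2 / 3 : ℝ) = 16 := by
      rw [show (64 : ℝ) = 4 ^ (3 : ℝ) by norm_num, ← Real.rpow_mul (by norm_num)]
      norm_num
    have h4 : q0 * (a : ℝ) ^ (2 / 3 : ℝ) ≤ 1 * 16 := by
      rw [← h3]; exact mul_le_mul hq01 h2 hapos.le (by norm_num)
    linarith
  obtain ⟨m, hm⟩ : ∃ m : ℕ, (m : ℤ) = a / 16 := ⟨(a / 16).toNat, Int.toNat_of_nonneg (by omega)⟩
  have hm1 : 1 ≤ m := by omega
  -- the sides
  have hcw : ∀ t : ℤ, ht κ (cw κ z t) = h + 1 := fun t => by rw [ht_cw, hz]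
  have hside : ∀ t : ℤ, (t = a + a / 2 ∨ t = -(a + a / 2)) →
      c2 ≤ PrP q E (VV κ (cw κ z t) (a / 16) (z.2 + 3 * a)) ∧
      c3 ≤ PrP q E (RO κ (cw κ z t) (a / 16) (a / 4) (3 * (a / 16 + 1))) ∧
      c4 ≤ PrP q E (fun ω => ∃ i : ℕ, i < m ∧ WN κ (wp κ (cw κ z t) i) (a / 4 + a / 16) ω) := by
    intro t ht'
    have hsub : ∀ i : ℕ, i < m → _ ⊆ E := fun i hi =>
      (piece_sub (z := z) hκ ha ht' (i := i) (by omega)).trans hE
    have hsub0 := hsub 0 (by omega)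
    have hVB : VB κ (cw κ z t) (a / 16) (z.2 + 3 * a) ⊆ E :=
      (subset_union_right.trans (subset_union_left.trans subset_union_left)).trans hsub0
    have hHL : HL κ (cw κ z t) (a / 4 + a / 16 + a / 16) ⊆ E :=
      (subset_union_right.trans subset_union_left).trans hsub0
    have hnatH : ∀ l ∈ HL κ (cw κ z t) (a / 4 + a / 16 + a / 16), q l = 1 / 2 := by
      intro l hl
      refine hnat l ?_
      have h1 := (mem_filter.1 hl).2
      rw [hcw] at h1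
      exact h1
    have hAL : AL κ (cw κ z t) (a / 16) (a / 4) ⊆ HL κ (cw κ z t) (a / 4 + a / 16 + a / 16) :=
      AL_sub_HL.trans (HL_mono (by omega))
    refine ⟨?_, ?_, ?_⟩
    · refine hV κ hκ _ _ _ q E (by omega) ?_ ?_ hVB ?_
      · unfold cw; simp only
        rcases hκ with rfl | rfl <;> rcases ht' with rfl | rfl <;> omega
      · unfold cw; simp only
        rcases hκ with rfl | rfl <;> rcases ht' with rfl | rfl <;> omega
      · intro l hl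
        refine hnat l ?_
        unfold VB at hl
        have h1 := (mem_filter.1 hl).2
        rw [hcw] at h1
        exact h1
    · exact hRO κ hκ _ _ _ q E (by omega) (by omega) (hAL.trans hHL) fun l hl => hnatH l (hAL hl)
    · refine hwin κ hκ q hq (cw κ z t) m (a / 4 + a / 16) q0 E hm1 (by omega) (by omega) ?_ ?_
      · have h1 : (a : ℝ) / 32 ≤ m := by
          have h2 : a ≤ 32 * m := by omega
          have h3 : (a : ℝ) ≤ 32 * m := by exact_mod_cast h2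
          linarith
        have h2 : ((a : ℝ) / 32) ^ (2 / 3 : ℝ) ≤ (m : ℝ) ^ (2 / 3 : ℝ) :=
          Real.rpow_le_rpow (by positivity) h1 (by norm_num)
        rw [Real.div_rpow (by linarith) (by norm_num)] at h2
        have h3 : (32 : ℝ) ^ (2 / 3 : ℝ) ≤ 32 := by
          nth_rewrite 2 [← Real.rpow_one (32 : ℝ)]
          exact Real.rpow_le_rpow_of_exponent_le (by norm_num) (by norm_num)
        have h4 : 0 < (32 : ℝ) ^ (2 / 3 : ℝ) := by positivity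
        have hq00 : 0 < q0 := by
          by_contra hneg
          push Not at hneg
          nlinarith
        have h5 : (a : ℝ) ^ (2 / 3 : ℝ) ≤ 32 * (m : ℝ) ^ (2 / 3 : ℝ) := by
          rw [div_le_iff₀ h4] at h2
          refine h2.trans ?_
          rw [mul_comm]
          exact mul_le_mul_of_nonneg_right h3 (by positivity)
        nlinarith
      · intro i hi
        have h1 := hsub i hi
        have h2 : HL κ (wp κ (cw κ z t) i) (a / 4 + a / 16) ⊆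
            HL κ (cw κ z t) (a / 4 + a / 16 + a / 16) := by
          intro l hl
          rw [mem_HL] at hl ⊢
          unfold wp at hl
          simp only at hl
          rcases hκ with rfl | rfl <;> omega
        refine ⟨?_, h1 (mem_union_right _ (mem_singleton_self _)), h2.trans hHL,
          fun l hl => hnatH l (h2 hl)⟩
        refine htie _ ?_ ?_
        · unfold ht tl wp cw at *
          simp only
          rcases hκ with rfl | rfl <;> omega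
        · unfold ht tl wp cw at *
          simp only
          rcases hκ with rfl | rfl <;> omega
  obtain ⟨hL1, hL2, hL3⟩ := hside (-(a + a / 2)) (Or.inr rfl)
  obtain ⟨hR1, hR2, hR3⟩ := hside (a + a / 2) (Or.inl rfl)
  -- the top
  have hTsub : Bx (z.1 - (a + a / 2 + a / 16)) (z.1 + (a + a / 2 + a / 16)) (z.2 + 2 * a)
      (z.2 + 3 * a) ⊆ E :=
    (subset_union_left.trans (subset_union_left.trans subset_union_left)).trans
      ((piece_sub (z := z) hκ ha (Or.inl rfl) (i := 0) (by omega)).trans hE)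
  have hT : c1 ≤ PrP q E (HC (z.1 - (a + a / 2 + a / 16)) (z.1 + (a + a / 2 + a / 16))
      (z.2 + 2 * a) (z.2 + 3 * a)) := by
    rw [PrP_nat (A := HC (z.1 - (a + a / 2 + a / 16)) (z.1 + (a + a / 2 + a / 16))
      (z.2 + 2 * a) (z.2 + 3 * a)) hTsub (fun l hl => hnat l (by
        rw [mem_Bx] at hl
        unfold ht at *
        rcases hκ with rfl | rfl <;> omega)) (fun ω => by
          unfold HC; rw [inter_assoc, inter_self])]
    exact (hrsw hf hf_Qh _ _ _ _ _ (by omega) (by omega) (subset_refl _)).1 (by rw [hk']; omega)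
  have g1 := harris_cons hq (win_inc (κ := κ) (w := cw κ z (-(a + a / 2)))
    (D := a / 4 + a / 16) (m := m)) (win_inc (κ := κ) (w := cw κ z (a + a / 2))
    (D := a / 4 + a / 16) (m := m)) hc4.le hL3 hR3
  have g2 := harris_cons hq RO_inc (Inc.and win_inc win_inc) (by positivity) hR2 g1
  have g3 := harris_cons hq RO_inc (Inc.and RO_inc (Inc.and win_inc win_inc)) (by positivity) hL2 g2
  have g4 := harris_cons hq (VV_inc _) (Inc.and RO_inc (Inc.and RO_inc (Inc.and win_inc win_inc)))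
    (by positivity) hR1 g3
  have g5 := harris_cons hq (VV_inc _) (Inc.and (VV_inc _) (Inc.and RO_inc (Inc.and RO_inc
    (Inc.and win_inc win_inc)))) (by positivity) hL1 g4
  have g6 := harris_cons hq (HC_inc _ _ _ _) (Inc.and (VV_inc _) (Inc.and (VV_inc _)
    (Inc.and RO_inc (Inc.and RO_inc (Inc.and win_inc win_inc))))) (by positivity) hT g5
  exact g6.trans (PrP_mono hq fun ω _ hh => RO_of_sides hκ ha hm hh.1 hh.2.1 hh.2.2.1 hh.2.2.2.1
    hh.2.2.2.2.1 hh.2.2.2.2.2.1 hh.2.2.2.2.2.2)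

/-- the data of a wall with ties -/
theorem td_of : ∃ c K : ℝ, 0 < c ∧ c < 1 ∧ 0 < K ∧ ∀ κ : ℤ, (κ = 0 ∨ κ = 1) →
    ∀ (h : ℤ) (q : ℤ × ℤ → ℝ) (q0 : ℝ), Pb q → (∀ l, q l ≤ 1 / 2) →
    (∀ (t : ℤ) (l : ℤ × ℤ), q (l.1 + 2 * t, l.2 + 2 * (-(κ * t))) = q l) →
    (∀ l, 2 * (h + 1) ≤ ht κ l → q l = 1 / 2) →
    (∀ l, 2 * h ≤ ht κ l → ht κ l < 2 * (h + 1) → q l = q0) →
    ∀ a0 : ℤ, 2 ≤ a0 → K ≤ q0 * (a0 : ℝ) ^ (2 / 3 : ℝ) → TD κ h q c a0 := by
  obtain ⟨c, K, hc, hK, H⟩ := tie_ring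
  refine ⟨min c (1 / 2), K, by positivity, by
    have := min_le_right c (1 / 2); linarith, hK, ?_⟩
  intro κ hκ h q q0 hq hle hinv hnat htie a0 ha0 hKa
  have ha0' : (2 : ℝ) ≤ a0 := by exact_mod_cast ha0
  have hq00 : 0 ≤ q0 := by
    by_contra hneg
    push Not at hneg
    have : 0 < (a0 : ℝ) ^ (2 / 3 : ℝ) := by positivity
    nlinarith
  refine ⟨hq, hle, hinv, ha0, fun z hz a ha E hE => (min_le_left _ _).trans
    (H κ hκ h q q0 hq hnat htie z hz a (by omega) (hKa.trans ?_) E hE)⟩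
  have h1 : (a0 : ℝ) ≤ a := by exact_mod_cast ha
  exact mul_le_mul_of_nonneg_left (Real.rpow_le_rpow (by linarith) h1 (by norm_num)) hq00

end Pool.Agent.Q1.M6e
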