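import Mathlib
import Pool.Agent.Q1.M6e.Ring

set_option autoImplicit false
open Finset

/-! The half ring theorem in the form used for the first order response. -/

namespace Pool.Agent.Q1.M6e

open Pool.Agent.H75.Perc Pool.Agent.H60.Q1 Pool.Agent.H99.NC

/-- density `tau` up to height `2 h + 1`, one half above -/
theorem td_tau : ∃ c K : ℝ, 0 < c ∧ c < 1 ∧ 0 < K ∧ ∀ κ : ℤ, (κ = 0 ∨ κ = 1) →
    ∀ (h : ℤ) (τ : ℝ), 0 < τ → τ ≤ 1 / 2 → ∀ a0 : ℤ, 2 ≤ a0 → K * τ ^ (-(3 / 2) : ℝ) ≤ a0 →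
    TD κ h (fun l => if ht κ l ≤ 2 * h + 1 then τ else 1 / 2) c a0 := by
  obtain ⟨c, K, hc, hc1, hK, H⟩ := td_of
  refine ⟨c, K ^ (3 / 2 : ℝ), hc, hc1, by positivity, fun κ hκ h τ hτ hτ2 a0 ha0 hKa => ?_⟩
  have e1 : (K ^ (3 / 2 : ℝ) * τ ^ (-(3 / 2) : ℝ)) ^ (2 / 3 : ℝ) = K * τ⁻¹ := by
    rw [Real.mul_rpow (by positivity) (by positivity), ← Real.rpow_mul hK.le, ← Real.rpow_mul hτ.le]
    norm_num
    left
    rw [Real.rpow_neg_one]
  have h1 : K * τ⁻¹ ≤ (a0 : ℝ) ^ (2 / 3 : ℝ) := by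
    rw [← e1]
    exact Real.rpow_le_rpow (by positivity) hKa (by norm_num)
  have h2 : K ≤ τ * (a0 : ℝ) ^ (2 / 3 : ℝ) := by
    calc K = τ * (K * τ⁻¹) := by field_simp
      _ ≤ _ := mul_le_mul_of_nonneg_left h1 hτ.le
  refine H κ hκ h _ τ (fun l => ?_) (fun l => ?_) (fun t l => ?_) (fun l hl => ?_)
    (fun l _ hl => ?_) a0 ha0 h2
  · split_ifs
    · exact ⟨hτ.le, by linarith⟩
    · norm_num
  · split_ifs
    · exact hτ2
    · exact le_refl _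
  · have : ht κ (l.1 + 2 * t, l.2 + 2 * (-(κ * t))) = ht κ l := by
      unfold ht
      ring
    simp only [this]
  · rw [if_neg (by omega)]
  · rw [if_pos (by omega)]

end Pool.Agent.Q1.M6e
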