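import Mathlib
import Pool.Agent.H59.Q1.WallP
import Pool.Agent.H20.Q1.MxV
import Pool.Agent.H59.Q1.MassPlain

set_option autoImplicit false
open Finset

/-!
# Clusters with a contact which is connected only from outside

`Oth κ x r R ω v` : the wall vertex `v` within `r` of `x` is the leftmost contact of a cluster of the half box
`HL κ x R` which reaches distance `R` and which is not the cluster of `x` in this half box.
`loc_tail` : mass of the configurations where the cluster of `x` has no contact at distance between `m` and `r` and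
there is such a `v` (weight of both clusters).
-/

namespace Pool.Agent.Q1.M6e

open Pool.Agent.H75.Perc Pool.Agent.H75.TwoArm Pool.Agent.H75.Four Pool.Agent.H49.Perc
open Pool.Agent.H99.NC Pool.Agent.H60.Q1 Pool.Agent.H20.Q1 Pool.Agent.H59.Q1 Pool.Agent.Q1

def Oth (κ : ℤ) (x : ℤ × ℤ) (r R : ℤ) (ω : Finset (ℤ × ℤ)) (v : ℤ × ℤ) : Prop :=
  ht κ v = ht κ x ∧ inR x r v ∧ ¬ Co (ω ∩ HL κ x R) x v ∧
    (∃ u, Far x R u ∧ Co (ω ∩ HL κ x R) v u) ∧
    ∀ y, ht κ y = ht κ x → Co (ω ∩ HL κ x R) v y → v.1 ≤ y.1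

variable {κ : ℤ} {x v u y : ℤ × ℤ} {m r R ρ t : ℤ} {ω : Finset (ℤ × ℤ)} {σ : ℝ}

/-! ### Geometry -/

lemma abv_HL : Abv κ x R (ω ∩ HL κ x R) := fun _ hl _ => (mem_HL'.1 (mem_inter.1 hl).2).2

lemma HL_cap : ω ∩ HL κ x R ∩ BR x r ⊆ ω ∩ HL κ x r := by
  intro l hl
  obtain ⟨h1, h2⟩ := mem_inter.1 hl
  obtain ⟨h3, h4⟩ := mem_inter.1 h1
  exact mem_inter.2 ⟨h3, mem_HL'.2 ⟨h2, (mem_HL'.1 h4).2⟩⟩

lemma AL_sub_HL' : AL κ x ρ R ⊆ HL κ x R := sdiff_subset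

/-- vertices of the wall in the annulus -/
lemma reg_wall (hκ : κ = 0 ∨ κ = 1) (hr : Reg κ x ρ R y) (hy : ht κ y = ht κ x) :
    ρ ≤ |y.1 - x.1| := by
  obtain ⟨-, -, h1⟩ := hr
  rcases h1 with h1 | h1
  · exact h1
  · have h2 : |y.2 - x.2| ≤ |y.1 - x.1| := by
      unfold ht at hy
      rw [abs_le]
      rcases hκ with rfl | rfl
      · have : y.2 - x.2 = 0 := by linarith
        rw [this]
        constructor
        · have := abs_nonneg (y.1 - x.1); linarith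
        · exact abs_nonneg _
      · have h3 : y.2 - x.2 = -(y.1 - x.1) := by linarith
        rw [h3]
        constructor
        · have := le_abs_self (y.1 - x.1); linarith
        · exact neg_le_abs _
    exact h1.trans h2

/-- the cluster of `x` crosses the annulus without contact -/
lemma cross_x (hκ : κ = 0 ∨ κ = 1) (hρ0 : 0 ≤ ρ) (hmρ : m < ρ) (hρr : ρ < r) (hrR : r ≤ R)
    (hS : Sd κ 1 x R ω) (hc : ∀ y ∈ CC κ x r ω, y.1 - x.1 ≤ m) :
    ∃ u v, Near x ρ u ∧ Far x r v ∧ Co (ω ∩ AL κ x ρ r) u v ∧ Co (ω ∩ HL κ x R) x u ∧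
      ∀ y, Co (ω ∩ AL κ x ρ r) u y → ht κ y ≠ ht κ x := by
  obtain ⟨⟨w, hw1, hw2⟩, hS2⟩ := hS
  obtain ⟨w', hw3, hw4⟩ := open_exit (o := x) (M := r) hw2
    (by rw [sub_self, sub_self, abs_zero]; omega) (by unfold Far at hw1; omega)
  have hw5 : Co (ω ∩ HL κ x r) x w' := hw4.mono HL_cap
  obtain ⟨u, v, a1, a2, a3, a4⟩ := cross_of hw5 (by rw [inR_iff]; omega) hw3 hρr le_rfl abv_HL
  have hcap : ω ∩ HL κ x r ∩ AL κ x ρ r = ω ∩ AL κ x ρ r := by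
    rw [inter_assoc, inter_eq_right.2 AL_sub_HL']
  rw [hcap] at a3
  have hsub : ω ∩ HL κ x r ⊆ ω ∩ HL κ x R := inter_subset_inter_left (HL_mono hrR)
  refine ⟨u, v, a1, a2, a3, a4.mono hsub, fun y hy hyx => ?_⟩
  have n1 : u ≠ v := near_ne_far hρr a1 a2
  have r1 := (Co.reg hκ inter_subset_right a3 n1).2 y hy
  have h1 := reg_wall hκ r1 hyx
  have h2 : Co (ω ∩ HL κ x r) x y := a4.trans (hy.mono (inter_subset_inter_left AL_sub_HL'))
  have h3 := hc y ⟨hyx, h2⟩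
  have h4 := hS2 y ⟨hyx, h2.mono hsub⟩
  rw [abs_of_nonneg (by omega)] at h1
  omega

lemma U3_x (hκ : κ = 0 ∨ κ = 1) (hρ0 : 0 ≤ ρ) (hmρ : m < ρ) (hρr : ρ < r) (hrR : r ≤ R)
    (hS : Sd κ 1 x R ω) (hc : ∀ y ∈ CC κ x r ω, y.1 - x.1 ≤ m) : U3 κ x ρ r ω := by
  obtain ⟨u, v, h1, h2, h3, -, h5⟩ := cross_x hκ hρ0 hmρ hρr hrR hS hc
  exact ⟨u, v, h1, h2, h3, h5⟩

/-- a near second cluster -/
lemma two_x (hκ : κ = 0 ∨ κ = 1) (hρ0 : 0 ≤ ρ) (hmρ : m < ρ) (hρr : ρ < r) (hrR : r ≤ R)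
    (hS : Sd κ 1 x R ω) (hc : ∀ y ∈ CC κ x r ω, y.1 - x.1 ≤ m) (hO : Oth κ x r R ω v)
    (hv : inR x ρ v) : TwoC κ x ρ r ω := by
  obtain ⟨u1, v1, a1, a2, a3, a4, a5⟩ := cross_x hκ hρ0 hmρ hρr hrR hS hc
  obtain ⟨-, -, hne, ⟨w, hw1, hw2⟩, -⟩ := hO
  obtain ⟨u2, v2, b1, b2, b3, b4⟩ := cross_of hw2 hv (R := r) (by unfold Far at hw1 ⊢; omega) hρr
    hrR abv_HL
  have hcap : ω ∩ HL κ x R ∩ AL κ x ρ r = ω ∩ AL κ x ρ r := by
    rw [inter_assoc, inter_eq_right.2 (AL_sub_HL'.trans (HL_mono hrR))]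
  rw [hcap] at b3
  refine ⟨u1, u2, v1, v2, a1, a2, a3, b1, b2, b3, fun h => hne ?_, a5⟩
  have h1 : ω ∩ AL κ x ρ r ⊆ ω ∩ HL κ x R :=
    inter_subset_inter_left (AL_sub_HL'.trans (HL_mono hrR))
  exact (a4.trans (h.mono h1)).trans b4.symm

/-- the half box of a wall vertex -/
lemma HL_wall (hv : ht κ v = ht κ x) (hvR : inR x r v) (h1 : r + ρ ≤ R) : HL κ v ρ ⊆ HL κ x R := by
  intro l hl
  rw [mem_HL] at hl ⊢
  unfold ht at hv
  rw [inR_iff] at hvR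
  rw [hv] at hl
  omega

/-- the weight of the cluster of `v` -/
lemma oth_gS (h0 : 0 ≤ σ) (h1 : σ ≤ 1) (hO : Oth κ x r R ω v) (hρ : 1 ≤ ρ)
    (h2 : r + ρ ≤ R) :
    σ ^ (CS (FW κ x) (ω ∩ HL κ x R) v).ncard ≤ gS σ κ 1 v ρ ω := by
  obtain ⟨hv, hvr, -, ⟨w, hw1, hw2⟩, hl⟩ := hO
  have hsub : HL κ v ρ ⊆ HL κ x R := HL_wall hv hvr h2
  have hvR := hvr
  rw [inR_iff] at hvR
  have hW : W1 κ v ρ ω := by
    obtain ⟨w', hw3, hw4⟩ := open_exit (o := v) (M := ρ) hw2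
      (by rw [sub_self, sub_self, abs_zero]; omega) (by
        unfold Far at hw1
        rw [le_abs, le_abs] at hw1
        rw [le_abs, le_abs]
        omega)
    refine ⟨w', hw3, hw4.mono fun l hl => ?_⟩
    obtain ⟨g1, g2⟩ := mem_inter.1 hl
    obtain ⟨g3, g4⟩ := mem_inter.1 g1
    refine mem_inter.2 ⟨g3, mem_HL'.2 ⟨g2, ?_⟩⟩
    rw [hv]
    exact (mem_HL'.1 g4).2
  have hC : CC κ v ρ ω ⊆ CS (FW κ x) (ω ∩ HL κ x R) v := by
    intro y hy
    refine ⟨?_, hy.2.mono (inter_subset_inter_left hsub)⟩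
    show ht κ y = ht κ x
    rw [← hv]; exact hy.1
  have hS : Sd κ 1 v ρ ω := by
    refine ⟨hW, fun y hy => ?_⟩
    have := hl y (by rw [← hv]; exact hy.1) (hC hy).2
    omega
  have hfin : (CS (FW κ x) (ω ∩ HL κ x R) v).Finite := by
    refine Set.Finite.subset (s := ((Icc (x.1 - R) (x.1 + R) ×ˢ Icc (x.2 - R) (x.2 + R) :
      Finset (ℤ × ℤ)) : Set (ℤ × ℤ))) (Finset.finite_toSet _) fun y hy => ?_
    rw [mem_coe, mem_product, mem_Icc, mem_Icc]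
    by_cases hne : v = y
    · subst hne; omega
    · obtain ⟨p, h5, h6, -⟩ := end_in hy.2 hne
      have h7 := (BR_ends h5 (mem_HL'.1 (mem_inter.1 h6).2).1).2
      rw [inR_iff] at h7
      omega
  unfold gS
  rw [ind_true hS, mul_one]
  exact pow_le_pow_of_le_one h0 h1 (Set.ncard_le_ncard hC hfin)

/-! ### Three independent factors -/

lemma Ex_indep3 {α : Type*} [DecidableEq α] (q : α → ℝ) {E E1 E2 E3 : Finset α} (h1 : E1 ⊆ E)
    (h2 : E2 ⊆ E) (h3 : E3 ⊆ E) (d12 : Disjoint E1 E2) (d13 : Disjoint E1 E3)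
    (d23 : Disjoint E2 E3) (f g h : Finset α → ℝ) :
    Ex q E (fun ω => f (ω ∩ E1) * (g (ω ∩ E2) * h (ω ∩ E3))) =
      Ex q E1 f * (Ex q E2 g * Ex q E3 h) := by
  have e1 := Ex_indep q h1 (union_subset h2 h3) (disjoint_union_right.2 ⟨d12, d13⟩) f
    (fun ω => g (ω ∩ E2) * h (ω ∩ E3))
  have e2 := Ex_indep q (E := E2 ∪ E3) subset_union_left subset_union_right d23 g h
  rw [e2] at e1
  rw [← e1]
  refine Ex_congr fun ω _ => ?_
  have e3 : ω ∩ (E2 ∪ E3) ∩ E2 = ω ∩ E2 := by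
    rw [inter_assoc, inter_eq_right.2 subset_union_left]
  have e4 : ω ∩ (E2 ∪ E3) ∩ E3 = ω ∩ E3 := by
    rw [inter_assoc, inter_eq_right.2 subset_union_right]
  simp only [e3, e4]

/-! ### The two parts -/

/-- the near part -/
lemma near_part {C2 c : ℝ} (hT : ∀ κ : ℤ, (κ = 0 ∨ κ = 1) → ∀ (z : ℤ × ℤ) (ρ R : ℤ),
    1 ≤ ρ → 1 ≤ R → ∀ E : Finset (ℤ × ℤ), AL κ z ρ R ⊆ E →
    PrP hf E (TwoC κ z ρ R) ≤ C2 * ((ρ : ℝ) / R) ^ (2 + c)) (hκ : κ = 0 ∨ κ = 1) (h0 : 0 ≤ σ)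
    (hρ : 1 ≤ ρ) (hρr : ρ < r) (hrR : r ≤ R) :
    Ex hf (HL κ x R) (fun ω => gS σ κ 1 x ρ ω * ind (TwoC κ x ρ r ω)) ≤
      pS σ κ 1 ρ * (C2 * ((ρ : ℝ) / r) ^ (2 + c)) := by
  have hA : AL κ x ρ r ⊆ HL κ x R := AL_sub_HL'.trans (HL_mono hrR)
  have hd : Disjoint (HL κ x ρ) (AL κ x ρ r) := AL_HL_disj.symm
  have e1 := Ex_indep hf (E := HL κ x R) (HL_mono (hρr.le.trans hrR)) hA hd (gS σ κ 1 x ρ)
    (fun ω => ind (TwoC κ x ρ r ω))
  have e2 : Ex hf (HL κ x R) (fun ω => gS σ κ 1 x ρ ω * ind (TwoC κ x ρ r ω)) =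
      Ex hf (HL κ x R) (fun ω => gS σ κ 1 x ρ (ω ∩ HL κ x ρ) *
        ind (TwoC κ x ρ r (ω ∩ AL κ x ρ r))) := by
    refine Ex_congr fun ω _ => ?_
    rw [← gS_local]
    congr 1
    exact ind_congr TwoC_local
  rw [e2, e1, Ex_gS (Subset.refl _)]
  exact mul_le_mul_of_nonneg_left (hT κ hκ x ρ r hρ (by omega) _ (Subset.refl _)) (pS_nonneg h0)

/-- the far part -/
lemma far_part {C3 : ℝ} (hC3 : 1 ≤ C3) (hu3 : ∀ κ : ℤ, (κ = 0 ∨ κ = 1) → ∀ (z : ℤ × ℤ) (ρ R : ℤ),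
    1 ≤ ρ → 1 ≤ R → u3 κ z ρ R ≤ C3 * ((ρ : ℝ) / R) ^ 2) (hκ : κ = 0 ∨ κ = 1) (h0 : 0 ≤ σ)
    (hρ : 1 ≤ ρ) (hv : ht κ v = ht κ x) (hvt : |v.1 - x.1| = t) (hρt : 2 * ρ < t)
    (htr : t ≤ r) (hrR : 2 * r ≤ R) :
    Ex hf (HL κ x R) (fun ω => gS σ κ 1 x ρ ω * (gS σ κ 1 v ρ ω *
        ind (2 * t < r → U3 κ x (2 * t) r ω))) ≤
      pS σ κ 1 ρ * (pS σ κ 1 ρ * (C3 * (2 * (t : ℝ) / r) ^ 2)) := by
  have hvR : inR x t v := by
    have h1 := abs_le.1 hvt.le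
    rw [inR_iff]
    unfold ht at hv
    rcases hκ with rfl | rfl <;> omega
  have hsv : HL κ v ρ ⊆ HL κ x R := HL_wall hv hvR (by omega)
  have hp : 0 ≤ pS σ κ 1 ρ := pS_nonneg h0
  have ht0 : (0 : ℝ) < t := by exact_mod_cast (by omega : (0 : ℤ) < t)
  have hr0 : (0 : ℝ) < r := by exact_mod_cast (by omega : (0 : ℤ) < r)
  have d12 : Disjoint (HL κ x ρ) (HL κ v ρ) := by
    rw [disjoint_left]
    intro l h1 h2
    rw [mem_HL] at h1 h2
    have h3 : t ≤ v.1 - x.1 ∨ t ≤ -(v.1 - x.1) := by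
      rw [← hvt]
      exact le_abs.1 le_rfl
    omega
  by_cases htr2 : 2 * t < r
  · have hA : AL κ x (2 * t) r ⊆ HL κ x R := AL_sub_HL'.trans (HL_mono (by omega))
    have d13 : Disjoint (HL κ x ρ) (AL κ x (2 * t) r) :=
      (AL_HL_disj (κ := κ) (w := x) (ρ := 2 * t) (R := r)).symm.mono_left (HL_mono (by omega))
    have d23 : Disjoint (HL κ v ρ) (AL κ x (2 * t) r) := by
      refine (AL_HL_disj (κ := κ) (w := x) (ρ := 2 * t) (R := r)).symm.mono_left ?_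
      exact HL_wall hv hvR (by omega)
    have e1 := Ex_indep3 hf (E := HL κ x R) (HL_mono (by omega : ρ ≤ R)) hsv hA d12 d13 d23
      (gS σ κ 1 x ρ) (gS σ κ 1 v ρ) (fun ω => ind (U3 κ x (2 * t) r ω))
    have e2 : Ex hf (HL κ x R) (fun ω => gS σ κ 1 x ρ ω * (gS σ κ 1 v ρ ω *
        ind (2 * t < r → U3 κ x (2 * t) r ω))) =
        Ex hf (HL κ x R) (fun ω => gS σ κ 1 x ρ (ω ∩ HL κ x ρ) * (gS σ κ 1 v ρ (ω ∩ HL κ v ρ) *
        ind (U3 κ x (2 * t) r (ω ∩ AL κ x (2 * t) r)))) := by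
      refine Ex_congr fun ω _ => ?_
      rw [← gS_local, ← gS_local]
      congr 2
      refine ind_congr ?_
      rw [← U3_local]
      exact ⟨fun h => h htr2, fun h _ => h⟩
    rw [e2, e1, Ex_gS (Subset.refl _), Ex_gS (Subset.refl _)]
    refine mul_le_mul_of_nonneg_left (mul_le_mul_of_nonneg_left ?_ hp) hp
    have h1 := hu3 κ hκ x (2 * t) r (by omega) (by omega)
    have h2 : Ex hf (AL κ x (2 * t) r) (fun ω => ind (U3 κ x (2 * t) r ω)) =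
        u3 κ x (2 * t) r := by
      have h3 := hf_Pr (AL κ x (2 * t) r) (U3 κ x (2 * t) r)
      unfold u3
      rw [← h3]
      rfl
    rw [h2]
    push_cast at h1
    exact h1
  · have e1 := Ex_indep hf (E := HL κ x R) (HL_mono (by omega : ρ ≤ R)) hsv d12
      (gS σ κ 1 x ρ) (gS σ κ 1 v ρ)
    have e2 : Ex hf (HL κ x R) (fun ω => gS σ κ 1 x ρ ω * (gS σ κ 1 v ρ ω *
        ind (2 * t < r → U3 κ x (2 * t) r ω))) =
        Ex hf (HL κ x R) (fun ω => gS σ κ 1 x ρ (ω ∩ HL κ x ρ) *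
          gS σ κ 1 v ρ (ω ∩ HL κ v ρ)) := by
      refine Ex_congr fun ω _ => ?_
      rw [← gS_local, ← gS_local, ind_true (fun h => absurd h htr2), mul_one]
    rw [e2, e1, Ex_gS (Subset.refl _), Ex_gS (Subset.refl _)]
    refine mul_le_mul_of_nonneg_left ?_ hp
    have h1 : (1 : ℝ) ≤ 2 * (t : ℝ) / r := by
      rw [le_div_iff₀ hr0, one_mul]
      push Not at htr2
      exact_mod_cast htr2
    have h2 : (1 : ℝ) ≤ C3 * (2 * (t : ℝ) / r) ^ 2 := by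
      have h3 : (1 : ℝ) ≤ (2 * (t : ℝ) / r) ^ 2 := one_le_pow₀ h1
      nlinarith only [h3, hC3]
    nlinarith only [h2, hp]

/-- **Clusters with a contact which is connected only from outside.** -/
theorem loc_tail : ∃ K C β : ℝ, 0 < K ∧ 0 < C ∧ 0 < β ∧ ∀ κ : ℤ, (κ = 0 ∨ κ = 1) →
    ∀ σ : ℝ, 1 / 4 ≤ σ → σ < 1 → ∀ a0 : ℤ, 2 ≤ a0 → K ≤ (1 - σ) ^ ((3 : ℝ) / 2) * a0 →
    ∀ (x : ℤ × ℤ) (m r R : ℤ), a0 ≤ m → m ≤ r → 2 * r ≤ R → R ≤ 8 * r →
    ∀ f : Finset (ℤ × ℤ) → ℝ,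
    (∀ ω, ω ⊆ HL κ x R → f ω ≠ 0 → Sd κ 1 x R ω ∧ (∀ y ∈ CC κ x r ω, y.1 - x.1 ≤ m) ∧
      ∃ v, Oth κ x r R ω v ∧
        f ω ≤ σ ^ (CC κ x R ω).ncard * σ ^ (CS (FW κ x) (ω ∩ HL κ x R) v).ncard) →
    Ex hf (HL κ x R) f ≤ C * (((a0 : ℝ) / m) ^ β + ((m : ℝ) / R) ^ β) * a0 / (R : ℝ) ^ 2 := by
  obtain ⟨K, C1, hK, hC1, hmass⟩ := mass_le
  obtain ⟨C2, c, hC2, hc0, hc1, hT⟩ := twoC_pow
  obtain ⟨C3', hC3', hu3'⟩ := u3_le
  set C3 := max C3' 1 with hC3d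
  have hC3 : 1 ≤ C3 := le_max_right _ _
  have hu3 : ∀ κ : ℤ, (κ = 0 ∨ κ = 1) → ∀ (z : ℤ × ℤ) (ρ R : ℤ), 1 ≤ ρ → 1 ≤ R →
      u3 κ z ρ R ≤ C3 * ((ρ : ℝ) / R) ^ 2 := fun κ hκ z ρ R h1 h2 =>
    (hu3' κ hκ z ρ R h1 h2).trans (mul_le_mul_of_nonneg_right (le_max_left _ _) (by positivity))
  clear_value C3
  set Ca : ℝ := C1 * (64 * C2 + 1) * 24 ^ c with hCa
  set Cb : ℝ := 2 ^ 18 * C1 ^ 2 * C3 with hCb
  have hCa0 : 0 < Ca := by positivity
  have hCb0 : 0 < Cb := by positivity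
  refine ⟨K, Ca + Cb, c, hK, by positivity, hc0, ?_⟩
  intro κ hκ σ hσ1 hσ2 a0 ha0 hKa x m r R ham hmr hrR hR8 f hf'
  have hσ0 : 0 ≤ σ := by linarith
  have ha0R : (2 : ℝ) ≤ a0 := by exact_mod_cast ha0
  have hm0 : (0 : ℝ) < m := by exact_mod_cast (by omega : (0 : ℤ) < m)
  have hr0 : (0 : ℝ) < r := by exact_mod_cast (by omega : (0 : ℤ) < r)
  have hR0 : (0 : ℝ) < R := by exact_mod_cast (by omega : (0 : ℤ) < R)
  have hR8' : (R : ℝ) ≤ 8 * r := by exact_mod_cast hR8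
  -- the two parts
  set A : Finset (ℤ × ℤ) → ℝ := fun ω => if 3 * m < r then
    gS σ κ 1 x (3 * m) ω * ind (TwoC κ x (3 * m) r ω) else gS σ κ 1 x R ω with hA
  set G : ℤ → Finset (ℤ × ℤ) → ℝ := fun t ω => gS σ κ 1 x ((|t| - 1) / 2) ω *
    (gS σ κ 1 (wp κ x t) ((|t| - 1) / 2) ω *
      ind (2 * |t| < r → U3 κ x (2 * |t|) r ω)) with hG
  have hG0 : ∀ t ω, 0 ≤ G t ω := fun t ω =>
    mul_nonneg (gS_nonneg hσ0) (mul_nonneg (gS_nonneg hσ0) (ind_nonneg _))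
  have hA0 : ∀ ω, 0 ≤ A ω := by
    intro ω
    simp only [hA]
    split_ifs
    · exact mul_nonneg (gS_nonneg hσ0) (ind_nonneg _)
    · exact gS_nonneg hσ0
  have hpt : ∀ ω, ω ⊆ HL κ x R → f ω ≤ A ω + ∑ t ∈ Icc (2 * m + 1) r, (G t ω + G (-t) ω) := by
    intro ω hω
    have hsum0 : 0 ≤ ∑ t ∈ Icc (2 * m + 1) r, (G t ω + G (-t) ω) :=
      sum_nonneg fun t _ => add_nonneg (hG0 _ _) (hG0 _ _)
    by_cases hf0 : f ω = 0
    · rw [hf0]; exact add_nonneg (hA0 _) hsum0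
    obtain ⟨hS, hc, v, hO, hle⟩ := hf' ω hω hf0
    have hw1 : σ ^ (CS (FW κ x) (ω ∩ HL κ x R) v).ncard ≤ 1 := pow_le_one₀ hσ0 hσ2.le
    have hw0 : 0 ≤ σ ^ (CS (FW κ x) (ω ∩ HL κ x R) v).ncard := pow_nonneg hσ0 _
    have hgR : σ ^ (CC κ x R ω).ncard = gS σ κ 1 x R ω := by
      unfold gS; rw [ind_true hS, mul_one]
    by_cases hnear : |v.1 - x.1| ≤ 2 * m
    · -- near
      refine le_trans ?_ (le_add_of_nonneg_right hsum0)
      simp only [hA]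
      have h1 : f ω ≤ gS σ κ 1 x R ω := by
        rw [← hgR]
        refine hle.trans ?_
        have := pow_nonneg hσ0 (CC κ x R ω).ncard
        nlinarith
      split_ifs with h3m
      · have hvin : inR x (3 * m) v := by
          have h2 := abs_le.1 hnear
          have h3 := hO.1
          unfold ht at h3
          rw [inR_iff]
          rcases hκ with rfl | rfl <;> omega
        have hTw : TwoC κ x (3 * m) r ω :=
          two_x hκ (by omega) (by omega) h3m (by omega) hS hc hO hvin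
        rw [ind_true hTw, mul_one]
        exact h1.trans (gS_mono hκ hσ0 hσ2.le (by omega) (by omega))
      · exact h1
    · -- far
      push Not at hnear
      refine le_trans ?_ (le_add_of_nonneg_left (hA0 _))
      set t0 : ℤ := v.1 - x.1 with ht0
      have hvr := hO.2.1
      rw [inR_iff] at hvr
      have ht0r : |t0| ≤ r := by rw [abs_le]; omega
      have hv0 : v = wp κ x t0 := by
        have := of_ht (x0 := x) hO.1
        rwa [← ht0] at this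
      have hU : 2 * |t0| < r → U3 κ x (2 * |t0|) r ω := fun h1 =>
        U3_x hκ (by omega) (by omega) h1 (by omega) hS hc
      have hρ1 : 1 ≤ (|t0| - 1) / 2 := by omega
      have hkey : f ω ≤ G t0 ω := by
        simp only [hG]
        rw [ind_true hU, mul_one, ← hv0]
        refine hle.trans (mul_le_mul ?_ (oth_gS hσ0 hσ2.le hO hρ1 (by omega)) hw0
          (gS_nonneg hσ0))
        rw [hgR]
        exact gS_mono hκ hσ0 hσ2.le hρ1 (by omega)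
      have hmem : |t0| ∈ Icc (2 * m + 1) r := mem_Icc.2 ⟨by omega, ht0r⟩
      refine le_trans ?_ (single_le_sum (f := fun t => G t ω + G (-t) ω)
        (fun t _ => add_nonneg (hG0 _ _) (hG0 _ _)) hmem)
      rcases abs_choice t0 with h4 | h4
      · rw [h4]
        exact hkey.trans (le_add_of_nonneg_right (hG0 _ _))
      · rw [h4, neg_neg]
        exact hkey.trans (le_add_of_nonneg_left (hG0 _ _))
  -- expectations
  have hEA : Ex hf (HL κ x R) A ≤ Ca * ((m : ℝ) / R) ^ c * a0 / (R : ℝ) ^ 2 := by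
    have h24 : (0 : ℝ) < 24 ^ c := by positivity
    simp only [hA]
    by_cases h3m : 3 * m < r
    · simp only [if_pos h3m]
      refine (near_part hT hκ hσ0 (by omega) h3m (by omega)).trans ?_
      have h1 := hmass κ hκ 1 (Or.inl rfl) σ hσ1 hσ2 a0 ha0 hKa (3 * m) (by omega)
      push_cast at h1 ⊢
      have hpow : (3 * (m : ℝ) / r) ^ (2 + c) ≤ (3 * (m : ℝ) / r) ^ 2 * (24 ^ c * ((m : ℝ) / R) ^ c) := by
        rw [Real.rpow_add (by positivity), Real.rpow_two]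
        refine mul_le_mul_of_nonneg_left ?_ (by positivity)
        rw [← Real.mul_rpow (by norm_num) (by positivity)]
        refine Real.rpow_le_rpow (by positivity) ?_ hc0.le
        rw [← mul_div_assoc, div_le_div_iff₀ hr0 hR0]
        nlinarith
      calc pS σ κ 1 (3 * m) * (C2 * (3 * (m : ℝ) / r) ^ (2 + c))
          ≤ C1 * a0 / (3 * (m : ℝ)) ^ 2 *
            (C2 * ((3 * (m : ℝ) / r) ^ 2 * (24 ^ c * ((m : ℝ) / R) ^ c))) :=
            mul_le_mul h1 (mul_le_mul_of_nonneg_left hpow hC2.le)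
              (mul_nonneg hC2.le (Real.rpow_nonneg (by positivity) _)) (by positivity)
        _ = C1 * C2 * 24 ^ c * ((m : ℝ) / R) ^ c * a0 / (r : ℝ) ^ 2 := by
            field_simp
        _ ≤ C1 * C2 * 24 ^ c * ((m : ℝ) / R) ^ c * a0 * (64 / (R : ℝ) ^ 2) := by
            rw [div_eq_mul_one_div]
            refine mul_le_mul_of_nonneg_left ?_ (by positivity)
            rw [div_le_div_iff₀ (by positivity) (by positivity)]
            nlinarith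
        _ = C1 * (64 * C2) * 24 ^ c * ((m : ℝ) / R) ^ c * a0 / (R : ℝ) ^ 2 := by ring
        _ ≤ Ca * ((m : ℝ) / R) ^ c * a0 / (R : ℝ) ^ 2 := by
            rw [hCa]
            refine div_le_div_of_nonneg_right ?_ (by positivity)
            refine mul_le_mul_of_nonneg_right ?_ (by positivity)
            refine mul_le_mul_of_nonneg_right ?_ (by positivity)
            refine mul_le_mul_of_nonneg_right ?_ (by positivity)
            nlinarith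
    · simp only [if_neg h3m]
      have h1 := hmass κ hκ 1 (Or.inl rfl) σ hσ1 hσ2 a0 ha0 hKa R (by omega)
      have h2 : Ex hf (HL κ x R) (fun ω => gS σ κ 1 x R ω) = pS σ κ 1 R := Ex_gS (Subset.refl _)
      rw [h2]
      refine h1.trans (div_le_div_of_nonneg_right ?_ (by positivity))
      refine mul_le_mul_of_nonneg_right ?_ (by positivity)
      have h3 : (1 : ℝ) ≤ 24 ^ c * ((m : ℝ) / R) ^ c := by
        rw [← Real.mul_rpow (by norm_num) (by positivity)]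
        refine Real.one_le_rpow ?_ hc0.le
        rw [← mul_div_assoc, le_div_iff₀ hR0, one_mul]
        have h4 : (r : ℝ) ≤ 3 * m := by exact_mod_cast (not_lt.1 h3m)
        linarith
      calc C1 = C1 * 1 * 1 := by ring
        _ ≤ C1 * (64 * C2 + 1) * (24 ^ c * ((m : ℝ) / R) ^ c) := by
            refine mul_le_mul ?_ h3 (by norm_num) (by positivity)
            nlinarith
        _ = _ := by rw [hCa]; ring
  have hEG : ∀ t : ℤ, 2 * m + 1 ≤ |t| → |t| ≤ r → Ex hf (HL κ x R) (G t) ≤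
      Cb / 64 / 4 * ((a0 : ℝ) ^ 2 / (r : ℝ) ^ 2) * (1 / (|t| : ℝ) ^ 2) := by
    intro t ht1 ht2
    set ρ : ℤ := (|t| - 1) / 2 with hρ
    have hρ1 : 1 ≤ ρ := by omega
    have hρa : a0 ≤ ρ := by omega
    have h1 := far_part (v := wp κ x t) (t := |t|) (ρ := ρ) (r := r) (R := R) (x := x) hC3 hu3 hκ
      hσ0 hρ1 htw (by rw [wp_fst]; congr 1; ring) (by omega) ht2 hrR
    have h2 := hmass κ hκ 1 (Or.inl rfl) σ hσ1 hσ2 a0 ha0 hKa ρ hρa
    have hp := pS_nonneg (κ := κ) (s := 1) (R := ρ) hσ0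
    have hρ0 : (0 : ℝ) < ρ := by exact_mod_cast (by omega : (0 : ℤ) < ρ)
    have ht0 : (0 : ℝ) < |(t : ℝ)| := by
      have : (0 : ℤ) < |t| := by omega
      exact_mod_cast this
    have hρt : |(t : ℝ)| ≤ 4 * ρ := by
      have : |t| ≤ 4 * ρ := by omega
      exact_mod_cast this
    have h3 : C1 * a0 / (ρ : ℝ) ^ 2 ≤ 16 * C1 * a0 / |(t : ℝ)| ^ 2 := by
      rw [div_le_div_iff₀ (by positivity) (by positivity)]
      have h4 : |(t : ℝ)| ^ 2 ≤ 16 * (ρ : ℝ) ^ 2 := by nlinarith only [hρt, ht0, hρ0]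
      have h5 : 0 ≤ C1 * a0 := by positivity
      nlinarith only [mul_le_mul_of_nonneg_left h4 h5]
    refine h1.trans ?_
    push_cast
    have h6 : pS σ κ 1 ρ ≤ 16 * C1 * a0 / |(t : ℝ)| ^ 2 := h2.trans h3
    calc pS σ κ 1 ρ * (pS σ κ 1 ρ * (C3 * (2 * |(t : ℝ)| / r) ^ 2))
        ≤ 16 * C1 * a0 / |(t : ℝ)| ^ 2 * (16 * C1 * a0 / |(t : ℝ)| ^ 2 *
          (C3 * (2 * |(t : ℝ)| / r) ^ 2)) := by
          have h7 : 0 ≤ C3 * (2 * |(t : ℝ)| / r) ^ 2 := mul_nonneg (by linarith) (sq_nonneg _)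
          exact mul_le_mul h6 (mul_le_mul_of_nonneg_right h6 h7) (mul_nonneg hp h7) (hp.trans h6)
      _ = Cb / 64 / 4 * ((a0 : ℝ) ^ 2 / (r : ℝ) ^ 2) * (1 / (|(t : ℝ)|) ^ 2) := by
          rw [hCb]
          field_simp
          ring
  have hEsum : Ex hf (HL κ x R) (fun ω => ∑ t ∈ Icc (2 * m + 1) r, (G t ω + G (-t) ω)) ≤
      Cb * ((a0 : ℝ) / m) ^ c * a0 / (R : ℝ) ^ 2 := by
    rw [Ex_sum]
    have h1 : ∀ t ∈ Icc (2 * m + 1) r, Ex hf (HL κ x R) (fun ω => G t ω + G (-t) ω) ≤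
        2 * (Cb / 64 / 4 * ((a0 : ℝ) ^ 2 / (r : ℝ) ^ 2)) * (1 / (t : ℝ) ^ 2) := by
      intro t ht
      rw [mem_Icc] at ht
      rw [Ex_add]
      have h2 := hEG t (by rw [abs_of_nonneg (by omega)]; omega)
        (by rw [abs_of_nonneg (by omega)]; omega)
      have h3 := hEG (-t) (by rw [abs_neg, abs_of_nonneg (by omega)]; omega)
        (by rw [abs_neg, abs_of_nonneg (by omega)]; omega)
      have h4 : |(t : ℝ)| = t := abs_of_nonneg (by exact_mod_cast (by omega : (0 : ℤ) ≤ t))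
      push_cast at h2 h3
      rw [abs_neg] at h3
      rw [h4] at h2 h3
      linarith
    refine (sum_le_sum h1).trans ?_
    rw [← mul_sum]
    have h5 := sum_inv_sq (K := 2 * m + 1) (by omega) r
    have hX : 0 ≤ 2 * (Cb / 64 / 4 * ((a0 : ℝ) ^ 2 / (r : ℝ) ^ 2)) := by positivity
    refine (mul_le_mul_of_nonneg_left h5 hX).trans ?_
    have h6 : ((a0 : ℝ) / m) ≤ ((a0 : ℝ) / m) ^ c := by
      have h7 : (a0 : ℝ) / m ≤ 1 := by
        rw [div_le_one hm0]; exact_mod_cast ham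
      calc (a0 : ℝ) / m = ((a0 : ℝ) / m) ^ (1 : ℝ) := (Real.rpow_one _).symm
        _ ≤ ((a0 : ℝ) / m) ^ c := Real.rpow_le_rpow_of_exponent_ge (by positivity) h7 hc1
    have h8 : 1 / (r : ℝ) ^ 2 ≤ 64 / (R : ℝ) ^ 2 := by
      rw [div_le_div_iff₀ (by positivity) (by positivity)]
      nlinarith
    push_cast
    calc 2 * (Cb / 64 / 4 * ((a0 : ℝ) ^ 2 / (r : ℝ) ^ 2)) * (2 / (2 * (m : ℝ) + 1))
        ≤ 2 * (Cb / 64 / 4 * ((a0 : ℝ) ^ 2 / (r : ℝ) ^ 2)) * (1 / (m : ℝ)) := by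
          refine mul_le_mul_of_nonneg_left ?_ hX
          rw [div_le_div_iff₀ (by positivity) hm0]
          linarith
      _ = Cb / 128 * ((a0 : ℝ) / m) * a0 * (1 / (r : ℝ) ^ 2) := by ring
      _ ≤ Cb / 128 * ((a0 : ℝ) / m) ^ c * a0 * (64 / (R : ℝ) ^ 2) := by
          refine mul_le_mul ?_ h8 (by positivity) (by positivity)
          refine mul_le_mul_of_nonneg_right ?_ (by positivity)
          exact mul_le_mul_of_nonneg_left h6 (by positivity)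
      _ = Cb / 2 * ((a0 : ℝ) / m) ^ c * a0 / (R : ℝ) ^ 2 := by ring
      _ ≤ Cb * ((a0 : ℝ) / m) ^ c * a0 / (R : ℝ) ^ 2 := by
          refine div_le_div_of_nonneg_right ?_ (by positivity)
          refine mul_le_mul_of_nonneg_right ?_ (by positivity)
          refine mul_le_mul_of_nonneg_right ?_ (by positivity)
          linarith
  have h1 := Ex_mono hf_Pb hpt
  rw [Ex_add] at h1
  have hx1 : 0 ≤ ((a0 : ℝ) / m) ^ c := by positivity
  have hx2 : 0 ≤ ((m : ℝ) / R) ^ c := by positivity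
  calc Ex hf (HL κ x R) f ≤ Ca * ((m : ℝ) / R) ^ c * a0 / (R : ℝ) ^ 2 +
        Cb * ((a0 : ℝ) / m) ^ c * a0 / (R : ℝ) ^ 2 := h1.trans (add_le_add hEA hEsum)
    _ = (Ca * ((m : ℝ) / R) ^ c + Cb * ((a0 : ℝ) / m) ^ c) * (a0 / (R : ℝ) ^ 2) := by ring
    _ ≤ ((Ca + Cb) * (((a0 : ℝ) / m) ^ c + ((m : ℝ) / R) ^ c)) * (a0 / (R : ℝ) ^ 2) := by
        refine mul_le_mul_of_nonneg_right ?_ (by positivity)
        nlinarith [mul_nonneg hCa0.le hx1, mul_nonneg hCb0.le hx2]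
    _ = _ := by ring

end Pool.Agent.Q1.M6e
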