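import Mathlib
import Pool.Agent.Q1.M6e.LocTail
import Pool.Agent.H20.Q1.MxUa

set_option autoImplicit false
open Finset

/-!
# Clusters with a distant contact: local part

`rmf σ Wv x m R` : weight `σ ^ (number of contacts)` of the cluster of `x` in a layer which is flat in the box of
radius `R` around `x`, if `x` is its leftmost contact, one contact is at distance more than `m` and the cluster
reaches distance `R`. `rem_pt`, `gl_le` : up to `C ((a0/m)^β + (m/R)^β) a0/R²` one contact is at distance of order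
`R`.
-/

namespace Pool.Agent.Q1.M6e

open Pool.Agent.H75.Perc Pool.Agent.H75.TwoArm Pool.Agent.H75.Four Pool.Agent.H49.Perc
open Pool.Agent.H99.NC Pool.Agent.H60.Q1 Pool.Agent.H20.Q1 Pool.Agent.H59.Q1 Pool.Agent.Q1

variable {σ : ℝ} {κ : ℤ} {x v y u : ℤ × ℤ} {m r r1 r2 R : ℤ} {η θ ω L : Finset (ℤ × ℤ)}
  {Wv : ℤ × ℤ → Prop}

/-- the functional of the remainder -/
noncomputable def rmf (σ : ℝ) (Wv : ℤ × ℤ → Prop) (x : ℤ × ℤ) (m R : ℤ) (η : Finset (ℤ × ℤ)) : ℝ :=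
  σ ^ (CS Wv η x).ncard *
    ind ((∀ v ∈ CS Wv η x, x.1 ≤ v.1) ∧ (∃ v ∈ CS Wv η x, ¬ inR x m v) ∧ Rch x x R η)

/-- the local part: a distant contact in the half box, or a contact connected from outside -/
noncomputable def gl (σ : ℝ) (κ : ℤ) (Wv : ℤ × ℤ → Prop) (x : ℤ × ℤ) (m r1 r2 R : ℤ)
    (η : Finset (ℤ × ℤ)) : ℝ :=
  gS σ κ 1 x R η * ind (∃ w ∈ Pool.Agent.H59.Q1.CC κ x r2 η, m < w.1 - x.1) +
    σ ^ (CS Wv η x).ncard * ind ((∀ v ∈ CS Wv η x, x.1 ≤ v.1) ∧ Rch x x R η ∧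
      (∀ y ∈ Pool.Agent.H59.Q1.CC κ x r1 η, y.1 - x.1 ≤ m) ∧ ∃ v ∈ CS Wv η x, Oth κ x r1 r2 η v)

/-- the vertices of a cluster are finitely many -/
lemma co_fin (η : Finset (ℤ × ℤ)) (x : ℤ × ℤ) : {v | Co η x v}.Finite := by
  classical
  refine Set.Finite.subset (s := ((insert x ((η ×ˢ (Icc (-1 : ℤ) 1 ×ˢ Icc (-1 : ℤ) 1)).image
    (fun p => ((p.1.1 + p.2.1) / 2, (p.1.2 + p.2.2) / 2))) : Finset (ℤ × ℤ)) : Set (ℤ × ℤ)))
    (Finset.finite_toSet _) fun v hv => ?_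
  rw [mem_coe, mem_insert]
  by_cases h : x = v
  · exact Or.inl h.symm
  · right
    obtain ⟨p, h1, h2, -⟩ := end_in hv h
    rw [mem_image]
    refine ⟨(p + v, v - p), ?_, ?_⟩
    · rw [mem_product, mem_product, mem_Icc, mem_Icc]
      have := unit_cases h1
      simp only [Prod.fst_sub, Prod.snd_sub]
      exact ⟨h2, by omega, by omega⟩
    · refine Prod.ext ?_ ?_
      · simp only [Prod.fst_add, Prod.fst_sub]; omega
      · simp only [Prod.snd_add, Prod.snd_sub]; omega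

lemma cs_fin (Wv : ℤ × ℤ → Prop) (η : Finset (ℤ × ℤ)) (x : ℤ × ℤ) : (CS Wv η x).Finite :=
  (co_fin η x).subset fun _ h => h.2

/-- vertices of the cluster near `x` are above the wall -/
lemma co_abv (hκ : κ = 0 ∨ κ = 1) (hE : Env κ x R L Wv) (hη : η ⊆ L) (h : Co η x v)
    (hv : inR x (R - 1) v) : ht κ x ≤ ht κ v := by
  by_cases hne : x = v
  · rw [← hne]
  · obtain ⟨p, h1, h2, -⟩ := end_in h hne
    have h3 : p + v ∈ BR x R := by
      refine BR_of_ends h1 ?_ ?_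
      · rw [inR_iff] at hv ⊢
        have := unit_cases h1
        omega
      · rw [inR_iff] at hv ⊢; omega
    exact (above_ends hκ h1 (hE.abv _ (hη h2) h3)).2

/-- exit from a box by labels of the half box -/
lemma exit_HL (hE : Env κ x R L Wv) (hη : η ⊆ L) (hr : r ≤ R) (h : Co η v u)
    (hv : inR x (r - 1) v) (hu : Far x r u) : ∃ u', Far x r u' ∧ Co (η ∩ HL κ x r) v u' := by
  rw [inR_iff] at hv
  obtain ⟨v', h1, h2⟩ := open_exit (o := x) (M := r) h (by rw [abs_lt, abs_lt]; omega) hu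
  refine ⟨v', h1, h2.mono fun l hl => ?_⟩
  obtain ⟨h4, h5⟩ := mem_inter.1 hl
  exact mem_inter.2 ⟨h4, hE.cap hη hr h4 h5⟩

lemma Wv_iff (hκ : κ = 0 ∨ κ = 1) (hE : Env κ x R L Wv) (hη : η ⊆ L) (h : Co η x v)
    (hv : inR x (R - 1) v) : Wv v ↔ ht κ v = ht κ x :=
  hE.flat v (by rw [inR_iff] at hv ⊢; omega) (co_abv hκ hE hη h hv)

/-- the contacts in the half box -/
lemma CC_sub (hκ : κ = 0 ∨ κ = 1) (hE : Env κ x R L Wv) (hr : r ≤ R) (hr0 : 0 ≤ r) :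
    CC κ x r η ⊆ CS Wv η x := by
  intro y hy
  have h1 := co_HL_reg hκ hr0 hy.2
  refine ⟨(hE.flat y ?_ h1.1).2 hy.1, hy.2.mono inter_subset_left⟩
  have := h1.2
  rw [inR_iff] at this ⊢; omega

lemma gS_of (hκ : κ = 0 ∨ κ = 1) (h0 : 0 ≤ σ) (h1 : σ ≤ 1) (hE : Env κ x R L Wv) (hη : η ⊆ L)
    (hR : 1 ≤ R) (hf : ∀ v ∈ CS Wv η x, x.1 ≤ v.1) (hr : Rch x x R η) :
    σ ^ (CS Wv η x).ncard ≤ gS σ κ 1 x R η := by
  obtain ⟨u, hu1, hu2⟩ := hr
  obtain ⟨u', h2, h3⟩ := exit_HL hE hη le_rfl hu2 (by rw [inR_iff]; omega) hu1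
  have hS : Sd κ 1 x R η := ⟨⟨u', h2, h3⟩, fun y hy => by
    have := hf y (CC_sub hκ hE le_rfl (by omega) hy)
    omega⟩
  unfold gS
  rw [ind_true hS, mul_one]
  exact pow_le_pow_of_le_one h0 h1 (Set.ncard_le_ncard (CC_sub hκ hE le_rfl (by omega)) (cs_fin _ _ _))

/-- outer labels first -/
lemma Ex_union_comm_split {E E1 : Finset (ℤ × ℤ)} (h : E1 ⊆ E) {f : Finset (ℤ × ℤ) → ℝ} :
    Ex hf (E \ E1) (fun θ => Ex hf E1 (fun ω => f (θ ∪ ω))) = Ex hf E f := by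
  rw [← Ex_union hf (disjoint_sdiff (s := E1) (t := E)).symm, sdiff_union_of_subset h]

/-- **the cases** -/
theorem rem_pt (hκ : κ = 0 ∨ κ = 1) (h0 : 0 ≤ σ) (h1 : σ ≤ 1) (hE : Env κ x R L Wv) (hη : η ⊆ L)
    (hr1 : 1 ≤ r1) (hmr : m ≤ r1) (hr12 : r1 < r2) (hr2 : r2 < R) (hm : 0 ≤ m) :
    rmf σ Wv x m R η ≤ rmf σ Wv x r1 R η + gl σ κ Wv x m r1 r2 R η := by
  unfold gl
  have n1 : 0 ≤ rmf σ Wv x r1 R η := mul_nonneg (pow_nonneg h0 _) (ind_nonneg _)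
  have n2 : 0 ≤ gS σ κ 1 x R η * ind (∃ w ∈ CC κ x r2 η, m < w.1 - x.1) :=
    mul_nonneg (gS_nonneg h0) (ind_nonneg _)
  have n3 : 0 ≤ σ ^ (CS Wv η x).ncard * ind ((∀ v ∈ CS Wv η x, x.1 ≤ v.1) ∧ Rch x x R η ∧
        (∀ y ∈ CC κ x r1 η, y.1 - x.1 ≤ m) ∧ ∃ v ∈ CS Wv η x, Oth κ x r1 r2 η v) :=
    mul_nonneg (pow_nonneg h0 _) (ind_nonneg _)
  by_cases hc : (∀ v ∈ CS Wv η x, x.1 ≤ v.1) ∧ (∃ v ∈ CS Wv η x, ¬ inR x m v) ∧ Rch x x R η
  swap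
  · have : rmf σ Wv x m R η = 0 := by
      unfold rmf; rw [ind_false hc, mul_zero]
    rw [this]; linarith
  have hrm : rmf σ Wv x m R η = σ ^ (CS Wv η x).ncard := by
    unfold rmf; rw [ind_true hc, mul_one]
  obtain ⟨g1, ⟨y0, g2, g3⟩, g4⟩ := hc
  rw [hrm]
  by_cases c1 : ∃ w ∈ CC κ x r2 η, m < w.1 - x.1
  · rw [ind_true c1, mul_one] at n2 ⊢
    have := gS_of hκ h0 h1 hE hη (by omega) g1 g4
    linarith
  by_cases c3 : ∃ v ∈ CS Wv η x, ¬ inR x r1 v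
  · have : rmf σ Wv x r1 R η = σ ^ (CS Wv η x).ncard := by
      unfold rmf; rw [ind_true ⟨g1, c3, g4⟩, mul_one]
    linarith
  push Not at c1 c3
  have c4 : (∀ v ∈ CS Wv η x, x.1 ≤ v.1) ∧ Rch x x R η ∧
        (∀ y ∈ CC κ x r1 η, y.1 - x.1 ≤ m) ∧ ∃ v ∈ CS Wv η x, Oth κ x r1 r2 η v := by
    refine ⟨g1, g4, fun y hy => c1 y (CC_mono hr12.le hy), ?_⟩
    -- the contact `y0` is not in the local cluster
    have hy0r : inR x (R - 1) y0 := by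
      have := c3 y0 g2
      rw [inR_iff] at this ⊢; omega
    have hy0w : ht κ y0 = ht κ x := (Wv_iff hκ hE hη g2.2 hy0r).1 g2.1
    have hy0n : ¬ Co (η ∩ HL κ x r2) x y0 := by
      intro h
      have h2 := c1 y0 ⟨hy0w, h⟩
      have h3 := g1 y0 g2
      apply g3
      rw [inR_iff]
      unfold ht at hy0w
      rcases hκ with rfl | rfl <;> omega
    -- its local cluster
    set Y : Set (ℤ × ℤ) := {y | ht κ y = ht κ x ∧ Co (η ∩ HL κ x r2) y0 y} with hY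
    have hYf : Y.Finite := (co_fin _ y0).subset fun _ h => h.2
    have hYn : hYf.toFinset.Nonempty := ⟨y0, hYf.mem_toFinset.2 ⟨hy0w, Co.refl _ _⟩⟩
    obtain ⟨v, hv, hmin⟩ := Finset.exists_min_image hYf.toFinset (fun y => y.1) hYn
    have hvY : v ∈ Y := hYf.mem_toFinset.1 hv
    have hYS : ∀ y ∈ Y, y ∈ CS Wv η x := by
      intro y hy
      have h2 := co_box hκ (inter_subset_right (s₁ := η) (s₂ := HL κ x r2)) hy.2
        (by have := c3 y0 g2; rw [inR_iff] at this ⊢; omega) (by omega)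
      refine ⟨(hE.flat y ?_ h2.2).2 hy.1, g2.2.trans (hy.2.mono inter_subset_left)⟩
      have := h2.1
      rw [inR_iff] at this ⊢; omega
    have hvS := hYS v hvY
    refine ⟨v, hvS, hvY.1, c3 v hvS, fun h => hy0n (h.trans hvY.2.symm), ?_, ?_⟩
    · -- reaches distance `r2`
      have h2 : Co η v x := hvS.2.symm
      have hv1 := c3 v hvS
      rcases box_or_exit (w := x) (c := r2 - 1) h2 (by rw [inR_iff] at hv1 ⊢; omega) with
        ⟨-, h3⟩ | ⟨u, h3, h4⟩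
      · exfalso
        have h5 : Co (η ∩ HL κ x r2) v x := h3.mono fun l hl => by
          obtain ⟨h6, h7⟩ := mem_inter.1 hl
          exact mem_inter.2 ⟨h6, hE.cap hη (by omega) h6 (BR_mono (by omega) h7)⟩
        exact hy0n (h5.symm.trans hvY.2.symm)
      · exact exit_HL hE hη (by omega) h4 (by rw [inR_iff] at hv1 ⊢; omega) (far_iff.2 h3)
    · intro y hy1 hy2
      exact hmin y (hYf.mem_toFinset.2 ⟨hy1, hvY.2.trans hy2⟩)
  rw [ind_true c4, mul_one]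
  linarith

/-- **the local part of the remainder** -/
theorem gl_le : ∃ K C β : ℝ, 0 < K ∧ 0 < C ∧ 0 < β ∧ ∀ κ : ℤ, (κ = 0 ∨ κ = 1) →
    ∀ σ : ℝ, 1 / 4 ≤ σ → σ < 1 → ∀ a0 : ℤ, 2 ≤ a0 → K ≤ (1 - σ) ^ ((3 : ℝ) / 2) * a0 →
    ∀ (x : ℤ × ℤ) (m r1 r2 R : ℤ) (L : Finset (ℤ × ℤ)) (Wv : ℤ × ℤ → Prop), Env κ x R L Wv →
    a0 ≤ m → m ≤ r1 → 2 * r1 ≤ r2 → r2 ≤ 8 * r1 → 8 * r2 ≤ 3 * R →
    Ex hf L (gl σ κ Wv x m r1 r2 R) ≤
      C * (((a0 : ℝ) / m) ^ β + ((m : ℝ) / r2) ^ β) * a0 / (r2 : ℝ) ^ 2 := by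
  obtain ⟨K1, C1, β1, hK1, hC1, hβ1, hl⟩ := loc_tail
  obtain ⟨K2, C2, β2, hK2, hC2, hβ2, ht⟩ := mass_tail
  set β := min β1 β2 with hβ
  have hβ0 : 0 < β := lt_min hβ1 hβ2
  refine ⟨max K1 K2, C1 + C2, β, lt_max_of_lt_left hK1, by linarith, hβ0, ?_⟩
  intro κ hκ σ hσ1 hσ2 a0 ha0 hK x m r1 r2 R L Wv hE ham hmr hr12 hr28 hr2R
  have hσ0 : 0 ≤ σ := by linarith
  have haR : (2 : ℝ) ≤ a0 := by exact_mod_cast ha0
  have hm0 : (0 : ℝ) < m := by exact_mod_cast (by omega : (0 : ℤ) < m)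
  have hr20 : (0 : ℝ) < r2 := by exact_mod_cast (by omega : (0 : ℤ) < r2)
  have hR0 : (0 : ℝ) < R := by exact_mod_cast (by omega : (0 : ℤ) < R)
  have hsub2 : HL κ x r2 ⊆ L := (HL_mono (by omega)).trans hE.sub
  unfold gl
  rw [Ex_add]
  -- distant contact in the half box
  have t1 : Ex hf L (fun η => gS σ κ 1 x R η * ind (∃ w ∈ CC κ x r2 η, m < w.1 - x.1)) ≤
      C2 * ((a0 : ℝ) / m) ^ β2 * a0 / (R : ℝ) ^ 2 := by
    have e1 : Ex hf L (fun η => gS σ κ 1 x R η * ind (∃ w ∈ CC κ x r2 η, m < w.1 - x.1)) =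
        Ex hf (HL κ x R) (fun η => gS σ κ 1 x R η *
          ind (∃ w ∈ CC κ x r2 η, m < w.1 - x.1)) := by
      rw [← Ex_restrict hf hE.sub]
      refine Ex_congr fun η _ => ?_
      have e2 : CC κ x r2 (η ∩ HL κ x R) = CC κ x r2 η := by
        unfold Pool.Agent.H59.Q1.CC
        rw [inter_assoc, inter_eq_right.2 (HL_mono (by omega))]
      rw [← gS_local, e2]
    rw [e1]
    exact ht κ hκ σ hσ1 hσ2 a0 ha0 ((le_max_right _ _).trans hK) x m r2 R ham (by omega) hr2R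
  -- contact connected from outside
  have t2 : Ex hf L (fun η => σ ^ (CS Wv η x).ncard * ind ((∀ v ∈ CS Wv η x, x.1 ≤ v.1) ∧
        Rch x x R η ∧ (∀ y ∈ CC κ x r1 η, y.1 - x.1 ≤ m) ∧
        ∃ v ∈ CS Wv η x, Oth κ x r1 r2 η v)) ≤
      C1 * (((a0 : ℝ) / m) ^ β1 + ((m : ℝ) / r2) ^ β1) * a0 / (r2 : ℝ) ^ 2 := by
    rw [← Ex_union_comm_split hsub2]
    refine (Ex_mono hf_pb (g := fun _ => C1 * (((a0 : ℝ) / m) ^ β1 + ((m : ℝ) / r2) ^ β1) * a0 /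
      (r2 : ℝ) ^ 2) fun θ hθ => ?_).trans (le_of_eq (Ex_const _ _ _))
    refine hl κ hκ σ hσ1 hσ2 a0 ha0 ((le_max_left _ _).trans hK) x m r1 r2 ham hmr hr12 hr28 _ ?_
    intro ω hω hne
    have hθd : ∀ l ∈ θ, l ∉ HL κ x r2 := fun l hl => (mem_sdiff.1 (hθ hl)).2
    have hcap : (θ ∪ ω) ∩ HL κ x r2 = ω ∩ HL κ x r2 := by
      ext l
      rw [mem_inter, mem_inter, mem_union]
      have := hθd l
      tauto
    have hηL : θ ∪ ω ⊆ L := union_subset (hθ.trans sdiff_subset) (hω.trans hsub2)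
    have hc : (∀ v ∈ CS Wv (θ ∪ ω) x, x.1 ≤ v.1) ∧ Rch x x R (θ ∪ ω) ∧
        (∀ y ∈ CC κ x r1 (θ ∪ ω), y.1 - x.1 ≤ m) ∧
        ∃ v ∈ CS Wv (θ ∪ ω) x, Oth κ x r1 r2 (θ ∪ ω) v := by
      by_contra hcon
      exact hne (by rw [ind_false hcon, mul_zero])
    obtain ⟨g1, g2, g3, v, g4, g5⟩ := hc
    have hCC : CC κ x r2 (θ ∪ ω) = CC κ x r2 ω := by unfold Pool.Agent.H59.Q1.CC; rw [hcap]
    have hCC1 : CC κ x r1 (θ ∪ ω) = CC κ x r1 ω := by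
      have h1 : ∀ η : Finset (ℤ × ℤ), η ∩ HL κ x r1 = (η ∩ HL κ x r2) ∩ HL κ x r1 := fun η => by
        rw [inter_assoc, inter_eq_right.2 (HL_mono (by omega))]
      unfold Pool.Agent.H59.Q1.CC; rw [h1 (θ ∪ ω), h1 ω, hcap]
    have hOth : Oth κ x r1 r2 ω v := by
      unfold Oth at g5 ⊢; rw [hcap] at g5; exact g5
    refine ⟨?_, fun y hy => g3 y (by rw [hCC1]; exact hy), v, hOth, ?_⟩
    · -- `Sd`
      obtain ⟨u, g6, g7⟩ := g2
      have g8 : Far x r2 u := by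
        unfold Far at g6 ⊢; omega
      obtain ⟨u', g9, g10⟩ := exit_HL hE hηL (by omega) g7 (by rw [inR_iff]; omega) g8
      rw [hcap] at g10
      refine ⟨⟨u', g9, g10⟩, fun y hy => ?_⟩
      rw [← hCC] at hy
      have := g1 y (CC_sub hκ hE (by omega) (by omega) hy)
      omega
    · have s1 : CC κ x r2 ω ⊆ CS Wv (θ ∪ ω) x := by
        rw [← hCC]; exact CC_sub hκ hE (by omega) (by omega)
      have s2 : CS (FW κ x) (ω ∩ HL κ x r2) v ⊆ CS Wv (θ ∪ ω) x := by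
        intro y hy
        have hv1 := hOth.2.1
        have h2 := co_box hκ (inter_subset_right (s₁ := ω) (s₂ := HL κ x r2)) hy.2
          (by rw [inR_iff] at hv1 ⊢; omega) (by have := hOth.1; omega)
        refine ⟨(hE.flat y ?_ h2.2).2 hy.1, g4.2.trans (hy.2.mono ?_)⟩
        · have := h2.1
          rw [inR_iff] at this ⊢; omega
        · exact inter_subset_left.trans subset_union_right
      have hd : Disjoint (CC κ x r2 ω) (CS (FW κ x) (ω ∩ HL κ x r2) v) := by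
        rw [Set.disjoint_left]
        intro y h2 h3
        exact hOth.2.2.1 (h2.2.trans h3.2.symm)
      have hcard : (CC κ x r2 ω).ncard + (CS (FW κ x) (ω ∩ HL κ x r2) v).ncard ≤
          (CS Wv (θ ∪ ω) x).ncard := by
        rw [← Set.ncard_union_eq hd ((cs_fin _ _ _).subset s1) (cs_fin _ _ _)]
        exact Set.ncard_le_ncard (Set.union_subset s1 s2) (cs_fin _ _ _)
      rw [← pow_add]
      refine (mul_le_of_le_one_right (pow_nonneg hσ0 _) (ind_le_one _)).trans ?_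
      exact pow_le_pow_of_le_one hσ0 hσ2.le hcard
  -- collect
  have b1 : ((a0 : ℝ) / m) ^ β2 ≤ ((a0 : ℝ) / m) ^ β := by
    refine Real.rpow_le_rpow_of_exponent_ge (by positivity) ?_ (min_le_right _ _)
    rw [div_le_one hm0]; exact_mod_cast ham
  have b2 : ((a0 : ℝ) / m) ^ β1 ≤ ((a0 : ℝ) / m) ^ β := by
    refine Real.rpow_le_rpow_of_exponent_ge (by positivity) ?_ (min_le_left _ _)
    rw [div_le_one hm0]; exact_mod_cast ham
  have b3 : ((m : ℝ) / r2) ^ β1 ≤ ((m : ℝ) / r2) ^ β := by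
    refine Real.rpow_le_rpow_of_exponent_ge (by positivity) ?_ (min_le_left _ _)
    rw [div_le_one hr20]; exact_mod_cast (by omega : m ≤ r2)
  have b4 : (0 : ℝ) ≤ ((a0 : ℝ) / m) ^ β := by positivity
  have b5 : (0 : ℝ) ≤ ((m : ℝ) / r2) ^ β := by positivity
  have b6 : (r2 : ℝ) ^ 2 ≤ (R : ℝ) ^ 2 :=
    pow_le_pow_left₀ hr20.le (by exact_mod_cast (by omega : r2 ≤ R)) 2
  have t1' : Ex hf L (fun η => gS σ κ 1 x R η * ind (∃ w ∈ CC κ x r2 η, m < w.1 - x.1)) ≤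
      C2 * (((a0 : ℝ) / m) ^ β + ((m : ℝ) / r2) ^ β) * a0 / (r2 : ℝ) ^ 2 := by
    refine t1.trans (div_le_div₀ (by positivity) ?_ (by positivity) b6)
    refine mul_le_mul_of_nonneg_right (mul_le_mul_of_nonneg_left ?_ hC2.le) (by linarith)
    linarith
  have t2' : Ex hf L (fun η => σ ^ (CS Wv η x).ncard * ind ((∀ v ∈ CS Wv η x, x.1 ≤ v.1) ∧
        Rch x x R η ∧ (∀ y ∈ CC κ x r1 η, y.1 - x.1 ≤ m) ∧
        ∃ v ∈ CS Wv η x, Oth κ x r1 r2 η v)) ≤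
      C1 * (((a0 : ℝ) / m) ^ β + ((m : ℝ) / r2) ^ β) * a0 / (r2 : ℝ) ^ 2 := by
    refine t2.trans (div_le_div_of_nonneg_right ?_ (by positivity))
    refine mul_le_mul_of_nonneg_right (mul_le_mul_of_nonneg_left ?_ hC1.le) (by linarith)
    linarith
  have e3 : (C1 + C2) * (((a0 : ℝ) / m) ^ β + ((m : ℝ) / r2) ^ β) * a0 / (r2 : ℝ) ^ 2 =
      C2 * (((a0 : ℝ) / m) ^ β + ((m : ℝ) / r2) ^ β) * a0 / (r2 : ℝ) ^ 2 +
      C1 * (((a0 : ℝ) / m) ^ β + ((m : ℝ) / r2) ^ β) * a0 / (r2 : ℝ) ^ 2 := by ring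
  rw [e3]
  linarith

end Pool.Agent.Q1.M6e
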