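import Mathlib
import Pool.Agent.Q1.M6e.Rem
import Pool.Agent.H39.Q1.FlatW

set_option autoImplicit false
open Finset

/-!
# One straight family of ties in flat coordinates

`eta co La i ε ω` : the labels of the clusters of the family `i` in the coordinates `gm ε`. `Wx` : the inner ends
of the ties. `Straight` : the inner ends are on one line, in the order `rk`.
-/

namespace Pool.Agent.Q1.M6e

open Pool.Agent.H75.Perc Pool.Agent.H75.TwoArm Pool.Agent.H75.Four Pool.Agent.H49.Perc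
open Pool.Agent.H69.Q1 Pool.Agent.H39.Q1
open Pool.Agent.H99.NC Pool.Agent.H60.Q1 Pool.Agent.H20.Q1 Pool.Agent.H59.Q1 Pool.Agent.Q1

variable {ι : Type*} [DecidableEq ι] {X : Pool.Agent.Q1.Env} {W Bb B TT Cs ω : Finset (ℤ × ℤ)}
  {fm : ℤ × ℤ → ι} {co : ι → Bool} {Wl La : ι → Finset (ℤ × ℤ)}
  {b o : ℤ × ℤ → ℤ × ℤ} {a : ℤ × ℤ → ℂ} {s : ℤ × ℤ → ℂ} {e e' v : ℤ × ℤ} {i : ι}
  {ε : Bool × Bool} {rk : ℤ × ℤ → ℤ} {h0 : ℤ} {σ : ℝ} {m r R : ℤ}

/-- labels of the clusters of the family in the coordinates `gm ε` -/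
noncomputable def eta (co : ι → Bool) (La : ι → Finset (ℤ × ℤ)) (i : ι) (ε : Bool × Bool)
    (ω : Finset (ℤ × ℤ)) : Finset (ℤ × ℤ) := (gr co La i ω).map (gmE ε)

/-- the layer in the coordinates -/
noncomputable def Lx (co : ι → Bool) (La : ι → Finset (ℤ × ℤ)) (i : ι) (ε : Bool × Bool) :
    Finset (ℤ × ℤ) := (La i).map (lm (co i) ε)

/-- inner ends of the ties -/
def Wx (TT : Finset (ℤ × ℤ)) (fm : ℤ × ℤ → ι) (b : ℤ × ℤ → ℤ × ℤ) (i : ι) (ε : Bool × Bool)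
    (v : ℤ × ℤ) : Prop := WV (TF TT fm i) b (gm ε v)

/-- the family is straight -/
structure Straight (TT : Finset (ℤ × ℤ)) (fm : ℤ × ℤ → ι) (b : ℤ × ℤ → ℤ × ℤ) (rk : ℤ × ℤ → ℤ)
    (i : ι) (ε : Bool × Bool) (h0 : ℤ) : Prop where
  line : ∀ e ∈ TF TT fm i, (gm ε (b e)).1 + (gm ε (b e)).2 = h0
  inj : ∀ e ∈ TF TT fm i, ∀ e' ∈ TF TT fm i, b e = b e' → e = e'
  rk : ∀ e ∈ TF TT fm i, ∀ e' ∈ TF TT fm i, (rk e ≤ rk e' ↔ (gm ε (b e)).1 ≤ (gm ε (b e')).1)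

lemma Eh_real (E : Finset (ℤ × ℤ)) (F : Finset (ℤ × ℤ) → ℝ) :
    Eh E (fun ω => (F ω : ℂ)) = (Ex hf E F : ℂ) := by
  rw [Eh_re_im]
  have h1 : Ex hf E (fun ω => ((F ω : ℂ)).re) = Ex hf E F := Ex_congr fun ω _ => Complex.ofReal_re _
  have h2 : Ex hf E (fun ω => ((F ω : ℂ)).im) = 0 := by
    have : Ex hf E (fun ω => ((F ω : ℂ)).im) = Ex hf E (fun _ => (0 : ℝ)) :=
      Ex_congr fun ω _ => Complex.ofReal_im _
    rw [this, Ex_const]
  rw [h1, h2]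
  simp

/-- the expectation in the coordinates -/
lemma Ex_eta (hLB : La i ⊆ B) (F : Finset (ℤ × ℤ) → ℝ) :
    Ex hf B (fun ω => F (eta co La i ε ω)) = Ex hf (Lx co La i ε) F := by
  have h1 : Ex hf B (fun ω => F (eta co La i ε ω)) =
      Ex hf B (fun ω => F (push (co i) ε B ω ∩ Lx co La i ε)) := by
    refine Ex_congr fun ω hω => ?_
    unfold eta Lx
    rw [push_gr hLB hω]
  have h2 : ((Ex hf B (fun ω => F (push (co i) ε B ω ∩ Lx co La i ε)) : ℝ) : ℂ) =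
      (Ex hf (B.map (lm (co i) ε)) (fun ω => F (ω ∩ Lx co La i ε)) : ℂ) := by
    rw [← Eh_real, ← Eh_real]
    exact (Eh_push (c := co i) (ε := ε) B (fun ω => (F (ω ∩ Lx co La i ε) : ℂ))).symm
  rw [h1, Complex.ofReal_inj.1 h2]
  exact Ex_restrict hf (map_subset_map.2 hLB) F

/-- the contact set -/
lemma mem_CSx (he : fm e = i) : v ∈ CS (Wx TT fm b i ε) (eta co La i ε ω) (gm ε (b e)) ↔
    gm ε v ∈ SM TT fm co La b e ω := by
  subst he
  unfold SM eta Wx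
  show (_ ∧ _) ↔ (_ ∧ _)
  rw [Co_gm_iff, gm_gm]

/-- the contact set is the set of inner ends of the class -/
lemma CSx_eq (he : fm e = i) : CS (Wx TT fm b i ε) (eta co La i ε ω) (gm ε (b e)) =
    (fun e' => gm ε (b e')) '' (cls TT fm co La b ω e : Set (ℤ × ℤ)) := by
  ext v
  rw [mem_CSx he]
  constructor
  · intro h
    obtain ⟨⟨e', h1, h2⟩, h3⟩ := h
    refine ⟨e', ?_, ?_⟩
    · rw [mem_coe, mem_cls]
      exact ⟨mem_TF.1 h1, by rw [h2]; exact h3⟩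
    · simp only [h2, gm_gm]
  · rintro ⟨e', h1, rfl⟩
    rw [mem_coe] at h1
    rw [gm_gm]
    exact (cls_mem (mem_TF.2 (mem_cls.1 h1).1)).1 h1

lemma ncard_CSx (hS : Straight TT fm b rk i ε h0) (he : fm e = i) :
    (CS (Wx TT fm b i ε) (eta co La i ε ω) (gm ε (b e))).ncard = (cls TT fm co La b ω e).card := by
  rw [CSx_eq he, Set.ncard_image_of_injOn, Set.ncard_coe_finset]
  intro e1 h1 e2 h2 h3
  rw [mem_coe, mem_cls] at h1 h2
  exact hS.inj e1 (mem_TF.2 ⟨h1.1.1, h1.1.2.trans he⟩) e2 (mem_TF.2 ⟨h2.1.1, h2.1.2.trans he⟩)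
    (gm_inj h3)

lemma first_iff (hS : Straight TT fm b rk i ε h0) (heT : e ∈ TT) (he : fm e = i) :
    (∀ e' ∈ cls TT fm co La b ω e, rk e ≤ rk e') ↔
      ∀ v ∈ CS (Wx TT fm b i ε) (eta co La i ε ω) (gm ε (b e)), (gm ε (b e)).1 ≤ v.1 := by
  rw [CSx_eq he]
  constructor
  · rintro h _ ⟨e', h1, rfl⟩
    rw [mem_coe] at h1
    have h2 := mem_cls.1 h1
    exact (hS.rk e (mem_TF.2 ⟨heT, he⟩) e' (mem_TF.2 ⟨h2.1.1, h2.1.2.trans he⟩)).1 (h e' h1)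
  · intro h e' h1
    have h2 := mem_cls.1 h1
    exact (hS.rk e (mem_TF.2 ⟨heT, he⟩) e' (mem_TF.2 ⟨h2.1.1, h2.1.2.trans he⟩)).2
      (h _ ⟨e', mem_coe.2 h1, rfl⟩)

/-- the functional of the tie in the coordinates -/
lemma FT_coord {s0 : ℂ} (hS : Straight TT fm b rk i ε h0) (heT : e ∈ TT) (he : fm e = i)
    (hs : ∀ e' ∈ TF TT fm i, s e' = s0) :
    FT (TF TT fm (fm e)) b rk s e (SM TT fm co La b e ω) =
      s0 ^ (CS (Wx TT fm b i ε) (eta co La i ε ω) (gm ε (b e))).ncard *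
        (ind (∀ v ∈ CS (Wx TT fm b i ε) (eta co La i ε ω) (gm ε (b e)), (gm ε (b e)).1 ≤ v.1) : ℂ) := by
  classical
  rw [FT_cls, ncard_CSx hS he]
  by_cases h : ∀ e' ∈ cls TT fm co La b ω e, rk e ≤ rk e'
  · rw [if_pos h, ind_true ((first_iff hS heT he).1 h), Complex.ofReal_one, mul_one, ← prod_const]
    refine prod_congr rfl fun e' h1 => hs e' ?_
    have h2 := mem_cls.1 h1
    exact mem_TF.2 ⟨h2.1.1, h2.1.2.trans he⟩
  · rw [if_neg h, ind_false (fun h1 => h ((first_iff hS heT he).2 h1)), Complex.ofReal_zero, mul_zero]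

end Pool.Agent.Q1.M6e
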