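import Mathlib
import Pool.Agent.Q1.M6e.Rem

set_option autoImplicit false
open Finset

/-!
# Classes with two distant contacts

The first and the last tie of such a class have disjoint half boxes: product of two masses.
-/

namespace Pool.Agent.Q1.M6e

open Pool.Agent.H75.Perc Pool.Agent.H75.TwoArm Pool.Agent.H75.Four Pool.Agent.H49.Perc
open Pool.Agent.H99.NC Pool.Agent.H60.Q1 Pool.Agent.H20.Q1 Pool.Agent.H59.Q1 Pool.Agent.Q1

variable {σ : ℝ} {x x' v y u : ℤ × ℤ} {m r r1 R : ℤ} {η L : Finset (ℤ × ℤ)}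
  {Wv : ℤ × ℤ → Prop} {Fl : Finset (ℤ × ℤ)}

lemma HL_dj2 (h : 2 * r + 1 ≤ x'.1 - x.1) : Disjoint (HL 1 x r) (HL 1 x' r) := by
  rw [disjoint_left]
  intro l h1 h2
  rw [mem_HL'] at h1 h2
  have h3 := h1.1
  have h4 := h2.1
  unfold BR at h3 h4
  rw [mem_Bx] at h3 h4
  omega

/-- product of two masses -/
lemma Ex_two (h : 2 * r + 1 ≤ x'.1 - x.1) (h1 : HL 1 x r ⊆ L) (h2 : HL 1 x' r ⊆ L) :
    Ex hf L (fun η => gS σ 1 1 x r η * gS σ 1 (-1) x' r η) = pS σ 1 1 r * pS σ 1 (-1) r := by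
  have e1 := Ex_indep hf h1 h2 (HL_dj2 h) (gS σ 1 1 x r) (gS σ 1 (-1) x' r)
  have e2 : Ex hf L (fun η => gS σ 1 1 x r η * gS σ 1 (-1) x' r η) =
      Ex hf L (fun η => gS σ 1 1 x r (η ∩ HL 1 x r) * gS σ 1 (-1) x' r (η ∩ HL 1 x' r)) :=
    Ex_congr fun η _ => by rw [← gS_local, ← gS_local]
  have e3 : Ex hf (HL 1 x r) (gS σ 1 1 x r) = pS σ 1 1 r := Ex_gS (Finset.Subset.refl _)
  have e4 : Ex hf (HL 1 x' r) (gS σ 1 (-1) x' r) = pS σ 1 (-1) r := Ex_gS (Finset.Subset.refl _)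
  rw [e2, e1, e3, e4]

/-- **the two local events** -/
lemma two_of (h0 : 0 ≤ σ) (h1 : σ ≤ 1) (hE : Pool.Agent.H20.Q1.Env 1 x R L Wv) (hE' : Pool.Agent.H20.Q1.Env 1 x' R L Wv)
    (hη : η ⊆ L) (hr : 1 ≤ r) (hrR : r ≤ R) (hx' : x' ∈ CS Wv η x) (hd : 2 * r + 1 ≤ x'.1 - x.1)
    (hf : ∀ v ∈ CS Wv η x, x.1 ≤ v.1) (hl : ∀ v ∈ CS Wv η x, v.1 ≤ x'.1) :
    σ ^ (CS Wv η x).ncard ≤ gS σ 1 1 x r η * gS σ 1 (-1) x' r η := by
  have hκ : (1 : ℤ) = 0 ∨ (1 : ℤ) = 1 := Or.inr rfl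
  -- reach distance `r`
  have k1 : Far x r x' := by
    unfold Far
    left
    rw [le_abs]; left; omega
  have k2 : Far x' r x := by
    unfold Far
    left
    rw [le_abs]; right; omega
  obtain ⟨u1, a1, a2⟩ := exit_HL hE hη hrR hx'.2 (by rw [inR_iff]; omega) k1
  obtain ⟨u2, b1, b2⟩ := exit_HL hE' hη hrR hx'.2.symm (by rw [inR_iff]; omega) k2
  have c1 : CC 1 x r η ⊆ CS Wv η x := CC_sub hκ hE hrR (by omega)
  have c2 : CC 1 x' r η ⊆ CS Wv η x := by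
    intro y hy
    have := CC_sub (Wv := Wv) hκ hE' hrR (by omega) hy
    exact ⟨this.1, hx'.2.trans this.2⟩
  have S1 : Sd 1 1 x r η := ⟨⟨u1, a1, a2⟩, fun y hy => by
    have := hf y (c1 hy); omega⟩
  have S2 : Sd 1 (-1) x' r η := ⟨⟨u2, b1, b2⟩, fun y hy => by
    have := hl y (c2 hy); omega⟩
  unfold gS
  rw [ind_true S1, ind_true S2, mul_one, mul_one, ← pow_add]
  refine pow_le_pow_of_le_one h0 h1 ?_
  rw [← Set.ncard_union_eq ?_ ((cs_fin Wv η x).subset c1) ((cs_fin Wv η x).subset c2)]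
  · exact Set.ncard_le_ncard (Set.union_subset c1 c2) (cs_fin _ _ _)
  · rw [Set.disjoint_left]
    intro y h2 h3
    have g1 := (co_HL_reg hκ (by omega) h2.2).2
    have g2 := (co_HL_reg hκ (by omega) h3.2).2
    rw [inR_iff] at g1 g2
    omega

/-- the contact is one of the points of `Fl` -/
def InF (Fl : Finset (ℤ × ℤ)) (Wv : ℤ × ℤ → Prop) (x : ℤ × ℤ) (η : Finset (ℤ × ℤ)) : Prop :=
  ∀ v ∈ CS Wv η x, v ∈ Fl

/-- **wide classes**: `Fl` : inner ends of the flat ties -/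
theorem wide_pt (h0 : 0 ≤ σ) (h1 : σ ≤ 1) (hE : ∀ x ∈ Fl, Pool.Agent.H20.Q1.Env 1 x R L Wv) (hx : x ∈ Fl)
    (hη : η ⊆ L) (hr : 1 ≤ r) (hrR : r ≤ R) (hrr : 2 * r ≤ r1)
    (hline : ∀ v, Wv v → v.1 + v.2 = x.1 + x.2) :
    rmf σ Wv x r1 R η ≤ ∑ x' ∈ Fl.filter (fun x' => 2 * r + 1 ≤ x'.1 - x.1),
      gS σ 1 1 x r η * gS σ 1 (-1) x' r η + rmf σ Wv x r1 R η * ind (¬ InF Fl Wv x η) := by
  have n1 : 0 ≤ ∑ x' ∈ Fl.filter (fun x' => 2 * r + 1 ≤ x'.1 - x.1),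
      gS σ 1 1 x r η * gS σ 1 (-1) x' r η := sum_nonneg fun x' _ =>
    mul_nonneg (gS_nonneg h0) (gS_nonneg h0)
  have n2 : 0 ≤ rmf σ Wv x r1 R η := mul_nonneg (pow_nonneg h0 _) (ind_nonneg _)
  by_cases hF : InF Fl Wv x η
  swap
  · rw [ind_true hF, mul_one]; linarith
  rw [ind_false (not_not.2 hF), mul_zero, add_zero]
  by_cases hc : (∀ v ∈ CS Wv η x, x.1 ≤ v.1) ∧ (∃ v ∈ CS Wv η x, ¬ inR x r1 v) ∧ Rch x x R η
  swap
  · have : rmf σ Wv x r1 R η = 0 := by unfold rmf; rw [ind_false hc, mul_zero]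
    rw [this]; exact n1
  have hrm : rmf σ Wv x r1 R η = σ ^ (CS Wv η x).ncard := by
    unfold rmf; rw [ind_true hc, mul_one]
  obtain ⟨g1, ⟨y0, g2, g3⟩, -⟩ := hc
  have hfin := cs_fin Wv η x
  obtain ⟨x', hx', hmax⟩ := Finset.exists_max_image hfin.toFinset (fun y => y.1)
    ⟨y0, hfin.mem_toFinset.2 g2⟩
  have hx'S : x' ∈ CS Wv η x := hfin.mem_toFinset.1 hx'
  have hy0 : r1 < y0.1 - x.1 := by
    have h2 := hline y0 g2.1
    have h3 := g1 y0 g2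
    by_contra hcon
    apply g3
    rw [inR_iff]
    omega
  have hy1 := hmax y0 (hfin.mem_toFinset.2 g2)
  have hmem : x' ∈ Fl.filter (fun x' => 2 * r + 1 ≤ x'.1 - x.1) :=
    mem_filter.2 ⟨hF x' hx'S, by omega⟩
  rw [hrm]
  refine (two_of h0 h1 (hE x hx) (hE x' (hF x' hx'S)) hη hr hrR hx'S (by omega) g1
    (fun v hv => hmax v (hfin.mem_toFinset.2 hv))).trans ?_
  exact single_le_sum (f := fun x' => gS σ 1 1 x r η * gS σ 1 (-1) x' r η)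
    (fun x' _ => mul_nonneg (gS_nonneg h0) (gS_nonneg h0)) hmem

/-- the mean -/
theorem wide_le (h0 : 0 ≤ σ) (h1 : σ ≤ 1) (hE : ∀ x ∈ Fl, Pool.Agent.H20.Q1.Env 1 x R L Wv) (hx : x ∈ Fl)
    (hr : 1 ≤ r) (hrR : r ≤ R) (hrr : 2 * r ≤ r1)
    (hline : ∀ v, Wv v → v.1 + v.2 = x.1 + x.2) :
    Ex hf L (rmf σ Wv x r1 R) ≤ Fl.card * (pS σ 1 1 r * pS σ 1 (-1) r) +
      Ex hf L (fun η => rmf σ Wv x r1 R η * ind (¬ InF Fl Wv x η)) := by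
  refine (Ex_mono hf_pb fun η hη => wide_pt h0 h1 hE hx hη hr hrR hrr hline).trans ?_
  rw [Ex_add, Ex_sum]
  have hs : ∀ z ∈ Fl, HL 1 z r ⊆ L := fun z hz => (HL_mono hrR).trans (hE z hz).sub
  have e1 : ∑ x' ∈ Fl.filter (fun x' => 2 * r + 1 ≤ x'.1 - x.1),
      Ex hf L (fun η => gS σ 1 1 x r η * gS σ 1 (-1) x' r η) ≤
      Fl.card * (pS σ 1 1 r * pS σ 1 (-1) r) := by
    have e2 : ∀ x' ∈ Fl.filter (fun x' => 2 * r + 1 ≤ x'.1 - x.1),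
        Ex hf L (fun η => gS σ 1 1 x r η * gS σ 1 (-1) x' r η) =
        pS σ 1 1 r * pS σ 1 (-1) r := by
      intro x' hx'
      obtain ⟨g1, g2⟩ := mem_filter.1 hx'
      exact Ex_two (by omega) (hs x hx) (hs x' g1)
    rw [sum_congr rfl e2, sum_const, nsmul_eq_mul]
    refine mul_le_mul_of_nonneg_right ?_ (mul_nonneg (pS_nonneg h0) (pS_nonneg h0))
    exact_mod_cast card_filter_le _ _
  linarith

end Pool.Agent.Q1.M6e
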