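import Mathlib
import Pool.Agent.Q1.M6e.Wide
import Pool.Agent.H20.Q1.TieMix
import Pool.Agent.Q1.M6e.Coord

set_option autoImplicit false
open Finset

/-!
# The flat ties of one family

`FlatFam` : a straight family of ties, `FlT` its flat ties (windows of radius `R`). `rem_tie` : the main term of a
flat tie restricted to contact sets of radius `m`.
-/

namespace Pool.Agent.Q1.M6e

open Pool.Agent.H75.Perc Pool.Agent.H75.TwoArm Pool.Agent.H75.Four Pool.Agent.H49.Perc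
open Pool.Agent.H69.Q1 Pool.Agent.H39.Q1
open Pool.Agent.H99.NC Pool.Agent.H60.Q1 Pool.Agent.H20.Q1 Pool.Agent.H59.Q1 Pool.Agent.Q1

variable {ι : Type*} [DecidableEq ι] {X : Pool.Agent.Q1.Env} {W Bb B TT Cs ω FlT : Finset (ℤ × ℤ)}
  {fm : ℤ × ℤ → ι} {co : ι → Bool} {Wl La : ι → Finset (ℤ × ℤ)}
  {b o : ℤ × ℤ → ℤ × ℤ} {a : ℤ × ℤ → ℂ} {s : ℤ × ℤ → ℂ} {e e' v δ : ℤ × ℤ} {i : ι}
  {ε : Bool × Bool} {rk : ℤ × ℤ → ℤ} {h0 : ℤ} {σ M : ℝ} {m r r1 r2 R : ℤ} {s0 : ℂ}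
  {Q : Finset (ℤ × ℤ) → ℤ × ℤ → Prop}

/-- a straight family with its flat ties -/
structure FlatFam (X : Pool.Agent.Q1.Env) (W Bb TT Cs : Finset (ℤ × ℤ)) (fm : ℤ × ℤ → ι)
    (co : ι → Bool) (Wl La : ι → Finset (ℤ × ℤ)) (b o : ℤ × ℤ → ℤ × ℤ) (rk : ℤ × ℤ → ℤ) (i : ι)
    (ε : Bool × Bool) (δ : ℤ × ℤ) (h0 : ℤ) (FlT : Finset (ℤ × ℤ)) (R : ℤ) : Prop where
  st : Straight TT fm b rk i ε h0
  sub : FlT ⊆ TF TT fm i
  flat : ∀ e ∈ FlT, FlatL W Bb TT (TF TT fm i) (Wl i) (La i) b o (co i) ε δ (b e) (R + 1)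
  root : ∀ e ∈ FlT, lab X.c0 ∉ bx (co i) (b e) R
  cs : ∀ e ∈ FlT, ∀ c ∈ Cs, lab c ∉ bx (co i) (b e) R

/-- the inner ends of the flat ties -/
noncomputable def FlX (b : ℤ × ℤ → ℤ × ℤ) (ε : Bool × Bool) (FlT : Finset (ℤ × ℤ)) :
    Finset (ℤ × ℤ) := FlT.image fun e => gm ε (b e)

/-- relevant classes (`Q`) which contain a tie which is not flat -/
noncomputable def crn (TT : Finset (ℤ × ℤ)) (fm : ℤ × ℤ → ι) (co : ι → Bool)
    (La : ι → Finset (ℤ × ℤ)) (b : ℤ × ℤ → ℤ × ℤ) (rk : ℤ × ℤ → ℤ)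
    (Q : Finset (ℤ × ℤ) → ℤ × ℤ → Prop) (FlT : Finset (ℤ × ℤ))
    (σ : ℝ) (e : ℤ × ℤ) (ω : Finset (ℤ × ℤ)) : ℝ :=
  σ ^ (cls TT fm co La b ω e).card * ind ((∀ e' ∈ cls TT fm co La b ω e, rk e ≤ rk e') ∧
    Q ω e ∧ ∃ e' ∈ cls TT fm co La b ω e, e' ∉ FlT)

lemma FlatFam.env (hM : Multi X W Bb B TT fm co Wl La b o)
    (hF : FlatFam X W Bb TT Cs fm co Wl La b o rk i ε δ h0 FlT R) {x : ℤ × ℤ}
    (hx : x ∈ FlX b ε FlT) : Pool.Agent.H20.Q1.Env 1 x R (Lx co La i ε) (Wx TT fm b i ε) := by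
  unfold FlX at hx
  obtain ⟨e, he, rfl⟩ := mem_image.1 hx
  exact env_of_flat hM (hF.flat e he)

lemma FlatFam.line (hF : FlatFam X W Bb TT Cs fm co Wl La b o rk i ε δ h0 FlT R)
    (he : e ∈ TF TT fm i) (v : ℤ × ℤ) (hv : Wx TT fm b i ε v) :
    v.1 + v.2 = (gm ε (b e)).1 + (gm ε (b e)).2 := by
  obtain ⟨e', h1, h2⟩ := hv
  have h3 := hF.st.line e' h1
  rw [h2, gm_gm] at h3
  rw [h3, hF.st.line e he]

/-- **pointwise bound** -/
theorem FlatFam.pt (hM : Multi X W Bb B TT fm co Wl La b o)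
    (hc : ∀ c ∈ Cs, FarM X TT fm co Wl La b o c)
    (hF : FlatFam X W Bb TT Cs fm co Wl La b o rk i ε δ h0 FlT R) (he : e ∈ FlT)
    (hV : ∀ ω ⊆ B, ∀ P ⊆ TT, ‖VM X Cs a Bb B TT fm co ω P‖ ≤ M)
    (hQ : ∀ ω ⊆ B, ∀ e ∈ TT, DM X Cs a Bb B TT fm co La b e ω ≠ 0 → Q ω e)
    (hs : ∀ e' ∈ TF TT fm i, s e' = s0) (hs0 : ‖s0‖ ≤ σ) (hσ1 : σ ≤ 1) (hω : ω ⊆ B)
    (hm : 0 ≤ m) (hmr : m ≤ r1) (hr11 : 1 ≤ r1) (hr12 : r1 < r2) (hr2 : r2 < R) (hr : 1 ≤ r)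
    (hrr : 2 * r ≤ r1) :
    ‖FT (TF TT fm (fm e)) b rk s e (SM TT fm co La b e ω) * DM X Cs a Bb B TT fm co La b e ω -
      FTm (TF TT fm (fm e)) b rk s e m (SM TT fm co La b e ω) *
        DM X Cs a Bb B TT fm co La b e ω‖ ≤
      2 * M * (gl σ 1 (Wx TT fm b i ε) (gm ε (b e)) m r1 r2 R (eta co La i ε ω) +
        (∑ x' ∈ (FlX b ε FlT).filter (fun x' => 2 * r + 1 ≤ x'.1 - (gm ε (b e)).1),
          gS σ 1 1 (gm ε (b e)) r (eta co La i ε ω) * gS σ 1 (-1) x' r (eta co La i ε ω)) +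
        crn TT fm co La b rk Q FlT σ e ω) := by
  classical
  have heF := hF.sub he
  obtain ⟨heT, hei⟩ := mem_TF.1 heF
  have hσ0 : 0 ≤ σ := (norm_nonneg _).trans hs0
  set x := gm ε (b e) with hx
  set η := eta co La i ε ω with hη
  set Wv := Wx TT fm b i ε with hWv
  have hxF : x ∈ FlX b ε FlT := mem_image.2 ⟨e, he, rfl⟩
  have hE := hF.env hM hxF
  have hM0 : 0 ≤ M := (norm_nonneg _).trans (hV ∅ (empty_subset _) ∅ (empty_subset _))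
  have hηL : η ⊆ Lx co La i ε := by
    have := push_gr (co := co) (La := La) (i := i) (ε := ε) (hM.la i) hω
    rw [hη]
    unfold eta Lx
    rw [← this]
    exact inter_subset_right
  have n1 : 0 ≤ gl σ 1 Wv x m r1 r2 R η := by
    unfold gl
    exact add_nonneg (mul_nonneg (gS_nonneg hσ0) (ind_nonneg _))
      (mul_nonneg (pow_nonneg hσ0 _) (ind_nonneg _))
  have n2 : 0 ≤ ∑ x' ∈ (FlX b ε FlT).filter (fun x' => 2 * r + 1 ≤ x'.1 - x.1),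
      gS σ 1 1 x r η * gS σ 1 (-1) x' r η := sum_nonneg fun x' _ =>
    mul_nonneg (gS_nonneg hσ0) (gS_nonneg hσ0)
  have n3 : 0 ≤ crn TT fm co La b rk Q FlT σ e ω :=
    mul_nonneg (pow_nonneg hσ0 _) (ind_nonneg _)
  rw [← sub_mul, norm_mul]
  by_cases hD : DM X Cs a Bb B TT fm co La b e ω = 0
  · rw [hD, norm_zero, mul_zero]
    positivity
  have hnf : Q ω e := hQ ω hω e heT hD
  have hDb : ‖DM X Cs a Bb B TT fm co La b e ω‖ ≤ 2 * M := by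
    unfold DM
    refine (norm_sub_le _ _).trans ?_
    have g1 := hV ω hω _ (sdiff_subset (s := TT) (t := cls TT fm co La b ω e))
    have g2 := hV ω hω TT (Subset.refl _)
    linarith
  rw [mul_comm]
  refine mul_le_mul hDb ?_ (norm_nonneg _) (by positivity)
  unfold FTm
  by_cases hin : ∀ v ∈ SM TT fm co La b e ω, inR (b e) m v
  · rw [if_pos hin, sub_self, norm_zero]
    positivity
  rw [if_neg hin, sub_zero]
  -- the cluster reaches distance `R`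
  have hG := wallG_of_flat (m := m) hM heT (by rw [hei]; exact hF.flat e he) hm (by omega)
    (by rw [inR_iff]; omega) (by rw [hei]; exact hF.root e he)
  have hR : Rch x x R η := by
    obtain ⟨v, g1, g2⟩ := hM.far hc hG hω heT hD
    refine ⟨gm ε v, ?_, ?_⟩
    · rw [hx, Far_gm, gm_gm]; exact g1
    · rw [hη]
      unfold eta
      rw [← hei]
      exact Co_gm g2
  have hFT : ‖FT (TF TT fm (fm e)) b rk s e (SM TT fm co La b e ω)‖ ≤ rmf σ Wv x m R η := by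
    rw [FT_coord hF.st heT hei hs, norm_mul, norm_pow, Complex.norm_real,
      Real.norm_of_nonneg (ind_nonneg _)]
    unfold rmf
    refine mul_le_mul (pow_le_pow_left₀ (norm_nonneg _) hs0 _) (ind_mono fun h1 => ?_)
      (ind_nonneg _) (pow_nonneg hσ0 _)
    refine ⟨h1, ?_, hR⟩
    push Not at hin
    obtain ⟨v, g1, g2⟩ := hin
    refine ⟨gm ε v, ?_, ?_⟩
    · rw [hη, hWv, mem_CSx hei, gm_gm]; exact g1
    · rw [hx, inR_gm]; exact g2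
  refine hFT.trans ?_
  have q1 := rem_pt (Or.inr rfl) hσ0 hσ1 hE hηL hr11 hmr hr12 hr2 hm
  have q2 := wide_pt (r := r) hσ0 hσ1 (fun z hz => hF.env hM hz) hxF hηL hr (by omega) hrr
    (hF.line heF)
  have q3 : rmf σ Wv x r1 R η * ind (¬ InF (FlX b ε FlT) Wv x η) ≤
      crn TT fm co La b rk Q FlT σ e ω := by
    by_cases hI : InF (FlX b ε FlT) Wv x η
    · rw [ind_false (not_not.2 hI), mul_zero]; exact n3
    rw [ind_true hI, mul_one]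
    unfold rmf crn
    rw [hη, hWv, hx, ncard_CSx hF.st hei]
    refine mul_le_mul_of_nonneg_left (ind_mono ?_) (pow_nonneg hσ0 _)
    rintro ⟨g1, -, -⟩
    refine ⟨(first_iff hF.st heT hei).2 g1, hnf, ?_⟩
    unfold InF at hI
    push Not at hI
    obtain ⟨v, g3, g4⟩ := hI
    rw [hη, hWv, hx, CSx_eq hei] at g3
    obtain ⟨e', g5, rfl⟩ := g3
    exact ⟨e', mem_coe.1 g5, fun g6 => g4 (mem_image.2 ⟨e', g6, rfl⟩)⟩
  linarith

end Pool.Agent.Q1.M6e
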