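import Mathlib
import Pool.Agent.Q1.M6e.Flat

set_option autoImplicit false
open Finset

/-!
# The flat ties of one family, mean values
-/

namespace Pool.Agent.Q1.M6e

open Pool.Agent.H75.Perc Pool.Agent.H75.TwoArm Pool.Agent.H75.Four Pool.Agent.H49.Perc
open Pool.Agent.H69.Q1 Pool.Agent.H39.Q1 Pool.Agent.H25.Q1.Add
open Pool.Agent.H99.NC Pool.Agent.H60.Q1 Pool.Agent.H20.Q1 Pool.Agent.H59.Q1 Pool.Agent.Q1

/-- main term of a tie -/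
noncomputable def Tm {ι : Type*} [DecidableEq ι] (X : Pool.Agent.Q1.Env)
    (Cs : Finset (ℤ × ℤ)) (a : ℤ × ℤ → ℂ) (Bb B TT : Finset (ℤ × ℤ)) (fm : ℤ × ℤ → ι)
    (co : ι → Bool) (La : ι → Finset (ℤ × ℤ)) (b : ℤ × ℤ → ℤ × ℤ) (rk : ℤ × ℤ → ℤ)
    (s : ℤ × ℤ → ℂ) (e : ℤ × ℤ) : ℂ :=
  Eh B (fun ω => FT (TF TT fm (fm e)) b rk s e (SM TT fm co La b e ω) *
    DM X Cs a Bb B TT fm co La b e ω)

/-- main term of a tie, truncated -/
noncomputable def Tmt {ι : Type*} [DecidableEq ι] (X : Pool.Agent.Q1.Env)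
    (Cs : Finset (ℤ × ℤ)) (a : ℤ × ℤ → ℂ) (Bb B TT : Finset (ℤ × ℤ)) (fm : ℤ × ℤ → ι)
    (co : ι → Bool) (La : ι → Finset (ℤ × ℤ)) (b : ℤ × ℤ → ℤ × ℤ) (rk : ℤ × ℤ → ℤ)
    (s : ℤ × ℤ → ℂ) (m : ℤ) (e : ℤ × ℤ) : ℂ :=
  Eh B (fun ω => FTm (TF TT fm (fm e)) b rk s e m (SM TT fm co La b e ω) *
    DM X Cs a Bb B TT fm co La b e ω)

/-- **Remainder of the flat ties.** -/
theorem fam_rem : ∃ K C β : ℝ, 0 < K ∧ 0 < C ∧ 0 < β ∧
    ∀ {ι : Type} [DecidableEq ι] (X : Pool.Agent.Q1.Env) (W Bb B TT Cs FlT : Finset (ℤ × ℤ))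
      (fm : ℤ × ℤ → ι) (co : ι → Bool) (Wl La : ι → Finset (ℤ × ℤ)) (b o : ℤ × ℤ → ℤ × ℤ)
      (a : ℤ × ℤ → ℂ) (rk : ℤ × ℤ → ℤ) (i : ι) (δ : ℤ × ℤ) (ε : Bool × Bool) (h0 a0 m r1 r2 R : ℤ)
      (M σ : ℝ) (s0 : ℂ) (s : ℤ × ℤ → ℂ) (Q : Finset (ℤ × ℤ) → ℤ × ℤ → Prop),
      Multi X W Bb B TT fm co Wl La b o → (∀ c ∈ Cs, FarM X TT fm co Wl La b o c) →
      FlatFam X W Bb TT Cs fm co Wl La b o rk i ε δ h0 FlT R →
      (∀ ω ⊆ B, ∀ P ⊆ TT, ‖VM X Cs a Bb B TT fm co ω P‖ ≤ M) →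
      (∀ ω ⊆ B, ∀ e ∈ TT, DM X Cs a Bb B TT fm co La b e ω ≠ 0 → Q ω e) →
      (∀ e' ∈ TF TT fm i, s e' = s0) → ‖s0‖ ≤ σ → 1 / 4 ≤ σ → σ < 1 → 2 ≤ a0 →
      K ≤ (1 - σ) ^ ((3 : ℝ) / 2) * a0 → a0 ≤ m → 2 * m ≤ r1 → 2 * r1 ≤ r2 → r2 ≤ 8 * r1 →
      8 * r2 ≤ 3 * R →
      ∑ e ∈ FlT, ‖Tm X Cs a Bb B TT fm co La b rk s e - Tmt X Cs a Bb B TT fm co La b rk s m e‖ ≤
        2 * M * (FlT.card * (C * (((a0 : ℝ) / m) ^ β + ((m : ℝ) / r2) ^ β) * a0 / (r2 : ℝ) ^ 2) +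
          (FlT.card : ℝ) ^ 2 * (C * a0 / (r2 : ℝ) ^ 2) ^ 2 +
          Ex hf B (fun ω => ∑ e ∈ FlT, crn TT fm co La b rk Q FlT σ e ω)) := by
  obtain ⟨K1, C1, β, hK1, hC1, hβ, hgl⟩ := gl_le
  obtain ⟨K2, C2, hK2, hC2, hms⟩ := mass_le
  refine ⟨max K1 K2, max C1 (2000 * C2), β, lt_max_of_lt_left hK1, lt_max_of_lt_left hC1, hβ, ?_⟩
  intro ι _ X W Bb B TT Cs FlT fm co Wl La b o a rk i δ ε h0 a0 m r1 r2 R M σ s0 s Q hM hc hF hV hQ hs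
    hs0 hσ1 hσ2 ha0 hK ham hmr hr12 hr28 hr2R
  have hσ0 : 0 ≤ σ := by linarith
  have hM0 : 0 ≤ M := (norm_nonneg _).trans (hV ∅ (empty_subset _) ∅ (empty_subset _))
  have haR : (2 : ℝ) ≤ a0 := by exact_mod_cast ha0
  have hr20 : (0 : ℝ) < r2 := by exact_mod_cast (by omega : (0 : ℤ) < r2)
  set r : ℤ := r1 / 2 with hr
  have hr1' : 2 * r ≤ r1 := by omega
  have hra : a0 ≤ r := by omega
  have hr2r : r2 ≤ 24 * r := by omega
  have hrR0 : (0 : ℝ) < r := by exact_mod_cast (by omega : (0 : ℤ) < r)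
  -- each tie
  have key : ∀ e ∈ FlT, ‖Tm X Cs a Bb B TT fm co La b rk s e -
      Tmt X Cs a Bb B TT fm co La b rk s m e‖ ≤
      2 * M * (C1 * (((a0 : ℝ) / m) ^ β + ((m : ℝ) / r2) ^ β) * a0 / (r2 : ℝ) ^ 2 +
        FlT.card * (C2 * a0 / (r : ℝ) ^ 2) ^ 2 + Ex hf B (crn TT fm co La b rk Q FlT σ e)) := by
    intro e he
    have heF := hF.sub he
    have hxF : gm ε (b e) ∈ FlX b ε FlT := mem_image.2 ⟨e, he, rfl⟩
    have hE := hF.env hM hxF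
    have hcard : ((FlX b ε FlT).card : ℝ) ≤ FlT.card := by exact_mod_cast card_image_le
    unfold Tm Tmt
    rw [← Ec_sub]
    refine (Ec_half_norm fun ω hω => hF.pt (r := r) (r1 := r1) (r2 := r2) (m := m) hM hc he hV hQ hs hs0
      hσ2.le hω (by omega) (by omega) (by omega) (by omega) (by omega) (by omega) hr1').trans ?_
    rw [Ex_smul]
    refine mul_le_mul_of_nonneg_left ?_ (by positivity)
    rw [Ex_add, Ex_add]
    refine add_le_add (add_le_add ?_ ?_) le_rfl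
    · rw [Ex_eta (hM.la i) (gl σ 1 (Wx TT fm b i ε) (gm ε (b e)) m r1 r2 R)]
      exact hgl 1 (Or.inr rfl) σ hσ1 hσ2 a0 ha0 ((le_max_left _ _).trans hK) _ m r1 r2 R _ _ hE ham
        (by omega) hr12 hr28 hr2R
    · rw [Ex_eta (hM.la i) (fun η => ∑ x' ∈ (FlX b ε FlT).filter
        (fun x' => 2 * r + 1 ≤ x'.1 - (gm ε (b e)).1),
        gS σ 1 1 (gm ε (b e)) r η * gS σ 1 (-1) x' r η), Ex_sum]
      have hsub : ∀ z ∈ FlX b ε FlT, HL 1 z r ⊆ Lx co La i ε := fun z hz =>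
        (HL_mono (by omega)).trans (hF.env hM hz).sub
      have e2 : ∀ x' ∈ (FlX b ε FlT).filter (fun x' => 2 * r + 1 ≤ x'.1 - (gm ε (b e)).1),
          Ex hf (Lx co La i ε) (fun η => gS σ 1 1 (gm ε (b e)) r η * gS σ 1 (-1) x' r η) =
          pS σ 1 1 r * pS σ 1 (-1) r := by
        intro x' hx'
        obtain ⟨g1, g2⟩ := mem_filter.1 hx'
        exact Ex_two g2 (hsub _ hxF) (hsub x' g1)
      rw [sum_congr rfl e2, sum_const, nsmul_eq_mul]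
      have p1 := hms 1 (Or.inr rfl) 1 (Or.inl rfl) σ hσ1 hσ2 a0 ha0 ((le_max_right _ _).trans hK) r
        hra
      have p2 := hms 1 (Or.inr rfl) (-1) (Or.inr rfl) σ hσ1 hσ2 a0 ha0
        ((le_max_right _ _).trans hK) r hra
      have p3 : (0 : ℝ) ≤ pS σ 1 1 r := pS_nonneg hσ0
      have p4 : (0 : ℝ) ≤ pS σ 1 (-1) r := pS_nonneg hσ0
      have p5 : (0 : ℝ) ≤ C2 * a0 / (r : ℝ) ^ 2 := by positivity
      refine mul_le_mul ?_ ?_ (mul_nonneg p3 p4) (Nat.cast_nonneg _)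
      · refine le_trans ?_ hcard
        exact_mod_cast card_filter_le _ _
      · rw [pow_two]
        exact mul_le_mul p1 p2 p4 p5
  refine (sum_le_sum key).trans ?_
  rw [← mul_sum]
  refine mul_le_mul_of_nonneg_left ?_ (by positivity)
  rw [sum_add_distrib, sum_add_distrib, sum_const, sum_const, nsmul_eq_mul, nsmul_eq_mul, ← Ex_sum]
  refine add_le_add (add_le_add ?_ ?_) le_rfl
  · refine mul_le_mul_of_nonneg_left (div_le_div_of_nonneg_right ?_ (by positivity))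
      (Nat.cast_nonneg _)
    refine mul_le_mul_of_nonneg_right ?_ (by linarith)
    refine mul_le_mul_of_nonneg_right (le_max_left _ _) ?_
    have h1 : (0 : ℝ) ≤ ((a0 : ℝ) / m) ^ β := Real.rpow_nonneg (div_nonneg (by linarith)
      (by exact_mod_cast (by omega : (0 : ℤ) ≤ m))) _
    have h2 : (0 : ℝ) ≤ ((m : ℝ) / r2) ^ β := Real.rpow_nonneg (div_nonneg
      (by exact_mod_cast (by omega : (0 : ℤ) ≤ m)) hr20.le) _
    linarith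
  · rw [← mul_assoc, ← pow_two]
    refine mul_le_mul_of_nonneg_left ?_ (by positivity)
    refine pow_le_pow_left₀ (by positivity) ?_ 2
    rw [div_le_div_iff₀ (by positivity) (by positivity)]
    have h1 : (r2 : ℝ) ≤ 24 * r := by exact_mod_cast hr2r
    have h2 : (r2 : ℝ) ^ 2 ≤ 576 * (r : ℝ) ^ 2 := by
      have := pow_le_pow_left₀ hr20.le h1 2
      rw [mul_pow] at this
      linarith
    have h3 : 2000 * C2 ≤ max C1 (2000 * C2) := le_max_right _ _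
    calc C2 * a0 * (r2 : ℝ) ^ 2 ≤ C2 * a0 * (576 * (r : ℝ) ^ 2) :=
          mul_le_mul_of_nonneg_left h2 (by positivity)
      _ ≤ (2000 * C2) * a0 * (r : ℝ) ^ 2 := by
          have : 0 ≤ C2 * a0 * (r : ℝ) ^ 2 := by positivity
          nlinarith
      _ ≤ max C1 (2000 * C2) * a0 * (r : ℝ) ^ 2 :=
          mul_le_mul_of_nonneg_right (mul_le_mul_of_nonneg_right h3 (by linarith)) (by positivity)

end Pool.Agent.Q1.M6e
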