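import Mathlib
import Pool.Agent.Q1.M6e.AsmEnv
import Pool.Agent.H20.Q1.DNum

set_option autoImplicit false
open Finset

/-!
# Numerics of the assembly, for an arbitrary finite list of walls

`lr_core` : the choice of the scales `a0, a1, m, r1, r2, R'`.
-/

namespace Pool.Agent.Q1.M6e

open Pool.Agent.H20.Q1

lemma remB_le {C β M n Z : ℝ} {a m r : ℤ} {N X Y t ZB : ℝ} (hC : 0 ≤ C) (hM : 0 ≤ M) (hn : 0 ≤ n)
    (hnN : n ≤ N) (ha : (0 : ℝ) ≤ a) (hm : (0 : ℝ) < m) (hr : (0 : ℝ) < r)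
    (hX : ((a : ℝ) / m) ^ β ≤ X) (hY : ((m : ℝ) / r) ^ β ≤ Y) (ht : (a : ℝ) / (r : ℝ) ^ 2 ≤ t)
    (hZ : Z ≤ ZB) :
    remB C β M n Z a m r ≤ 2 * M * (N * (C * (X + Y) * t) + (N * (C * t)) ^ 2 + ZB) := by
  have hX0 : 0 ≤ ((a : ℝ) / m) ^ β := Real.rpow_nonneg (by positivity) _
  have hY0 : 0 ≤ ((m : ℝ) / r) ^ β := Real.rpow_nonneg (by positivity) _
  have ht0 : 0 ≤ (a : ℝ) / (r : ℝ) ^ 2 := by positivity
  unfold remB
  refine mul_le_mul_of_nonneg_left (add_le_add (add_le_add ?_ ?_) hZ) (by positivity)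
  · refine mul_le_mul hnN ?_ (by positivity) (by linarith)
    rw [mul_div_assoc]
    exact mul_le_mul (mul_le_mul_of_nonneg_left (add_le_add hX hY) hC) ht ht0
      (mul_nonneg hC (by linarith))
  · rw [← mul_pow]
    refine pow_le_pow_left₀ (by positivity) ?_ 2
    refine mul_le_mul hnN ?_ (by positivity) (by linarith)
    rw [mul_div_assoc]
    exact mul_le_mul_of_nonneg_left ht hC

/-- the normalised bound -/
noncomputable def PhiL (N C1 c1 Ca β γ A A1 CD κ ζ K4 q R : ℝ) : ℝ :=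
  C1 * A ^ (1 + c1) * q ^ c1 + N * (CD * C1 * A1 ^ (1 + c1) * (1 / R) ^ c1 +
    (C1 * Ca / κ * (4 / ζ ^ 2) * (2 * (K4 + 2) * q / ζ) ^ γ +
    (2 * (C1 * Ca * ((A / K4) ^ β + (8 * (K4 + 1) * q / ζ) ^ β) * (64 * A / ζ ^ 2) +
      (64 * C1 * Ca * A / ζ ^ 2) ^ 2 * q + C1 * A * ζ ^ c1) +
    CD * (2 * (C1 * Ca * ((A1 / K4) ^ β + (8 * (K4 + 1) * q / ζ) ^ β) * (64 * A1 / ζ ^ 2) +
      (64 * C1 * Ca * A1 / ζ ^ 2) ^ 2 * (1 / R) + C1 * A1 * ζ ^ c1)))))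

/-- **Numerics.** -/
theorem num_bound {ι : Type*} [Fintype ι] {N0 : ℕ} (hN : Fintype.card ι ≤ N0)
    {C1 c1 Ca β γ A CD κ ζ K4 M σ : ℝ} {R n : ℕ} {R' a0 a1 m r2 : ℤ}
    {cd D : ι → ℝ} (hC1 : 0 < C1) (hc1 : 0 < c1) (hCa : 0 < Ca) (hβ : 0 < β) (hγ : 0 < γ)
    (hA : 0 < A) (hCD : 0 < CD) (hκ : 0 < κ) (hζ : 0 < ζ) (hK4 : 0 < K4) (hM : 0 ≤ M)
    (hR : 0 < R) (hn : 1 ≤ n) (hR1 : ζ * R / 2 ≤ R') (hR2 : (R' : ℝ) ≤ ζ * R)
    (hr2 : ζ * R / 8 ≤ r2) (ha0 : 0 ≤ a0) (ha0' : (a0 : ℝ) ≤ A * n) (ha1 : 0 ≤ a1)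
    (hm1 : K4 * n ≤ m) (hm2 : (m : ℝ) ≤ K4 * n + 1) (hσ : κ / n ≤ (1 - σ) ^ ((3 : ℝ) / 2))
    (hcd : ∀ i, 0 ≤ cd i) (hcd' : ∀ i, cd i ≤ C1 * R) (hD : ∀ i, 0 ≤ D i) (hD' : ∀ i, D i ≤ CD * n) :
    C1 * M * ((a0 : ℝ) / R) ^ (1 + c1) + ∑ i, (D i * (C1 * M * ((a1 : ℝ) / R) ^ (1 + c1)) +
        (cd i * (Ca * M * (((m : ℝ) + 1) / R') ^ γ / ((1 - σ) ^ ((3 : ℝ) / 2) * (R' : ℝ) ^ 2)) +
        (remB Ca β M (cd i) (C1 * ((a0 : ℝ) / R) * ((R' : ℝ) / R) ^ c1) a0 m r2 +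
          D i * remB Ca β M (cd i) (C1 * ((a1 : ℝ) / R) * ((R' : ℝ) / R) ^ c1) a1 m r2))) ≤
      M * ((n : ℝ) / R) * PhiL N0 C1 c1 Ca β γ A a1 CD κ ζ K4 ((n : ℝ) / R) R := by
  have hR0 : (0 : ℝ) < R := by exact_mod_cast hR
  have hn0 : (1 : ℝ) ≤ n := by exact_mod_cast hn
  have hn0' : (0 : ℝ) < n := by linarith
  have ha0r : (0 : ℝ) ≤ a0 := by exact_mod_cast ha0
  have ha1r : (0 : ℝ) ≤ a1 := by exact_mod_cast ha1
  have hR'0 : (0 : ℝ) < R' := lt_of_lt_of_le (by positivity) hR1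
  have hr20 : (0 : ℝ) < r2 := lt_of_lt_of_le (by positivity) hr2
  have hm0 : (0 : ℝ) < m := lt_of_lt_of_le (by positivity) hm1
  set q : ℝ := (n : ℝ) / R with hq
  have hq0 : 0 < q := by positivity
  have hσ0 : 0 < (1 - σ) ^ ((3 : ℝ) / 2) := lt_of_lt_of_le (by positivity) hσ
  -- powers
  have p1 : (a0 : ℝ) / R ≤ A * q := by
    rw [hq, ← mul_div_assoc]; exact div_le_div_of_nonneg_right ha0' hR0.le
  have p2 : ((m : ℝ) / r2) ^ β ≤ (8 * (K4 + 1) * q / ζ) ^ β := by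
    refine Real.rpow_le_rpow (by positivity) ?_ hβ.le
    rw [div_le_div_iff₀ hr20 hζ, hq]
    have h1 : (m : ℝ) ≤ (K4 + 1) * n := by linarith only [hm2, hn0]
    calc (m : ℝ) * ζ ≤ (K4 + 1) * n * ζ := mul_le_mul_of_nonneg_right h1 hζ.le
      _ = 8 * (K4 + 1) * (n / R) * (ζ * R / 8) := by field_simp
      _ ≤ 8 * (K4 + 1) * (n / R) * r2 := mul_le_mul_of_nonneg_left hr2 (by positivity)
  have p3 : (((m : ℝ) + 1) / R') ^ γ ≤ (2 * (K4 + 2) * q / ζ) ^ γ := by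
    refine Real.rpow_le_rpow (by positivity) ?_ hγ.le
    rw [div_le_div_iff₀ hR'0 hζ, hq]
    have h1 : (m : ℝ) + 1 ≤ (K4 + 2) * n := by linarith only [hm2, hn0]
    calc ((m : ℝ) + 1) * ζ ≤ (K4 + 2) * n * ζ := mul_le_mul_of_nonneg_right h1 hζ.le
      _ = 2 * (K4 + 2) * (n / R) * (ζ * R / 2) := by field_simp
      _ ≤ 2 * (K4 + 2) * (n / R) * R' := mul_le_mul_of_nonneg_left hR1 (by positivity)
  have p4 : ((R' : ℝ) / R) ^ c1 ≤ ζ ^ c1 := by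
    refine Real.rpow_le_rpow (by positivity) ?_ hc1.le
    rw [div_le_iff₀ hR0]; exact hR2
  have p5 : ((a0 : ℝ) / m) ^ β ≤ (A / K4) ^ β := by
    refine Real.rpow_le_rpow (by positivity) ?_ hβ.le
    rw [div_le_div_iff₀ hm0 hK4]
    calc (a0 : ℝ) * K4 ≤ A * n * K4 := mul_le_mul_of_nonneg_right ha0' hK4.le
      _ = A * (K4 * n) := by ring
      _ ≤ A * m := mul_le_mul_of_nonneg_left hm1 hA.le
  have p6 : ((a1 : ℝ) / m) ^ β ≤ ((a1 : ℝ) / K4) ^ β := by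
    refine Real.rpow_le_rpow (by positivity) ?_ hβ.le
    refine div_le_div_of_nonneg_left ha1r hK4 ?_
    linarith only [hm1, mul_nonneg hK4.le (sub_nonneg.2 hn0)]
  have hr2s : (ζ * R) ^ 2 / 64 ≤ (r2 : ℝ) ^ 2 := by
    have := pow_le_pow_left₀ (by positivity) hr2 2
    calc (ζ * R) ^ 2 / 64 = (ζ * R / 8) ^ 2 := by ring
      _ ≤ _ := this
  have hinv : ∀ x : ℝ, 0 ≤ x → x / (r2 : ℝ) ^ 2 ≤ 64 * x / (ζ * R) ^ 2 := by
    intro x hx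
    rw [div_le_div_iff₀ (by positivity) (by positivity)]
    linarith only [mul_le_mul_of_nonneg_left hr2s hx]
  have p7 : (a0 : ℝ) / (r2 : ℝ) ^ 2 ≤ 64 * (A * n) / (ζ * R) ^ 2 :=
    (hinv _ ha0r).trans (div_le_div_of_nonneg_right (by linarith) (by positivity))
  have p8 : (a1 : ℝ) / (r2 : ℝ) ^ 2 ≤ 64 * a1 / (ζ * R) ^ 2 := hinv _ ha1r
  set X := (8 * (K4 + 1) * q / ζ) ^ β with hX
  have hX0 : 0 ≤ X := Real.rpow_nonneg (by positivity) _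
  have hζc : 0 ≤ ζ ^ c1 := Real.rpow_nonneg hζ.le _
  -- first term
  have t1 : C1 * M * ((a0 : ℝ) / R) ^ (1 + c1) ≤ M * q * (C1 * A ^ (1 + c1) * q ^ c1) := by
    have h1 : ((a0 : ℝ) / R) ^ (1 + c1) ≤ (A * q) ^ (1 + c1) :=
      Real.rpow_le_rpow (by positivity) p1 (by linarith)
    calc C1 * M * ((a0 : ℝ) / R) ^ (1 + c1) ≤ C1 * M * (A * q) ^ (1 + c1) :=
          mul_le_mul_of_nonneg_left h1 (by positivity)
      _ = M * q * (C1 * A ^ (1 + c1) * q ^ c1) := by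
          rw [Real.mul_rpow hA.le hq0.le, Real.rpow_add hq0, Real.rpow_one]; ring
  -- second term
  have t2 : ∀ i, D i * (C1 * M * ((a1 : ℝ) / R) ^ (1 + c1)) ≤
      M * q * (CD * C1 * (a1 : ℝ) ^ (1 + c1) * (1 / (R : ℝ)) ^ c1) := by
    intro i
    have h1 : ((a1 : ℝ) / R) ^ (1 + c1) = (a1 : ℝ) ^ (1 + c1) * ((1 / (R : ℝ)) ^ c1 / R) := by
      rw [div_eq_mul_one_div, Real.mul_rpow ha1r (by positivity),
        Real.rpow_add (x := 1 / (R : ℝ)) (by positivity) 1 c1, Real.rpow_one]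
      ring
    have h2 : 0 ≤ (a1 : ℝ) ^ (1 + c1) * ((1 / (R : ℝ)) ^ c1 / R) := by rw [← h1]; positivity
    rw [h1]
    calc D i * (C1 * M * ((a1 : ℝ) ^ (1 + c1) * ((1 / (R : ℝ)) ^ c1 / R))) ≤
          CD * n * (C1 * M * ((a1 : ℝ) ^ (1 + c1) * ((1 / (R : ℝ)) ^ c1 / R))) :=
          mul_le_mul_of_nonneg_right (hD' i) (by positivity)
      _ = _ := by rw [hq]; ring
  -- third term
  have t3 : ∀ i, cd i * (Ca * M * (((m : ℝ) + 1) / R') ^ γ /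
      ((1 - σ) ^ ((3 : ℝ) / 2) * (R' : ℝ) ^ 2)) ≤
      M * q * (C1 * Ca / κ * (4 / ζ ^ 2) * (2 * (K4 + 2) * q / ζ) ^ γ) := by
    intro i
    set Y := (2 * (K4 + 2) * q / ζ) ^ γ with hY
    have hY0 : 0 ≤ Y := Real.rpow_nonneg (by positivity) _
    have h1 : κ / n * (ζ * R / 2) ^ 2 ≤ (1 - σ) ^ ((3 : ℝ) / 2) * (R' : ℝ) ^ 2 :=
      mul_le_mul hσ (pow_le_pow_left₀ (by positivity) hR1 2) (by positivity) hσ0.le
    have h2 : Ca * M * (((m : ℝ) + 1) / R') ^ γ / ((1 - σ) ^ ((3 : ℝ) / 2) * (R' : ℝ) ^ 2) ≤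
        Ca * M * Y / (κ / n * (ζ * R / 2) ^ 2) := by
      refine div_le_div₀ (by positivity) (mul_le_mul_of_nonneg_left p3 (by positivity))
        (by positivity) h1
    calc _ ≤ C1 * R * (Ca * M * Y / (κ / n * (ζ * R / 2) ^ 2)) := by
          refine mul_le_mul (hcd' i) h2 ?_ (by positivity)
          have : (0 : ℝ) ≤ (((m : ℝ) + 1) / R') ^ γ := Real.rpow_nonneg (by positivity) _
          positivity
      _ = _ := by rw [hq]; field_simp; ring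
  -- fourth term
  have t4 : ∀ i, remB Ca β M (cd i) (C1 * ((a0 : ℝ) / R) * ((R' : ℝ) / R) ^ c1) a0 m r2 ≤
      M * q * (2 * (C1 * Ca * ((A / K4) ^ β + X) * (64 * A / ζ ^ 2) +
        (64 * C1 * Ca * A / ζ ^ 2) ^ 2 * q + C1 * A * ζ ^ c1)) := by
    intro i
    have h1 := remB_le (C := Ca) (M := M) (ZB := C1 * (A * q) * ζ ^ c1) hCa.le hM (hcd i) (hcd' i)
      ha0r hm0 hr20 p5 p2 p7 (Z := C1 * ((a0 : ℝ) / R) * ((R' : ℝ) / R) ^ c1)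
      (mul_le_mul (mul_le_mul_of_nonneg_left p1 hC1.le) p4 (Real.rpow_nonneg (by positivity) _)
        (by positivity))
    refine h1.trans (le_of_eq ?_)
    rw [hq]; field_simp
  -- fifth term
  have t5 : ∀ i, D i * remB Ca β M (cd i) (C1 * ((a1 : ℝ) / R) * ((R' : ℝ) / R) ^ c1) a1 m r2 ≤
      M * q * (CD * (2 * (C1 * Ca * (((a1 : ℝ) / K4) ^ β + X) * (64 * a1 / ζ ^ 2) +
        (64 * C1 * Ca * a1 / ζ ^ 2) ^ 2 * (1 / R) + C1 * a1 * ζ ^ c1))) := by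
    intro i
    have h1 := remB_le (C := Ca) (M := M) (ZB := C1 * (a1 / R) * ζ ^ c1) hCa.le hM (hcd i) (hcd' i)
      ha1r hm0 hr20 p6 p2 p8 (Z := C1 * ((a1 : ℝ) / R) * ((R' : ℝ) / R) ^ c1)
      (mul_le_mul_of_nonneg_left p4 (by positivity))
    have hK : (0 : ℝ) ≤ ((a1 : ℝ) / K4) ^ β := Real.rpow_nonneg (by positivity) _
    have h2 : 0 ≤ 2 * M * (C1 * R * (Ca * (((a1 : ℝ) / K4) ^ β + X) * (64 * a1 / (ζ * R) ^ 2)) +
      (C1 * R * (Ca * (64 * a1 / (ζ * R) ^ 2))) ^ 2 + C1 * (a1 / R) * ζ ^ c1) := by positivity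
    refine (mul_le_mul_of_nonneg_left h1 (hD i)).trans
      ((mul_le_mul_of_nonneg_right (hD' i) h2).trans (le_of_eq ?_))
    rw [hq]; field_simp
  refine (add_le_add t1 (sum_le_sum fun i _ => add_le_add (t2 i) (add_le_add (t3 i)
    (add_le_add (t4 i) (t5 i))))).trans ?_
  rw [sum_const, nsmul_eq_mul, card_univ]
  have hN' : (Fintype.card ι : ℝ) ≤ N0 := by exact_mod_cast hN
  have hK : (0 : ℝ) ≤ ((a1 : ℝ) / K4) ^ β := Real.rpow_nonneg (by positivity) _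
  have hK' : (0 : ℝ) ≤ (A / K4) ^ β := Real.rpow_nonneg (by positivity) _
  have hY0 : 0 ≤ (2 * (K4 + 2) * q / ζ) ^ γ := Real.rpow_nonneg (by positivity) _
  refine (add_le_add le_rfl (mul_le_mul_of_nonneg_right hN' (by positivity))).trans (le_of_eq ?_)
  unfold PhiL
  rw [← hX]
  ring

lemma small_of_cont {f : ℝ → ℝ} (hf : Continuous f) (h0 : f 0 = 0) {δ : ℝ} (hδ : 0 < δ) :
    ∃ η : ℝ, 0 < η ∧ ∀ x : ℝ, 0 < x → x < η → f x < δ := by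
  have h1 : ∀ᶠ x in nhds (0 : ℝ), f x < δ :=
    (hf.tendsto' 0 0 h0).eventually_lt_const hδ
  obtain ⟨η, hη, h2⟩ := Metric.eventually_nhds_iff.1 h1
  refine ⟨η, hη, fun x hx hx' => h2 ?_⟩
  rw [Real.dist_eq, sub_zero, abs_of_pos hx]
  exact hx'

lemma cont_pow {c : ℝ} (hc : 0 < c) (k : ℝ) : Continuous fun x : ℝ => (k * x) ^ c :=
  (continuous_const.mul continuous_id).rpow_const fun _ => Or.inr hc.le

/-- **Choice of the constants.** -/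
theorem phi_small {N C1 c1 Ca β γ A A1 CD κ δ : ℝ} (hc1 : 0 < c1) (hβ : 0 < β) (hγ : 0 < γ)
    (hδ : 0 < δ) {ζm K0 : ℝ} (hζm : 0 < ζm) (hK0 : 0 < K0) :
    ∃ ζ K4 : ℝ, 0 < ζ ∧ ζ < ζm ∧ K0 < K4 ∧ ∃ ρ1 R0 : ℝ, 0 < ρ1 ∧ 0 < R0 ∧ ∀ q R : ℝ, 0 < q → q < ρ1 →
      R0 < R → PhiL N C1 c1 Ca β γ A A1 CD κ ζ K4 q R ≤ δ := by
  obtain ⟨η1, hη1, h1⟩ := small_of_cont
    (f := fun ζ => N * (2 * (C1 * A * (1 * ζ) ^ c1) + CD * (2 * (C1 * A1 * (1 * ζ) ^ c1))))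
    (by have := cont_pow hc1 1; fun_prop) (by simp [hc1.ne']) (δ := δ / 4) (by positivity)
  set ζ := min (η1 / 2) (ζm / 2) with hζd
  have hζ : 0 < ζ := lt_min (by positivity) (by positivity)
  have hζ1 : ζ < η1 := (min_le_left _ _).trans_lt (by linarith)
  have hζ2 : ζ < ζm := (min_le_right _ _).trans_lt (by linarith)
  have k1 := h1 ζ hζ hζ1
  obtain ⟨η2, hη2, h2⟩ := small_of_cont
    (f := fun u => N * (2 * (C1 * Ca * (A * u) ^ β * (64 * A / ζ ^ 2)) +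
      CD * (2 * (C1 * Ca * (A1 * u) ^ β * (64 * A1 / ζ ^ 2)))))
    (by have := cont_pow hβ A; have := cont_pow hβ A1; fun_prop) (by simp [hβ.ne']) (δ := δ / 4)
    (by positivity)
  set u := min (η2 / 2) (1 / (2 * K0)) with hud
  have hu : 0 < u := lt_min (by positivity) (by positivity)
  have hu1 : u < η2 := (min_le_left _ _).trans_lt (by linarith)
  have hu2 : u ≤ 1 / (2 * K0) := min_le_right _ _
  have k2 := h2 u hu hu1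
  set K4 := 1 / u with hK4d
  have hK4 : K0 < K4 := by
    rw [hK4d, lt_div_iff₀ hu]
    calc K0 * u ≤ K0 * (1 / (2 * K0)) := mul_le_mul_of_nonneg_left hu2 hK0.le
      _ = 1 / 2 := by field_simp
      _ < 1 := by norm_num
  have eu : u = 1 / K4 := by rw [hK4d, one_div_one_div]
  obtain ⟨η3, hη3, h3⟩ := small_of_cont
    (f := fun q => C1 * A ^ (1 + c1) * (1 * q) ^ c1 + N * (C1 * Ca / κ * (4 / ζ ^ 2) *
        ((2 * (K4 + 2) / ζ) * q) ^ γ +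
      (2 * (C1 * Ca * ((8 * (K4 + 1) / ζ) * q) ^ β * (64 * A / ζ ^ 2) +
        (64 * C1 * Ca * A / ζ ^ 2) ^ 2 * q) +
      CD * (2 * (C1 * Ca * ((8 * (K4 + 1) / ζ) * q) ^ β * (64 * A1 / ζ ^ 2))))))
    (by
      have := cont_pow hc1 1
      have := cont_pow hγ (2 * (K4 + 2) / ζ)
      have := cont_pow hβ (8 * (K4 + 1) / ζ)
      fun_prop) (by simp [hc1.ne', hβ.ne', hγ.ne']) (δ := δ / 4) (by positivity)
  obtain ⟨η4, hη4, h4⟩ := small_of_cont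
    (f := fun v => N * (CD * C1 * A1 ^ (1 + c1) * (1 * v) ^ c1 +
      CD * (2 * ((64 * C1 * Ca * A1 / ζ ^ 2) ^ 2 * v))))
    (by have := cont_pow hc1 1; fun_prop) (by simp [hc1.ne']) (δ := δ / 4) (by positivity)
  refine ⟨ζ, K4, hζ, hζ2, hK4, η3, 1 / η4, hη3, by positivity, fun q R hq hq' hR => ?_⟩
  have hR0 : 0 < R := lt_trans (by positivity) hR
  have k3 := h3 q hq hq'
  have k4 := h4 (1 / R) (by positivity) (by
    rw [div_lt_iff₀ hR0]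
    rw [div_lt_iff₀ hη4] at hR
    linarith)
  rw [eu] at k2
  have e : PhiL N C1 c1 Ca β γ A A1 CD κ ζ K4 q R =
      N * (2 * (C1 * A * (1 * ζ) ^ c1) + CD * (2 * (C1 * A1 * (1 * ζ) ^ c1))) +
      N * (2 * (C1 * Ca * (A * (1 / K4)) ^ β * (64 * A / ζ ^ 2)) +
      CD * (2 * (C1 * Ca * (A1 * (1 / K4)) ^ β * (64 * A1 / ζ ^ 2)))) +
      (C1 * A ^ (1 + c1) * (1 * q) ^ c1 + N * (C1 * Ca / κ * (4 / ζ ^ 2) *
        ((2 * (K4 + 2) / ζ) * q) ^ γ +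
      (2 * (C1 * Ca * ((8 * (K4 + 1) / ζ) * q) ^ β * (64 * A / ζ ^ 2) +
        (64 * C1 * Ca * A / ζ ^ 2) ^ 2 * q) +
      CD * (2 * (C1 * Ca * ((8 * (K4 + 1) / ζ) * q) ^ β * (64 * A1 / ζ ^ 2)))))) +
      N * (CD * C1 * A1 ^ (1 + c1) * (1 * (1 / R)) ^ c1 +
      CD * (2 * ((64 * C1 * Ca * A1 / ζ ^ 2) ^ 2 * (1 / R)))) := by
    unfold PhiL
    rw [show 2 * (K4 + 2) * q / ζ = (2 * (K4 + 2) / ζ) * q by ring,
      show 8 * (K4 + 1) * q / ζ = (8 * (K4 + 1) / ζ) * q by ring,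
      show A / K4 = A * (1 / K4) by ring, show A1 / K4 = A1 * (1 / K4) by ring, one_mul, one_mul,
      one_mul]
    ring
  rw [e]
  linarith

/-- right side of `asm_env` -/
noncomputable def RhsE {ι : Type*} [Fintype ι] (C1 c1 Ca β γ M σ : ℝ) (R : ℕ) (R' a0 a1 m r2 : ℤ)
    (cd D : ι → ℝ) : ℝ :=
  C1 * M * ((a0 : ℝ) / R) ^ (1 + c1) + ∑ i, (D i * (C1 * M * ((a1 : ℝ) / R) ^ (1 + c1)) +
    (cd i * (Ca * M * (((m : ℝ) + 1) / R') ^ γ / ((1 - σ) ^ ((3 : ℝ) / 2) * (R' : ℝ) ^ 2)) +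
    (remB Ca β M (cd i) (C1 * ((a0 : ℝ) / R) * ((R' : ℝ) / R) ^ c1) a0 m r2 +
      D i * remB Ca β M (cd i) (C1 * ((a1 : ℝ) / R) * ((R' : ℝ) / R) ^ c1) a1 m r2)))

/-- **Choice of the scales.** `n = ⌊ρ R⌋`; `K` : lower bound of `(1 - σ)^(3/2) a0` and `(1 - 1/4)^(3/2) a1`;
`K5` : lower bound of `m / n`; `ζm` : upper bound of `R' / R`. -/
theorem lr_core (N0 : ℕ) {C1 c1 Ca β γ CD κ K K5 ζm ε : ℝ} (hC1 : 0 < C1) (hc1 : 0 < c1)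
    (hCa : 0 < Ca) (hβ : 0 < β) (hγ : 0 < γ) (hCD : 0 < CD) (hκ : 0 < κ) (hκ1 : κ ≤ 1) (hK : 0 < K)
    (hζm : 0 < ζm) (hε : 0 < ε) :
    ∃ ρ1 : ℝ, 0 < ρ1 ∧ ∀ ρ : ℝ, 0 < ρ → ρ < ρ1 → ∀ (R1 : ℕ) (nm : ℝ), ∃ R0 : ℕ, ∀ R : ℕ, R0 ≤ R →
    ∀ n : ℕ, n = ⌊ρ * R⌋₊ → ∃ a0 a1 m r1 r2 R' : ℤ, 1 ≤ n ∧ nm ≤ n ∧ 0 < R ∧ R1 ≤ R ∧
      2 ≤ a0 ∧ K ≤ κ / n * a0 ∧ a0 ≤ m ∧ 2 ≤ a1 ∧ K ≤ (1 - 1 / 4 : ℝ) ^ ((3 : ℝ) / 2) * a1 ∧
      a1 ≤ m ∧ 2 * m ≤ r1 ∧ 2 * r1 ≤ r2 ∧ r2 ≤ 8 * r1 ∧ 8 * r2 ≤ 3 * R' ∧ m < R' ∧ K5 * n ≤ m ∧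
      (R1 : ℤ) ≤ R' ∧ (R' : ℝ) ≤ ζm * R ∧
      ∀ {ι : Type} [Fintype ι], Fintype.card ι ≤ N0 → ∀ σ : ℝ, κ / n ≤ (1 - σ) ^ ((3 : ℝ) / 2) →
      ∀ cd D : ι → ℝ, (∀ i, 0 ≤ cd i) → (∀ i, cd i ≤ C1 * R) → (∀ i, 0 ≤ D i) →
      (∀ i, D i ≤ CD * n) → ∀ M : ℝ, 0 ≤ M →
      RhsE C1 c1 Ca β γ M σ R R' a0 a1 m r2 cd D ≤ ε * ρ * M := by
  set A : ℝ := (K + 3) / κ with hA
  have hApos : 0 < A := by positivity
  obtain ⟨a1, ha12, ha1K, -⟩ := exists_a0 (t := (1 - 1 / 4 : ℝ) ^ ((3 : ℝ) / 2)) hK (by positivity)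
    (t_le_one (by norm_num) (by norm_num))
  have ha1pos : (0 : ℝ) < a1 := by exact_mod_cast (by omega : (0 : ℤ) < a1)
  obtain ⟨ζ, K4, hζ, hζm, hK4, ρ1, RR, hρ1, hRR, hphi⟩ := phi_small (N := N0) (C1 := C1) (c1 := c1)
    (Ca := Ca) (β := β) (γ := γ) (A := A) (A1 := a1) (CD := CD) (κ := κ) (δ := ε) hc1 hβ hγ hε
    (ζm := ζm) (K0 := max A (max a1 K5)) hζm (lt_max_of_lt_left hApos)
  have hK4A : A < K4 := (le_max_left _ _).trans_lt hK4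
  have hK4a : (a1 : ℝ) < K4 := ((le_max_left _ _).trans (le_max_right _ _)).trans_lt hK4
  have hK43 : K5 < K4 := ((le_max_right _ _).trans (le_max_right _ _)).trans_lt hK4
  have hK4pos : 0 < K4 := hApos.trans hK4A
  refine ⟨min ρ1 (ζ / (64 * (K4 + 1))), lt_min hρ1 (by positivity), fun ρ hρ hρl R1 nm => ?_⟩
  have hρl1 : ρ < ρ1 := hρl.trans_le (min_le_left _ _)
  have hρl2 : (K4 + 1) * ρ < ζ / 64 := by
    have := hρl.trans_le (min_le_right _ _)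
    rw [lt_div_iff₀ (by positivity)] at this
    linarith
  -- the size
  obtain ⟨R0, hR0⟩ := exists_nat_gt (max (max (max RR (64 / ζ)) R1)
    (max ((max nm 0 + 2) / ρ) (2 * (R1 + 1) / ζ)))
  refine ⟨R0, fun R hR n hn => ?_⟩
  have hRr : (R0 : ℝ) ≤ R := by exact_mod_cast hR
  have b1 : RR < R := lt_of_le_of_lt ((le_max_left _ _).trans ((le_max_left _ _).trans
    (le_max_left _ _))) (hR0.trans_le hRr)
  have b2 : 64 / ζ < R := lt_of_le_of_lt ((le_max_right _ _).trans ((le_max_left _ _).trans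
    (le_max_left _ _))) (hR0.trans_le hRr)
  have b3 : (R1 : ℝ) < R := lt_of_le_of_lt ((le_max_right _ _).trans (le_max_left _ _))
    (hR0.trans_le hRr)
  have b5 : (max nm 0 + 2) / ρ < R := lt_of_le_of_lt ((le_max_left _ _).trans
    (le_max_right _ _)) (hR0.trans_le hRr)
  have b6 : 2 * (R1 + 1) / ζ < R := lt_of_le_of_lt ((le_max_right _ _).trans
    (le_max_right _ _)) (hR0.trans_le hRr)
  have hRpos : (0 : ℝ) < R := hRR.trans b1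
  rw [div_lt_iff₀ hζ] at b2 b6
  rw [div_lt_iff₀ hρ] at b5
  have hn1 : (n : ℝ) ≤ ρ * R := by rw [hn]; exact Nat.floor_le (by positivity)
  have hn2 : ρ * R < n + 1 := by rw [hn]; exact Nat.lt_floor_add_one _
  have c1' : nm ≤ max nm 0 := le_max_left _ _
  have c2' : 0 ≤ max nm 0 := le_max_right _ _
  have hnY : nm ≤ n := by linarith
  have hn3 : (1 : ℝ) ≤ n := by linarith
  have hn1' : 1 ≤ n := by exact_mod_cast hn3
  have hnpos : (0 : ℝ) < n := by linarith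
  set m : ℤ := ⌈K4 * n⌉ with hm
  have hm1 : K4 * n ≤ m := Int.le_ceil _
  have hm2 : (m : ℝ) < K4 * n + 1 := Int.ceil_lt_add_one _
  set R' : ℤ := ⌊ζ * R⌋ with hR'
  have hR'1 : (R' : ℝ) ≤ ζ * R := Int.floor_le _
  have hR'2 : ζ * R < R' + 1 := Int.lt_floor_add_one _
  set r2 : ℤ := 3 * R' / 8 with hr2
  set r1 : ℤ := r2 / 2 with hr1
  have hR'64 : 63 < R' := by
    have : (63 : ℝ) < R' := by linarith
    exact_mod_cast this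
  have hr2a : 8 * r2 ≤ 3 * R' := by omega
  have hr2b : 3 * R' < 8 * r2 + 8 := by omega
  have hr2c : 2 * r1 ≤ r2 := by omega
  have hr2d : r2 < 2 * r1 + 2 := by omega
  have hr2e : r2 ≤ 8 * r1 := by omega
  have hr2f : ζ * R / 8 ≤ r2 := by
    have h1 : (3 * R' : ℝ) < 8 * r2 + 8 := by exact_mod_cast hr2b
    linarith
  have hmr : 2 * m ≤ r1 := by
    have h1 : (r2 : ℝ) < 2 * r1 + 2 := by exact_mod_cast hr2d
    have h2 : (m : ℝ) ≤ (K4 + 1) * n := by rw [add_mul, one_mul]; linarith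
    have h3 : (K4 + 1) * (n : ℝ) ≤ (K4 + 1) * (ρ * R) := mul_le_mul_of_nonneg_left hn1 (by linarith)
    have h4 : (K4 + 1) * (ρ * R) ≤ ζ / 64 * R := by
      rw [← mul_assoc]; exact mul_le_mul_of_nonneg_right hρl2.le hRpos.le
    have h5 : (2 * m : ℝ) ≤ r1 := by linarith
    exact_mod_cast h5
  have hm0 : 0 < m := by
    have : (0 : ℝ) < m := lt_of_lt_of_le (by positivity) hm1
    exact_mod_cast this
  have hmR' : m < R' := by omega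
  have hκn1 : κ / n ≤ 1 := by rw [div_le_one hnpos]; linarith
  obtain ⟨a0, ha02, ha0K, ha0A⟩ := exists_a0 (t := κ / n) hK (by positivity) hκn1
  have ha0A' : (a0 : ℝ) ≤ A * n := by
    rw [div_mul_eq_mul_div, div_le_iff₀ hnpos] at ha0A
    rw [hA, div_mul_eq_mul_div, le_div_iff₀ hκ]
    linarith
  have ha0m : a0 ≤ m := by
    have : (a0 : ℝ) ≤ m := by
      have h1 : A * n ≤ K4 * n := mul_le_mul_of_nonneg_right hK4A.le hnpos.le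
      linarith
    exact_mod_cast this
  have ha1m : a1 ≤ m := by
    have : (a1 : ℝ) ≤ m := by
      have h1 : K4 * 1 ≤ K4 * n := mul_le_mul_of_nonneg_left hn3 hK4pos.le
      linarith
    exact_mod_cast this
  have hR'n : (R1 : ℤ) ≤ R' := by
    have : ((R1 : ℤ) : ℝ) ≤ R' := by push_cast; linarith
    exact_mod_cast this
  have hK5m : K5 * n ≤ m := (mul_le_mul_of_nonneg_right hK43.le hnpos.le).trans hm1
  have hζR : (R' : ℝ) ≤ ζm * R := hR'1.trans (mul_le_mul_of_nonneg_right hζm.le hRpos.le)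
  refine ⟨a0, a1, m, r1, r2, R', hn1', hnY, by exact_mod_cast hRpos, by exact_mod_cast b3.le,
    ha02, ha0K, ha0m, ha12, ha1K, ha1m, hmr, hr2c, hr2e, hr2a, hmR', hK5m, hR'n, hζR, ?_⟩
  intro ι _ hcard σ hσ cd D hcd hcd' hD hD' M hM
  have key2 := num_bound hcard (C1 := C1) (c1 := c1) (Ca := Ca) (β := β) (γ := γ) (A := A) (CD := CD)
    (κ := κ) (ζ := ζ) (K4 := K4) (M := M) (σ := σ) (R := R) (n := n) (R' := R') (a0 := a0) (a1 := a1)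
    (m := m) (r2 := r2) (cd := cd) (D := D) hC1 hc1 hCa hβ hγ hApos hCD hκ hζ hK4pos hM
    (by exact_mod_cast hRpos) hn1' (by linarith) hR'1 hr2f (by omega) ha0A' (by omega) hm1 hm2.le
    hσ hcd hcd' hD hD'
  have hq0 : (0 : ℝ) < (n : ℝ) / R := by positivity
  have hqρ : (n : ℝ) / R ≤ ρ := by rw [div_le_iff₀ hRpos]; exact hn1
  have key3 := hphi ((n : ℝ) / R) R hq0 (hqρ.trans_lt hρl1) b1
  refine key2.trans ?_
  have h1 : (n : ℝ) / R * PhiL N0 C1 c1 Ca β γ A a1 CD κ ζ K4 ((n : ℝ) / R) R ≤ ρ * ε :=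
    (mul_le_mul_of_nonneg_left key3 hq0.le).trans (mul_le_mul_of_nonneg_right hqρ hε.le)
  calc M * ((n : ℝ) / R) * PhiL N0 C1 c1 Ca β γ A a1 CD κ ζ K4 ((n : ℝ) / R) R
      = M * ((n : ℝ) / R * PhiL N0 C1 c1 Ca β γ A a1 CD κ ζ K4 ((n : ℝ) / R) R) := by ring
    _ ≤ M * (ρ * ε) := mul_le_mul_of_nonneg_left h1 hM
    _ = ε * ρ * M := by ring

end Pool.Agent.Q1.M6e
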