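import Mathlib
import Pool.Agent.H74.R45.Pot

set_option autoImplicit false
open Finset

/-! # The L-shaped path in the tile frame

`LC x y x' y'` : corners of the path from `(x, y)` horizontally to `(x', y)`, then vertically to
`(x', y')`; `La x y x' y'` : the coefficients `± sg`. `LC_sum` : the sum of a closed increment along the
path is the potential difference `H x y - H x' y'`. -/

namespace Pool.Agent.Q1.M6e

open Pool.Agent.H74.R45

/-- sign of the direction from `x` to `x'` -/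
noncomputable def dsg (x x' : ℤ) : ℂ := if x ≤ x' then 1 else -1

/-- corners of the L-shaped path from `(x, y)` over `(x', y)` to `(x', y')` -/
noncomputable def LC (x y x' y' : ℤ) : Finset (ℤ × ℤ) :=
  (Ico (min x x') (max x x')).image (fun i => he (i, y)) ∪
    (Ico (min y y') (max y y')).image (fun l => ve (x', l))

/-- coefficients of the L-shaped path -/
noncomputable def La (x y x' y' : ℤ) (c : ℤ × ℤ) : ℂ :=
  (if (c.1 + c.2) % 2 = 0 then dsg x x' else dsg y y') * sg (c.2 + 1)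

variable {x y x' y' : ℤ} {c : ℤ × ℤ}

lemma norm_dsg (x x' : ℤ) : ‖dsg x x'‖ = 1 := by
  unfold dsg; split_ifs <;> simp

lemma norm_sg (n : ℤ) : ‖sg n‖ = 1 := by
  unfold sg; split_ifs <;> simp

lemma norm_La (x y x' y' : ℤ) (c : ℤ × ℤ) : ‖La x y x' y' c‖ = 1 := by
  unfold La
  rw [norm_mul, norm_sg, mul_one]
  split_ifs
  · exact norm_dsg _ _
  · exact norm_dsg _ _

lemma mem_LC : c ∈ LC x y x' y' ↔ (∃ i, (min x x' ≤ i ∧ i < max x x') ∧ he (i, y) = c) ∨
    ∃ l, (min y y' ≤ l ∧ l < max y y') ∧ ve (x', l) = c := by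
  unfold LC
  rw [mem_union, mem_image, mem_image]
  simp only [mem_Ico]

lemma La_he (i : ℤ) (z : ℤ) : La x y x' y' (he (i, z)) = dsg x x' * sg (i + z) := by
  unfold La
  rw [if_pos (by unfold he; simp only; omega)]
  congr 1
  apply sg_congr
  unfold he; simp only; omega

lemma La_ve (i : ℤ) (z : ℤ) : La x y x' y' (ve (i, z)) = dsg y y' * sg (i + z) := by
  unfold La
  rw [if_neg (by unfold ve; simp only; omega)]
  congr 1
  apply sg_congr
  unfold ve; simp only; omega

/-- telescoping sum -/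
lemma tele {f g : ℤ → ℂ} {m n : ℤ} (hmn : m ≤ n) (h : ∀ i, m ≤ i → i < n → f i = g i - g (i + 1)) :
    ∑ i ∈ Ico m n, f i = g m - g n := by
  obtain ⟨k, rfl⟩ : ∃ k : ℕ, n = m + k := ⟨(n - m).toNat, by omega⟩
  clear hmn
  induction k with
  | zero => simp
  | succ k ih =>
    push_cast at h ⊢
    rw [← add_assoc, sum_Ico_succ (by omega), ih fun i h1 h2 => h i h1 (by omega),
      h (m + k) (by omega) (by omega)]
    ring

lemma tele_sg {f g : ℤ → ℂ} (x x' : ℤ)
    (h : ∀ i, min x x' ≤ i → i < max x x' → f i = g i - g (i + 1)) :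
    ∑ i ∈ Ico (min x x') (max x x'), dsg x x' * f i = g x - g x' := by
  rw [← mul_sum]
  unfold dsg
  split_ifs with h1
  · rw [min_eq_left h1, max_eq_right h1] at h ⊢
    rw [tele h1 h, one_mul]
  · rw [min_eq_right (by omega), max_eq_left (by omega)] at h ⊢
    rw [tele (by omega) h]
    ring

/-- the corners of the path lie in the rectangle spanned by its ends -/
lemma LC_sub {x0 x1 y0 y1 : ℤ} (h1 : x0 ≤ x) (h2 : x ≤ x1) (h3 : y0 ≤ y) (h4 : y ≤ y1)
    (h1' : x0 ≤ x') (h2' : x' ≤ x1) (h3' : y0 ≤ y') (h4' : y' ≤ y1) (hc : c ∈ LC x y x' y') :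
    (∃ i l, c = he (i, l) ∧ x0 ≤ i ∧ i < x1 ∧ y0 ≤ l ∧ l ≤ y1) ∨
      ∃ i l, c = ve (i, l) ∧ x0 ≤ i ∧ i ≤ x1 ∧ y0 ≤ l ∧ l < y1 := by
  rcases mem_LC.1 hc with ⟨i, ⟨h5, h6⟩, rfl⟩ | ⟨l, ⟨h5, h6⟩, rfl⟩
  · left; exact ⟨i, y, rfl, by omega, by omega, by omega, by omega⟩
  · right; exact ⟨x', l, rfl, by omega, by omega, by omega, by omega⟩

/-- **The sum along the L-shaped path is the potential difference.** -/
theorem LC_sum {F : ℤ × ℤ → ℂ} {H : ℤ → ℤ → ℂ} {x0 x1 y0 y1 : ℤ} (hP : Pot F H x0 x1 y0 y1)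
    (h1 : x0 ≤ x) (h2 : x ≤ x1) (h3 : y0 ≤ y) (h4 : y ≤ y1)
    (h1' : x0 ≤ x') (h2' : x' ≤ x1) (h3' : y0 ≤ y') (h4' : y' ≤ y1) :
    ∑ c ∈ LC x y x' y', La x y x' y' c * F c = H x y - H x' y' := by
  unfold LC
  rw [sum_union, sum_image, sum_image]
  · have e1 : ∑ i ∈ Ico (min x x') (max x x'), La x y x' y' (he (i, y)) * F (he (i, y)) =
        H x y - H x' y := by
      rw [← tele_sg (f := fun i => sg (i + y) * F (he (i, y))) (g := fun i => H i y) x x'
        (fun i h5 h6 => hP.hor i y (by omega) (by omega) h3 h4)]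
      refine sum_congr rfl fun i _ => ?_
      rw [La_he]; ring
    have e2 : ∑ l ∈ Ico (min y y') (max y y'), La x y x' y' (ve (x', l)) * F (ve (x', l)) =
        H x' y - H x' y' := by
      rw [← tele_sg (f := fun l => sg (x' + l) * F (ve (x', l))) (g := fun l => H x' l) y y'
        (fun l h5 h6 => hP.ver x' l h1' h2' (by omega) (by omega))]
      refine sum_congr rfl fun l _ => ?_
      rw [La_ve]; ring
    rw [e1, e2]; ring
  · intro i _ j _ h
    have := ve_inj h
    simp only [Prod.mk.injEq] at this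
    exact this.2
  · intro i _ j _ h
    have := he_inj h
    simp only [Prod.mk.injEq] at this
    exact this.1
  · rw [disjoint_left]
    intro d hd hd'
    obtain ⟨i, -, rfl⟩ := mem_image.1 hd
    obtain ⟨l, -, h5⟩ := mem_image.1 hd'
    exact ve_ne_he _ _ h5

end Pool.Agent.Q1.M6e
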