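import Mathlib
import Pool.Agent.H95.R45.Stmt
import Pool.Agent.H13.R45.Mul2
import Pool.Agent.Q1.M6e.Flat2
import Pool.Agent.Q1.M6e.LPath

set_option autoImplicit false
open Finset

/-!
# The pieces of Theorem C for the 45 degree rectangles

`Dat` : the data of one tied environment, `datJ O top m L S hS` : the environment `0` (`top = false`) or `h`
(`top = true`) with the frozen state `S` of the real tiles, layers of thickness `m`, frame of width `L - 1`.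
`Fine` : the inputs of the assembly for one environment. `LR45` (linear response for every frozen state),
`DL45` (displacement of the frozen states), `NR45` : they give `C45`, `N45`, `M45`.
-/

namespace Pool.Agent.Q1.M6e

open Pool.Agent.H75.Perc Pool.Agent.H75.TwoArm Pool.Agent.H75.Four Pool.Agent.H49.Perc
open Pool.Agent.H69.Q1 Pool.Agent.H39.Q1 Pool.Agent.H25.Q1.Add
open Pool.Agent.H99.NC Pool.Agent.H60.Q1 Pool.Agent.H20.Q1 Pool.Agent.Q1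
open Pool.Agent.H33.Q1 Pool.Agent.H74.R45 Pool.Agent.H13.R45 Pool.Agent.H13.Q1
open Pool.Agent.H64.Q1 Pool.Agent.Q1.M6f.Glue Pool.Agent.H25.Q1.Close Pool.Agent.Q1.M6f
open Pool.Agent.H95.R45 (Sc PotJ)

/-- data of one tied environment -/
structure Dat where
  X : Pool.Agent.Q1.Env
  W : Finset (ℤ × ℤ)
  Bb : Finset (ℤ × ℤ)
  B : Finset (ℤ × ℤ)
  TT : Finset (ℤ × ℤ)
  fm : ℤ × ℤ → Bool
  Wl : Bool → Finset (ℤ × ℤ)
  La : Bool → Finset (ℤ × ℤ)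
  b : ℤ × ℤ → ℤ × ℤ
  o : ℤ × ℤ → ℤ × ℤ
  ε : Bool → Bool × Bool
  δ : Bool → ℤ × ℤ
  h0 : Bool → ℤ

/-- rank of the ties: first coordinate along the wall, made injective -/
def Dat.rk (d : Dat) (e : ℤ × ℤ) : ℤ :=
  2 * (gm (d.ε (d.fm e)) (d.b e)).1 + (if d.fm e = true then 1 else 0)

/-- the layer used in the local expansions, below -/
noncomputable def BL (w h m : ℤ) : Finset (ℤ × ℤ) := RT 0 (m + 1) 0 h ∪ RT 0 w 0 (m + 1)

/-- the layer used in the local expansions, above -/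
noncomputable def BU (w h m : ℤ) : Finset (ℤ × ℤ) :=
  RT (w - m - 1) w (-1) (h - 1) ∪ RT 0 w (h - 2 - m) (h - 1)

section

variable {w h : ℤ}

/-- the environment `0` with the state `S` of the real tiles -/
noncomputable def datL (O : Out w h) (m L : ℤ) (S : Finset (ℤ × ℤ)) (hS : S ⊆ RRL h) : Dat where
  X := XL O S hS
  W := WL' O S
  Bb := RT 0 w 0 h
  B := BL w h m
  TT := TTL w h
  fm := fmL
  Wl := WlL h S (RT (-(L - 1)) (w + (L - 1)) (-(L - 1)) (-1))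
  La := LaL w h m
  b := bL
  o := oL
  ε := fun i => if i = true then (false, false) else (true, false)
  δ := fun i => if i = true then (1, 0) else (0, 1)
  h0 := fun i => if i = true then (gm (false, false) (gp (0, 0))).1 + (gm (false, false) (gp (0, 0))).2
    else (gm (true, false) (gp (1, 0))).1 + (gm (true, false) (gp (1, 0))).2

/-- the environment `h` with the state `S` of the real tiles -/
noncomputable def datU (O : Out w h) (m L : ℤ) (S : Finset (ℤ × ℤ)) (hS : S ⊆ RRU w h) : Dat where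
  X := XU O S hS
  W := WU' O S
  Bb := RT 0 w (-1) (h - 1)
  B := BU w h m
  TT := TTU w h
  fm := fmU w
  Wl := WlU w h S (RT (-(L - 1)) (w + (L - 1)) h (h + (L - 1)))
  La := LaU w h m
  b := bU w
  o := oU w
  ε := fun i => if i = true then (true, true) else (false, true)
  δ := fun i => if i = true then (1, 0) else (0, 1)
  h0 := fun i => if i = true then (gm (true, true) (gp (w, 0))).1 + (gm (true, true) (gp (w, 0))).2
    else (gm (false, true) (gp (0, h - 1))).1 + (gm (false, true) (gp (0, h - 1))).2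

/-- the real tiles -/
noncomputable def RRJ (w h : ℤ) (top : Bool) : Finset (ℤ × ℤ) := if top = true then RRU w h else RRL h

/-- the data of the environment `top` -/
noncomputable def datJ (O : Out w h) (m L : ℤ) (top : Bool) (S : Finset (ℤ × ℤ)) (hS : S ⊆ RRJ w h top) :
    Dat :=
  match top, hS with
  | false, hS => datL O m L S hS
  | true, hS => datU O m L S hS

/-- ties at distance at least `2 R' + 3` from the ends of their wall -/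
noncomputable def FlJ (w h R' : ℤ) (top i : Bool) : Finset (ℤ × ℤ) :=
  if top = true then
    (if i = true then (TiR w h).filter fun e =>
      0 ≤ (tt e).2 + 1 - 2 * (R' + 1) ∧ (tt e).2 + 1 + 2 * (R' + 1) + 1 ≤ h
    else (TiU w h).filter fun e => 1 ≤ (tt e).1 - 2 * (R' + 1) ∧ (tt e).1 + 2 * (R' + 1) + 1 ≤ w)
  else
    (if i = true then (TiL h 0).filter fun e =>
      1 ≤ (tt e).2 - 2 * (R' + 1) ∧ (tt e).2 + 2 * (R' + 1) + 1 ≤ h
    else (TiF w).filter fun e => 0 ≤ (tt e).1 + 1 - 2 * (R' + 1) ∧ (tt e).1 + 1 + 2 * (R' + 1) ≤ w)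

end

section Abstract

variable (d : Dat) (Cs : Finset (ℤ × ℤ)) (a : ℤ × ℤ → ℂ)

/-- total, weights `s i` on the family `i` -/
noncomputable def Dat.tot (s : Bool → ℂ) : ℂ :=
  Tot d.X Cs a d.Bb d.TT d.fm id (fun e => s (d.fm e))

/-- everything tied -/
noncomputable def Dat.tot0 : ℂ := Eh d.Bb (fun ω => U d.X Cs a (ω ∪ opn d.TT d.fm id d.TT))

/-- first order terms -/
noncomputable def Dat.fst (s : Bool → ℂ) : ℂ :=
  ∑ e ∈ d.TT, Tm d.X Cs a d.Bb d.B d.TT d.fm id d.La d.b d.rk (fun e => s (d.fm e)) e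

/-- bound of the potential differences for every configuration of the layer and of the ties -/
def Dat.HV (M : ℝ) : Prop :=
  ∀ ω ⊆ d.B, ∀ P ⊆ d.TT, ‖VM d.X Cs a d.Bb d.B d.TT d.fm id ω P‖ ≤ M

end Abstract

/-- weight `1/4` on the family `i`, the other family is tied -/
noncomputable def w4 (i j : Bool) : ℂ := if j = i then 1 / 4 else 0

/-- **The inputs of the assembly for one environment**, window radius `R'`. `Q` : the relevant ties
(`¬ fre` and the class is not in `Irr`). -/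
structure Fine (C c K : ℝ) (R : ℕ) (R' : ℤ) (d : Dat) (Cs : Finset (ℤ × ℤ))
    (FlT : Bool → Finset (ℤ × ℤ)) (Q : Finset (ℤ × ℤ) → ℤ × ℤ → Prop) : Prop where
  mul : Multi d.X d.W d.Bb d.B d.TT d.fm id d.Wl d.La d.b d.o
  far : ∀ c ∈ Cs, FarM d.X d.TT d.fm id d.Wl d.La d.b d.o c
  fam : ∀ i, FlatFam d.X d.W d.Bb d.TT Cs d.fm id d.Wl d.La d.b d.o d.rk i (d.ε i) (d.δ i) (d.h0 i)
    (FlT i) R'
  card : ∀ i, ((FlT i).card : ℝ) ≤ C * R
  irr : ∀ (a : ℤ × ℤ → ℂ), ∀ ω ⊆ d.B, ∀ e ∈ d.TT,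
    DM d.X Cs a d.Bb d.B d.TT d.fm id d.La d.b e ω ≠ 0 → Q ω e
  fst : ∀ (a : ℤ × ℤ → ℂ) (M : ℝ), d.HV Cs a M → ∀ (s : Bool → ℂ) (a0 : ℤ),
    (∀ i, ‖s i‖ < 1) → (∀ i, ‖1 - s i‖ ≤ 16 * (1 - ‖s i‖)) → 2 ≤ a0 → a0 ≤ R' →
    (∀ i, K ≤ (1 - ‖s i‖) ^ ((3 : ℝ) / 2) * a0) →
    ‖d.tot Cs a s - d.tot0 Cs a - d.fst Cs a s‖ ≤ C * M * ((a0 : ℝ) / R) ^ (1 + c)
  crn : ∀ (i : Bool) (σ : ℝ) (a0 : ℤ), 1 / 4 ≤ σ → σ < 1 → 2 ≤ a0 → a0 ≤ R' →
    K ≤ (1 - σ) ^ ((3 : ℝ) / 2) * a0 →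
    Ex hf d.B (fun ω => ∑ e ∈ TF d.TT d.fm i, crn d.TT d.fm id d.La d.b d.rk Q (FlT i) σ e ω) ≤
      C * ((a0 : ℝ) / R) * ((R' : ℝ) / R) ^ c

section Statements

/-- thickness of the layers -/
noncomputable def mE (η : ℝ) (R : ℕ) : ℤ := ⌊η * R / 4⌋

/-- width of the frame -/
noncomputable def LE (η : ℝ) (R : ℕ) : ℤ := ⌊η * R⌋

/-- path of corners -/
noncomputable def LCq (p q : ℤ × ℤ) : Finset (ℤ × ℤ) := LC p.1 p.2 q.1 q.2

/-- coefficients of the path -/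
noncomputable def Laq (p q : ℤ × ℤ) : ℤ × ℤ → ℂ := La p.1 p.2 q.1 q.2

/-- the inputs hold for the rectangles, all windows `R1 ≤ R' ≤ η R / 4096` -/
def Fine45 : Prop :=
  ∀ η : ℝ, 0 < η → ∃ (C c K : ℝ) (R1 : ℕ), 0 < C ∧ 0 < c ∧ 0 < K ∧ ∀ R : ℕ, R1 ≤ R →
    ∀ (w h : ℤ) (O : Out w h), Sc η R O → ∀ R' : ℤ, R1 ≤ R' → 4096 * (R' : ℝ) ≤ η * R →
    ∀ (top : Bool) (S : Finset (ℤ × ℤ)) (hS : S ⊆ RRJ w h top) (p q : ℤ × ℤ),
    Inn w h (η * R) p → Inn w h (η * R) q → ∃ Q : Finset (ℤ × ℤ) → ℤ × ℤ → Prop,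
    Fine C c K R R' (datJ O (mE η R) (LE η R) top S hS) (LCq p q) (FlJ w h R' top) Q

/-- arbitrary pattern bound -/
def HV45 : Prop :=
  ∀ η : ℝ, 0 < η → ∃ (C : ℝ) (R1 : ℕ), ∀ R : ℕ, R1 ≤ R →
    ∀ (w h : ℤ) (O : Out w h), Sc η R O → ∀ (top : Bool) (S : Finset (ℤ × ℤ)) (hS : S ⊆ RRJ w h top)
    (p q : ℤ × ℤ), Inn w h (η * R) p → Inn w h (η * R) q →
    (datJ O (mE η R) (LE η R) top S hS).HV (LCq p q) (Laq p q) (C * (R : ℝ) ^ (2 / 3 : ℝ))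

/-- **Linear response for every frozen state.** -/
def LR45 : Prop :=
  ∀ η : ℝ, 0 < η → ∃ C c : ℝ, 0 < c ∧ ∀ ε : ℝ, 0 < ε → ∀ Y : ℝ, ∃ ρ1 : ℝ, 0 < ρ1 ∧ ∀ ρ : ℝ, 0 < ρ →
    ρ < ρ1 → ∃ R0 : ℕ, ∀ R : ℕ, R0 ≤ R → ∃ G : ℂ → ℂ, GHyp C c Y G ∧
    ∀ (w h : ℤ) (O : Out w h), Sc η R O → ∀ (top : Bool) (S : Finset (ℤ × ℤ))
    (hS : S ⊆ RRJ w h top) (p q : ℤ × ℤ), Inn w h (η * R) p → Inn w h (η * R) q → ∀ t : ℝ, |t| ≤ 1 →
    ∀ d : Dat, d = datJ O (mE η R) (LE η R) top S hS →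
    ‖d.tot (LCq p q) (Laq p q)
        (fun i => if i = true then sw (rap ⌊ρ * R⌋₊ t + (Real.pi / 2 : ℝ)) else sw (rap ⌊ρ * R⌋₊ t)) -
      d.tot0 (LCq p q) (Laq p q) - (⌊ρ * R⌋₊ : ℂ) *
      (G (pt t) * (d.tot (LCq p q) (Laq p q) (w4 false) - d.tot0 (LCq p q) (Laq p q)) +
       G (pt t + (Real.pi / 2 : ℝ)) *
        (d.tot (LCq p q) (Laq p q) (w4 true) - d.tot0 (LCq p q) (Laq p q)))‖ ≤
      ε * ρ * (R : ℝ) ^ (2 / 3 : ℝ)

/-- **Displacement of the frozen states** -/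
def DL45 : Prop :=
  ∀ η : ℝ, 0 < η → ∃ (C : ℝ) (R0 : ℕ), ∀ R : ℕ, R0 ≤ R → ∀ (w h : ℤ) (O : Out w h), Sc η R O →
    ∀ (top : Bool) (S S' : Finset (ℤ × ℤ)) (hS : S ⊆ RRJ w h top) (hS' : S' ⊆ RRJ w h top)
    (p q : ℤ × ℤ), Inn w h (η * R) p → Inn w h (η * R) q →
    ∀ s : Bool → ℂ, (s = fun _ => 0) ∨ s = w4 false ∨ s = w4 true →
    ‖(datJ O (mE η R) (LE η R) top S hS).tot (LCq p q) (Laq p q) s -
      (datJ O (mE η R) (LE η R) top S' hS').tot (LCq p q) (Laq p q) s‖ ≤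
      C * (R : ℝ) ^ (-(2 / 3) : ℝ)

/-- one natural row or column more, for every frozen state -/
def NR45 : Prop :=
  ∀ η : ℝ, 0 < η → ∃ (C : ℝ) (R0 : ℕ), ∀ R : ℕ, R0 ≤ R → ∀ (w h : ℤ) (O : Out w h), Sc η R O →
    ∀ (top : Bool) (S : Finset (ℤ × ℤ)) (hS : S ⊆ RRJ w h top) (p q : ℤ × ℤ),
    Inn w h (η * R) p → Inn w h (η * R) q → ∀ (i : Bool) (d : Dat),
    d = datJ O (mE η R) (LE η R) top S hS →
    ‖d.tot (LCq p q) (Laq p q) (w4 i) - d.tot0 (LCq p q) (Laq p q)‖ ≤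
      C * (R : ℝ) ^ (-(1 / 3) : ℝ) ∧
    (q = (p.1, p.2 - 1) → ‖d.tot (LCq p q) (Laq p q) (w4 i) - d.tot0 (LCq p q) (Laq p q)‖ ≤
      C * (R : ℝ) ^ (-1 : ℝ))

end Statements

end Pool.Agent.Q1.M6e
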