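import Mathlib
import Pool.Agent.Q1.M6e.Pieces
import Pool.Agent.Q1.M6e.AsmEnv

set_option autoImplicit false
open Finset

/-!
# Linear response for every frozen state: `LR45` from `Fine45` and `HV45`

`G = GD 1 m R' (log n)`, `n = ⌊ρ R⌋`, `m = ⌈K n⌉`, `R' = ⌊ζ R⌋`.
-/

namespace Pool.Agent.Q1.M6e

open Pool.Agent.H75.Perc Pool.Agent.H75.TwoArm Pool.Agent.H75.Four Pool.Agent.H49.Perc
open Pool.Agent.H69.Q1 Pool.Agent.H39.Q1 Pool.Agent.H25.Q1.Add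
open Pool.Agent.H99.NC Pool.Agent.H60.Q1 Pool.Agent.H20.Q1 Pool.Agent.Q1
open Pool.Agent.H33.Q1 Pool.Agent.H74.R45 Pool.Agent.H13.R45 Pool.Agent.H13.Q1
open Pool.Agent.H64.Q1 Pool.Agent.Q1.M6f.Glue Pool.Agent.H25.Q1.Close Pool.Agent.Q1.M6f
open Pool.Agent.H95.R45 (Sc PotJ)

/-- assembly for one environment with the inputs `Fine` -/
theorem fine_bound : ∃ Ka Ca β γ : ℝ, 0 < Ka ∧ 0 < Ca ∧ 0 < β ∧ 0 < γ ∧
    ∀ (C1 c1 K1 : ℝ) (R : ℕ) (R' : ℤ) (d : Dat) (Cs : Finset (ℤ × ℤ)) (FlT : Bool → Finset (ℤ × ℤ))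
      (Q : Finset (ℤ × ℤ) → ℤ × ℤ → Prop) (a : ℤ × ℤ → ℂ) (M : ℝ), Fine C1 c1 K1 R R' d Cs FlT Q →
      d.HV Cs a M → ∀ (s : Bool → ℂ) (σ : ℝ) (a0 a1 m r1 r2 : ℤ), (∀ i, ‖s i‖ ≤ σ) →
      (∀ i, ‖1 - s i‖ ≤ 16 * (1 - ‖s i‖)) → 1 / 4 ≤ σ → σ < 1 → 2 ≤ a0 →
      max Ka K1 ≤ (1 - σ) ^ ((3 : ℝ) / 2) * a0 → a0 ≤ m → 2 ≤ a1 → a1 ≤ m →
      max Ka K1 ≤ (1 - 1 / 4 : ℝ) ^ ((3 : ℝ) / 2) * a1 → 2 * m ≤ r1 → 2 * r1 ≤ r2 → r2 ≤ 8 * r1 →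
      8 * r2 ≤ 3 * R' →
      ‖d.tot Cs a s - d.tot0 Cs a - ∑ i, DR 1 m R' (s i) * (d.tot Cs a (w4 i) - d.tot0 Cs a)‖ ≤
      C1 * M * ((a0 : ℝ) / R) ^ (1 + c1) + ∑ i, (‖DR 1 m R' (s i)‖ *
        (C1 * M * ((a1 : ℝ) / R) ^ (1 + c1)) +
        ((FlT i).card * (Ca * M * (((m : ℝ) + 1) / R') ^ γ /
          ((1 - σ) ^ ((3 : ℝ) / 2) * (R' : ℝ) ^ 2)) +
        (remB Ca β M (FlT i).card (C1 * ((a0 : ℝ) / R) * ((R' : ℝ) / R) ^ c1) a0 m r2 +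
          ‖DR 1 m R' (s i)‖ *
            remB Ca β M (FlT i).card (C1 * ((a1 : ℝ) / R) * ((R' : ℝ) / R) ^ c1) a1 m r2))) := by
  obtain ⟨Ka, Ca, β, γ, hKa, hCa, hβ, hγ, H⟩ := asm_env
  refine ⟨Ka, Ca, β, γ, hKa, hCa, hβ, hγ, ?_⟩
  intro C1 c1 K1 R R' d Cs FlT Q a M hF hV s σ a0 a1 m r1 r2 hs hs' hσ1 hσ2 ha0 hK0 ham ha1 ha1m hK1
    hmr hr12 hr28 hr2R
  have hle : ∀ i, (1 - σ) ^ ((3 : ℝ) / 2) * (a0 : ℝ) ≤ (1 - ‖s i‖) ^ ((3 : ℝ) / 2) * a0 := by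
    intro i
    have h1 : (0 : ℝ) ≤ a0 := by exact_mod_cast (by omega : (0 : ℤ) ≤ a0)
    exact mul_le_mul_of_nonneg_right (Real.rpow_le_rpow (by linarith) (by linarith [hs i])
      (by norm_num)) h1
  have hz : ∀ i j, ‖w4 i j‖ ≤ 1 / 4 := by
    intro i j; unfold w4; split_ifs <;> norm_num
  have hz2 : ∀ i j, ‖1 - w4 i j‖ ≤ 1 := by
    intro i j; unfold w4; split_ifs <;> norm_num
  have hle4 : ∀ i j, (1 - 1 / 4 : ℝ) ^ ((3 : ℝ) / 2) * (a1 : ℝ) ≤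
      (1 - ‖w4 i j‖) ^ ((3 : ℝ) / 2) * a1 := by
    intro i j
    have h1 : (0 : ℝ) ≤ a1 := by exact_mod_cast (by omega : (0 : ℤ) ≤ a1)
    exact mul_le_mul_of_nonneg_right (Real.rpow_le_rpow (by norm_num) (by linarith [hz i j])
      (by norm_num)) h1
  have key := H d.X d.W d.Bb d.B d.TT Cs d.fm id d.Wl d.La d.b d.o a d.rk d.δ d.ε d.h0 FlT
    (fun _ => a0) a1 m r1 r2 R' M (C1 * M * ((a0 : ℝ) / R) ^ (1 + c1))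
    (fun _ => C1 * M * ((a1 : ℝ) / R) ^ (1 + c1)) (fun _ => σ)
    (fun _ => C1 * ((a0 : ℝ) / R) * ((R' : ℝ) / R) ^ c1)
    (fun _ => C1 * ((a1 : ℝ) / R) * ((R' : ℝ) / R) ^ c1) s Q hF.mul hF.far hF.fam hV
    (hF.irr a) hs (fun _ => hσ1) (fun _ => hσ2) (fun _ => ha0)
    (fun _ => (le_max_left _ _).trans hK0) (fun _ => ham) ha1 ha1m ((le_max_left _ _).trans hK1)
    hmr hr12 hr28 hr2R ?_ ?_ ?_ ?_
  · exact key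
  · exact hF.fst a M hV s a0 (fun i => (hs i).trans_lt hσ2) hs' ha0 (by omega)
      (fun i => ((le_max_right _ _).trans hK0).trans (hle i))
  · intro i
    exact hF.fst a M hV (w4 i) a1 (fun j => (hz i j).trans_lt (by norm_num))
      (fun j => (hz2 i j).trans (by linarith [hz i j])) ha1 (by omega)
      (fun j => ((le_max_right _ _).trans hK1).trans (hle4 i j))
  · intro i
    exact hF.crn i σ a0 hσ1 hσ2 ha0 (by omega) ((le_max_right _ _).trans hK0)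
  · intro i
    exact hF.crn i (1 / 4) a1 le_rfl (by norm_num) ha1 (by omega) ((le_max_right _ _).trans hK1)

end Pool.Agent.Q1.M6e
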