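import Mathlib
import Pool.Agent.Q1.M6e.LRes
import Pool.Agent.Q1.M6e.Core

set_option autoImplicit false
open Finset

/-!
# `LR45` from `Fine45` and `HV45`
-/

namespace Pool.Agent.Q1.M6e

open Pool.Agent.H75.Perc Pool.Agent.H75.TwoArm Pool.Agent.H75.Four Pool.Agent.H49.Perc
open Pool.Agent.H69.Q1 Pool.Agent.H39.Q1 Pool.Agent.H25.Q1.Add
open Pool.Agent.H99.NC Pool.Agent.H60.Q1 Pool.Agent.H20.Q1 Pool.Agent.Q1
open Pool.Agent.H33.Q1 Pool.Agent.H74.R45 Pool.Agent.H13.R45 Pool.Agent.H13.Q1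
open Pool.Agent.H64.Q1 Pool.Agent.Q1.M6f.Glue Pool.Agent.H25.Q1.Close Pool.Agent.Q1.M6f
open Pool.Agent.H95.R45 (Sc PotJ)

lemma ghyp_mono {C c Y Y' : ℝ} {G : ℂ → ℂ} (h : GHyp C c Y' G) (hY : Y ≤ Y') : GHyp C c Y G := by
  have hs : UY Y ⊆ UY Y' := fun z hz => ⟨hz.1, hz.2.trans_le hY⟩
  exact ⟨h.diff.mono hs, fun z hz => h.bound z (hs hz), fun z hz => h.sym z (hs hz), h.lower⟩

lemma norm_one_sub_sw {z : ℂ} (h1 : 0 ≤ z.re) (h2 : z.re ≤ Real.pi) :
    ‖1 - sw z‖ ≤ 16 * (1 - ‖sw z‖) := by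
  set X : ℝ := 2 * (z.re + Real.pi) / 3 with hX
  set Y : ℝ := 2 * z.im / 3 with hY
  have hc : Real.cos X ≤ -(1 / 2) := cos_le_of_mem (by rw [hX]; linarith) (by rw [hX]; linarith)
  have h3 : ‖1 - Complex.cos ((X : ℂ) + (Y : ℂ) * Complex.I)‖ = Real.cosh Y - Real.cos X := by
    have h4 := normSq_one_sub_cos X Y
    rw [Complex.normSq_eq_norm_sq] at h4
    exact (pow_left_inj₀ (norm_nonneg _) (pos_XC Y hc).le two_ne_zero).1 h4
  have h5 : ‖Complex.sin ((z + (Real.pi : ℂ)) / 3) ^ 2‖ = (Real.cosh Y - Real.cos X) / 2 := by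
    rw [sin_sq_eq, norm_div, h3]
    norm_num
  have h6 : 1 - sw z = 3 / (4 * Complex.sin ((z + (Real.pi : ℂ)) / 3) ^ 2) := by
    rw [sw_eq h1 h2]; ring
  have h7 : ‖1 - sw z‖ = 3 / (2 * (Real.cosh Y - Real.cos X)) := by
    rw [h6, norm_div, norm_mul, h5]
    norm_num
    ring
  have h8 : Real.exp |Y| / 2 ≤ Real.cosh Y := by
    rw [← Real.cosh_abs, Real.cosh_eq]
    have := Real.exp_pos (-|Y|)
    linarith
  have h9 : ‖1 - sw z‖ ≤ 3 * Real.exp (-|Y|) := by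
    rw [h7, div_le_iff₀ (by have := pos_XC Y hc; linarith)]
    have e1 : Real.exp (-|Y|) * Real.exp |Y| = 1 := by rw [← Real.exp_add]; simp
    have e2 := Real.exp_pos (-|Y|)
    have e3 : Real.exp |Y| / 2 ≤ Real.cosh Y - Real.cos X := by linarith
    have e4 := mul_le_mul_of_nonneg_left e3 e2.le
    linarith
  have h10 := norm_sw_le h1 h2
  have h11 : |Y| = 2 * |z.im| / 3 := by
    rw [hY, abs_div, abs_mul]
    norm_num
  rw [← h11] at h10
  have := Real.exp_pos (-|Y|)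
  linarith

/-- the rapidities of the two families -/
noncomputable def zf (t : ℝ) (i : Bool) : ℂ := if i = true then pt t + (Real.pi / 2 : ℝ) else pt t

lemma zf_U (t : ℝ) (i : Bool) : zf t i ∈ Pool.Agent.H25.Q1.Close.U := by
  unfold zf
  split_ifs
  · exact shift_mem (pt_mem_V t)
  · exact V_subset_U (pt_mem_V t)

lemma zf_im (t : ℝ) (i : Bool) : (zf t i).im = t := by
  unfold zf
  split_ifs
  · rw [Complex.add_im, pt_im, Complex.ofReal_im, add_zero]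
  · exact pt_im t

lemma sw_rap_le {n : ℕ} (hn : 1 ≤ n) {t : ℝ} (ht : |t| ≤ 1) (i : Bool) :
    ‖sw (zf t i + ((Real.log n : ℝ) : ℂ) * Complex.I)‖ ≤
      1 - 9 / 32 * Real.exp (-(2 / 3)) * ((n : ℝ) ^ (-(2 / 3) : ℝ)) := by
  have hn0 : (1 : ℝ) ≤ n := by exact_mod_cast hn
  have hr := U_re (zf_U t i)
  have h1 := norm_sw_le (z := zf t i + ((Real.log n : ℝ) : ℂ) * Complex.I)
    (by rw [re_shift]; exact hr.1) (by rw [re_shift]; exact hr.2)
  rw [im_shift, zf_im] at h1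
  refine h1.trans ?_
  have h2 : |t + Real.log n| ≤ 1 + Real.log n := by
    refine (abs_add_le _ _).trans ?_
    rw [abs_of_nonneg (Real.log_nonneg hn0)]
    linarith
  have h3 : Real.exp (-(2 / 3)) * (n : ℝ) ^ (-(2 / 3) : ℝ) = Real.exp (-(2 * (1 + Real.log n) / 3)) := by
    rw [Real.rpow_def_of_pos (by linarith), ← Real.exp_add]
    congr 1
    ring
  have h4 : Real.exp (-(2 * (1 + Real.log n) / 3)) ≤ Real.exp (-(2 * |t + Real.log n| / 3)) :=
    Real.exp_le_exp.2 (by linarith)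
  rw [mul_assoc, h3]
  linarith

/-- **`LR45` from the inputs.** -/
theorem LR45_of (hF : Fine45) (hH : HV45) : LR45 := by
  intro η hη
  obtain ⟨C1, c1, K1, R1, hC1, hc1, hK1, hFi⟩ := hF η hη
  obtain ⟨C2, R2, hHi⟩ := hH η hη
  obtain ⟨Ka, Ca, β, γ, hKa, hCa, hβ, hγ, hfb⟩ := fine_bound
  obtain ⟨C3, c3, K3, hC3, hc3, hK3, hG⟩ := ghyp_DR
  refine ⟨C3, c3, hc3, fun ε hε Y => ?_⟩
  set Y2 : ℝ := max Y 2 with hY2
  have hY20 : 0 ≤ Y2 := le_trans (by norm_num) (le_max_right _ _)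
  set κ0 : ℝ := 9 / 32 * Real.exp (-(2 / 3)) with hκ0
  have hκ00 : 0 < κ0 := by positivity
  have hκ01 : κ0 ≤ 9 / 32 := by
    have : Real.exp (-(2 / 3)) ≤ 1 := Real.exp_le_one_iff.2 (by norm_num)
    rw [hκ0]; linarith
  set κ : ℝ := κ0 ^ ((3 : ℝ) / 2) with hκ
  have hκpos : 0 < κ := Real.rpow_pos_of_pos hκ00 _
  have hκ1 : κ ≤ 1 := Real.rpow_le_one hκ00.le (by linarith) (by norm_num)
  have hKpos : 0 < max Ka K1 := lt_max_of_lt_left hKa
  set M2 : ℝ := max C2 1 with hM2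
  have hM2pos : 0 < M2 := lt_max_of_lt_right one_pos
  have hCDpos : 0 < C3 * Real.exp 1 := by positivity
  obtain ⟨ρ1, hρ1, hcore⟩ := lr_core 2 (K5 := K3 * Real.exp Y2) hC1 hc1 hCa hβ hγ hCDpos hκpos hκ1
    hKpos (ζm := η / 4096) (ε := ε / M2) (by positivity) (by positivity)
  refine ⟨ρ1, hρ1, fun ρ hρ hρl => ?_⟩
  obtain ⟨R0, hR0⟩ := hcore ρ hρ hρl (max R1 R2) (Real.exp Y2)
  refine ⟨R0, fun R hR => ?_⟩
  set n : ℕ := ⌊ρ * R⌋₊ with hn
  obtain ⟨a0, a1, m, r1, r2, R', hn1', hnY, hRpos, hRR, ha02, ha0K, ha0m, ha12, ha1K, ha1m, hmr,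
    hr2c, hr2e, hr2a, hmR', hK5, hR'n, hζR, hE⟩ := hR0 R hR n hn
  have hn3 : (1 : ℝ) ≤ n := by exact_mod_cast hn1'
  have hnpos : (0 : ℝ) < n := by linarith
  have hlog : Y2 ≤ Real.log n := by
    rw [Real.le_log_iff_exp_le hnpos]; exact hnY
  set σ : ℝ := 1 - κ0 * (n : ℝ) ^ (-(2 / 3) : ℝ) with hσ
  have hnp : (n : ℝ) ^ (-(2 / 3) : ℝ) ≤ 1 := Real.rpow_le_one_of_one_le_of_nonpos hn3 (by norm_num)
  have hnp0 : 0 < (n : ℝ) ^ (-(2 / 3) : ℝ) := Real.rpow_pos_of_pos hnpos _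
  have hσ1 : 1 / 4 ≤ σ := by
    have := mul_le_mul hκ01 hnp hnp0.le (by norm_num)
    rw [hσ]; linarith
  have hσ2 : σ < 1 := by
    have := mul_pos hκ00 hnp0
    rw [hσ]; linarith
  have hσκ : (1 - σ) ^ ((3 : ℝ) / 2) = κ / n := by
    rw [hσ, sub_sub_cancel, Real.mul_rpow hκ00.le hnp0.le, ← Real.rpow_mul hnpos.le,
      show (-(2 / 3) : ℝ) * (3 / 2) = -1 by norm_num, Real.rpow_neg_one, hκ]
    rfl
  have hexp : Real.exp (Real.log n) = n := Real.exp_log hnpos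
  have hGH : GHyp C3 c3 Y2 (GD 1 m R' (Real.log n)) := by
    refine hG 1 (Or.inr rfl) Y2 (Real.log n) m R' hY20 hlog ?_ hmR'
    rw [Real.exp_add, hexp]
    linarith
  refine ⟨GD 1 m R' (Real.log n), ghyp_mono hGH (le_max_left _ _), ?_⟩
  intro w h O hSc top S hS p q hp hq t ht d hd
  have h16 : 4096 * (R' : ℝ) ≤ η * R := by linarith
  have hR1R : R1 ≤ R := (le_max_left _ _).trans hRR
  have hR2R : R2 ≤ R := (le_max_right _ _).trans hRR
  have hR1R' : (R1 : ℤ) ≤ R' := by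
    have : ((max R1 R2 : ℕ) : ℤ) ≤ R' := hR'n
    push_cast at this
    omega
  obtain ⟨Q, hFine⟩ := hFi R hR1R w h O hSc R' hR1R' h16 top S hS p q hp hq
  have hHV0 := hHi R hR2R w h O hSc top S hS p q hp hq
  rw [← hd] at hFine hHV0
  set MM : ℝ := M2 * (R : ℝ) ^ (2 / 3 : ℝ) with hMM
  have hRp : 0 < (R : ℝ) ^ (2 / 3 : ℝ) := Real.rpow_pos_of_pos (by exact_mod_cast hRpos) _
  have hHV : d.HV (LCq p q) (Laq p q) MM := fun ω hω P hP => (hHV0 ω hω P hP).trans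
    (mul_le_mul_of_nonneg_right (le_max_left _ _) hRp.le)
  have hMM0 : 0 ≤ MM := by positivity
  set s : Bool → ℂ := fun i => sw (zf t i + ((Real.log n : ℝ) : ℂ) * Complex.I) with hs
  have hsb : ∀ i, ‖s i‖ ≤ σ := fun i => sw_rap_le hn1' ht i
  have hs1 : ∀ i, ‖1 - s i‖ ≤ 16 * (1 - ‖s i‖) := by
    intro i
    have hr := U_re (zf_U t i)
    exact norm_one_sub_sw (by rw [re_shift]; exact hr.1) (by rw [re_shift]; exact hr.2)
  have hDG : ∀ i, DR 1 m R' (s i) = (n : ℂ) * GD 1 m R' (Real.log n) (zf t i) := by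
    intro i
    have e1 : (n : ℂ) * ((Real.exp (-Real.log n) : ℝ) : ℂ) = 1 := by
      rw [Real.exp_neg, hexp]
      push_cast
      exact mul_inv_cancel₀ (by exact_mod_cast hnpos.ne')
    unfold Pool.Agent.H20.Q1.GD
    rw [← mul_assoc, e1, one_mul]
  have hDn : ∀ i, ‖DR 1 m R' (s i)‖ ≤ C3 * Real.exp 1 * n := by
    intro i
    have h1 := hGH.bound (zf t i) ⟨zf_U t i, by
      rw [zf_im]; exact lt_of_le_of_lt ht (lt_of_lt_of_le (by norm_num) (le_max_right _ _))⟩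
    rw [zf_im] at h1
    rw [hDG, norm_mul, Complex.norm_natCast, mul_comm]
    refine mul_le_mul_of_nonneg_right (h1.trans ?_) hnpos.le
    exact mul_le_mul_of_nonneg_left (Real.exp_le_exp.2 (abs_le.1 ht).2) hC3.le
  have key := hfb C1 c1 K1 R R' d (LCq p q) (FlJ w h R' top) Q (Laq p q) MM hFine hHV s σ a0 a1 m r1 r2
    hsb hs1 hσ1 hσ2 ha02 (by rw [hσκ]; exact ha0K) ha0m ha12 ha1m ha1K hmr hr2c hr2e hr2a
  have key2 := hE (ι := Bool) (by simp) σ hσκ.ge (fun i => ((FlJ w h R' top i).card : ℝ))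
    (fun i => ‖DR 1 m R' (s i)‖) (fun i => Nat.cast_nonneg _) hFine.card (fun i => norm_nonneg _)
    hDn MM hMM0
  have htot : d.tot (LCq p q) (Laq p q) (fun i => if i = true then
      sw (rap n t + (Real.pi / 2 : ℝ)) else sw (rap n t)) = d.tot (LCq p q) (Laq p q) s := by
    congr 1
    funext i
    rw [hs]
    unfold zf rap
    cases i
    · simp only [Bool.false_eq_true, if_false]
    · simp only [if_true]
      congr 1
      ring
  have hsum : ∑ i, DR 1 m R' (s i) * (d.tot (LCq p q) (Laq p q) (w4 i) - d.tot0 (LCq p q) (Laq p q)) =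
      (n : ℂ) * (GD 1 m R' (Real.log n) (pt t) *
        (d.tot (LCq p q) (Laq p q) (w4 false) - d.tot0 (LCq p q) (Laq p q)) +
       GD 1 m R' (Real.log n) (pt t + (Real.pi / 2 : ℝ)) *
        (d.tot (LCq p q) (Laq p q) (w4 true) - d.tot0 (LCq p q) (Laq p q))) := by
    rw [Fintype.sum_bool, hDG, hDG]
    unfold zf
    simp only [Bool.false_eq_true, if_false, if_true]
    ring
  rw [htot, ← hsum]
  refine (key.trans key2).trans (le_of_eq ?_)
  rw [hMM]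
  field_simp

end Pool.Agent.Q1.M6e
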