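import Mathlib
import Pool.Agent.Q1.M6c.APMain
import Pool.Agent.Q1.M6e.LPath
import Pool.Agent.H39.Q1.Multi

set_option autoImplicit false
open Finset

/-! # The a priori bound in rectangles of the tile frame

`ap_rect` : the potential of a plane environment on a rectangle of random tiles with sides `≤ R / η`
oscillates by at most `C R ^ (2/3)` on the points at distance `≥ η R` from the boundary.
`ap_path` : the same for the sum of the increments along the L-shaped path.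
`VM_bound`, `VM_bound_layer` : the hypothesis `hM` of `Multi.first`. -/

namespace Pool.Agent.Q1.M6e

open Pool.Agent.H75.Perc Pool.Agent.H75.TwoArm Pool.Agent.H33.Q1 Pool.Agent.H74.R45
open Pool.Agent.H99.NC Pool.Agent.H39.Q1 Pool.Agent.Q1.M6c
open Pool.Agent.H20.Q1 (Eh)

/-! ### The potential as a primitive -/

lemma corners_lt {x y : ℤ} {c : ℤ × ℤ} (h : c = in1 (lt (x, y)) ∨ c = in2 (lt (x, y)) ∨
    c = nxC (in1 (lt (x, y))) ∨ c = nxC (in2 (lt (x, y)))) :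
    (c = he (x, y) ∨ c = he (x, y + 1)) ∨ c = ve (x, y) ∨ c = ve (x + 1, y) := by
  rcases Int.emod_two_eq_zero_or_one (x + y) with h2 | h2
  · rw [(in_even h2).1, (in_even h2).2, nxC_he_S (by omega : (x + (y + 1)) % 2 = 1),
      nxC_he_N h2, show y + 1 - 1 = y by ring] at h
    tauto
  · rw [(in_odd h2).1, (in_odd h2).2, nxC_ve_E h2,
      nxC_ve_W (by omega : (x + 1 + y) % 2 = 0), show x + 1 - 1 = x by ring] at h
    tauto

/-- the potential of an environment on a rectangle of random tiles -/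
theorem pot_env (X : Env) {x0 x1 y0 y1 : ℤ}
    (hE : ∀ x y, x0 ≤ x → x < x1 → y0 ≤ y → y < y1 → lt (x, y) ∈ X.E) :
    ∃ H, Pot (fun c => X.inc c) H x0 x1 y0 y1 := by
  refine exists_pot fun x y h1 h2 h3 h4 => ?_
  have h := X.closed (hE x y h1 h2 h3 h4)
  rcases Int.emod_two_eq_zero_or_one (x + y) with h2 | h2
  · rw [(in_even h2).1, (in_even h2).2, nxC_he_S (by omega : (x + (y + 1)) % 2 = 1),
      nxC_he_N h2, show y + 1 - 1 = y by ring] at h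
    rw [h]; ring
  · rw [(in_odd h2).1, (in_odd h2).2, nxC_ve_E h2,
      nxC_ve_W (by omega : (x + 1 + y) % 2 = 0), show x + 1 - 1 = x by ring] at h
    exact h

lemma inc_he {F : ℤ × ℤ → ℂ} {H : ℤ → ℤ → ℂ} {x y : ℤ}
    (h : sg (x + y) * F (he (x, y)) = H x y - H (x + 1) y) :
    H (tv (vx (he (x, y)))).1 (tv (vx (he (x, y)))).2 -
      H (tf (fi (he (x, y)))).1 (tf (fi (he (x, y)))).2 = F (he (x, y)) := by
  rcases Int.emod_two_eq_zero_or_one (x + y) with hp | hp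
  · have e1 : tv (vx (he (x, y))) = (x, y) := by
      unfold tv vx he; refine Prod.ext ?_ ?_ <;> dsimp only <;> omega
    have e2 : tf (fi (he (x, y))) = (x + 1, y) := by
      unfold tf fi he; refine Prod.ext ?_ ?_ <;> dsimp only <;> omega
    rw [sg_even hp, one_mul] at h
    rw [e1, e2, h]
  · have e1 : tv (vx (he (x, y))) = (x + 1, y) := by
      unfold tv vx he; refine Prod.ext ?_ ?_ <;> dsimp only <;> omega
    have e2 : tf (fi (he (x, y))) = (x, y) := by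
      unfold tf fi he; refine Prod.ext ?_ ?_ <;> dsimp only <;> omega
    rw [sg_odd hp] at h
    rw [e1, e2]
    linear_combination h

lemma inc_ve {F : ℤ × ℤ → ℂ} {H : ℤ → ℤ → ℂ} {x y : ℤ}
    (h : sg (x + y) * F (ve (x, y)) = H x y - H x (y + 1)) :
    H (tv (vx (ve (x, y)))).1 (tv (vx (ve (x, y)))).2 -
      H (tf (fi (ve (x, y)))).1 (tf (fi (ve (x, y)))).2 = F (ve (x, y)) := by
  rcases Int.emod_two_eq_zero_or_one (x + y) with hp | hp
  · have e1 : tv (vx (ve (x, y))) = (x, y) := by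
      unfold tv vx ve; refine Prod.ext ?_ ?_ <;> dsimp only <;> omega
    have e2 : tf (fi (ve (x, y))) = (x, y + 1) := by
      unfold tf fi ve; refine Prod.ext ?_ ?_ <;> dsimp only <;> omega
    rw [sg_even hp, one_mul] at h
    rw [e1, e2, h]
  · have e1 : tv (vx (ve (x, y))) = (x, y + 1) := by
      unfold tv vx ve; refine Prod.ext ?_ ?_ <;> dsimp only <;> omega
    have e2 : tf (fi (ve (x, y))) = (x, y) := by
      unfold tf fi ve; refine Prod.ext ?_ ?_ <;> dsimp only <;> omega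
    rw [sg_odd hp] at h
    rw [e1, e2]
    linear_combination h

/-- tiles of a box -/
lemma box_tiles {x0 x1 y0 y1 a b N : ℤ} (h1 : x0 ≤ a + b - 2 * N) (h2 : a + b + 2 * N ≤ x1)
    (h3 : y0 ≤ b - a - 2 * N) (h4 : b - a + 2 * N ≤ y1) {e : ℤ × ℤ}
    (he' : e ∈ Bx (a - N) (a + N) (b - N) (b + N)) :
    ∃ x y, e = lt (x, y) ∧ x0 ≤ x ∧ x < x1 ∧ y0 ≤ y ∧ y < y1 := by
  rw [mem_Bx] at he'
  refine ⟨(tt e).1, (tt e).2, (lt_tt he'.2.2).symm, ?_, ?_, ?_, ?_⟩ <;>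
    (unfold tt; simp only; omega)

/-- the potential in vertex coordinates -/
theorem prim_of_pot {X : Env} {H : ℤ → ℤ → ℂ} {x0 x1 y0 y1 a b N : ℤ}
    (hP : Pot (fun c => X.inc c) H x0 x1 y0 y1) (h1 : x0 ≤ a + b - 2 * N)
    (h2 : a + b + 2 * N ≤ x1) (h3 : y0 ≤ b - a - 2 * N) (h4 : b - a + 2 * N ≤ y1) :
    X.Prim (a - N) (a + N) (b - N) (b + N) (fun v => H (tv v).1 (tv v).2)
      (fun f => H (tf f).1 (tf f).2) := by
  intro e hB c hc
  obtain ⟨x, y, rfl, k1, k2, k3, k4⟩ := box_tiles h1 h2 h3 h4 hB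
  rcases corners_lt hc with (rfl | rfl) | rfl | rfl
  · exact inc_he (F := fun c => X.inc c) (hP.hor x y k1 k2 k3 k4.le)
  · exact inc_he (F := fun c => X.inc c) (hP.hor x (y + 1) k1 k2 (by omega) (by omega))
  · exact inc_ve (F := fun c => X.inc c) (hP.ver x y k1 k2.le k3 k4)
  · exact inc_ve (F := fun c => X.inc c) (hP.ver (x + 1) y (by omega) (by omega) k3 k4)

/-! ### One box -/

/-- the bound of `AP` for a single constant -/
def APC (K : Env → Prop) (C : ℝ) : Prop := ∀ X, K X → ∀ (a b : ℤ) (N : ℕ),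
  Bx (a - N) (a + N) (b - N) (b + N) ⊆ X.E → ∀ Hv Hf,
  X.Prim (a - N) (a + N) (b - N) (b + N) Hv Hf → ∀ u v : ℤ × ℤ, Qt a N u.1 → Qt b N u.2 →
  Qt a N v.1 → Qt b N v.2 → ‖Hv u - Hv v‖ ≤ C * (N : ℝ) ^ (2 / 3 : ℝ)

section chain

variable {K : Env → Prop} {C : ℝ} (hAP : APC K C) {X : Env} (hX : K X) {x0 x1 y0 y1 : ℤ}
  (hE : ∀ x y, x0 ≤ x → x < x1 → y0 ≤ y → y < y1 → lt (x, y) ∈ X.E)
  {H : ℤ → ℤ → ℂ} (hP : Pot (fun c => X.inc c) H x0 x1 y0 y1) {N : ℕ}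

include hAP hX hE hP

lemma one_even {x y x' y' : ℤ} (hp : (x + y) % 2 = 0) (hp' : (x' + y') % 2 = 0)
    (h1 : x0 ≤ x - 2 * N) (h2 : x + 2 * N ≤ x1) (h3 : y0 ≤ y - 2 * N) (h4 : y + 2 * N ≤ y1)
    (hd : 2 * (|x - x'| + |y - y'|) ≤ N) :
    ‖H x y - H x' y'‖ ≤ C * (N : ℝ) ^ (2 / 3 : ℝ) := by
  obtain ⟨a, b, ha, hb⟩ : ∃ a b : ℤ, x = a + b ∧ y = b - a :=
    ⟨(x - y) / 2, (x + y) / 2, by omega, by omega⟩
  obtain ⟨a', b', ha', hb'⟩ : ∃ a b : ℤ, x' = a + b ∧ y' = b - a :=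
    ⟨(x' - y') / 2, (x' + y') / 2, by omega, by omega⟩
  subst ha hb ha' hb'
  have hB : Bx (a - N) (a + N) (b - N) (b + N) ⊆ X.E := by
    intro e he'
    obtain ⟨x, y, rfl, k1, k2, k3, k4⟩ := box_tiles h1 h2 h3 h4 he'
    exact hE x y k1 k2 k3 k4
  have hPr := prim_of_pot hP h1 h2 h3 h4
  have hb1 := abs_le.1 (show |a + b - (a' + b')| ≤ |a + b - (a' + b')| from le_rfl)
  have hb2 := abs_le.1 (show |b - a - (b' - a')| ≤ |b - a - (b' - a')| from le_rfl)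
  have q1 : Qt a N (a', b').1 := by
    unfold Qt
    have : |(a', b').1 - a| ≤ (N : ℤ) / 4 := by
      rw [abs_le]; constructor <;> simp only <;> omega
    omega
  have q2 : Qt b N (a', b').2 := by
    unfold Qt
    have : |(a', b').2 - b| ≤ (N : ℤ) / 4 := by
      rw [abs_le]; constructor <;> simp only <;> omega
    omega
  have q3 : Qt a N (a, b).1 := by unfold Qt; simp
  have q4 : Qt b N (a, b).2 := by unfold Qt; simp
  have := hAP X hX a b N hB _ _ hPr (a, b) (a', b') q3 q4 q1 q2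
  simpa only [tv] using this

lemma one_any {x y x' y' : ℤ} (h1 : x0 + 2 * N + 1 ≤ x) (h2 : x + 2 * N + 1 ≤ x1)
    (h3 : y0 + 2 * N + 1 ≤ y) (h4 : y + 2 * N + 1 ≤ y1)
    (h1' : x0 + 2 * N + 1 ≤ x') (h2' : x' + 2 * N + 1 ≤ x1)
    (h3' : y0 + 2 * N + 1 ≤ y') (h4' : y' + 2 * N + 1 ≤ y1)
    (hd : 2 * (|x - x'| + |y - y'| + 2) ≤ N) :
    ‖H x y - H x' y'‖ ≤ C * (N : ℝ) ^ (2 / 3 : ℝ) + 2 := by
  -- a neighbour on the even lattice
  have key : ∀ u v : ℤ, x0 + 2 * N + 1 ≤ u → u + 2 * N + 1 ≤ x1 → y0 + 2 * N + 1 ≤ v →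
      v + 2 * N + 1 ≤ y1 → ∃ u', (u' + v) % 2 = 0 ∧ (u' = u ∨ u' = u + 1) ∧
        ‖H u v - H u' v‖ ≤ 1 := by
    intro u v k1 k2 k3 k4
    rcases Int.emod_two_eq_zero_or_one (u + v) with hp | hp
    · exact ⟨u, hp, Or.inl rfl, by rw [sub_self, norm_zero]; norm_num⟩
    · refine ⟨u + 1, by omega, Or.inr rfl, ?_⟩
      have := hP.hor u v (by omega) (by omega) (by omega) (by omega)
      rw [← this, norm_mul, norm_sg, one_mul]
      exact Env.inc_norm_le_one X _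
  obtain ⟨u, p1, p2, p3⟩ := key x y h1 h2 h3 h4
  obtain ⟨u', p1', p2', p3'⟩ := key x' y' h1' h2' h3' h4'
  have hd' : 2 * (|u - u'| + |y - y'|) ≤ N := by
    have : |u - u'| ≤ |x - x'| + 2 := by
      have e1 := abs_le.1 (show |x - x'| ≤ |x - x'| from le_rfl)
      rw [abs_le]
      constructor <;> omega
    linarith
  have h := one_even hAP hX hE hP (x := u) (y := y) (x' := u') (y' := y') p1 p1' (by omega)
    (by omega) (by omega) (by omega) hd'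
  calc ‖H x y - H x' y'‖ = ‖(H x y - H u y) + (H u y - H u' y') - (H x' y' - H u' y')‖ := by
        congr 1; ring
    _ ≤ ‖(H x y - H u y) + (H u y - H u' y')‖ + ‖H x' y' - H u' y'‖ := norm_sub_le _ _
    _ ≤ ‖H x y - H u y‖ + ‖H u y - H u' y'‖ + ‖H x' y' - H u' y'‖ := by
        gcongr; exact norm_add_le _ _
    _ ≤ C * (N : ℝ) ^ (2 / 3 : ℝ) + 2 := by linarith

/-- the chain -/
lemma chain {m : ℕ} (hm : 2 * (m + 2) ≤ N) (k : ℕ) : ∀ {x y x' y' : ℤ},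
    x0 + 2 * N + 1 ≤ x → x + 2 * N + 1 ≤ x1 → y0 + 2 * N + 1 ≤ y → y + 2 * N + 1 ≤ y1 →
    x0 + 2 * N + 1 ≤ x' → x' + 2 * N + 1 ≤ x1 → y0 + 2 * N + 1 ≤ y' → y' + 2 * N + 1 ≤ y1 →
    |x - x'| + |y - y'| ≤ k * m →
    ‖H x y - H x' y'‖ ≤ k * (C * (N : ℝ) ^ (2 / 3 : ℝ) + 2) := by
  induction k with
  | zero =>
    intro x y x' y' _ _ _ _ _ _ _ _ hd
    have e1 := abs_nonneg (x - x')
    have e2 := abs_nonneg (y - y')
    rw [Nat.cast_zero, zero_mul] at hd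
    have e3 : |x - x'| = 0 := by omega
    have e4 : |y - y'| = 0 := by omega
    have e5 : x' = x := by rw [abs_eq_zero] at e3; omega
    have e6 : y' = y := by rw [abs_eq_zero] at e4; omega
    rw [e5, e6, sub_self, norm_zero, Nat.cast_zero, zero_mul]
  | succ k ih =>
    intro x y x' y' h1 h2 h3 h4 h1' h2' h3' h4' hd
    -- the intermediate point
    obtain ⟨u, v, k1, k2, k3, k4, k5, k6⟩ : ∃ u v : ℤ, min x x' ≤ u ∧ u ≤ max x x' ∧
        min y y' ≤ v ∧ v ≤ max y y' ∧ |x - u| + |y - v| ≤ m ∧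
        |u - x'| + |v - y'| ≤ k * m := by
      push_cast at hd
      have hd1 : |x - x'| + |y - y'| ≤ k * m + m := by linarith
      set M : ℤ := k * m with hM
      have hM0 : 0 ≤ M := by positivity
      clear_value M
      clear hd ih
      by_cases hc : |x - x'| ≤ m
      · -- horizontal part complete
        by_cases hc2 : |x - x'| + |y - y'| ≤ m
        · refine ⟨x', y', by omega, by omega, by omega, by omega, hc2, ?_⟩
          rw [sub_self, sub_self, abs_zero]; omega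
        · rcases le_total y y' with hy | hy
          · rw [abs_of_nonpos (by omega : y - y' ≤ 0)] at hc2 hd1
            refine ⟨x', y + (m - |x - x'|), by omega, by omega, by omega, by omega, ?_, ?_⟩
            · rw [show y - (y + (m - |x - x'|)) = -(m - |x - x'|) by ring, abs_neg,
                abs_of_nonneg (by omega : (0 : ℤ) ≤ m - |x - x'|)]
              omega
            · rw [sub_self, abs_zero, abs_of_nonpos (by omega)]; omega
          · rw [abs_of_nonneg (by omega : 0 ≤ y - y')] at hc2 hd1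
            refine ⟨x', y - (m - |x - x'|), by omega, by omega, by omega, by omega, ?_, ?_⟩
            · rw [show y - (y - (m - |x - x'|)) = m - |x - x'| by ring,
                abs_of_nonneg (by omega : (0 : ℤ) ≤ m - |x - x'|)]
              omega
            · rw [sub_self, abs_zero, abs_of_nonneg (by omega)]; omega
      · rcases le_total x x' with hx | hx
        · rw [abs_of_nonpos (by omega : x - x' ≤ 0)] at hc hd1
          refine ⟨x + m, y, by omega, by omega, by omega, by omega, ?_, ?_⟩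
          · rw [show x - (x + m) = -(m : ℤ) by ring, abs_neg, sub_self, abs_zero,
              abs_of_nonneg (by omega : (0 : ℤ) ≤ m)]
            omega
          · rw [abs_of_nonpos (by omega : x + m - x' ≤ 0)]; omega
        · rw [abs_of_nonneg (by omega : 0 ≤ x - x')] at hc hd1
          refine ⟨x - m, y, by omega, by omega, by omega, by omega, ?_, ?_⟩
          · rw [show x - (x - m) = (m : ℤ) by ring, sub_self, abs_zero,
              abs_of_nonneg (by omega : (0 : ℤ) ≤ m)]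
            omega
          · rw [abs_of_nonneg (by omega : 0 ≤ x - m - x')]; omega
    have i1 := one_any hAP hX hE hP (x := x) (y := y) (x' := u) (y' := v) h1 h2 h3 h4 (by omega)
      (by omega) (by omega) (by omega) (by omega)
    have i2 := ih (x := u) (y := v) (x' := x') (y' := y') (by omega) (by omega) (by omega)
      (by omega) h1' h2' h3' h4' k6
    calc ‖H x y - H x' y'‖ = ‖(H x y - H u v) + (H u v - H x' y')‖ := by congr 1; ring
      _ ≤ ‖H x y - H u v‖ + ‖H u v - H x' y'‖ := norm_add_le _ _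
      _ ≤ _ := by push_cast; linarith

end chain

/-! ### The bound -/

/-- points at distance at least `d` from the boundary of the rectangle -/
def Dp (d : ℝ) (x0 x1 y0 y1 x y : ℤ) : Prop :=
  ((x0 : ℝ) + d ≤ x ∧ (x : ℝ) + d ≤ x1) ∧ (y0 : ℝ) + d ≤ y ∧ (y : ℝ) + d ≤ y1

lemma Dp.int {d : ℝ} {x0 x1 y0 y1 x y n : ℤ} (h : Dp d x0 x1 y0 y1 x y) (hn : (n : ℝ) ≤ d) :
    (x0 + n ≤ x ∧ x + n ≤ x1) ∧ y0 + n ≤ y ∧ y + n ≤ y1 := by
  obtain ⟨⟨h1, h2⟩, h3, h4⟩ := h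
  refine ⟨⟨?_, ?_⟩, ?_, ?_⟩
  · have : ((x0 + n : ℤ) : ℝ) ≤ x := by push_cast; linarith
    exact_mod_cast this
  · have : ((x + n : ℤ) : ℝ) ≤ x1 := by push_cast; linarith
    exact_mod_cast this
  · have : ((y0 + n : ℤ) : ℝ) ≤ y := by push_cast; linarith
    exact_mod_cast this
  · have : ((y + n : ℤ) : ℝ) ≤ y1 := by push_cast; linarith
    exact_mod_cast this

lemma Dp.mono {d d' : ℝ} {x0 x1 y0 y1 x y : ℤ} (h : Dp d x0 x1 y0 y1 x y) (hd : d' ≤ d) :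
    Dp d' x0 x1 y0 y1 x y := by
  obtain ⟨⟨h1, h2⟩, h3, h4⟩ := h
  exact ⟨⟨by linarith, by linarith⟩, by linarith, by linarith⟩

/-- **The a priori bound in rectangles.** -/
theorem ap_rect {η : ℝ} (hη : 0 < η) : ∃ C : ℝ, 0 < C ∧ ∃ R0 : ℝ, ∀ X, PlaneK X →
    ∀ (x0 x1 y0 y1 : ℤ) (R : ℝ), R0 ≤ R →
    (∀ x y, x0 ≤ x → x < x1 → y0 ≤ y → y < y1 → lt (x, y) ∈ X.E) →
    (x1 : ℝ) - x0 ≤ R / η → (y1 : ℝ) - y0 ≤ R / η →
    ∀ H, Pot (fun c => X.inc c) H x0 x1 y0 y1 → ∀ x y x' y' : ℤ,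
    Dp (η * R) x0 x1 y0 y1 x y → Dp (η * R) x0 x1 y0 y1 x' y' →
    ‖H x y - H x' y'‖ ≤ C * R ^ (2 / 3 : ℝ) := by
  obtain ⟨C, hC, hAP⟩ := ap_planeK
  set k : ℕ := ⌈16 / η ^ 2⌉₊ with hk
  have hk0 : 0 < 16 / η ^ 2 := by positivity
  have hk1 : 16 / η ^ 2 ≤ (k : ℝ) := Nat.le_ceil _
  have hkpos : (0 : ℝ) < k := lt_of_lt_of_le hk0 hk1
  refine ⟨k * (C + 2) * η ^ (2 / 3 : ℝ), by positivity, 26 / η, ?_⟩
  intro X hX x0 x1 y0 y1 R hR hE hs1 hs2 H hP x y x' y' hd hd'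
  have hR1 : 26 ≤ η * R := by
    rw [div_le_iff₀ hη] at hR; linarith
  have hR0 : 0 < R := lt_of_lt_of_le (by positivity) hR
  -- the size of the boxes
  set N : ℕ := ⌊(η * R - 1) / 2⌋₊ with hN
  have hN1 : (N : ℝ) ≤ (η * R - 1) / 2 := Nat.floor_le (by linarith)
  have hN2 : (η * R - 1) / 2 < N + 1 := Nat.lt_floor_add_one _
  have hN3 : 11 ≤ N := by
    have : (11 : ℝ) < N + 1 := by linarith
    have : 11 < N + 1 := by exact_mod_cast this
    omega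
  obtain ⟨m, hm, hm'⟩ : ∃ m : ℕ, 2 * (m + 2) ≤ N ∧ N ≤ 2 * (m + 2) + 1 :=
    ⟨N / 2 - 2, by omega, by omega⟩
  have hm1 : η * R / 8 ≤ (m : ℝ) := by
    have : (N : ℝ) ≤ 2 * (m + 2) + 1 := by exact_mod_cast hm'
    linarith
  have hn : ((2 * N + 1 : ℤ) : ℝ) ≤ η * R := by push_cast; linarith
  obtain ⟨⟨a1, a2⟩, a3, a4⟩ := hd.int hn
  obtain ⟨⟨b1, b2⟩, b3, b4⟩ := hd'.int hn
  have hlen : |x - x'| + |y - y'| ≤ k * m := by
    have e1 : |x - x'| ≤ x1 - x0 := by rw [abs_le]; constructor <;> omega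
    have e2 : |y - y'| ≤ y1 - y0 := by rw [abs_le]; constructor <;> omega
    have e3 : ((|x - x'| + |y - y'| : ℤ) : ℝ) ≤ ((k * m : ℤ) : ℝ) := by
      have f1 : ((|x - x'| + |y - y'| : ℤ) : ℝ) ≤ ((x1 - x0 + (y1 - y0) : ℤ) : ℝ) := by
        exact_mod_cast add_le_add e1 e2
      refine f1.trans ?_
      push_cast
      have f2 : 2 * (R / η) = 16 / η ^ 2 * (η * R / 8) := by field_simp; ring
      calc (x1 : ℝ) - x0 + (y1 - y0) ≤ 2 * (R / η) := by linarith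
        _ = 16 / η ^ 2 * (η * R / 8) := f2
        _ ≤ k * m := by
            apply mul_le_mul hk1 hm1 (by positivity) hkpos.le
    exact_mod_cast e3
  have key := chain (K := PlaneK) (C := C) hAP hX hE hP hm k (x := x) (y := y) (x' := x')
    (y' := y') (by omega) (by omega) (by omega) (by omega) (by omega) (by omega) (by omega)
    (by omega) hlen
  refine key.trans ?_
  have hN4 : (1 : ℝ) ≤ (N : ℝ) ^ (2 / 3 : ℝ) :=
    Real.one_le_rpow (by exact_mod_cast (by omega : 1 ≤ N)) (by norm_num)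
  have hN5 : (N : ℝ) ^ (2 / 3 : ℝ) ≤ η ^ (2 / 3 : ℝ) * R ^ (2 / 3 : ℝ) := by
    rw [← Real.mul_rpow hη.le hR0.le]
    exact Real.rpow_le_rpow (by positivity) (by linarith) (by norm_num)
  calc (k : ℝ) * (C * (N : ℝ) ^ (2 / 3 : ℝ) + 2)
      ≤ k * (C * (N : ℝ) ^ (2 / 3 : ℝ) + 2 * (N : ℝ) ^ (2 / 3 : ℝ)) := by
        gcongr; linarith
    _ = k * (C + 2) * (N : ℝ) ^ (2 / 3 : ℝ) := by ring
    _ ≤ k * (C + 2) * (η ^ (2 / 3 : ℝ) * R ^ (2 / 3 : ℝ)) := by gcongr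
    _ = k * (C + 2) * η ^ (2 / 3 : ℝ) * R ^ (2 / 3 : ℝ) := by ring

/-- **The sum of the increments along the L-shaped path.** -/
theorem ap_path {η : ℝ} (hη : 0 < η) : ∃ C : ℝ, 0 < C ∧ ∃ R0 : ℝ, ∀ X, PlaneK X →
    ∀ (x0 x1 y0 y1 : ℤ) (R : ℝ), R0 ≤ R →
    (∀ x y, x0 ≤ x → x < x1 → y0 ≤ y → y < y1 → lt (x, y) ∈ X.E) →
    (x1 : ℝ) - x0 ≤ R / η → (y1 : ℝ) - y0 ≤ R / η → ∀ x y x' y' : ℤ,
    Dp (η * R) x0 x1 y0 y1 x y → Dp (η * R) x0 x1 y0 y1 x' y' →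
    ‖∑ c ∈ LC x y x' y', La x y x' y' c * X.inc c‖ ≤ C * R ^ (2 / 3 : ℝ) := by
  obtain ⟨C, hC, R0, h⟩ := ap_rect hη
  refine ⟨C, hC, max R0 0, fun X hX x0 x1 y0 y1 R hR hE hs1 hs2 x y x' y' hd hd' => ?_⟩
  obtain ⟨H, hP⟩ := pot_env X hE
  have hR1 := (le_max_right R0 0).trans hR
  have hn : ((0 : ℤ) : ℝ) ≤ η * R := by push_cast; positivity
  obtain ⟨⟨a1, a2⟩, a3, a4⟩ := hd.int hn
  obtain ⟨⟨b1, b2⟩, b3, b4⟩ := hd'.int hn
  have e := LC_sum hP (x := x) (y := y) (x' := x') (y' := y') (by omega) (by omega) (by omega)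
    (by omega) (by omega) (by omega) (by omega) (by omega)
  rw [e]
  exact h X hX x0 x1 y0 y1 R ((le_max_left R0 0).trans hR) hE hs1 hs2 H hP x y x' y' hd hd'

/-! ### The hypothesis `hM` of `Multi.first` -/

section vm

variable {ι : Type*} [DecidableEq ι] {X : Env} {W Bb B TT Cs ω P : Finset (ℤ × ℤ)}
  {fm : ℤ × ℤ → ι} {co : ι → Bool} {a : ℤ × ℤ → ℂ}

/-- `VM` is a sum of increments of the frozen environment. -/
theorem VM_eq (hBb : Bb ⊆ X.E) (hBT : Disjoint Bb TT) (hTE : TT ⊆ X.E) (hB : B ⊆ Bb)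
    (hω : ω ⊆ B) : VM X Cs a Bb B TT fm co ω P =
      ∑ c ∈ Cs, a c * (X.freeze (Bb \ B) (ω ∪ opn TT fm co P)).inc c := by
  have hE' : Bb \ B ⊆ X.E := sdiff_subset.trans hBb
  unfold VM U Eh
  rw [Ec_sum]
  refine sum_congr rfl fun c _ => ?_
  rw [Ec_smul]
  congr 1
  rw [Env.inc_eq, Env.freeze_E, inter_eq_right.2 hE']
  refine Ec_congr fun ω' hω' => ?_
  rw [Env.freeze_incO (by rw [inter_eq_right.2 hE']; exact hω')]
  have e1 : (ω ∪ opn TT fm co P) ∩ (X.E \ (Bb \ B)) = ω ∪ opn TT fm co P := by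
    refine inter_eq_left.2 fun l hl => ?_
    rcases mem_union.1 hl with h1 | h1
    · exact mem_sdiff.2 ⟨hBb (hB (hω h1)), fun h2 => (mem_sdiff.1 h2).2 (hω h1)⟩
    · have h2 := (mem_opn.1 h1).1
      exact mem_sdiff.2 ⟨hTE h2, fun h3 => disjoint_left.1 hBT (mem_sdiff.1 h3).1 h2⟩
  rw [e1]
  congr 1
  ext l
  simp only [mem_union]
  tauto

end vm

/-- **`hM`**, rectangle of tiles of `Bb \ B`. -/
theorem VM_bound {η : ℝ} (hη : 0 < η) : ∃ C : ℝ, 0 < C ∧ ∃ R0 : ℝ, ∀ X, PlaneK X →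
    ∀ (Bb B TT : Finset (ℤ × ℤ)), Bb ⊆ X.E → Disjoint Bb TT → TT ⊆ X.E → B ⊆ Bb →
    ∀ {ι : Type} [DecidableEq ι] (fm : ℤ × ℤ → ι) (co : ι → Bool)
    (x0 x1 y0 y1 : ℤ) (R : ℝ), R0 ≤ R →
    (∀ x y, x0 ≤ x → x < x1 → y0 ≤ y → y < y1 → lt (x, y) ∈ Bb \ B) →
    (x1 : ℝ) - x0 ≤ R / η → (y1 : ℝ) - y0 ≤ R / η → ∀ x y x' y' : ℤ,
    Dp (η * R) x0 x1 y0 y1 x y → Dp (η * R) x0 x1 y0 y1 x' y' → ∀ ω ⊆ B, ∀ P,
    ‖VM X (LC x y x' y') (La x y x' y') Bb B TT fm co ω P‖ ≤ C * R ^ (2 / 3 : ℝ) := by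
  obtain ⟨C, hC, R0, h⟩ := ap_path hη
  refine ⟨C, hC, R0, ?_⟩
  intro X hX Bb B TT h1 h2 h3 h4 ι _ fm co x0 x1 y0 y1 R hR hE hs1 hs2 x y x' y' hd hd' ω hω P
  rw [VM_eq h1 h2 h3 h4 hω]
  refine h _ (planeK_freeze hX _ _) x0 x1 y0 y1 R hR ?_ hs1 hs2 x y x' y' hd hd'
  intro x y k1 k2 k3 k4
  rw [Env.freeze_E]
  have := hE x y k1 k2 k3 k4
  exact mem_inter.2 ⟨h1 (mem_sdiff.1 this).1, this⟩

/-- **`hM`**, layer form: the tiles of `Bb \ B` contain the rectangle minus a layer of width `η R`, the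
ends are at distance `≥ 2 η R` from the boundary. -/
theorem VM_bound_layer {η : ℝ} (hη : 0 < η) : ∃ C : ℝ, 0 < C ∧ ∃ R0 : ℝ, ∀ X, PlaneK X →
    ∀ (Bb B TT : Finset (ℤ × ℤ)), Bb ⊆ X.E → Disjoint Bb TT → TT ⊆ X.E → B ⊆ Bb →
    ∀ {ι : Type} [DecidableEq ι] (fm : ℤ × ℤ → ι) (co : ι → Bool)
    (x0 x1 y0 y1 : ℤ) (R : ℝ), R0 ≤ R →
    (∀ x y : ℤ, (x0 : ℝ) + η * R ≤ x → (x : ℝ) + 1 + η * R ≤ x1 → (y0 : ℝ) + η * R ≤ y →
      (y : ℝ) + 1 + η * R ≤ y1 → lt (x, y) ∈ Bb \ B) →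
    (x1 : ℝ) - x0 ≤ R / η → (y1 : ℝ) - y0 ≤ R / η → ∀ x y x' y' : ℤ,
    Dp (2 * η * R) x0 x1 y0 y1 x y → Dp (2 * η * R) x0 x1 y0 y1 x' y' → ∀ ω ⊆ B, ∀ P,
    ‖VM X (LC x y x' y') (La x y x' y') Bb B TT fm co ω P‖ ≤ C * R ^ (2 / 3 : ℝ) := by
  obtain ⟨C, hC, R0, h⟩ := VM_bound (η := η / 2) (by positivity)
  refine ⟨C, hC, max R0 (2 / η), ?_⟩
  intro X hX Bb B TT h1 h2 h3 h4 ι _ fm co x0 x1 y0 y1 R hR hE hs1 hs2 x y x' y' hd hd'
  have hR1 : 2 ≤ η * R := by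
    have := (le_max_right R0 (2 / η)).trans hR
    rw [div_le_iff₀ hη] at this; linarith
  have hR2 : 0 < R := by
    by_contra hc
    push Not at hc
    have := mul_nonpos_of_nonneg_of_nonpos hη.le hc
    linarith
  have hRR : R / η ≤ R / (η / 2) := by
    apply div_le_div_of_nonneg_left hR2.le (by positivity) (by linarith)
  -- the inner rectangle
  set u0 : ℤ := ⌈(x0 : ℝ) + η * R⌉ with hu0
  set u1 : ℤ := ⌊(x1 : ℝ) - η * R⌋ with hu1
  set v0 : ℤ := ⌈(y0 : ℝ) + η * R⌉ with hv0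
  set v1 : ℤ := ⌊(y1 : ℝ) - η * R⌋ with hv1
  have a1 : (x0 : ℝ) + η * R ≤ u0 := Int.le_ceil _
  have a2 : (u0 : ℝ) < (x0 : ℝ) + η * R + 1 := Int.ceil_lt_add_one _
  have a3 : (u1 : ℝ) ≤ (x1 : ℝ) - η * R := Int.floor_le _
  have a4 : (x1 : ℝ) - η * R < u1 + 1 := Int.lt_floor_add_one _
  have b1 : (y0 : ℝ) + η * R ≤ v0 := Int.le_ceil _
  have b2 : (v0 : ℝ) < (y0 : ℝ) + η * R + 1 := Int.ceil_lt_add_one _
  have b3 : (v1 : ℝ) ≤ (y1 : ℝ) - η * R := Int.floor_le _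
  have b4 : (y1 : ℝ) - η * R < v1 + 1 := Int.lt_floor_add_one _
  have deep : ∀ x y : ℤ, Dp (2 * η * R) x0 x1 y0 y1 x y → Dp (η / 2 * R) u0 u1 v0 v1 x y := by
    intro x y hd
    obtain ⟨⟨d1, d2⟩, d3, d4⟩ := hd
    refine ⟨⟨?_, ?_⟩, ?_, ?_⟩ <;> linarith
  refine h X hX Bb B TT h1 h2 h3 h4 fm co u0 u1 v0 v1 R ((le_max_left _ _).trans hR) ?_ ?_ ?_
    x y x' y' (deep _ _ hd) (deep _ _ hd')
  · intro i l k1 k2 k3 k4
    have c1 : (u0 : ℝ) ≤ i := by exact_mod_cast k1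
    have c2 : (i : ℝ) + 1 ≤ u1 := by exact_mod_cast k2
    have c3 : (v0 : ℝ) ≤ l := by exact_mod_cast k3
    have c4 : (l : ℝ) + 1 ≤ v1 := by exact_mod_cast k4
    exact hE i l (by linarith) (by linarith) (by linarith) (by linarith)
  · have : (0 : ℝ) ≤ η * R := by linarith
    linarith
  · have : (0 : ℝ) ≤ η * R := by linarith
    linarith

end Pool.Agent.Q1.M6e
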