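import Mathlib
import Pool.Agent.Q1.M6e.ApRect
import Pool.Agent.Q1.M6e.ThmC
import Pool.Agent.H13.R45.Mul2

set_option autoImplicit false
open Finset

/-! # The hypothesis `hM` for the tied environments of a rectangle

`planeK_plane` : `Env.plane` is in the class `PlaneK` (also if `W` contains labels which are not edges).
`VM_XL`, `VM_XU` : the bound of `VM` for `XL O S`, `XU O S` and the layers along two walls. -/

namespace Pool.Agent.Q1.M6e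

open Pool.Agent.H75.Perc Pool.Agent.H75.TwoArm Pool.Agent.H33.Q1 Pool.Agent.H74.R45
open Pool.Agent.H99.NC Pool.Agent.H39.Q1 Pool.Agent.Q1.M6c Pool.Agent.H69.Q1 Pool.Agent.H13.R45

lemma lab_union_odd {ω W : Finset (ℤ × ℤ)} (c : ℤ × ℤ) :
    lab c ∈ ω ∪ W.filter (fun e => (e.1 + e.2) % 2 = 1) ↔ lab c ∈ ω ∪ W := by
  have := odd_lab c
  simp only [mem_union, mem_filter]
  tauto

lemma nx_union_odd (ω W : Finset (ℤ × ℤ)) :
    nx (ω ∪ W.filter (fun e => (e.1 + e.2) % 2 = 1)) = nx (ω ∪ W) := by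
  funext c
  unfold nx
  simp only [lab_union_odd]

lemma del_union_odd (ω W : Finset (ℤ × ℤ)) :
    del (ω ∪ W.filter (fun e => (e.1 + e.2) % 2 = 1)) = del (ω ∪ W) := by
  funext c
  unfold del
  simp only [lab_union_odd]

/-- `Env.plane` is a plane environment. -/
theorem planeK_plane {E W : Finset (ℤ × ℤ)} {c0 : ℤ × ℤ} {k0 : ℤ} {g : ℤ × ℤ}
    {hE : ∀ e ∈ E, (e.1 + e.2) % 2 = 1} {hd : Disjoint E W} {hk : k0 % 4 = ty c0}
    {hroot : plab c0 ∉ E} {hg : DCo (E ∪ W) (fi c0) g}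
    {hlow : ∀ v, Co (E ∪ W) (vx c0) v → g.2 < v.2} :
    PlaneK (Env.plane E W c0 k0 g hE hd hk hroot hg hlow) := by
  have hsub : E ∪ W.filter (fun e => (e.1 + e.2) % 2 = 1) ⊆ E ∪ W :=
    union_subset_union_right (filter_subset _ _)
  refine ⟨W.filter (fun e => (e.1 + e.2) % 2 = 1), ?_, ?_, ?_, ?_, g, ?_, ?_⟩
  · exact hd.mono_right (filter_subset _ _)
  · intro e he
    exact (mem_filter.1 he).2
  · intro ω hω i
    rw [plane_E] at hω
    rw [nx_union_odd, plane_c0]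
    exact plane_z hω i
  · intro ω hω i
    rw [plane_E] at hω
    rw [nx_union_odd, del_union_odd, plane_c0, plane_k0]
    exact plane_K hω i
  · exact hg.anti hsub
  · exact fun v hv => hlow v (hv.mono hsub)

variable {w h : ℤ}

theorem planeK_XL (O : Out w h) (S : Finset (ℤ × ℤ)) (hS : S ⊆ RRL h) :
    PlaneK (XL O S hS) := by
  unfold XL XF
  exact planeK_plane

theorem planeK_XU (O : Out w h) (S : Finset (ℤ × ℤ)) (hS : S ⊆ RRU w h) :
    PlaneK (XU O S hS) := by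
  unfold XU XF
  exact planeK_plane

lemma disj_RT_TTL : Disjoint (RT 0 w 0 h) (TTL w h) := by
  rw [disjoint_left]
  intro e he he'
  obtain ⟨x, y, rfl⟩ := exists_lt (odd_RT he)
  rw [lt_mem_RT] at he
  rw [mem_TTL] at he'
  omega

lemma disj_RT_TTU : Disjoint (RT 0 w (-1) (h - 1)) (TTU w h) := by
  rw [disjoint_left]
  intro e he he'
  obtain ⟨x, y, rfl⟩ := exists_lt (odd_RT he)
  rw [lt_mem_RT] at he
  rw [mem_TTU] at he'
  omega

/-- **`hM` for the lower environment**, any bulk set `B` inside the layers of width `m + 1` along the left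
wall and the floor. -/
theorem VM_XL {η : ℝ} (hη : 0 < η) : ∃ C : ℝ, 0 < C ∧ ∃ R0 : ℕ, ∀ R : ℕ, R0 ≤ R →
    ∀ (w h : ℤ) (O : Out w h), (w : ℝ) ≤ R / η → (h : ℝ) ≤ R / η →
    ∀ (S : Finset (ℤ × ℤ)) (hS : S ⊆ RRL h) (m : ℤ), 0 ≤ m → (m : ℝ) ≤ η * R / 4 →
    ∀ B : Finset (ℤ × ℤ), B ⊆ RT 0 w 0 h → B ⊆ RT 0 (m + 1) 0 h ∪ RT 0 w 0 (m + 1) →
    ∀ p q : ℤ × ℤ, Inn w h (η * R) p → Inn w h (η * R) q → ∀ ω ⊆ B, ∀ P : Finset (ℤ × ℤ),
    ‖VM (XL O S hS) (LC p.1 p.2 q.1 q.2) (La p.1 p.2 q.1 q.2) (RT 0 w 0 h) B (TTL w h) fmL id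
      ω P‖ ≤ C * (R : ℝ) ^ (2 / 3 : ℝ) := by
  obtain ⟨C, hC, R0, H⟩ := VM_bound (η := η / 2) (by positivity)
  refine ⟨C, hC, ⌈max R0 (8 / η)⌉₊, ?_⟩
  intro R hR w h O hw hh S hS m hm0 hm B hB hB' p q hp hq ω hω P
  have hR' : max R0 (8 / η) ≤ (R : ℝ) := (Nat.le_ceil _).trans (by exact_mod_cast hR)
  have hR1 : 8 ≤ η * R := by
    have := (le_max_right R0 (8 / η)).trans hR'
    rw [div_le_iff₀ hη] at this; linarith
  have hR2 : (0 : ℝ) ≤ R := Nat.cast_nonneg R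
  have hRR : (R : ℝ) / η ≤ R / (η / 2) :=
    div_le_div_of_nonneg_left hR2 (by positivity) (by linarith)
  have hm' : (0 : ℝ) ≤ m := by exact_mod_cast hm0
  have deep : ∀ p : ℤ × ℤ, Inn w h (η * R) p → Dp (η / 2 * R) (m + 1) w (m + 1) h p.1 p.2 := by
    intro p hp
    obtain ⟨d1, d2, d3, d4⟩ := hp
    refine ⟨⟨?_, ?_⟩, ?_, ?_⟩ <;> (push_cast; linarith)
  refine H (XL O S hS) (planeK_XL O S hS) (RT 0 w 0 h) B (TTL w h) ?_ disj_RT_TTL ?_ hB fmL id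
    (m + 1) w (m + 1) h R ((le_max_left _ _).trans hR') ?_ ?_ ?_ p.1 p.2 q.1 q.2 (deep p hp)
    (deep q hq) ω hω P
  · rw [XL_E]; exact subset_union_left
  · rw [XL_E]; exact subset_union_right
  · intro x y h1 h2 h3 h4
    rw [mem_sdiff, lt_mem_RT]
    refine ⟨by omega, fun h5 => ?_⟩
    have h6 := hB' h5
    rw [mem_union, lt_mem_RT, lt_mem_RT] at h6
    omega
  · push_cast; linarith
  · push_cast; linarith

/-- **`hM` for the upper environment**, any bulk set `B` inside the layers of width `m + 1` along the right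
wall and the ceiling. -/
theorem VM_XU {η : ℝ} (hη : 0 < η) : ∃ C : ℝ, 0 < C ∧ ∃ R0 : ℕ, ∀ R : ℕ, R0 ≤ R →
    ∀ (w h : ℤ) (O : Out w h), (w : ℝ) ≤ R / η → (h : ℝ) ≤ R / η →
    ∀ (S : Finset (ℤ × ℤ)) (hS : S ⊆ RRU w h) (m : ℤ), 0 ≤ m → (m : ℝ) ≤ η * R / 4 →
    ∀ B : Finset (ℤ × ℤ), B ⊆ RT 0 w (-1) (h - 1) →
    B ⊆ RT (w - m - 1) w (-1) (h - 1) ∪ RT 0 w (h - 2 - m) (h - 1) →
    ∀ p q : ℤ × ℤ, Inn w h (η * R) p → Inn w h (η * R) q → ∀ ω ⊆ B, ∀ P : Finset (ℤ × ℤ),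
    ‖VM (XU O S hS) (LC p.1 p.2 q.1 q.2) (La p.1 p.2 q.1 q.2) (RT 0 w (-1) (h - 1)) B (TTU w h)
      (fmU w) id ω P‖ ≤ C * (R : ℝ) ^ (2 / 3 : ℝ) := by
  obtain ⟨C, hC, R0, H⟩ := VM_bound (η := η / 2) (by positivity)
  refine ⟨C, hC, ⌈max R0 (8 / η)⌉₊, ?_⟩
  intro R hR w h O hw hh S hS m hm0 hm B hB hB' p q hp hq ω hω P
  have hR' : max R0 (8 / η) ≤ (R : ℝ) := (Nat.le_ceil _).trans (by exact_mod_cast hR)
  have hR1 : 8 ≤ η * R := by
    have := (le_max_right R0 (8 / η)).trans hR'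
    rw [div_le_iff₀ hη] at this; linarith
  have hR2 : (0 : ℝ) ≤ R := Nat.cast_nonneg R
  have hRR : (R : ℝ) / η ≤ R / (η / 2) :=
    div_le_div_of_nonneg_left hR2 (by positivity) (by linarith)
  have hm' : (0 : ℝ) ≤ m := by exact_mod_cast hm0
  have deep : ∀ p : ℤ × ℤ, Inn w h (η * R) p →
      Dp (η / 2 * R) 0 (w - m - 1) (-1) (h - 2 - m) p.1 p.2 := by
    intro p hp
    obtain ⟨d1, d2, d3, d4⟩ := hp
    refine ⟨⟨?_, ?_⟩, ?_, ?_⟩ <;> (push_cast; linarith)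
  refine H (XU O S hS) (planeK_XU O S hS) (RT 0 w (-1) (h - 1)) B (TTU w h) ?_ disj_RT_TTU ?_ hB
    (fmU w) id 0 (w - m - 1) (-1) (h - 2 - m) R ((le_max_left _ _).trans hR') ?_ ?_ ?_
    p.1 p.2 q.1 q.2 (deep p hp) (deep q hq) ω hω P
  · rw [XU_E]; exact subset_union_left
  · rw [XU_E]; exact subset_union_right
  · intro x y h1 h2 h3 h4
    rw [mem_sdiff, lt_mem_RT]
    refine ⟨by omega, fun h5 => ?_⟩
    have h6 := hB' h5
    rw [mem_union, lt_mem_RT, lt_mem_RT] at h6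
    omega
  · push_cast; linarith
  · push_cast; linarith

end Pool.Agent.Q1.M6e
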