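import Mathlib
import Pool.Agent.Q1.M6e.LPath
import Pool.Agent.H13.R45.Mul2

set_option autoImplicit false
open Finset

/-! # Potential differences as totals over the families of ties

`Tot_incW` : `Tot` (bulk and ties) as a sum of weighted increments. `Tot_path` : along the L-shaped path
it is a potential difference. `potL`, `potU` : the potentials of the tied environments with frozen real
tiles. `low_Tot`, `up_Tot` : the potentials of the environments number `0` and `h` as sums over the states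
of the real tiles of `Tot`. -/

namespace Pool.Agent.Q1.M6e

open Pool.Agent.H75.Perc Pool.Agent.H75.TwoArm Pool.Agent.H75.Four Pool.Agent.H69.Q1
open Pool.Agent.Q1 Pool.Agent.H99.NC Pool.Agent.H33.Q1 Pool.Agent.H74.R45
open Pool.Agent.H39.Q1 Pool.Agent.H13.R45 Pool.Agent.H13.Q1
open Pool.Agent.H20.Q1 (Eh hf)

/-! ### General part -/

section gen

variable {α : Type*} [DecidableEq α]

lemma wtc_prod {q : α → ℂ} {E ω : Finset α} (h : ω ⊆ E) :
    wtc q E ω = ∏ e ∈ E, if e ∈ ω then q e else 1 - q e := by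
  unfold wtc
  rw [prod_ite]
  congr 1
  · refine prod_congr ?_ fun _ _ => rfl
    ext e; rw [mem_filter]; exact ⟨fun h1 => ⟨h h1, h1⟩, fun h1 => h1.2⟩
  · refine prod_congr ?_ fun _ _ => rfl
    ext e; rw [mem_filter, mem_sdiff]

end gen

section path

variable {ι : Type*} [DecidableEq ι] {X : Env} {Bb B TT Cs P ω : Finset (ℤ × ℤ)}
  {fm : ℤ × ℤ → ι} {co : ι → Bool} {a : ℤ × ℤ → ℂ} {s q : ℤ × ℤ → ℂ}

lemma opn_sub : opn TT fm co P ⊆ TT := filter_subset _ _

lemma opn_opn (hP : P ⊆ TT) : opn TT fm co (opn TT fm co P) = P := by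
  ext e
  rw [mem_opn, mem_opn]
  have h1 : e ∈ P → e ∈ TT := fun h => hP h
  tauto

/-- The states of the ties and the open labels. -/
lemma Ec_opn (hq : ∀ e ∈ TT, q e = if co (fm e) = true then 1 - s e else s e)
    (F : Finset (ℤ × ℤ) → ℂ) :
    Ec (fun e => 1 - s e) TT (fun P => F (opn TT fm co P)) = Ec q TT F := by
  unfold Ec
  refine sum_nbij' (fun P => opn TT fm co P) (fun P => opn TT fm co P) ?_ ?_ ?_ ?_ ?_
  · intro P _; exact mem_powerset.2 opn_sub
  · intro P _; exact mem_powerset.2 opn_sub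
  · intro P hP; exact opn_opn (mem_powerset.1 hP)
  · intro P hP; exact opn_opn (mem_powerset.1 hP)
  · intro P hP
    have h1 : wtc (fun e => 1 - s e) TT P = wtc q TT (opn TT fm co P) := by
      rw [wtc_prod (mem_powerset.1 hP), wtc_prod opn_sub]
      refine prod_congr rfl fun e he => ?_
      rw [hq e he]
      by_cases h2 : co (fm e) = true
      · have h3 : e ∈ opn TT fm co P ↔ e ∈ P := by rw [mem_opn]; tauto
        rw [if_pos h2]
        by_cases h4 : e ∈ P
        · rw [if_pos h4, if_pos (h3.2 h4)]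
        · rw [if_neg h4, if_neg (fun h5 => h4 (h3.1 h5))]
      · have h3 : e ∈ opn TT fm co P ↔ e ∉ P := by rw [mem_opn]; tauto
        rw [if_neg h2]
        by_cases h4 : e ∈ P
        · rw [if_pos h4, if_neg (fun h5 => h3.1 h5 h4)]
        · rw [if_neg h4, if_pos (h3.2 h4)]; ring
    rw [h1]

/-- **The total as a sum of weighted increments.** -/
theorem Tot_incW (hE : X.E = Bb ∪ TT) (hd : Disjoint Bb TT) (h1 : ∀ e ∈ Bb, q e = 1 / 2)
    (h2 : ∀ e ∈ TT, q e = if co (fm e) = true then 1 - s e else s e) :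
    Tot X Cs a Bb TT fm co s = ∑ c ∈ Cs, a c * X.incW q c := by
  have e1 : Tot X Cs a Bb TT fm co s = Ec q X.E (fun ω => U X Cs a ω) := by
    unfold Tot
    rw [hE, Ec_union q hd]
    show Ec (fun _ => (1 / 2 : ℂ)) Bb _ = _
    rw [Ec_congr_q (q := fun _ => (1 / 2 : ℂ)) (q' := q) (fun e he => (h1 e he).symm)]
    refine Ec_congr fun ω _ => ?_
    exact Ec_opn h2 (fun ω' => U X Cs a (ω ∪ ω'))
  rw [e1]
  unfold U
  rw [Ec_sum]
  refine sum_congr rfl fun c _ => ?_
  rw [Ec_smul]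
  rfl

/-- **(P4) The total along the path is the potential difference.** -/
theorem Tot_path {H : ℤ → ℤ → ℂ} {x0 x1 y0 y1 : ℤ} {u v : ℤ × ℤ} (hE : X.E = Bb ∪ TT)
    (hd : Disjoint Bb TT) (h1 : ∀ e ∈ Bb, q e = 1 / 2)
    (h2 : ∀ e ∈ TT, q e = if co (fm e) = true then 1 - s e else s e)
    (hH : Pot (fun c => X.incW q c) H x0 x1 y0 y1)
    (u1 : x0 ≤ u.1) (u2 : u.1 ≤ x1) (u3 : y0 ≤ u.2) (u4 : u.2 ≤ y1)
    (v1 : x0 ≤ v.1) (v2 : v.1 ≤ x1) (v3 : y0 ≤ v.2) (v4 : v.2 ≤ y1) :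
    Tot X (LC u.1 u.2 v.1 v.2) (La u.1 u.2 v.1 v.2) Bb TT fm co s = H u.1 u.2 - H v.1 v.2 := by
  rw [Tot_incW hE hd h1 h2]
  exact LC_sum hH u1 u2 u3 u4 v1 v2 v3 v4

/-- All ties tied. -/
theorem Tot_zero : Tot X Cs a Bb TT fm co (fun _ => 0) =
    Eh Bb (fun ω => U X Cs a (ω ∪ opn TT fm co TT)) := by
  unfold Tot
  refine Ec_congr fun ω _ => ?_
  have key : ∀ (T : Finset (ℤ × ℤ)) (F : Finset (ℤ × ℤ) → ℂ),
      Ec (fun _ => (1 - 0 : ℂ)) T F = F T := by
    intro T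
    induction T using Finset.induction_on with
    | empty => intro F; simp
    | insert e T he ih =>
      intro F
      rw [Ec_insert _ he, ih, ih]
      ring
  exact key TT _

/-- Only the parameters of the ties matter. -/
theorem Tot_congr {s' : ℤ × ℤ → ℂ} (h : ∀ e ∈ TT, s e = s' e) :
    Tot X Cs a Bb TT fm co s = Tot X Cs a Bb TT fm co s' := by
  unfold Tot
  refine Ec_congr fun ω _ => ?_
  exact Ec_congr_q (fun e he => by rw [h e he]) _

/-- the mean over the labels of `Bb \ B` as a sum over the corners -/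
theorem VM_sum : VM X Cs a Bb B TT fm co ω P =
    ∑ c ∈ Cs, a c * Eh (Bb \ B) (fun ω' => X.incO (ω ∪ ω' ∪ opn TT fm co P) c) := by
  unfold VM U
  show Ec _ _ _ = _
  rw [Ec_sum]
  refine sum_congr rfl fun c _ => ?_
  rw [Ec_smul]

end path

/-! ### The potentials of the tied environments -/

section pots

variable {X : Env} {q : ℤ × ℤ → ℂ} {x y x0 x1 y0 y1 : ℤ}

/-- a tile of weight `1/2` -/
lemma half_tile (hE : lt (x, y) ∈ X.E) (hq : q (lt (x, y)) = 1 / 2) :
    X.incW q (ve (x, y)) + X.incW q (ve (x + 1, y)) =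
      X.incW q (he (x, y + 1)) + X.incW q (he (x, y)) := by
  have key : (1 + w6) * (X.incW q (ve (x, y)) + X.incW q (ve (x + 1, y))) =
      (1 + w6) * (X.incW q (he (x, y + 1)) + X.incW q (he (x, y))) := by
    rcases Int.emod_two_eq_zero_or_one (x + y) with h2 | h2
    · have := tile_even (a := 1 / 2) h2 hE hq
      linear_combination 2 * this
    · have := tile_odd (q := q) (a := 1 / 2) h2 hE (by rw [hq]; ring)
      linear_combination 2 * this
  exact mul_left_cancel₀ one_add_w6_ne key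

/-- a rectangle of tiles of weight `1/2` has a potential -/
theorem exists_pot_half (hE : RT x0 x1 y0 y1 ⊆ X.E) (hq : ∀ e ∈ RT x0 x1 y0 y1, q e = 1 / 2) :
    ∃ H, Pot (fun c => X.incW q c) H x0 x1 y0 y1 := by
  refine exists_pot fun x y h1 h2 h3 h4 => ?_
  have hm : lt (x, y) ∈ RT x0 x1 y0 y1 := lt_mem_RT.2 ⟨h1, h2, h3, h4⟩
  exact half_tile (hE hm) (hq _ hm)

end pots

/-! ### The lower and the upper environment -/

variable {w h : ℤ} {O : Out w h} {a b : ℂ}

/-- parameters of the ties of the lower environment -/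
noncomputable def sL (a b : ℂ) (e : ℤ × ℤ) : ℂ := if fmL e = true then b * (1 - b) else a * (1 - a)

/-- parameters of the ties of the upper environment -/
noncomputable def sU (w : ℤ) (a b : ℂ) (e : ℤ × ℤ) : ℂ :=
  if fmU w e = true then b * (1 - b) else a * (1 - a)

/-- total of the lower environment in the state `S` of the real tiles -/
noncomputable def TotL (O : Out w h) (Cs : Finset (ℤ × ℤ)) (A : ℤ × ℤ → ℂ) (s : ℤ × ℤ → ℂ)
    (S : Finset (ℤ × ℤ)) : ℂ :=
  if hS : S ⊆ RRL h then Tot (XL O S hS) Cs A (RT 0 w 0 h) (TTL w h) fmL id s else 0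

/-- total of the upper environment in the state `S` of the real tiles -/
noncomputable def TotU (O : Out w h) (Cs : Finset (ℤ × ℤ)) (A : ℤ × ℤ → ℂ) (s : ℤ × ℤ → ℂ)
    (S : Finset (ℤ × ℤ)) : ℂ :=
  if hS : S ⊆ RRU w h then Tot (XU O S hS) Cs A (RT 0 w (-1) (h - 1)) (TTU w h) (fmU w) id s
  else 0

lemma qT_low_bulk {e : ℤ × ℤ} (he : e ∈ RT 0 w 0 h) : qT w h 0 a b e = 1 / 2 := by
  obtain ⟨x, y, rfl, h1, h2, h3, h4⟩ := mem_RT.1 he
  unfold qT qJ
  rw [tt_lt]
  simp only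
  rw [if_neg (by omega), if_neg (by omega), if_neg (by omega), if_neg (by omega)]

lemma qT_low_tie {e : ℤ × ℤ} (hh : 2 ≤ h) (he : e ∈ TTL w h) : qT w h 0 a b e =
    if id (fmL e) = true then 1 - sL a b e else sL a b e := by
  obtain ⟨x, y, rfl⟩ := exists_lt (odd_TTL he)
  rw [mem_TTL] at he
  unfold qT sL fmL
  rw [tt_lt]
  simp only [id, decide_eq_true_eq, true_and]
  rcases he with h1 | h1 <;> split_ifs <;> first | rfl | (exfalso; omega)

lemma qT_up_bulk {e : ℤ × ℤ} (hh : 2 ≤ h) (he : e ∈ RT 0 w (-1) (h - 1)) :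
    qT w h h a b e = 1 / 2 := by
  obtain ⟨x, y, rfl, h1, h2, h3, h4⟩ := mem_RT.1 he
  unfold qT qJ
  rw [tt_lt]
  simp only
  rw [if_neg (by omega), if_neg (by omega), if_neg (by omega), if_neg (by omega)]

lemma qT_up_tie {e : ℤ × ℤ} (hw : 2 ≤ w) (hh : 2 ≤ h) (he : e ∈ TTU w h) : qT w h h a b e =
    if id (fmU w e) = true then 1 - sU w a b e else sU w a b e := by
  obtain ⟨x, y, rfl⟩ := exists_lt (odd_TTU he)
  rw [mem_TTU] at he
  unfold qT sU fmU
  rw [tt_lt]
  simp only [id, decide_eq_true_eq, true_and]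
  rcases he with h1 | h1 <;> split_ifs <;> first | rfl | (exfalso; omega)

lemma disj_low : Disjoint (RT 0 w 0 h) (TTL w h) := by
  rw [disjoint_left]
  intro e he he'
  obtain ⟨x, y, rfl⟩ := exists_lt (odd_RT he)
  rw [lt_mem_RT] at he
  rw [mem_TTL] at he'
  omega

lemma disj_up : Disjoint (RT 0 w (-1) (h - 1)) (TTU w h) := by
  rw [disjoint_left]
  intro e he he'
  obtain ⟨x, y, rfl⟩ := exists_lt (odd_RT he)
  rw [lt_mem_RT] at he
  rw [mem_TTU] at he'
  omega

/-- **The lower potential as a sum over the states of the real tiles.** -/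
theorem low_Tot (hr : ∀ g ∈ PT w h 0, ¬ Ag g O.c0) {Hl : ℤ → ℤ → ℂ}
    (hH : Pot (FJ O a b 0) Hl 0 w 0 h) {u v : ℤ × ℤ}
    (u1 : 0 ≤ u.1) (u2 : u.1 ≤ w) (u3 : 0 ≤ u.2) (u4 : u.2 ≤ h)
    (v1 : 0 ≤ v.1) (v2 : v.1 ≤ w) (v3 : 0 ≤ v.2) (v4 : v.2 ≤ h) :
    Hl u.1 u.2 - Hl v.1 v.2 =
      Ec (qT w h 0 a b) (RRL h) (TotL O (LC u.1 u.2 v.1 v.2) (La u.1 u.2 v.1 v.2) (sL a b)) := by
  have hw := O.hw
  have hh := O.hh
  rw [← LC_sum hH u1 u2 u3 u4 v1 v2 v3 v4]
  have e1 : ∀ c ∈ LC u.1 u.2 v.1 v.2, La u.1 u.2 v.1 v.2 c * FJ O a b 0 c = ∑ S ∈ (RRL h).powerset,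
      wtc (qT w h 0 a b) (RRL h) S * (La u.1 u.2 v.1 v.2 c *
        iW (ET w h 0 \ RRL h) (WT w h 0 O.Wo ∪ S) (qT w h 0 a b) O.c0 O.k0 c) := by
    intro c hc
    have e2 : FJ O a b 0 c = (XT O 0 le_rfl (by omega) rfl).incW (qT w h 0 a b) c := by
      rw [FJ_eq le_rfl (by omega)]
      rcases LC_sub u1 u2 u3 u4 v1 v2 v3 v4 hc with ⟨x, y, rfl, h5⟩ | ⟨x, y, rfl, h5⟩
      · rw [XJ_tied_he hr] <;>
          · unfold PTp; simp only; omega
      · rw [XJ_tied_ve hr] <;>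
          · unfold PTp; simp only; omega
    rw [e2, XT_freeze (RRL_sub O), mul_sum]
    exact sum_congr rfl fun S _ => by ring
  rw [sum_congr rfl e1, sum_comm]
  refine sum_congr rfl fun S hS => ?_
  have hS' := mem_powerset.1 hS
  rw [← mul_sum]
  congr 1
  unfold TotL
  rw [dif_pos hS', Tot_incW XL_E disj_low (fun e he => qT_low_bulk he)
    (fun e he => qT_low_tie hh he)]
  refine sum_congr rfl fun c _ => ?_
  unfold XL
  rw [XF_incW]

/-- **The upper potential as a sum over the states of the real tiles.** -/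
theorem up_Tot (hr : ∀ g ∈ PT w h h, ¬ Ag g O.c0) {Hu : ℤ → ℤ → ℂ}
    (hH : Pot (FJ O a b h) Hu 0 w (-1) (h - 1)) {u v : ℤ × ℤ}
    (u1 : 0 ≤ u.1) (u2 : u.1 ≤ w) (u3 : -1 ≤ u.2) (u4 : u.2 ≤ h - 1)
    (v1 : 0 ≤ v.1) (v2 : v.1 ≤ w) (v3 : -1 ≤ v.2) (v4 : v.2 ≤ h - 1) :
    Hu u.1 u.2 - Hu v.1 v.2 =
      Ec (qT w h h a b) (RRU w h) (TotU O (LC u.1 u.2 v.1 v.2) (La u.1 u.2 v.1 v.2) (sU w a b)) := by
  have hw := O.hw
  have hh := O.hh
  have h2 := O.h2
  rw [← LC_sum hH u1 u2 u3 u4 v1 v2 v3 v4]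
  have e1 : ∀ c ∈ LC u.1 u.2 v.1 v.2, La u.1 u.2 v.1 v.2 c * FJ O a b h c = ∑ S ∈ (RRU w h).powerset,
      wtc (qT w h h a b) (RRU w h) S * (La u.1 u.2 v.1 v.2 c *
        iW (ET w h h \ RRU w h) (WT w h h O.Wo ∪ S) (qT w h h a b) O.c0 O.k0 c) := by
    intro c hc
    have e2 : FJ O a b h c = (XT O h (by omega) le_rfl h2).incW (qT w h h a b) c := by
      rw [FJ_eq (by omega) le_rfl]
      rcases LC_sub u1 u2 u3 u4 v1 v2 v3 v4 hc with ⟨x, y, rfl, h5⟩ | ⟨x, y, rfl, h5⟩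
      · rw [XJ_tied_he hr] <;>
          · unfold PTp; simp only; omega
      · rw [XJ_tied_ve hr] <;>
          · unfold PTp; simp only; omega
    rw [e2, XT_freeze (RRU_sub O), mul_sum]
    exact sum_congr rfl fun S _ => by ring
  rw [sum_congr rfl e1, sum_comm]
  refine sum_congr rfl fun S hS => ?_
  have hS' := mem_powerset.1 hS
  rw [← mul_sum]
  congr 1
  unfold TotU
  rw [dif_pos hS', Tot_incW XU_E disj_up (fun e he => qT_up_bulk hh he)
    (fun e he => qT_up_tie hw hh he)]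
  refine sum_congr rfl fun c _ => ?_
  unfold XU
  rw [XF_incW]

/-! ### The states of the real tiles -/

lemma Ec_one {q : ℤ × ℤ → ℂ} (e : ℤ × ℤ) (F : Finset (ℤ × ℤ) → ℂ) :
    Ec q {e} F = (1 - q e) * F ∅ + q e * F {e} := by
  have h1 := Ec_insert q (E := ∅) (e := e) (notMem_empty e) F
  simpa using h1

lemma Ec_two {q : ℤ × ℤ → ℂ} {e e' : ℤ × ℤ} (hne : e ≠ e') (F : Finset (ℤ × ℤ) → ℂ) :
    Ec q {e, e'} F = (1 - q e) * ((1 - q e') * F ∅ + q e' * F {e'}) +
      q e * ((1 - q e') * F {e} + q e' * F {e, e'}) := by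
  rw [Ec_insert q (by rw [mem_singleton]; exact hne), Ec_one, Ec_one]
  simp

lemma qT_low_real (hw : 2 ≤ w) (hh : 2 ≤ h) (h2 : h % 2 = 0) :
    qT w h 0 a b (lt (-1, 0)) = b ∧ qT w h 0 a b (lt (-1, h - 1)) = 1 - b := by
  unfold qT qJ
  rw [tt_lt, tt_lt]
  simp only [true_and, true_or, if_true]
  constructor <;> split_ifs <;> first | rfl | (exfalso; omega)

lemma qT_up_real (hw : 2 ≤ w) (hh : 2 ≤ h) (w2 : w % 2 = 0) (h2 : h % 2 = 0) :
    qT w h h a b (lt (0, h - 1)) = 1 - a ∧ qT w h h a b (lt (w - 1, h - 1)) = a := by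
  unfold qT qJ
  rw [tt_lt, tt_lt]
  simp only [true_and, if_true]
  have hne : ¬ ((0 : ℤ) = -1) := by norm_num
  constructor
  · rw [if_neg (by omega), if_neg (by omega), if_neg (by omega), if_neg (by omega)]
  · split_ifs <;> first | rfl | (exfalso; omega)

/-- the four states of the real tiles of the lower environment -/
theorem low_four (O : Out w h) (F : Finset (ℤ × ℤ) → ℂ) : Ec (qT w h 0 a b) (RRL h) F =
    (1 - b) * (b * F ∅ + (1 - b) * F {lt (-1, h - 1)}) +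
      b * (b * F {lt (-1, 0)} + (1 - b) * F {lt (-1, 0), lt (-1, h - 1)}) := by
  have hh := O.hh
  unfold RRL
  have hne : lt (-1, 0) ≠ lt (-1, h - 1) := by
    intro h1
    have := lt_inj h1
    simp only [Prod.mk.injEq] at this
    have := O.h2
    omega
  rw [Ec_two hne, (qT_low_real O.hw O.hh O.h2).1, (qT_low_real O.hw O.hh O.h2).2, sub_sub_cancel]

/-- the four states of the real tiles of the upper environment -/
theorem up_four (O : Out w h) (F : Finset (ℤ × ℤ) → ℂ) : Ec (qT w h h a b) (RRU w h) F =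
    a * ((1 - a) * F ∅ + a * F {lt (w - 1, h - 1)}) +
      (1 - a) * ((1 - a) * F {lt (0, h - 1)} + a * F {lt (0, h - 1), lt (w - 1, h - 1)}) := by
  have hh := O.hh
  unfold RRU
  have hne : lt (0, h - 1) ≠ lt (w - 1, h - 1) := by
    intro h1
    have := lt_inj h1
    simp only [Prod.mk.injEq] at this
    have := O.w2
    omega
  rw [Ec_two hne, (qT_up_real O.hw O.hh O.w2 O.h2).1, (qT_up_real O.hw O.hh O.w2 O.h2).2,
    sub_sub_cancel]

/-- lower environment, `b = 1` : one state -/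
theorem low_b_one (O : Out w h) (F : Finset (ℤ × ℤ) → ℂ) :
    Ec (qT w h 0 a 1) (RRL h) F = F {lt (-1, 0)} := by
  rw [low_four O]; ring

/-- upper environment, `a = 0` : one state -/
theorem up_a_zero (O : Out w h) (F : Finset (ℤ × ℤ) → ℂ) :
    Ec (qT w h h 0 b) (RRU w h) F = F {lt (0, h - 1)} := by
  rw [up_four O]; ring

/-- the potential of the lower environment in the state `S` of the real tiles -/
theorem potL {S : Finset (ℤ × ℤ)} (hS : S ⊆ RRL h) {q : ℤ × ℤ → ℂ}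
    (hq : ∀ e ∈ RT 0 w 0 h, q e = 1 / 2) :
    ∃ H, Pot (fun c => (XL O S hS).incW q c) H 0 w 0 h :=
  exists_pot_half (by rw [XL_E]; exact subset_union_left) hq

/-- the potential of the upper environment in the state `S` of the real tiles -/
theorem potU {S : Finset (ℤ × ℤ)} (hS : S ⊆ RRU w h) {q : ℤ × ℤ → ℂ}
    (hq : ∀ e ∈ RT 0 w (-1) (h - 1), q e = 1 / 2) :
    ∃ H, Pot (fun c => (XU O S hS).incW q c) H 0 w (-1) (h - 1) :=
  exists_pot_half (by rw [XU_E]; exact subset_union_left) hq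

end Pool.Agent.Q1.M6e
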