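import Mathlib
import Pool.Agent.Q1.M6e.PathT

set_option autoImplicit false
open Finset

/-! # Plane form of the expectations `Tot`, `VM`

For a plane environment `Env.plane E W ..` and frozen labels `O`, `E' ∪ O ⊆ E`, the expectation over `E'`
of the sum over the corners is the sum of the increments `iW E' (W ∪ O)` of the plane environment with
the random labels `E'` and the open labels `W ∪ O` (`planeSub`). `VM_plane`, `tied_plane`, `Tot_plane` :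
the conditional mean `VM`, all ties tied, the total. `Ec_U_path` : potential difference. -/

namespace Pool.Agent.Q1.M6e

open Pool.Agent.H75.Perc Pool.Agent.H75.TwoArm Pool.Agent.H75.Four Pool.Agent.H69.Q1
open Pool.Agent.Q1 Pool.Agent.H74.R45 Pool.Agent.H39.Q1 Pool.Agent.H33.Q1 Pool.Agent.H13.R45
open Pool.Agent.H13.Q1
open Pool.Agent.H20.Q1 (Eh)

/-! ### Weights -/

section weights

variable {α : Type*} [DecidableEq α]

lemma sum_wtc (q : α → ℂ) (E : Finset α) : ∑ ω ∈ E.powerset, wtc q E ω = 1 := by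
  have := Ec_const q E 1
  unfold Ec at this
  simpa using this

/-- weights `0`, `1` : only one configuration -/
lemma Ec_det {q : α → ℂ} {E O : Finset α} (hO : O ⊆ E) (h1 : ∀ e ∈ O, q e = 1)
    (h0 : ∀ e ∈ E, e ∉ O → q e = 0) (F : Finset α → ℂ) : Ec q E F = F O := by
  unfold Ec
  rw [sum_eq_single_of_mem O (mem_powerset.2 hO)]
  · rw [wtc_prod hO, prod_eq_one, one_mul]
    intro e he
    split_ifs with h
    · exact h1 e h
    · rw [h0 e he h, sub_zero]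
  · intro ω hω hne
    rw [mem_powerset] at hω
    rw [wtc_prod hω]
    have : ∃ e ∈ E, ¬ (e ∈ ω ↔ e ∈ O) := by
      by_contra hc
      push Not at hc
      apply hne
      ext e
      constructor
      · intro h; exact (hc e (hω h)).1 h
      · intro h; exact (hc e (hO h)).2 h
    obtain ⟨e, he, hn⟩ := this
    rw [prod_eq_zero he, zero_mul]
    split_ifs with h
    · exact h0 e he fun h2 => hn ⟨fun _ => h2, fun _ => h⟩
    · have : e ∈ O := by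
        by_contra h2
        exact hn ⟨fun h3 => absurd h3 h, fun h3 => absurd h3 h2⟩
      rw [h1 e this, sub_self]

/-- norm of an expectation with complex weights -/
lemma Ec_norm_le {q : α → ℂ} {E : Finset α} {C M : ℝ} (hq : ∀ e ∈ E, ‖q e‖ ≤ C)
    (hq' : ∀ e ∈ E, ‖1 - q e‖ ≤ C) (hC : 0 ≤ C) {F : Finset α → ℂ} (hM : ∀ ω ⊆ E, ‖F ω‖ ≤ M) :
    ‖Ec q E F‖ ≤ (2 * C) ^ E.card * M := by
  have hM0 : 0 ≤ M := (norm_nonneg _).trans (hM ∅ (empty_subset _))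
  have hw : ∀ ω ∈ E.powerset, ‖wtc q E ω * F ω‖ ≤ C ^ E.card * M := by
    intro ω hω
    have hω' := mem_powerset.1 hω
    rw [norm_mul]
    refine mul_le_mul ?_ (hM ω hω') (norm_nonneg _) (by positivity)
    rw [wtc_prod hω', norm_prod, ← prod_const]
    refine prod_le_prod (fun e _ => norm_nonneg _) fun e he => ?_
    split_ifs
    · exact hq e he
    · exact hq' e he
  unfold Ec
  refine (norm_sum_le _ _).trans ((sum_le_sum hw).trans (le_of_eq ?_))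
  rw [sum_const, card_powerset, nsmul_eq_mul, mul_pow]
  push_cast
  ring

/-- an expectation of a function which is close to a constant -/
lemma Ec_near {q : α → ℂ} {E : Finset α} {C M : ℝ} {z : ℂ} (hq : ∀ e ∈ E, ‖q e‖ ≤ C)
    (hq' : ∀ e ∈ E, ‖1 - q e‖ ≤ C) (hC : 0 ≤ C) {F : Finset α → ℂ}
    (hM : ∀ ω ⊆ E, ‖F ω - z‖ ≤ M) : ‖Ec q E F - z‖ ≤ (2 * C) ^ E.card * M := by
  have h1 := Ec_norm_le hq hq' hC (F := fun ω => F ω - z) hM
  rwa [Ec_sub, Ec_const] at h1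

end weights

variable {ι : Type*} [DecidableEq ι] {W Bb B TT Cs ω P : Finset (ℤ × ℤ)}
  {fm : ℤ × ℤ → ι} {co : ι → Bool} {a : ℤ × ℤ → ℂ} {s q : ℤ × ℤ → ℂ}

/-! ### Plane environments -/

section plane

variable {E : Finset (ℤ × ℤ)} {c0 : ℤ × ℤ} {k0 : ℤ} {g : ℤ × ℤ}
  {hE : ∀ e ∈ E, (e.1 + e.2) % 2 = 1} {hd : Disjoint E W} {hk : k0 % 4 = ty c0}
  {hroot : plab c0 ∉ E} {hg : DCo (E ∪ W) (fi c0) g}
  {hlow : ∀ v, Co (E ∪ W) (vx c0) v → g.2 < v.2}

/-- **the plane environment with fewer labels** -/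
noncomputable def planeSub {E' W' : Finset (ℤ × ℤ)} (h1 : E' ⊆ E) (h2 : E' ∪ W' ⊆ E ∪ W)
    (h3 : Disjoint E' W') (hE : ∀ e ∈ E, (e.1 + e.2) % 2 = 1) (hk : k0 % 4 = ty c0)
    (hroot : plab c0 ∉ E) (hg : DCo (E ∪ W) (fi c0) g)
    (hlow : ∀ v, Co (E ∪ W) (vx c0) v → g.2 < v.2) : Env :=
  Env.plane E' W' c0 k0 g (fun e he => hE e (h1 he)) h3 hk (fun h => hroot (h1 h)) (hg.anti h2)
    (fun v hv => hlow v (hv.mono h2))

@[simp] theorem planeSub_E {E' W' : Finset (ℤ × ℤ)} (h1 : E' ⊆ E) (h2 : E' ∪ W' ⊆ E ∪ W)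
    (h3 : Disjoint E' W') : (planeSub h1 h2 h3 hE hk hroot hg hlow).E = E' := rfl

theorem planeSub_like {E' W' : Finset (ℤ × ℤ)} (h1 : E' ⊆ E) (h2 : E' ∪ W' ⊆ E ∪ W)
    (h3 : Disjoint E' W') : (planeSub h1 h2 h3 hE hk hroot hg hlow).PlaneLike W' :=
  Env.planeLike_plane

theorem planeSub_incW {E' W' : Finset (ℤ × ℤ)} (h1 : E' ⊆ E) (h2 : E' ∪ W' ⊆ E ∪ W)
    (h3 : Disjoint E' W') (q : ℤ × ℤ → ℂ) (c : ℤ × ℤ) :
    (planeSub h1 h2 h3 hE hk hroot hg hlow).incW q c = iW E' W' q c0 k0 c := plane_incW q c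

/-- the increment of one configuration -/
theorem plane_incO (hω : ω ⊆ E) (c : ℤ × ℤ) :
    (Env.plane E W c0 k0 g hE hd hk hroot hg hlow).incO ω c = iG c0 k0 c (ω ∪ W) := by
  unfold Env.incO iG Pool.Agent.H80.Sweep.incG
  rw [plane_len hω]
  refine Finset.sum_congr rfl fun i _ => ?_
  rw [plane_z hω i, plane_K hω i]

/-- **Expectation of the sum over the corners, frozen labels `O`.** -/
theorem Ec_U_plane {E' O : Finset (ℤ × ℤ)} (h : E' ∪ O ⊆ E) :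
    Ec q E' (fun ω => U (Env.plane E W c0 k0 g hE hd hk hroot hg hlow) Cs a (ω ∪ O)) =
      ∑ c ∈ Cs, a c * iW E' (W ∪ O) q c0 k0 c := by
  unfold U
  rw [Ec_sum]
  refine sum_congr rfl fun c _ => ?_
  rw [Ec_smul]
  congr 1
  refine Ec_congr fun ω hω => ?_
  have h1 : ω ∪ O ⊆ E := (union_subset_union_left hω).trans h
  rw [plane_incO h1]
  congr 1
  ext l
  simp only [mem_union]
  tauto

/-- all ties tied -/
theorem tied_plane (hB : Bb ⊆ E) (hT : TT ⊆ E) :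
    Eh Bb (fun ω => U (Env.plane E W c0 k0 g hE hd hk hroot hg hlow) Cs a
      (ω ∪ opn TT fm co TT)) =
      ∑ c ∈ Cs, a c * iW Bb (W ∪ opn TT fm co TT) (fun _ => 1 / 2) c0 k0 c :=
  Ec_U_plane (union_subset hB (opn_sub.trans hT))

/-- the conditional mean `VM` -/
theorem VM_plane (hB : Bb ⊆ E) (hT : TT ⊆ E) (hBb : B ⊆ Bb) (hω : ω ⊆ B) :
    VM (Env.plane E W c0 k0 g hE hd hk hroot hg hlow) Cs a Bb B TT fm co ω P =
      ∑ c ∈ Cs, a c * iW (Bb \ B) (W ∪ (ω ∪ opn TT fm co P)) (fun _ => 1 / 2) c0 k0 c := by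
  have key := Ec_U_plane (W := W) (E := E) (hE := hE) (hd := hd) (hroot := hroot) (hg := hg)
    (hlow := hlow) (hk := hk) (Cs := Cs) (a := a) (q := fun _ => (1 / 2 : ℂ)) (E' := Bb \ B)
    (O := ω ∪ opn TT fm co P) (union_subset (sdiff_subset.trans hB)
      (union_subset ((hω.trans hBb).trans hB) (opn_sub.trans hT)))
  rw [← key]
  unfold VM
  refine Ec_congr fun ω' _ => ?_
  congr 1
  ext l
  simp only [mem_union]
  tauto

/-- the whole expectation -/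
theorem Tot_plane (hB : Bb ∪ TT ⊆ E) (hdj : Disjoint Bb TT) (hq1 : ∀ e ∈ Bb, q e = 1 / 2)
    (hq2 : ∀ e ∈ TT, q e = if co (fm e) = true then 1 - s e else s e) :
    Tot (Env.plane E W c0 k0 g hE hd hk hroot hg hlow) Cs a Bb TT fm co s =
      ∑ c ∈ Cs, a c * iW (Bb ∪ TT) W q c0 k0 c := by
  have e2 := Ec_U_plane (W := W) (E := E) (hE := hE) (hd := hd) (hroot := hroot) (hg := hg)
    (hlow := hlow) (hk := hk) (Cs := Cs) (a := a) (q := q) (E' := Bb ∪ TT) (O := ∅)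
    (by rwa [union_empty])
  rw [union_empty] at e2
  rw [← e2]
  simp only [union_empty]
  rw [Ec_union q hdj]
  unfold Tot
  have e1 : ∀ ω, Ec (fun e => 1 - s e) TT (fun P =>
      U (Env.plane E W c0 k0 g hE hd hk hroot hg hlow) Cs a (ω ∪ opn TT fm co P)) =
      Ec q TT (fun τ => U (Env.plane E W c0 k0 g hE hd hk hroot hg hlow) Cs a (ω ∪ τ)) :=
    fun ω => Ec_opn hq2 (fun τ => U (Env.plane E W c0 k0 g hE hd hk hroot hg hlow) Cs a (ω ∪ τ))
  simp only [e1]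
  exact Ec_congr_q (fun e he => (hq1 e he).symm) _

variable {H : ℤ → ℤ → ℂ} {x0 x1 y0 y1 x y x' y' : ℤ}

/-- potential difference for the frozen environment -/
theorem Ec_U_path {E' O : Finset (ℤ × ℤ)} (h : E' ∪ O ⊆ E)
    (hP : Pot (fun c => iW E' (W ∪ O) q c0 k0 c) H x0 x1 y0 y1)
    (h1 : x0 ≤ x) (h2 : x ≤ x1) (h3 : y0 ≤ y) (h4 : y ≤ y1)
    (h1' : x0 ≤ x') (h2' : x' ≤ x1) (h3' : y0 ≤ y') (h4' : y' ≤ y1) :
    Ec q E' (fun ω => U (Env.plane E W c0 k0 g hE hd hk hroot hg hlow) (LC x y x' y')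
      (La x y x' y') (ω ∪ O)) = H x y - H x' y' := by
  rw [Ec_U_plane h]
  exact LC_sum hP h1 h2 h3 h4 h1' h2' h3' h4'

/-- the conditional mean `VM` along the path is a potential difference -/
theorem VM_path (hB : Bb ⊆ E) (hT : TT ⊆ E) (hBb : B ⊆ Bb) (hω : ω ⊆ B)
    (hP : Pot (fun c => iW (Bb \ B) (W ∪ (ω ∪ opn TT fm co P)) (fun _ => 1 / 2) c0 k0 c) H
      x0 x1 y0 y1) (h1 : x0 ≤ x) (h2 : x ≤ x1) (h3 : y0 ≤ y) (h4 : y ≤ y1)
    (h1' : x0 ≤ x') (h2' : x' ≤ x1) (h3' : y0 ≤ y') (h4' : y' ≤ y1) :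
    VM (Env.plane E W c0 k0 g hE hd hk hroot hg hlow) (LC x y x' y') (La x y x' y') Bb B TT fm co
      ω P = H x y - H x' y' := by
  rw [VM_plane hB hT hBb hω]
  exact LC_sum hP h1 h2 h3 h4 h1' h2' h3' h4'

/-- a rectangle of tiles of weight `1/2` has a potential, form with `iW` -/
theorem exists_pot_iW {E' W' : Finset (ℤ × ℤ)} (h1 : E' ⊆ E) (h2 : E' ∪ W' ⊆ E ∪ W)
    (h3 : Disjoint E' W') (hE : ∀ e ∈ E, (e.1 + e.2) % 2 = 1) (hk : k0 % 4 = ty c0)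
    (hroot : plab c0 ∉ E) (hg : DCo (E ∪ W) (fi c0) g)
    (hlow : ∀ v, Co (E ∪ W) (vx c0) v → g.2 < v.2) (hR : RT x0 x1 y0 y1 ⊆ E')
    (hq : ∀ e ∈ RT x0 x1 y0 y1, q e = 1 / 2) :
    ∃ H, Pot (fun c => iW E' W' q c0 k0 c) H x0 x1 y0 y1 := by
  obtain ⟨H, hH⟩ := exists_pot_half (X := planeSub h1 h2 h3 hE hk hroot hg hlow) (q := q)
    (by rw [planeSub_E]; exact hR) hq
  simp only [planeSub_incW] at hH
  exact ⟨H, hH⟩

end plane

/-! ### The weights of the states of the real tiles -/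

variable {w h : ℤ} {α β : ℂ}

theorem norm_q_low (O : Out w h) {C : ℝ} (hb : ‖β‖ ≤ C) (hb' : ‖1 - β‖ ≤ C) :
    ∀ e ∈ RRL h, ‖qT w h 0 α β e‖ ≤ C ∧ ‖1 - qT w h 0 α β e‖ ≤ C := by
  intro e he
  unfold RRL at he
  rw [mem_insert, mem_singleton] at he
  rcases he with rfl | rfl
  · rw [(qT_low_real O.hw O.hh O.h2).1]; exact ⟨hb, hb'⟩
  · rw [(qT_low_real O.hw O.hh O.h2).2, sub_sub_cancel]; exact ⟨hb', hb⟩

theorem norm_q_up (O : Out w h) {C : ℝ} (ha : ‖α‖ ≤ C) (ha' : ‖1 - α‖ ≤ C) :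
    ∀ e ∈ RRU w h, ‖qT w h h α β e‖ ≤ C ∧ ‖1 - qT w h h α β e‖ ≤ C := by
  intro e he
  unfold RRU at he
  rw [mem_insert, mem_singleton] at he
  rcases he with rfl | rfl
  · rw [(qT_up_real O.hw O.hh O.w2 O.h2).1, sub_sub_cancel]; exact ⟨ha', ha⟩
  · rw [(qT_up_real O.hw O.hh O.w2 O.h2).2]; exact ⟨ha, ha'⟩

theorem card_RRL : (RRL h).card ≤ 2 := card_le_two
theorem card_RRU : (RRU w h).card ≤ 2 := card_le_two

/-- **The states of the real tiles, lower environment**: if every state is close to `z` then the mean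
is close to `z`. -/
theorem low_near (O : Out w h) {C M : ℝ} (hC : 1 / 2 ≤ C) (hb : ‖β‖ ≤ C) (hb' : ‖1 - β‖ ≤ C)
    {F : Finset (ℤ × ℤ) → ℂ} {z : ℂ} (hM : ∀ S ⊆ RRL h, ‖F S - z‖ ≤ M) :
    ‖Ec (qT w h 0 α β) (RRL h) F - z‖ ≤ (2 * C) ^ 2 * M := by
  have hM0 : 0 ≤ M := (norm_nonneg _).trans (hM ∅ (empty_subset _))
  have h1 := Ec_near (fun e he => (norm_q_low O hb hb' e he).1)
    (fun e he => (norm_q_low O hb hb' e he).2) (by linarith) (α := ℤ × ℤ) (q := qT w h 0 α β) hM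
  refine h1.trans (mul_le_mul_of_nonneg_right ?_ hM0)
  exact pow_le_pow_right₀ (by linarith) card_RRL

theorem up_near (O : Out w h) {C M : ℝ} (hC : 1 / 2 ≤ C) (ha : ‖α‖ ≤ C) (ha' : ‖1 - α‖ ≤ C)
    {F : Finset (ℤ × ℤ) → ℂ} {z : ℂ} (hM : ∀ S ⊆ RRU w h, ‖F S - z‖ ≤ M) :
    ‖Ec (qT w h h α β) (RRU w h) F - z‖ ≤ (2 * C) ^ 2 * M := by
  have hM0 : 0 ≤ M := (norm_nonneg _).trans (hM ∅ (empty_subset _))
  have h1 := Ec_near (fun e he => (norm_q_up O ha ha' e he).1)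
    (fun e he => (norm_q_up O ha ha' e he).2) (by linarith) (α := ℤ × ℤ) (q := qT w h h α β) hM
  refine h1.trans (mul_le_mul_of_nonneg_right ?_ hM0)
  exact pow_le_pow_right₀ (by linarith) card_RRU

end Pool.Agent.Q1.M6e
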