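import Mathlib
import Pool.Agent.Q1.M6e.Pieces
import Pool.Agent.H25.Q1.Series
import Pool.Agent.H13.R45.OFarI
import Pool.Agent.Q1.M6e.PathP

set_option autoImplicit false
open Finset

/-!
# `C45`, `N45`, `M45` from the pieces

`near_pot` : the potential differences are means, over the states of the real tiles, of the totals of the
tied environments. `C45_of : LR45 → DL45 → C45`, `N45_of`, `M45_of`.
-/

namespace Pool.Agent.Q1.M6e

open Pool.Agent.H75.Perc Pool.Agent.H75.TwoArm Pool.Agent.H75.Four Pool.Agent.H49.Perc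
open Pool.Agent.H69.Q1 Pool.Agent.H39.Q1 Pool.Agent.H25.Q1.Add
open Pool.Agent.H99.NC Pool.Agent.H60.Q1 Pool.Agent.H20.Q1 Pool.Agent.Q1
open Pool.Agent.H33.Q1 Pool.Agent.H74.R45 Pool.Agent.H13.R45 Pool.Agent.H13.Q1
open Pool.Agent.H64.Q1 Pool.Agent.Q1.M6f.Glue Pool.Agent.H25.Q1.Close Pool.Agent.Q1.M6f
open Pool.Agent.H95.R45 (Sc PotJ C45 N45 M45)

/-! ### The weights -/

lemma one_sub_wa' {z : ℂ} (h1 : 0 ≤ z.re) (h2 : z.re ≤ Real.pi) : 1 - wa z = aw z :=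
  one_sub_wa z (sin_ne h1 h2)

lemma sw_wa {z : ℂ} (h1 : 0 ≤ z.re) (h2 : z.re ≤ Real.pi) : wa z * (1 - wa z) = sw z := by
  unfold sw
  rw [← one_sub_wa' h1 h2]
  ring

lemma normSq_sin (x y : ℝ) : Complex.normSq (Complex.sin (x + y * Complex.I)) =
    Real.cosh y ^ 2 - Real.cos x ^ 2 := by
  have h0 := Real.cosh_sq y
  have h1 := Real.sin_sq_add_cos_sq x
  rw [Complex.sin_add, Complex.cos_mul_I, Complex.sin_mul_I, ← Complex.ofReal_sin,
    ← Complex.ofReal_cos, ← Complex.ofReal_cosh, ← Complex.ofReal_sinh, Complex.normSq_apply]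
  simp only [Complex.add_re, Complex.mul_re, Complex.ofReal_re, Complex.ofReal_im, Complex.I_re,
    Complex.I_im, Complex.add_im, Complex.mul_im]
  have h2 : Real.sinh y ^ 2 = Real.cosh y ^ 2 - 1 := by linarith
  have h3 : Real.sin x ^ 2 = 1 - Real.cos x ^ 2 := by linarith
  ring_nf
  rw [h2, h3]
  ring

lemma cos_sq_ge {x : ℝ} (h0 : 0 ≤ x) (h1 : x ≤ Real.pi / 3) : 1 / 4 ≤ Real.cos x ^ 2 := by
  have h2 : 1 / 2 ≤ Real.cos x := by
    rw [← Real.cos_pi_div_three]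
    exact Real.cos_le_cos_of_nonneg_of_le_pi h0 (by linarith [Real.pi_pos]) h1
  nlinarith

lemma cos_sq_le {x : ℝ} (h0 : Real.pi / 3 ≤ x) (h1 : x ≤ 2 * Real.pi / 3) :
    Real.cos x ^ 2 ≤ 1 / 4 := by
  have hp := Real.pi_pos
  have h2 : Real.cos x ≤ 1 / 2 := by
    rw [← Real.cos_pi_div_three]
    exact Real.cos_le_cos_of_nonneg_of_le_pi (by linarith) (by linarith) h0
  have h3 : -(1 / 2) ≤ Real.cos x := by
    have h4 : Real.cos (Real.pi - x) ≤ 1 / 2 := by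
      rw [← Real.cos_pi_div_three]
      exact Real.cos_le_cos_of_nonneg_of_le_pi (by linarith) (by linarith) (by linarith)
    rw [Real.cos_pi_sub] at h4
    linarith
  nlinarith

lemma norm_sin_le {x x' y : ℝ} (h0 : 0 ≤ x) (h1 : x ≤ Real.pi / 3) (h2 : Real.pi / 3 ≤ x')
    (h3 : x' ≤ 2 * Real.pi / 3) :
    ‖Complex.sin ((x : ℂ) + (y : ℂ) * Complex.I)‖ ≤ ‖Complex.sin ((x' : ℂ) + (y : ℂ) * Complex.I)‖ := by
  refine (sq_le_sq₀ (norm_nonneg _) (norm_nonneg _)).1 ?_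
  rw [← Complex.normSq_eq_norm_sq, ← Complex.normSq_eq_norm_sq, normSq_sin, normSq_sin]
  have := cos_sq_ge h0 h1
  have := cos_sq_le h2 h3
  linarith

lemma norm_wa {z : ℂ} (h1 : 0 ≤ z.re) (h2 : z.re ≤ Real.pi) : ‖wa z‖ ≤ 1 := by
  have hne := sin_ne h1 h2
  unfold wa
  rw [norm_div, div_le_one (norm_pos_iff.2 hne)]
  have e1 : z / 3 = ((z.re / 3 : ℝ) : ℂ) + ((z.im / 3 : ℝ) : ℂ) * Complex.I := by
    apply Complex.ext <;> simp
  have e2 : (z + (Real.pi : ℂ)) / 3 = (((z.re + Real.pi) / 3 : ℝ) : ℂ) +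
      ((z.im / 3 : ℝ) : ℂ) * Complex.I := by
    apply Complex.ext <;> simp
  rw [e1, e2]
  exact norm_sin_le (by linarith) (by linarith) (by linarith) (by linarith)

lemma norm_one_sub_wa {z : ℂ} (h1 : 0 ≤ z.re) (h2 : z.re ≤ Real.pi) : ‖1 - wa z‖ ≤ 1 := by
  have hne := sin_ne h1 h2
  rw [one_sub_wa z hne, norm_div, div_le_one (norm_pos_iff.2 hne)]
  have e1 : ((Real.pi : ℂ) - z) / 3 = -((((z.re - Real.pi) / 3 : ℝ) : ℂ) +
      ((z.im / 3 : ℝ) : ℂ) * Complex.I) := by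
    apply Complex.ext <;> simp <;> ring
  have e2 : (z + (Real.pi : ℂ)) / 3 = (((z.re + Real.pi) / 3 : ℝ) : ℂ) +
      ((z.im / 3 : ℝ) : ℂ) * Complex.I := by
    apply Complex.ext <;> simp
  rw [e1, e2, Complex.sin_neg, norm_neg]
  refine (sq_le_sq₀ (norm_nonneg _) (norm_nonneg _)).1 ?_
  rw [← Complex.normSq_eq_norm_sq, ← Complex.normSq_eq_norm_sq, normSq_sin, normSq_sin]
  have h3 : 1 / 4 ≤ Real.cos ((z.re - Real.pi) / 3) ^ 2 := by
    rw [← Real.cos_neg]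
    exact cos_sq_ge (by linarith) (by linarith)
  have h4 := cos_sq_le (x := (z.re + Real.pi) / 3) (by linarith) (by linarith)
  linarith

/-! ### Means over the states of the real tiles -/

/-- `I` is a mean of the values `T S`, `S ⊆ RR`, with bounded weights of sum one -/
def Near (RR : Finset (ℤ × ℤ)) (T : Finset (ℤ × ℤ) → ℂ) (I : ℂ) : Prop :=
  ∀ (z : ℂ) (M : ℝ), (∀ S ⊆ RR, ‖T S - z‖ ≤ M) → ‖I - z‖ ≤ 4 * M

/-- the total of the state `S` -/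
noncomputable def tS {w h : ℤ} (O : Out w h) (m L : ℤ) (top : Bool) (Cs : Finset (ℤ × ℤ))
    (A : ℤ × ℤ → ℂ) (s : Bool → ℂ) (S : Finset (ℤ × ℤ)) : ℂ :=
  if hS : S ⊆ RRJ w h top then (datJ O m L top S hS).tot Cs A s else 0

/-- parameters of the ties -/
noncomputable def sab (a b : ℂ) (i : Bool) : ℂ := if i = true then b * (1 - b) else a * (1 - a)

/-- **The potential differences are means of the totals.** -/
theorem near_pot {w h : ℤ} {O : Out w h} {η : ℝ} {R : ℕ} (hR : 3 ≤ η * R)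
    (hS : Sc η R O) (m L : ℤ) (top : Bool) {a b : ℂ} (ha : ‖a‖ ≤ 1) (ha' : ‖1 - a‖ ≤ 1)
    (hb : ‖b‖ ≤ 1) (hb' : ‖1 - b‖ ≤ 1) {H : ℤ → ℤ → ℂ} (hH : PotJ O top a b H) {p q : ℤ × ℤ}
    (hp : Inn w h (η * R) p) (hq : Inn w h (η * R) q) :
    Near (RRJ w h top) (tS O m L top (LCq p q) (Laq p q) (sab a b)) (inc2 H p q) := by
  have hL : (3 : ℤ) ≤ ⌊η * R⌋ := Int.le_floor.2 (by exact_mod_cast hR)
  have hh := O.hh
  have e3 : (3 : ℝ) ≤ η * R := hR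
  obtain ⟨p1, p2, p3, p4⟩ := hp
  obtain ⟨q1, q2, q3, q4⟩ := hq
  have i1 : (0 : ℤ) ≤ p.1 := by have : (0 : ℝ) ≤ p.1 := by linarith
                                exact_mod_cast this
  have i2 : p.1 ≤ w := by have : (p.1 : ℝ) ≤ w := by linarith
                          exact_mod_cast this
  have i3 : (0 : ℤ) ≤ p.2 := by have : (0 : ℝ) ≤ p.2 := by linarith
                                exact_mod_cast this
  have i4 : p.2 ≤ h - 1 := by have : (p.2 : ℝ) ≤ ((h - 1 : ℤ) : ℝ) := by push_cast; linarith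
                              exact_mod_cast this
  have j1 : (0 : ℤ) ≤ q.1 := by have : (0 : ℝ) ≤ q.1 := by linarith
                                exact_mod_cast this
  have j2 : q.1 ≤ w := by have : (q.1 : ℝ) ≤ w := by linarith
                          exact_mod_cast this
  have j3 : (0 : ℤ) ≤ q.2 := by have : (0 : ℝ) ≤ q.2 := by linarith
                                exact_mod_cast this
  have j4 : q.2 ≤ h - 1 := by have : (q.2 : ℝ) ≤ ((h - 1 : ℤ) : ℝ) := by push_cast; linarith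
                              exact_mod_cast this
  intro z M hM
  cases top with
  | false =>
    have h1 := low_Tot (root_PT le_rfl (by omega) hS.far hL) (u := p) (v := q) hH i1 i2 i3
      (by omega) j1 j2 j3 (by omega)
    have h2 : ∀ S ⊆ RRL h, ‖TotL O (LC p.1 p.2 q.1 q.2) (La p.1 p.2 q.1 q.2) (sL a b) S - z‖ ≤ M := by
      intro S hS'
      have h3 := hM S hS'
      have h4 : tS O m L false (LCq p q) (Laq p q) (sab a b) S =
          TotL O (LC p.1 p.2 q.1 q.2) (La p.1 p.2 q.1 q.2) (sL a b) S := by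
        unfold tS TotL
        rw [dif_pos hS']
        have h5 : S ⊆ RRJ w h false := hS'
        rw [dif_pos h5]
        rfl
      rwa [h4] at h3
    have h6 := low_near O (C := 1) (by norm_num) hb hb' (α := a) (β := b) h2
    unfold inc2
    rw [h1]
    refine h6.trans (le_of_eq ?_)
    norm_num
  | true =>
    have h1 := up_Tot (root_PT (by omega) le_rfl hS.far hL) (u := p) (v := q) hH i1 i2
      (by omega) i4 j1 j2 (by omega) j4
    have h2 : ∀ S ⊆ RRU w h,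
        ‖TotU O (LC p.1 p.2 q.1 q.2) (La p.1 p.2 q.1 q.2) (sU w a b) S - z‖ ≤ M := by
      intro S hS'
      have h3 := hM S hS'
      have h4 : tS O m L true (LCq p q) (Laq p q) (sab a b) S =
          TotU O (LC p.1 p.2 q.1 q.2) (La p.1 p.2 q.1 q.2) (sU w a b) S := by
        unfold tS TotU
        rw [dif_pos hS']
        have h5 : S ⊆ RRJ w h true := hS'
        rw [dif_pos h5]
        rfl
      rwa [h4] at h3
    have h6 := up_near O (C := 1) (by norm_num) ha ha' (α := a) (β := b) h2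
    unfold inc2
    rw [h1]
    refine h6.trans (le_of_eq ?_)
    norm_num

/-- a bound at one state -/
lemma near_one {RR S0 : Finset (ℤ × ℤ)} {T : Finset (ℤ × ℤ) → ℂ} {I : ℂ} {D : ℝ} (hI : Near RR T I)
    (hD : ∀ S ⊆ RR, ‖T S - T S0‖ ≤ D) : ‖I - T S0‖ ≤ 4 * D := hI _ _ hD

/-- **The combination.** -/
theorem comb_core {RR S0 : Finset (ℤ × ℤ)} {Tφ T0 T1 T2 : Finset (ℤ × ℤ) → ℂ} {A D CG : ℝ}
    {g1 g2 : ℂ} {n : ℕ} (hS0 : S0 ⊆ RR) (hg1 : ‖g1‖ ≤ CG) (hg2 : ‖g2‖ ≤ CG)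
    (hLR : ∀ S ⊆ RR, ‖Tφ S - T0 S - (n : ℂ) * (g1 * (T1 S - T0 S) + g2 * (T2 S - T0 S))‖ ≤ A)
    (h0 : ∀ S ⊆ RR, ‖T0 S - T0 S0‖ ≤ D) (h1 : ∀ S ⊆ RR, ‖T1 S - T1 S0‖ ≤ D)
    (h2 : ∀ S ⊆ RR, ‖T2 S - T2 S0‖ ≤ D) {IH I0 I1 I2 : ℂ} (eH : Near RR Tφ IH)
    (e0 : Near RR T0 I0) (e1 : Near RR T1 I1) (e2 : Near RR T2 I2) :
    ‖IH - I0 - (n : ℂ) * (g1 * (I1 - I0) + g2 * (I2 - I0))‖ ≤ 4 * A + D * (8 + 32 * n * CG) := by
  have hD0 : 0 ≤ D := (norm_nonneg _).trans (h0 S0 hS0)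
  have hCG : 0 ≤ CG := (norm_nonneg _).trans hg1
  have hn0 : (0 : ℝ) ≤ n := Nat.cast_nonneg n
  have two : ∀ {x y : ℂ} {B : ℝ}, ‖x‖ ≤ B → ‖y‖ ≤ B →
      ‖(n : ℂ) * (g1 * (x - 0) + g2 * (y - 0))‖ ≤ n * (2 * CG * B) := by
    intro x y B hx hy
    have hB : 0 ≤ B := (norm_nonneg _).trans hx
    rw [norm_mul, Complex.norm_natCast, sub_zero, sub_zero]
    refine mul_le_mul_of_nonneg_left ?_ hn0
    refine (norm_add_le _ _).trans ?_
    rw [norm_mul, norm_mul]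
    have a1 := mul_le_mul hg1 hx (norm_nonneg _) hCG
    have a2 := mul_le_mul hg2 hy (norm_nonneg _) hCG
    linarith
  set zs : ℂ := T0 S0 + (n : ℂ) * (g1 * (T1 S0 - T0 S0) + g2 * (T2 S0 - T0 S0)) with hzs
  have k1 : ∀ S ⊆ RR, ‖Tφ S - zs‖ ≤ A + D + n * (2 * CG * (2 * D)) := by
    intro S hS
    have e : Tφ S - zs = (Tφ S - T0 S - (n : ℂ) * (g1 * (T1 S - T0 S) + g2 * (T2 S - T0 S))) +
        (T0 S - T0 S0) + (n : ℂ) * (g1 * ((T1 S - T1 S0) - (T0 S - T0 S0) - 0) +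
          g2 * ((T2 S - T2 S0) - (T0 S - T0 S0) - 0)) := by
      rw [hzs]; ring
    rw [e]
    refine (norm_add₃_le).trans ?_
    have a1 := hLR S hS
    have a2 := h0 S hS
    have a3 := two (x := (T1 S - T1 S0) - (T0 S - T0 S0)) (y := (T2 S - T2 S0) - (T0 S - T0 S0))
      (B := 2 * D) ((norm_sub_le _ _).trans (by linarith [h1 S hS]))
      ((norm_sub_le _ _).trans (by linarith [h2 S hS]))
    linarith
  have k2 := eH zs _ k1
  have k3 := near_one e0 h0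
  have k4 := near_one e1 h1
  have k5 := near_one e2 h2
  have e : IH - I0 - (n : ℂ) * (g1 * (I1 - I0) + g2 * (I2 - I0)) = (IH - zs) - (I0 - T0 S0) -
      (n : ℂ) * (g1 * ((I1 - T1 S0) - (I0 - T0 S0) - 0) +
        g2 * ((I2 - T2 S0) - (I0 - T0 S0) - 0)) := by
    rw [hzs]; ring
  rw [e]
  have a3 := two (x := (I1 - T1 S0) - (I0 - T0 S0)) (y := (I2 - T2 S0) - (I0 - T0 S0))
    (B := 8 * D) ((norm_sub_le _ _).trans (by linarith)) ((norm_sub_le _ _).trans (by linarith))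
  have a4 := norm_sub_le ((IH - zs) - (I0 - T0 S0))
    ((n : ℂ) * (g1 * ((I1 - T1 S0) - (I0 - T0 S0) - 0) + g2 * ((I2 - T2 S0) - (I0 - T0 S0) - 0)))
  have a5 := norm_sub_le (IH - zs) (I0 - T0 S0)
  nlinarith [mul_nonneg hn0 (mul_nonneg hCG hD0)]

/-! ### The three statements -/

lemma sab_01 : sab 0 1 = fun _ => 0 := by
  funext i; unfold sab; split_ifs <;> ring

lemma sab_h1 : sab (1 / 2) 1 = w4 false := by
  funext i
  unfold sab w4
  cases i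
  · norm_num
  · norm_num

lemma sab_0h : sab 0 (1 / 2) = w4 true := by
  funext i
  unfold sab w4
  cases i
  · norm_num
  · norm_num

lemma sab_wa {z : ℂ} (h1 : 0 ≤ z.re) (h2 : z.re ≤ Real.pi / 2) :
    sab (wa z) (wa (z + Real.pi / 2)) =
      fun i => if i = true then sw (z + (Real.pi / 2 : ℝ)) else sw z := by
  have hp := Real.pi_pos
  have e : (z + (Real.pi : ℂ) / 2) = z + ((Real.pi / 2 : ℝ) : ℂ) := by push_cast; ring
  have h3 : (z + ((Real.pi / 2 : ℝ) : ℂ)).re = z.re + Real.pi / 2 := by simp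
  funext i
  unfold sab
  rw [e, sw_wa h1 (by linarith), sw_wa (z := z + ((Real.pi / 2 : ℝ) : ℂ)) (by linarith)
    (by linarith)]

lemma Dat.tot_zero (d : Dat) (Cs : Finset (ℤ × ℤ)) (a : ℤ × ℤ → ℂ) :
    d.tot Cs a (fun _ => 0) = d.tot0 Cs a := Tot_zero

lemma tS_eq {w h : ℤ} {O : Out w h} {m L : ℤ} {top : Bool} {Cs : Finset (ℤ × ℤ)}
    {A : ℤ × ℤ → ℂ} {s : Bool → ℂ} {S : Finset (ℤ × ℤ)} (hS : S ⊆ RRJ w h top) :
    tS O m L top Cs A s S = (datJ O m L top S hS).tot Cs A s := by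
  unfold tS; rw [dif_pos hS]

/-- the displacement bound for the states -/
lemma dl_bound {w h : ℤ} {O : Out w h} {η : ℝ} {R : ℕ} {CD : ℝ} {top : Bool} {p q : ℤ × ℤ}
    {s : Bool → ℂ}
    (hDL : ∀ (S S' : Finset (ℤ × ℤ)) (hS : S ⊆ RRJ w h top) (hS' : S' ⊆ RRJ w h top),
      ‖(datJ O (mE η R) (LE η R) top S hS).tot (LCq p q) (Laq p q) s -
        (datJ O (mE η R) (LE η R) top S' hS').tot (LCq p q) (Laq p q) s‖ ≤
        CD * (R : ℝ) ^ (-(2 / 3) : ℝ)) :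
    ∀ S ⊆ RRJ w h top, ‖tS O (mE η R) (LE η R) top (LCq p q) (Laq p q) s S -
      tS O (mE η R) (LE η R) top (LCq p q) (Laq p q) s ∅‖ ≤
        max CD 0 * (R : ℝ) ^ (-(2 / 3) : ℝ) := by
  intro S hS
  rw [tS_eq hS, tS_eq (empty_subset _)]
  exact (hDL _ _ _ _).trans (mul_le_mul_of_nonneg_right (le_max_left _ _)
    (Real.rpow_nonneg (Nat.cast_nonneg R) _))

lemma norm_half : ‖(1 / 2 : ℂ)‖ ≤ 1 := by norm_num
lemma norm_half' : ‖(1 - 1 / 2 : ℂ)‖ ≤ 1 := by norm_num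
lemma norm_zero1 : ‖(0 : ℂ)‖ ≤ 1 := by norm_num
lemma norm_zero1' : ‖(1 - 0 : ℂ)‖ ≤ 1 := by norm_num
lemma norm_one1 : ‖(1 : ℂ)‖ ≤ 1 := by norm_num
lemma norm_one1' : ‖(1 - 1 : ℂ)‖ ≤ 1 := by norm_num

/-- large scales -/
lemma large_pow (K : ℝ) {α : ℝ} (hα : 0 < α) : ∃ R0 : ℕ, ∀ R : ℕ, R0 ≤ R → K ≤ (R : ℝ) ^ α := by
  have h1 := (tendsto_rpow_atTop hα).comp tendsto_natCast_atTop_atTop
  have h2 := (h1.eventually_ge_atTop K).exists_forall_of_atTop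
  obtain ⟨R0, h3⟩ := h2
  exact ⟨R0, fun R hR => h3 R hR⟩

lemma large_lin (K : ℝ) {η : ℝ} (hη : 0 < η) : ∃ R0 : ℕ, ∀ R : ℕ, R0 ≤ R → K ≤ η * R := by
  obtain ⟨R0, h1⟩ := large_pow (K / η) one_pos
  refine ⟨R0, fun R hR => ?_⟩
  have h2 := h1 R hR
  rw [Real.rpow_one, div_le_iff₀ hη] at h2
  linarith

/-- **Linear response**, from the response of every frozen state and the displacement of the states. -/
theorem C45_of (hL : LR45) (hD : DL45) : C45 := by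
  intro η hη
  obtain ⟨C, c, hc, hLR⟩ := hL η hη
  obtain ⟨CD, R1, hDL⟩ := hD η hη
  refine ⟨C, c, hc, fun ε hε Y => ?_⟩
  obtain ⟨ρ1, hρ1, hLR⟩ := hLR (ε / 8) (by positivity) (max Y 2)
  refine ⟨ρ1, hρ1, fun ρ hρ hρ' => ?_⟩
  obtain ⟨R0, hLR⟩ := hLR ρ hρ hρ'
  set CG : ℝ := |C| * Real.exp 1 with hCG
  have hCG0 : 0 ≤ CG := by positivity
  set D' : ℝ := max CD 0 with hD'
  have hD0 : 0 ≤ D' := le_max_right _ _
  obtain ⟨R2, hR2⟩ := large_lin 3 hη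
  obtain ⟨R3, hR3⟩ := large_pow (D' * (8 + 32 * ρ * CG) / (ε / 2 * ρ)) (α := 1 / 3) (by norm_num)
  refine ⟨max (max R0 R1) (max (max R2 R3) 1), fun R hR => ?_⟩
  have g0 : R0 ≤ R := le_trans (by simp) hR
  have g1 : R1 ≤ R := le_trans (by simp) hR
  have g2 : R2 ≤ R := le_trans (by simp) hR
  have g3 : R3 ≤ R := le_trans (by simp) hR
  have g4 : 1 ≤ R := le_trans (by simp) hR
  obtain ⟨G, hG, hLR⟩ := hLR R g0
  have hs : UY Y ⊆ UY (max Y 2) := fun z hz => ⟨hz.1, hz.2.trans_le (le_max_left _ _)⟩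
  refine ⟨G, ⟨hG.diff.mono hs, fun z hz => hG.bound z (hs hz), fun z hz => hG.sym z (hs hz),
    hG.lower⟩, fun w h O hSc top t ht H H0 H1 H2 hH hH0 hH1 hH2 p q hp hq => ?_⟩
  have hp0 := Real.pi_pos
  have ht' := (abs_le.1 ht)
  have hGb : ∀ z : ℂ, z ∈ Pool.Agent.H25.Q1.Close.U → z.im = t → ‖G z‖ ≤ CG := by
    intro z hz hz'
    have h1 := hG.bound z ⟨hz, by rw [hz']; exact lt_of_le_of_lt ht (lt_of_lt_of_le (by norm_num)
      (le_max_right _ _))⟩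
    rw [hz'] at h1
    refine h1.trans ?_
    rw [hCG]
    exact mul_le_mul (le_abs_self C) (Real.exp_le_exp.2 ht'.2) (Real.exp_pos _).le (abs_nonneg _)
  have hg1 : ‖G (pt t)‖ ≤ CG := hGb _ (V_subset_U (pt_mem_V t)) (pt_im t)
  have hg2 : ‖G (pt t + (Real.pi / 2 : ℝ))‖ ≤ CG := by
    refine hGb _ (shift_mem (pt_mem_V t)) ?_
    rw [Complex.add_im, pt_im, Complex.ofReal_im, add_zero]
  set n : ℕ := ⌊ρ * R⌋₊ with hn
  set z : ℂ := rap n t with hz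
  have hzr : z.re = Real.pi / 4 := by rw [hz]; unfold rap; rw [re_shift, pt_re]
  have e9 : (z + (Real.pi : ℂ) / 2) = z + ((Real.pi / 2 : ℝ) : ℂ) := by push_cast; ring
  have hzr' : (z + (Real.pi : ℂ) / 2).re = 3 * Real.pi / 4 := by
    rw [e9, Complex.add_re, Complex.ofReal_re, hzr]; ring
  have N := near_pot (hR2 R g2) hSc (mE η R) (LE η R) top (norm_wa (z := z) (by linarith)
    (by linarith)) (norm_one_sub_wa (by linarith) (by linarith))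
    (norm_wa (z := z + (Real.pi : ℂ) / 2) (by linarith) (by linarith))
    (norm_one_sub_wa (by linarith) (by linarith)) hH hp hq
  have N0 := near_pot (hR2 R g2) hSc (mE η R) (LE η R) top norm_zero1 norm_zero1' norm_one1
    norm_one1' hH0 hp hq
  have N1 := near_pot (hR2 R g2) hSc (mE η R) (LE η R) top norm_half norm_half' norm_one1
    norm_one1' hH1 hp hq
  have N2 := near_pot (hR2 R g2) hSc (mE η R) (LE η R) top norm_zero1 norm_zero1' norm_half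
    norm_half' hH2 hp hq
  rw [sab_wa (by linarith) (by linarith)] at N
  rw [sab_01] at N0
  rw [sab_h1] at N1
  rw [sab_0h] at N2
  have key := comb_core (n := n) (g1 := G (pt t)) (g2 := G (pt t + (Real.pi / 2 : ℝ)))
    (CG := CG) (A := ε / 8 * ρ * (R : ℝ) ^ (2 / 3 : ℝ)) (D := D' * (R : ℝ) ^ (-(2 / 3) : ℝ))
    (empty_subset (RRJ w h top)) hg1 hg2 (fun S hS => ?_)
    (dl_bound fun S S' hS hS' => hDL R g1 w h O hSc top S S' hS hS' p q hp hq _ (Or.inl rfl))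
    (dl_bound fun S S' hS hS' => hDL R g1 w h O hSc top S S' hS hS' p q hp hq _
      (Or.inr (Or.inl rfl)))
    (dl_bound fun S S' hS hS' => hDL R g1 w h O hSc top S S' hS hS' p q hp hq _
      (Or.inr (Or.inr rfl))) N N0 N1 N2
  · refine key.trans ?_
    have hR1 : (1 : ℝ) ≤ R := by exact_mod_cast g4
    have hRp : (0 : ℝ) < R := by linarith
    have hnR : (n : ℝ) ≤ ρ * R := Nat.floor_le (by positivity)
    have hX : (R : ℝ) ^ (-(2 / 3) : ℝ) * R = (R : ℝ) ^ (1 / 3 : ℝ) := by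
      rw [← Real.rpow_add_one hRp.ne']; norm_num
    have hY : (R : ℝ) ^ (2 / 3 : ℝ) = (R : ℝ) ^ (1 / 3 : ℝ) * (R : ℝ) ^ (1 / 3 : ℝ) := by
      rw [← Real.rpow_add hRp]; norm_num
    have h0 : 0 < (R : ℝ) ^ (1 / 3 : ℝ) := Real.rpow_pos_of_pos hRp _
    have hm : 0 < (R : ℝ) ^ (-(2 / 3) : ℝ) := Real.rpow_pos_of_pos hRp _
    have k1 : 8 + 32 * (n : ℝ) * CG ≤ (8 + 32 * ρ * CG) * R := by
      have : 32 * (n : ℝ) * CG ≤ 32 * (ρ * R) * CG := by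
        refine mul_le_mul_of_nonneg_right ?_ hCG0
        linarith
      nlinarith
    have k2 : D' * (R : ℝ) ^ (-(2 / 3) : ℝ) * (8 + 32 * n * CG) ≤
        D' * (8 + 32 * ρ * CG) * (R : ℝ) ^ (1 / 3 : ℝ) := by
      calc D' * (R : ℝ) ^ (-(2 / 3) : ℝ) * (8 + 32 * n * CG)
          ≤ D' * (R : ℝ) ^ (-(2 / 3) : ℝ) * ((8 + 32 * ρ * CG) * R) :=
            mul_le_mul_of_nonneg_left k1 (mul_nonneg hD0 hm.le)
        _ = D' * (8 + 32 * ρ * CG) * ((R : ℝ) ^ (-(2 / 3) : ℝ) * R) := by ring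
        _ = _ := by rw [hX]
    have k3 := hR3 R g3
    rw [div_le_iff₀ (by positivity)] at k3
    have k4 := mul_le_mul_of_nonneg_right k3 h0.le
    rw [hY]
    nlinarith
  · simp only [tS_eq hS, Dat.tot_zero]
    exact hLR w h O hSc top S hS p q hp hq t ht _ rfl

/-- one natural row or column more: a state -/
theorem nr_core {w h : ℤ} {O : Out w h} {η : ℝ} {R : ℕ} {CD B : ℝ} {top : Bool} {p q : ℤ × ℤ}
    {i : Bool} {I0 I1 : ℂ}
    (hDL : ∀ s : Bool → ℂ, (s = fun _ => 0) ∨ s = w4 false ∨ s = w4 true →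
      ∀ (S S' : Finset (ℤ × ℤ)) (hS : S ⊆ RRJ w h top) (hS' : S' ⊆ RRJ w h top),
      ‖(datJ O (mE η R) (LE η R) top S hS).tot (LCq p q) (Laq p q) s -
        (datJ O (mE η R) (LE η R) top S' hS').tot (LCq p q) (Laq p q) s‖ ≤
        CD * (R : ℝ) ^ (-(2 / 3) : ℝ))
    (hN : ‖(datJ O (mE η R) (LE η R) top ∅ (empty_subset _)).tot (LCq p q) (Laq p q) (w4 i) -
      (datJ O (mE η R) (LE η R) top ∅ (empty_subset _)).tot0 (LCq p q) (Laq p q)‖ ≤ B)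
    (N0 : Near (RRJ w h top) (tS O (mE η R) (LE η R) top (LCq p q) (Laq p q) (fun _ => 0)) I0)
    (N1 : Near (RRJ w h top) (tS O (mE η R) (LE η R) top (LCq p q) (Laq p q) (w4 i)) I1) :
    ‖I1 - I0‖ ≤ B + 8 * (max CD 0 * (R : ℝ) ^ (-(2 / 3) : ℝ)) := by
  have k0 := near_one N0 (dl_bound fun S S' hS hS' => hDL _ (Or.inl rfl) S S' hS hS')
  have k1 := near_one N1 (dl_bound fun S S' hS hS' => hDL _ (by cases i <;> simp) S S' hS hS')
  rw [tS_eq (empty_subset _)] at k0 k1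
  rw [Dat.tot_zero] at k0
  set a0 := (datJ O (mE η R) (LE η R) top ∅ (empty_subset _)).tot0 (LCq p q) (Laq p q)
  set a1 := (datJ O (mE η R) (LE η R) top ∅ (empty_subset _)).tot (LCq p q) (Laq p q) (w4 i)
  have e : I1 - I0 = (I1 - a1) + (a1 - a0) - (I0 - a0) := by ring
  rw [e]
  have a3 := norm_sub_le ((I1 - a1) + (a1 - a0)) (I0 - a0)
  have a4 := norm_add_le (I1 - a1) (a1 - a0)
  linarith

/-- both responses -/
theorem nr_both (hN : NR45) (hD : DL45) : ∀ η : ℝ, 0 < η → ∃ (C : ℝ) (R0 : ℕ), 0 ≤ C ∧ 1 ≤ R0 ∧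
    ∀ R : ℕ, R0 ≤ R → ∀ (w h : ℤ) (O : Out w h), Sc η R O → ∀ top : Bool, ∀ H0 H1 H2 : ℤ → ℤ → ℂ,
    PotJ O top 0 1 H0 → PotJ O top (1 / 2) 1 H1 → PotJ O top 0 (1 / 2) H2 →
    ∀ p q : ℤ × ℤ, Inn w h (η * R) p → Inn w h (η * R) q →
    (‖inc2 H1 p q - inc2 H0 p q‖ ≤ C * (R : ℝ) ^ (-(1 / 3) : ℝ) ∧
      ‖inc2 H2 p q - inc2 H0 p q‖ ≤ C * (R : ℝ) ^ (-(1 / 3) : ℝ)) ∧
    (q = (p.1, p.2 - 1) → ‖inc2 H1 p q - inc2 H0 p q‖ ≤ C * (R : ℝ) ^ (-(2 / 3) : ℝ) ∧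
      ‖inc2 H2 p q - inc2 H0 p q‖ ≤ C * (R : ℝ) ^ (-(2 / 3) : ℝ)) := by
  intro η hη
  obtain ⟨CN, R1, hN⟩ := hN η hη
  obtain ⟨CD, R2, hD⟩ := hD η hη
  obtain ⟨R3, hR3⟩ := large_lin 3 hη
  refine ⟨max CN 0 + 8 * max CD 0, max (max R1 R2) (max R3 1), by positivity, by simp,
    fun R hR w h O hSc top H0 H1 H2 hH0 hH1 hH2 p q hp hq => ?_⟩
  have g1 : R1 ≤ R := le_trans (by simp) hR
  have g2 : R2 ≤ R := le_trans (by simp) hR
  have g3 : R3 ≤ R := le_trans (by simp) hR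
  have g4 : 1 ≤ R := le_trans (by simp) hR
  have hR1 : (1 : ℝ) ≤ R := by exact_mod_cast g4
  have hRp : (0 : ℝ) < R := by linarith
  have N0 := near_pot (hR3 R g3) hSc (mE η R) (LE η R) top norm_zero1 norm_zero1' norm_one1
    norm_one1' hH0 hp hq
  have N1 := near_pot (hR3 R g3) hSc (mE η R) (LE η R) top norm_half norm_half' norm_one1
    norm_one1' hH1 hp hq
  have N2 := near_pot (hR3 R g3) hSc (mE η R) (LE η R) top norm_zero1 norm_zero1' norm_half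
    norm_half' hH2 hp hq
  rw [sab_01] at N0
  rw [sab_h1] at N1
  rw [sab_0h] at N2
  have hDL : ∀ s : Bool → ℂ, (s = fun _ => 0) ∨ s = w4 false ∨ s = w4 true →
      ∀ (S S' : Finset (ℤ × ℤ)) (hS : S ⊆ RRJ w h top) (hS' : S' ⊆ RRJ w h top),
      ‖(datJ O (mE η R) (LE η R) top S hS).tot (LCq p q) (Laq p q) s -
        (datJ O (mE η R) (LE η R) top S' hS').tot (LCq p q) (Laq p q) s‖ ≤
        CD * (R : ℝ) ^ (-(2 / 3) : ℝ) :=
    fun s hs S S' hS hS' => hD R g2 w h O hSc top S S' hS hS' p q hp hq s hs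
  have r0 : (R : ℝ) ^ (-(2 / 3) : ℝ) ≤ (R : ℝ) ^ (-(1 / 3) : ℝ) :=
    Real.rpow_le_rpow_of_exponent_le hR1 (by norm_num)
  have r1 : (R : ℝ) ^ (-1 : ℝ) ≤ (R : ℝ) ^ (-(2 / 3) : ℝ) :=
    Real.rpow_le_rpow_of_exponent_le hR1 (by norm_num)
  have p1 : 0 ≤ (R : ℝ) ^ (-(1 / 3) : ℝ) := Real.rpow_nonneg hRp.le _
  have p2 : 0 ≤ (R : ℝ) ^ (-(2 / 3) : ℝ) := Real.rpow_nonneg hRp.le _
  have p3 : 0 ≤ (R : ℝ) ^ (-1 : ℝ) := Real.rpow_nonneg hRp.le _
  have q0 : 0 ≤ max CD 0 := le_max_right _ _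
  have q1 : 0 ≤ max CN 0 := le_max_right _ _
  have q2 : CN ≤ max CN 0 := le_max_left _ _
  have hNi := fun i => hN R g1 w h O hSc top ∅ (empty_subset _) p q hp hq i _ rfl
  have f1 : CN * (R : ℝ) ^ (-(1 / 3) : ℝ) + 8 * (max CD 0 * (R : ℝ) ^ (-(2 / 3) : ℝ)) ≤
      (max CN 0 + 8 * max CD 0) * (R : ℝ) ^ (-(1 / 3) : ℝ) := by
    have := mul_le_mul_of_nonneg_right q2 p1
    have := mul_le_mul_of_nonneg_left r0 q0
    linarith
  have f2 : CN * (R : ℝ) ^ (-1 : ℝ) + 8 * (max CD 0 * (R : ℝ) ^ (-(2 / 3) : ℝ)) ≤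
      (max CN 0 + 8 * max CD 0) * (R : ℝ) ^ (-(2 / 3) : ℝ) := by
    have := mul_le_mul_of_nonneg_right q2 p3
    have := mul_le_mul_of_nonneg_left r1 q1
    linarith
  refine ⟨⟨?_, ?_⟩, fun hq' => ⟨?_, ?_⟩⟩
  · exact (nr_core hDL (hNi false).1 N0 N1).trans f1
  · exact (nr_core hDL (hNi true).1 N0 N2).trans f1
  · exact (nr_core hDL ((hNi false).2 hq') N0 N1).trans f2
  · exact (nr_core hDL ((hNi true).2 hq') N0 N2).trans f2

/-- **One natural row or column more.** -/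
theorem N45_of (hN : NR45) (hD : DL45) : N45 := by
  intro η hη ε hε
  obtain ⟨C, R0, hC, hR0, h⟩ := nr_both hN hD η hη
  obtain ⟨R1, hR1⟩ := large_pow (C / ε) (α := 1) one_pos
  refine ⟨max R0 R1, fun R hR w h' O hSc top H0 H1 H2 hH0 hH1 hH2 p q hp hq => ?_⟩
  have g0 : R0 ≤ R := le_trans (by simp) hR
  have g1 : R1 ≤ R := le_trans (by simp) hR
  have k := (h R g0 w h' O hSc top H0 H1 H2 hH0 hH1 hH2 p q hp hq).1
  have hRp : (0 : ℝ) < R := by exact_mod_cast (hR0.trans g0)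
  have k1 := hR1 R g1
  rw [Real.rpow_one, div_le_iff₀ hε] at k1
  have k2 : (R : ℝ) ^ (2 / 3 : ℝ) = (R : ℝ) * (R : ℝ) ^ (-(1 / 3) : ℝ) := by
    rw [← Real.rpow_one_add' hRp.le (by norm_num)]; norm_num
  have k3 : C * (R : ℝ) ^ (-(1 / 3) : ℝ) ≤ ε * (R : ℝ) ^ (2 / 3 : ℝ) := by
    rw [k2]
    have := mul_le_mul_of_nonneg_right k1 (Real.rpow_nonneg hRp.le (-(1 / 3) : ℝ))
    linarith
  exact ⟨k.1.trans k3, k.2.trans k3⟩

/-- **One natural row or column more, one edge.** -/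
theorem M45_of (hN : NR45) (hD : DL45) : M45 := by
  intro η hη ε hε
  obtain ⟨C, R0, hC, hR0, h⟩ := nr_both hN hD η hη
  obtain ⟨R1, hR1⟩ := large_pow (C / ε) (α := 1 / 3) (by norm_num)
  refine ⟨max R0 R1, fun R hR w h' O hSc top H0 H1 H2 hH0 hH1 hH2 p q hpq hp hq => ?_⟩
  have g0 : R0 ≤ R := le_trans (by simp) hR
  have g1 : R1 ≤ R := le_trans (by simp) hR
  have k := (h R g0 w h' O hSc top H0 H1 H2 hH0 hH1 hH2 p q hp hq).2 hpq
  have hRp : (0 : ℝ) < R := by exact_mod_cast (hR0.trans g0)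
  have k1 := hR1 R g1
  rw [div_le_iff₀ hε] at k1
  have k2 : (R : ℝ) ^ (-(1 / 3) : ℝ) = (R : ℝ) ^ (1 / 3 : ℝ) * (R : ℝ) ^ (-(2 / 3) : ℝ) := by
    rw [← Real.rpow_add hRp]; norm_num
  have k3 : C * (R : ℝ) ^ (-(2 / 3) : ℝ) ≤ ε * (R : ℝ) ^ (-(1 / 3) : ℝ) := by
    rw [k2]
    have := mul_le_mul_of_nonneg_right k1 (Real.rpow_nonneg hRp.le (-(2 / 3) : ℝ))
    linarith
  exact ⟨k.1.trans k3, k.2.trans k3⟩

end Pool.Agent.Q1.M6e
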