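import Mathlib
import Pool.Agent.Q1.M6e.Pieces
import Pool.Agent.H13.R45.OFarI

set_option autoImplicit false
open Finset

/-!
# The geometric fields of `Fine` for the 45 degree rectangles

`fineA_L`, `fineA_U` : `Multi`, `FarM` for the corners in the middle, `FlatFam` and the number of flat ties, in
integer form; `fineA` : for `datJ`.
-/

namespace Pool.Agent.Q1.M6e

open Pool.Agent.H75.Perc Pool.Agent.H75.TwoArm Pool.Agent.H49.Perc
open Pool.Agent.H75.Four hiding ev
open Pool.Agent.H69.Q1 Pool.Agent.H39.Q1 Pool.Agent.H25.Q1.Add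
open Pool.Agent.H99.NC Pool.Agent.H60.Q1 Pool.Agent.H20.Q1 Pool.Agent.Q1
open Pool.Agent.H33.Q1 Pool.Agent.H74.R45 Pool.Agent.H13.R45 Pool.Agent.H13.Q1
open Pool.Agent.H64.Q1 Pool.Agent.Q1.M6f.Glue Pool.Agent.H25.Q1.Close Pool.Agent.Q1.M6f
open Pool.Agent.H95.R45 (Sc PotJ)

variable {w h m L R' : ℤ} {S : Finset (ℤ × ℤ)} {O : Out w h} {Cs : Finset (ℤ × ℤ)}

/-- **the order on a family** -/
theorem Dat.rk_iff (d : Dat) {i : Bool} {e e' : ℤ × ℤ} (he : e ∈ TF d.TT d.fm i)
    (he' : e' ∈ TF d.TT d.fm i) :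
    d.rk e ≤ d.rk e' ↔ (gm (d.ε i) (d.b e)).1 ≤ (gm (d.ε i) (d.b e')).1 := by
  have h1 := (mem_TF.1 he).2
  have h2 := (mem_TF.1 he').2
  unfold Dat.rk
  rw [h1, h2]
  omega

/-- a label outside a box -/
theorem lab_bx {c : ℤ × ℤ} {o : Bool} {g : ℤ × ℤ} (hg : ev g = o) {R : ℤ}
    (hc : ∀ z, Ag z c → z.1 < g.1 - 2 * R ∨ g.1 + 2 * R < z.1 ∨ z.2 < g.2 - 2 * R ∨
      g.2 + 2 * R < z.2) : lab c ∉ bx o (gp g) R := by
  intro hl
  obtain ⟨⟨g1, -, -, a3⟩, -⟩ := corner_pts c
  have h5 := hc g1 a3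
  have h6 := lab_at a3
  obtain ⟨x, y, h7⟩ := bx_lt hl
  rw [h7] at hl h6
  rw [mem_bx_gp hg] at hl
  have h8 := tg_lt h6
  omega

/-- the points of the corners of the path -/
theorem path_pts {p q c : ℤ × ℤ} (hc : c ∈ LCq p q) {g : ℤ × ℤ} (hg : Ag g c) :
    (min p.1 q.1 ≤ g.1 ∧ g.1 ≤ max p.1 q.1) ∧ (min p.2 q.2 ≤ g.2 ∧ g.2 ≤ max p.2 q.2) := by
  unfold LCq LC at hc
  rw [mem_union, mem_image, mem_image] at hc
  rcases hc with ⟨i, hi, rfl⟩ | ⟨l, hl, rfl⟩
  · rw [mem_Ico] at hi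
    rw [ag_he] at hg
    rcases hg with rfl | rfl
    · simp only; omega
    · simp only; omega
  · rw [mem_Ico] at hl
    rw [ag_ve] at hg
    rcases hg with rfl | rfl
    · simp only; omega
    · simp only; omega

/-- the integer inequalities -/
structure GeoI (w h m L R' : ℤ) : Prop where
  r1 : 1 ≤ R'
  rm : 4 * R' ≤ m
  mw : 4 * m ≤ w
  mh : 4 * m ≤ h
  mL : 4 * m ≤ L

/-- the corners are in the middle -/
def MidC (w h m : ℤ) (Cs : Finset (ℤ × ℤ)) : Prop := ∀ c ∈ Cs, ∀ g, Ag g c →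
  (4 * m ≤ g.1 ∧ g.1 + 4 * m ≤ w) ∧ (4 * m ≤ g.2 ∧ g.2 + 4 * m ≤ h)

/-! ### The lower environment -/

theorem mulL (G : GeoI w h m L R') (hO : OFar O L) (hS : S ⊆ RRL h) :
    Multi (XL O S hS) (WL' O S) (RT 0 w 0 h) (BL w h m) (TTL w h) fmL id
      (WlL h S (RT (-(L - 1)) (w + (L - 1)) (-(L - 1)) (-1))) (LaL w h m) bL oL := by
  obtain ⟨g1, g2, g3, g4, g5⟩ := G
  have hw := O.hw
  have hh := O.hh
  refine multiL hS (by omega) (by omega) (by omega)
    ((wFar_of hO).floor (by omega) (by omega) (by omega) (by omega)) (Subset.refl _) ?_ (by omega)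
  unfold BL
  intro e he
  rcases mem_union.1 he with h1 | h1
  · obtain ⟨x, y, rfl⟩ := exists_lt (odd_RT h1)
    rw [lt_mem_RT] at h1 ⊢
    omega
  · obtain ⟨x, y, rfl⟩ := exists_lt (odd_RT h1)
    rw [lt_mem_RT] at h1 ⊢
    omega

theorem mulU (G : GeoI w h m L R') (hO : OFar O L) (hS : S ⊆ RRU w h) :
    Multi (XU O S hS) (WU' O S) (RT 0 w (-1) (h - 1)) (BU w h m) (TTU w h) (fmU w) id
      (WlU w h S (RT (-(L - 1)) (w + (L - 1)) h (h + (L - 1)))) (LaU w h m) (bU w) (oU w) := by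
  obtain ⟨g1, g2, g3, g4, g5⟩ := G
  have hw := O.hw
  have hh := O.hh
  refine multiU hS (by omega) (by omega) (by omega)
    ((wFar_of hO).ceil (by omega) (by omega) (by omega) (by omega)) (Subset.refl _) ?_ (by omega)
  unfold BU
  intro e he
  rcases mem_union.1 he with h1 | h1
  · obtain ⟨x, y, rfl⟩ := exists_lt (odd_RT h1)
    rw [lt_mem_RT] at h1 ⊢
    omega
  · obtain ⟨x, y, rfl⟩ := exists_lt (odd_RT h1)
    rw [lt_mem_RT] at h1 ⊢
    omega

theorem LaL_sub (i : Bool) : LaL w h m i ⊆ LbL w h m i := by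
  unfold LaL LbL LLL
  cases i
  · rw [if_neg Bool.false_ne_true, if_neg Bool.false_ne_true]
    exact subset_union_right.trans subset_union_left
  · rw [if_pos rfl, if_pos rfl]
    exact subset_union_left.trans subset_union_left

theorem LaU_sub (i : Bool) : LaU w h m i ⊆ LbU w h m i := by
  unfold LaU LbU LLU
  cases i
  · rw [if_neg Bool.false_ne_true, if_neg Bool.false_ne_true]
    exact subset_union_right.trans subset_union_left
  · rw [if_pos rfl, if_pos rfl]
    exact subset_union_left.trans subset_union_left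

theorem farML (G : GeoI w h m L R') (hO : OFar O L) (hS : S ⊆ RRL h) (hC : MidC w h m Cs) :
    ∀ c ∈ Cs, FarM (XL O S hS) (TTL w h) fmL id
      (WlL h S (RT (-(L - 1)) (w + (L - 1)) (-(L - 1)) (-1))) (LaL w h m) bL oL c := by
  obtain ⟨g1, g2, g3, g4, g5⟩ := G
  intro c hc
  refine farL hS (by omega) (by omega) (by omega) (rootFr_of hO (by omega)) le_rfl le_rfl le_rfl
    LaL_sub fun g hg => ?_
  have := hC c hc g hg
  unfold RcL
  omega

theorem farMU (G : GeoI w h m L R') (hO : OFar O L) (hS : S ⊆ RRU w h) (hC : MidC w h m Cs) :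
    ∀ c ∈ Cs, FarM (XU O S hS) (TTU w h) (fmU w) id
      (WlU w h S (RT (-(L - 1)) (w + (L - 1)) h (h + (L - 1)))) (LaU w h m) (bU w) (oU w) c := by
  obtain ⟨g1, g2, g3, g4, g5⟩ := G
  intro c hc
  refine farU hS (by omega) (by omega) (by omega) (rootFr_of hO (by omega)) le_rfl le_rfl le_rfl
    LaU_sub fun g hg => ?_
  have := hC c hc g hg
  unfold RcU
  omega

/-! ### Straight families -/

theorem mem_FlJ_LL {x y : ℤ} : lt (x, y) ∈ FlJ w h R' false true ↔
    (x = -1 ∧ 0 < y ∧ y < h ∧ y % 2 = 0) ∧ 1 ≤ y - 2 * (R' + 1) ∧ y + 2 * (R' + 1) + 1 ≤ h := by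
  unfold FlJ
  rw [if_neg Bool.false_ne_true, if_pos rfl, mem_filter, mem_TiL, tt_lt]

theorem mem_FlJ_LF {x y : ℤ} : lt (x, y) ∈ FlJ w h R' false false ↔
    (y = -1 ∧ 0 ≤ x ∧ x < w ∧ x % 2 = 0) ∧ 0 ≤ x + 1 - 2 * (R' + 1) ∧
      x + 1 + 2 * (R' + 1) ≤ w := by
  unfold FlJ
  rw [if_neg Bool.false_ne_true, if_neg Bool.false_ne_true, mem_filter, mem_TiF, tt_lt]

theorem mem_FlJ_UR {x y : ℤ} : lt (x, y) ∈ FlJ w h R' true true ↔
    (x = w ∧ -1 ≤ y ∧ y < h - 1 ∧ y % 2 = 1) ∧ 0 ≤ y + 1 - 2 * (R' + 1) ∧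
      y + 1 + 2 * (R' + 1) + 1 ≤ h := by
  unfold FlJ
  rw [if_pos rfl, if_pos rfl, mem_filter, mem_TiR, tt_lt]

theorem mem_FlJ_UC {x y : ℤ} : lt (x, y) ∈ FlJ w h R' true false ↔
    (y = h - 1 ∧ 0 < x ∧ x < w ∧ x % 2 = 0) ∧ 1 ≤ x - 2 * (R' + 1) ∧
      x + 2 * (R' + 1) + 1 ≤ w := by
  unfold FlJ
  rw [if_pos rfl, if_neg Bool.false_ne_true, mem_filter, mem_TiU, tt_lt]

theorem FlJ_sub_L (i : Bool) : FlJ w h R' false i ⊆ TF (TTL w h) fmL i := by
  unfold FlJ
  cases i
  · rw [if_neg Bool.false_ne_true, if_neg Bool.false_ne_true, TF_L_false]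
    exact filter_subset _ _
  · rw [if_neg Bool.false_ne_true, if_pos rfl, TF_L_true]
    exact filter_subset _ _

theorem FlJ_sub_U (hw : 2 ≤ w) (i : Bool) : FlJ w h R' true i ⊆ TF (TTU w h) (fmU w) i := by
  unfold FlJ
  cases i
  · rw [if_pos rfl, if_neg Bool.false_ne_true, TF_U_false]
    exact filter_subset _ _
  · rw [if_pos rfl, if_pos rfl, TF_U_true]
    exact filter_subset _ _

/-! ### The left wall and the floor -/

section low

variable {hS : S ⊆ RRL h}

theorem eL_t : (datL O m L S hS).ε true = (false, false) := rfl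
theorem eL_f : (datL O m L S hS).ε false = (true, false) := rfl
theorem dL_t : (datL O m L S hS).δ true = (1, 0) := rfl
theorem dL_f : (datL O m L S hS).δ false = (0, 1) := rfl
theorem hL_t : (datL O m L S hS).h0 true =
    (gm (false, false) (gp (0, 0))).1 + (gm (false, false) (gp (0, 0))).2 := rfl
theorem hL_f : (datL O m L S hS).h0 false =
    (gm (true, false) (gp (1, 0))).1 + (gm (true, false) (gp (1, 0))).2 := rfl

theorem TFL_t {e : ℤ × ℤ} (he : e ∈ TF (TTL w h) fmL true) :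
    ∃ y, e = lt (-1, y) ∧ 0 < y ∧ y < h ∧ y % 2 = 0 ∧ bL e = gp (0, y) := by
  rw [TF_L_true] at he
  obtain ⟨x, y, rfl⟩ := exists_lt (odd_TiL he)
  have h1 := (bL_left he).1
  rw [mem_TiL] at he
  obtain ⟨rfl, h3, h4, h5⟩ := he
  refine ⟨y, rfl, h3, h4, h5, ?_⟩
  rw [h1, pt_lt]
  norm_num

theorem TFL_f {e : ℤ × ℤ} (he : e ∈ TF (TTL w h) fmL false) :
    ∃ x, e = lt (x, -1) ∧ 0 ≤ x ∧ x < w ∧ x % 2 = 0 ∧ bL e = gp (x + 1, 0) := by
  rw [TF_L_false] at he
  obtain ⟨x, y, rfl⟩ := exists_lt (odd_TiF he)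
  have h1 := (bL_floor he).1
  rw [mem_TiF] at he
  obtain ⟨rfl, h3, h4, h5⟩ := he
  refine ⟨x, rfl, h3, h4, h5, ?_⟩
  rw [h1, pt_lt]
  norm_num

theorem straightL (i : Bool) : Straight (TTL w h) fmL bL (Dat.rk (datL O m L S hS)) i
    ((datL O m L S hS).ε i) ((datL O m L S hS).h0 i) where
  line := by
    intro e he
    cases i
    · obtain ⟨x, rfl, h1, h2, h3, h4⟩ := TFL_f he
      rw [h4, eL_f, hL_f]
      unfold gm sgb gp
      simp only [Bool.false_eq_true, if_false, if_true]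
      omega
    · obtain ⟨y, rfl, h1, h2, h3, h4⟩ := TFL_t he
      rw [h4, eL_t, hL_t]
      unfold gm sgb gp
      simp only [Bool.false_eq_true, if_false]
      omega
  inj := by
    intro e he e' he' hb
    cases i
    · obtain ⟨x, rfl, h1, h2, h3, h4⟩ := TFL_f he
      obtain ⟨x', rfl, h1', h2', h3', h4'⟩ := TFL_f he'
      rw [h4, h4'] at hb
      unfold gp at hb
      rw [Prod.mk.injEq] at hb
      have : x = x' := by omega
      rw [this]
    · obtain ⟨x, rfl, h1, h2, h3, h4⟩ := TFL_t he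
      obtain ⟨x', rfl, h1', h2', h3', h4'⟩ := TFL_t he'
      rw [h4, h4'] at hb
      unfold gp at hb
      rw [Prod.mk.injEq] at hb
      have : x = x' := by omega
      rw [this]
  rk := fun e he e' he' => Dat.rk_iff (datL O m L S hS) he he'

theorem famL (G : GeoI w h m L R') (hO : OFar O L) (hC : MidC w h m Cs) (i : Bool) :
    FlatFam (XL O S hS) (WL' O S) (RT 0 w 0 h) (TTL w h) Cs fmL id
      (WlL h S (RT (-(L - 1)) (w + (L - 1)) (-(L - 1)) (-1))) (LaL w h m) bL oL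
      (Dat.rk (datL O m L S hS)) i ((datL O m L S hS).ε i) ((datL O m L S hS).δ i)
      ((datL O m L S hS).h0 i) (FlJ w h R' false i) R' := by
  obtain ⟨g1, g2, g3, g4, g5⟩ := G
  have hw := O.hw
  have hh := O.hh
  refine ⟨straightL i, FlJ_sub_L i, ?_, ?_, ?_⟩
  · intro e he
    have he1 := FlJ_sub_L i he
    cases i
    · obtain ⟨x, rfl, h1, h2, h3, h4⟩ := TFL_f he1
      rw [mem_FlJ_LF] at he
      rw [h4]
      exact flat_floor (by omega) (by omega) (by omega) (by omega) (by omega) (by omega)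
        (by omega) (by omega)
    · obtain ⟨y, rfl, h1, h2, h3, h4⟩ := TFL_t he1
      rw [mem_FlJ_LL] at he
      rw [h4]
      exact flat_left hS (wFar_of hO) (by omega) (by omega) (by omega) (by omega) (by omega)
        (by omega)
  · intro e he
    have he1 := FlJ_sub_L i he
    cases i
    · obtain ⟨x, rfl, h1, h2, h3, h4⟩ := TFL_f he1
      rw [mem_FlJ_LF] at he
      rw [h4]
      exact root_bx (rootFr_of hO (by omega)) (ev_false.2 (by omega)) (by simp only; omega)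
        (by simp only; omega) (by simp only; omega) (by simp only; omega)
    · obtain ⟨y, rfl, h1, h2, h3, h4⟩ := TFL_t he1
      rw [mem_FlJ_LL] at he
      rw [h4]
      exact root_bx (rootFr_of hO (by omega)) (ev_true.2 (by omega)) (by simp only; omega)
        (by simp only; omega) (by simp only; omega) (by simp only; omega)
  · intro e he c hc
    have he1 := FlJ_sub_L i he
    cases i
    · obtain ⟨x, rfl, h1, h2, h3, h4⟩ := TFL_f he1
      rw [mem_FlJ_LF] at he
      rw [h4]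
      refine lab_bx (ev_false.2 (by omega)) fun z hz => ?_
      have := hC c hc z hz
      simp only
      omega
    · obtain ⟨y, rfl, h1, h2, h3, h4⟩ := TFL_t he1
      rw [mem_FlJ_LL] at he
      rw [h4]
      refine lab_bx (ev_true.2 (by omega)) fun z hz => ?_
      have := hC c hc z hz
      simp only
      omega

end low

/-! ### The right wall and the ceiling -/

section up

variable {hS : S ⊆ RRU w h}

theorem eU_t : (datU O m L S hS).ε true = (true, true) := rfl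
theorem eU_f : (datU O m L S hS).ε false = (false, true) := rfl
theorem dU_t : (datU O m L S hS).δ true = (1, 0) := rfl
theorem dU_f : (datU O m L S hS).δ false = (0, 1) := rfl
theorem hU_t : (datU O m L S hS).h0 true =
    (gm (true, true) (gp (w, 0))).1 + (gm (true, true) (gp (w, 0))).2 := rfl
theorem hU_f : (datU O m L S hS).h0 false =
    (gm (false, true) (gp (0, h - 1))).1 + (gm (false, true) (gp (0, h - 1))).2 := rfl

theorem TFU_t {e : ℤ × ℤ} (he : e ∈ TF (TTU w h) (fmU w) true) :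
    ∃ y, e = lt (w, y) ∧ -1 ≤ y ∧ y < h - 1 ∧ y % 2 = 1 ∧ bU w e = gp (w, y + 1) := by
  rw [TF_U_true] at he
  obtain ⟨x, y, rfl⟩ := exists_lt (odd_TiR he)
  have h1 := (bU_right he).1
  rw [mem_TiR] at he
  obtain ⟨rfl, h3, h4, h5⟩ := he
  refine ⟨y, rfl, h3, h4, h5, ?_⟩
  rw [h1, pt_lt, add_zero]

theorem TFU_f {e : ℤ × ℤ} (he : e ∈ TF (TTU w h) (fmU w) false) :
    ∃ x, e = lt (x, h - 1) ∧ 0 < x ∧ x < w ∧ x % 2 = 0 ∧ bU w e = gp (x, h - 1) := by
  rw [TF_U_false] at he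
  obtain ⟨x, y, rfl⟩ := exists_lt (odd_TiU he)
  have h1 := (bU_ceil he).1
  rw [mem_TiU] at he
  obtain ⟨rfl, h3, h4, h5⟩ := he
  refine ⟨x, rfl, h3, h4, h5, ?_⟩
  rw [h1, pt_lt, add_zero, add_zero]

theorem straightU (i : Bool) : Straight (TTU w h) (fmU w) (bU w) (Dat.rk (datU O m L S hS)) i
    ((datU O m L S hS).ε i) ((datU O m L S hS).h0 i) where
  line := by
    have w2 := O.w2
    have h2' := O.h2
    intro e he
    cases i
    · obtain ⟨x, rfl, h1, h2, h3, h4⟩ := TFU_f he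
      rw [h4, eU_f, hU_f]
      unfold gm sgb gp
      simp only [Bool.false_eq_true, if_false, if_true]
      omega
    · obtain ⟨y, rfl, h1, h2, h3, h4⟩ := TFU_t he
      rw [h4, eU_t, hU_t]
      unfold gm sgb gp
      simp only [if_true]
      omega
  inj := by
    have w2 := O.w2
    have h2' := O.h2
    intro e he e' he' hb
    cases i
    · obtain ⟨x, rfl, h1, h2, h3, h4⟩ := TFU_f he
      obtain ⟨x', rfl, h1', h2', h3', h4'⟩ := TFU_f he'
      rw [h4, h4'] at hb
      unfold gp at hb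
      rw [Prod.mk.injEq] at hb
      have : x = x' := by omega
      rw [this]
    · obtain ⟨x, rfl, h1, h2, h3, h4⟩ := TFU_t he
      obtain ⟨x', rfl, h1', h2', h3', h4'⟩ := TFU_t he'
      rw [h4, h4'] at hb
      unfold gp at hb
      rw [Prod.mk.injEq] at hb
      have : x = x' := by omega
      rw [this]
  rk := fun e he e' he' => Dat.rk_iff (datU O m L S hS) he he'

theorem famU (G : GeoI w h m L R') (hO : OFar O L) (hC : MidC w h m Cs) (i : Bool) :
    FlatFam (XU O S hS) (WU' O S) (RT 0 w (-1) (h - 1)) (TTU w h) Cs (fmU w) id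
      (WlU w h S (RT (-(L - 1)) (w + (L - 1)) h (h + (L - 1)))) (LaU w h m) (bU w) (oU w)
      (Dat.rk (datU O m L S hS)) i ((datU O m L S hS).ε i) ((datU O m L S hS).δ i)
      ((datU O m L S hS).h0 i) (FlJ w h R' true i) R' := by
  obtain ⟨g1, g2, g3, g4, g5⟩ := G
  have hw := O.hw
  have hh := O.hh
  have w2 := O.w2
  have h2' := O.h2
  refine ⟨straightU i, FlJ_sub_U hw i, ?_, ?_, ?_⟩
  · intro e he
    have he1 := FlJ_sub_U hw i he
    cases i
    · obtain ⟨x, rfl, h1, h2, h3, h4⟩ := TFU_f he1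
      rw [mem_FlJ_UC] at he
      rw [h4]
      exact flat_ceil (by omega) (by omega) (by omega) (by omega) (by omega) (by omega)
        (by omega) (by omega)
    · obtain ⟨y, rfl, h1, h2, h3, h4⟩ := TFU_t he1
      rw [mem_FlJ_UR] at he
      rw [h4]
      exact flat_right hS (wFar_of hO) (by omega) (by omega) (by omega) (by omega) (by omega)
        (by omega)
  · intro e he
    have he1 := FlJ_sub_U hw i he
    cases i
    · obtain ⟨x, rfl, h1, h2, h3, h4⟩ := TFU_f he1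
      rw [mem_FlJ_UC] at he
      rw [h4]
      exact root_bx (rootFr_of hO (by omega)) (ev_false.2 (by omega)) (by simp only; omega)
        (by simp only; omega) (by simp only; omega) (by simp only; omega)
    · obtain ⟨y, rfl, h1, h2, h3, h4⟩ := TFU_t he1
      rw [mem_FlJ_UR] at he
      rw [h4]
      exact root_bx (rootFr_of hO (by omega)) (ev_true.2 (by omega)) (by simp only; omega)
        (by simp only; omega) (by simp only; omega) (by simp only; omega)
  · intro e he c hc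
    have he1 := FlJ_sub_U hw i he
    cases i
    · obtain ⟨x, rfl, h1, h2, h3, h4⟩ := TFU_f he1
      rw [mem_FlJ_UC] at he
      rw [h4]
      refine lab_bx (ev_false.2 (by omega)) fun z hz => ?_
      have := hC c hc z hz
      simp only
      omega
    · obtain ⟨y, rfl, h1, h2, h3, h4⟩ := TFU_t he1
      rw [mem_FlJ_UR] at he
      rw [h4]
      refine lab_bx (ev_true.2 (by omega)) fun z hz => ?_
      have := hC c hc z hz
      simp only
      omega

end up

/-! ### The number of flat ties -/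

theorem card_le_of {F : Finset (ℤ × ℤ)} {f : ℤ → ℤ × ℤ} {N : ℤ} (hN : 0 ≤ N)
    (hF : ∀ e ∈ F, ∃ x, e = f x ∧ -1 ≤ x ∧ x < N - 1) : (F.card : ℤ) ≤ N := by
  have h1 : F ⊆ (Ico (-1) (N - 1)).image f := by
    intro e he
    obtain ⟨x, rfl, h1, h2⟩ := hF e he
    exact mem_image_of_mem f (mem_Ico.2 ⟨h1, h2⟩)
  have h2 := (card_le_card h1).trans card_image_le
  rw [Int.card_Ico] at h2
  omega

theorem card_FlJ (hw : 2 ≤ w) (hh : 2 ≤ h) (hR : 0 ≤ R') (top i : Bool) :
    ((FlJ w h R' top i).card : ℤ) ≤ max w h := by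
  cases top
  · cases i
    · refine (card_le_of (f := fun x => lt (x, -1)) (N := w) (by omega) fun e he => ?_).trans
        (le_max_left _ _)
      obtain ⟨x, rfl, h1, h2, h3, h4⟩ := TFL_f (FlJ_sub_L false he)
      rw [mem_FlJ_LF] at he
      exact ⟨x, rfl, by omega, by omega⟩
    · refine (card_le_of (f := fun y => lt (-1, y)) (N := h) (by omega) fun e he => ?_).trans
        (le_max_right _ _)
      obtain ⟨x, rfl, h1, h2, h3, h4⟩ := TFL_t (FlJ_sub_L true he)
      rw [mem_FlJ_LL] at he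
      exact ⟨x, rfl, by omega, by omega⟩
  · cases i
    · refine (card_le_of (f := fun x => lt (x, h - 1)) (N := w) (by omega) fun e he => ?_).trans
        (le_max_left _ _)
      obtain ⟨x, rfl, h1, h2, h3, h4⟩ := TFU_f (FlJ_sub_U hw false he)
      rw [mem_FlJ_UC] at he
      exact ⟨x, rfl, by omega, by omega⟩
    · refine (card_le_of (f := fun y => lt (w, y)) (N := h) (by omega) fun e he => ?_).trans
        (le_max_right _ _)
      obtain ⟨x, rfl, h1, h2, h3, h4⟩ := TFU_t (FlJ_sub_U hw true he)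
      rw [mem_FlJ_UR] at he
      exact ⟨x, rfl, by omega, by omega⟩

/-! ### The statement -/

/-- the inequalities from `Sc` -/
theorem geo_of {η : ℝ} {R : ℕ} (hη : 0 < η) (hSc : Sc η R O) (h1 : 1 ≤ R')
    (h2 : 16 * (R' : ℝ) ≤ η * R) : GeoI w h (mE η R) (LE η R) R' where
  r1 := h1
  rm := by
    unfold mE
    rw [Int.le_floor]
    push_cast
    linarith
  mw := by
    unfold mE
    have h3 : ((⌊η * R / 4⌋ : ℤ) : ℝ) ≤ η * R / 4 := Int.floor_le _
    have h4 := hSc.w1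
    have : ((4 * ⌊η * R / 4⌋ : ℤ) : ℝ) ≤ (w : ℝ) := by push_cast; linarith
    exact_mod_cast this
  mh := by
    unfold mE
    have h3 : ((⌊η * R / 4⌋ : ℤ) : ℝ) ≤ η * R / 4 := Int.floor_le _
    have h4 := hSc.h1
    have : ((4 * ⌊η * R / 4⌋ : ℤ) : ℝ) ≤ (h : ℝ) := by push_cast; linarith
    exact_mod_cast this
  mL := by
    unfold mE LE
    rw [Int.le_floor]
    have h3 : ((⌊η * R / 4⌋ : ℤ) : ℝ) ≤ η * R / 4 := Int.floor_le _
    push_cast
    linarith

theorem mid_of {η : ℝ} {R : ℕ} {p q : ℤ × ℤ} (hp : Inn w h (η * R) p) (hq : Inn w h (η * R) q) :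
    MidC w h (mE η R) (LCq p q) := by
  have key : ∀ x : ℤ, η * R ≤ (x : ℝ) → 4 * mE η R ≤ x := by
    intro x hx
    unfold mE
    have h3 : ((⌊η * R / 4⌋ : ℤ) : ℝ) ≤ η * R / 4 := Int.floor_le _
    have : ((4 * ⌊η * R / 4⌋ : ℤ) : ℝ) ≤ (x : ℝ) := by push_cast; linarith
    exact_mod_cast this
  obtain ⟨a1, a2, a3, a4⟩ := hp
  obtain ⟨b1, b2, b3, b4⟩ := hq
  have c1 := key _ a1
  have c2 := key (w - p.1) (by push_cast; linarith)
  have c3 := key _ a3
  have c4 := key (h - p.2) (by push_cast; linarith)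
  have d1 := key _ b1
  have d2 := key (w - q.1) (by push_cast; linarith)
  have d3 := key _ b3
  have d4 := key (h - q.2) (by push_cast; linarith)
  intro c hc g hg
  have := path_pts hc hg
  omega

/-- **The fields `mul`, `far`, `fam`, `card` of `Fine45`.** -/
theorem fineA : ∀ η : ℝ, 0 < η → ∃ C : ℝ, 0 < C ∧ ∀ (R : ℕ) (w h : ℤ) (O : Out w h), Sc η R O →
    ∀ R' : ℤ, 1 ≤ R' → 16 * (R' : ℝ) ≤ η * R →
    ∀ (top : Bool) (S : Finset (ℤ × ℤ)) (hS : S ⊆ RRJ w h top) (p q : ℤ × ℤ),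
    Inn w h (η * R) p → Inn w h (η * R) q → ∀ d : Dat,
    d = datJ O (mE η R) (LE η R) top S hS →
    Multi d.X d.W d.Bb d.B d.TT d.fm id d.Wl d.La d.b d.o ∧
    (∀ c ∈ LCq p q, FarM d.X d.TT d.fm id d.Wl d.La d.b d.o c) ∧
    (∀ i, FlatFam d.X d.W d.Bb d.TT (LCq p q) d.fm id d.Wl d.La d.b d.o d.rk i (d.ε i) (d.δ i)
      (d.h0 i) (FlJ w h R' top i) R') ∧
    ∀ i, ((FlJ w h R' top i).card : ℝ) ≤ C * R := by
  intro η hη
  refine ⟨1 / η, by positivity, ?_⟩
  intro R w h O hSc R' h1 h2 top S hS p q hp hq d hd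
  have G := geo_of hη hSc h1 h2
  have hC := mid_of hp hq
  have hcard : ∀ i, ((FlJ w h R' top i).card : ℝ) ≤ 1 / η * R := by
    intro i
    have h3 := card_FlJ (w := w) (h := h) (R' := R') O.hw O.hh (by omega) top i
    have h4 : ((FlJ w h R' top i).card : ℝ) ≤ max (w : ℝ) (h : ℝ) := by
      have : (((FlJ w h R' top i).card : ℤ) : ℝ) ≤ ((max w h : ℤ) : ℝ) := by exact_mod_cast h3
      push_cast at this
      exact this
    refine h4.trans (max_le ?_ ?_)
    · rw [one_div, inv_mul_eq_div]; exact hSc.w2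
    · rw [one_div, inv_mul_eq_div]; exact hSc.h2
  subst hd
  cases top
  · exact ⟨mulL G hSc.far hS, farML G hSc.far hS hC, famL G hSc.far hC, hcard⟩
  · exact ⟨mulU G hSc.far hS, farMU G hSc.far hS hC, famU G hSc.far hC, hcard⟩

end Pool.Agent.Q1.M6e
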