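import Mathlib
import Pool.Agent.H39.R45.FineD

set_option autoImplicit false
open Finset

/-!
# The fields `irr`, `fst`, `crn` of `Fine` for the 45 degree rectangles

`Wal45` : the geometry of the walls. `fineB` : the three fields, windows `4096 R' ≤ η R`.
-/

namespace Pool.Agent.Q1.M6e

open Pool.Agent.H75.Perc Pool.Agent.H75.TwoArm Pool.Agent.H49.Perc
open Pool.Agent.H75.Four hiding ev
open Pool.Agent.H69.Q1 Pool.Agent.H39.Q1 Pool.Agent.H25.Q1.Add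
open Pool.Agent.H99.NC Pool.Agent.H60.Q1 Pool.Agent.H20.Q1 Pool.Agent.Q1
open Pool.Agent.H33.Q1 Pool.Agent.H74.R45 Pool.Agent.H13.R45 Pool.Agent.H13.Q1
open Pool.Agent.H64.Q1 Pool.Agent.Q1.M6f.Glue Pool.Agent.H25.Q1.Close Pool.Agent.Q1.M6f
open Pool.Agent.H95.R45 (Sc PotJ)
open Pool.Agent.H39.R45

/-- the marked corner -/
def dJ (top : Bool) : ℤ := if top = true then -1 else 1

/-- the marked corner -/
def uJ (w h : ℤ) (top : Bool) : ℤ := if top = true then w - h + 1 else 0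

/-- the marked corner -/
def vJ (w h : ℤ) (top : Bool) : ℤ := if top = true then w + h - 1 else 0

/-- **Geometry of the walls of `datJ`.** -/
def Wal45 : Prop :=
  ∀ η : ℝ, 0 < η → η ≤ 1 → ∃ (Q : ℝ) (R1 : ℕ), 1 ≤ Q ∧ ∀ R : ℕ, R1 ≤ R →
    ∀ (w h : ℤ) (O : Out w h), Sc η R O → ∀ (top : Bool) (S : Finset (ℤ × ℤ)) (hS : S ⊆ RRJ w h top),
    ∃ (x0 : Bool → ℤ × ℤ) (N : Bool → ℤ),
    WG (datJ O (mE η R) (LE η R) top S hS) (dJ top) (uJ w h top) (vJ w h top) x0 N (mE η R / 8) Q ∧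
    ∀ R' : ℤ, 1 ≤ R' → ∀ i, ∀ e ∈ TF (datJ O (mE η R) (LE η R) top S hS).TT
      (datJ O (mE η R) (LE η R) top S hS).fm i, e ∉ FlJ w h R' top i →
      inR (wp 1 (x0 i) 0) (R' + 3) (gm ((datJ O (mE η R) (LE η R) top S hS).ε i)
        ((datJ O (mE η R) (LE η R) top S hS).b e)) ∨
      inR (wp 1 (x0 i) (N i)) (R' + 3) (gm ((datJ O (mE η R) (LE η R) top S hS).ε i)
        ((datJ O (mE η R) (LE η R) top S hS).b e))

/-- **The fields `irr`, `fst`, `crn`.** -/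
theorem fineB (hWal : Wal45) : ∀ η : ℝ, 0 < η → ∃ (C c K : ℝ) (R1 : ℕ), 0 < C ∧ 0 < c ∧ 0 < K ∧
    ∀ R : ℕ, R1 ≤ R → ∀ (w h : ℤ) (O : Out w h), Sc η R O → ∀ R' : ℤ, R1 ≤ R' →
    4096 * (R' : ℝ) ≤ η * R →
    ∀ (top : Bool) (S : Finset (ℤ × ℤ)) (hS : S ⊆ RRJ w h top) (p q : ℤ × ℤ),
    Inn w h (η * R) p → Inn w h (η * R) q → ∀ d : Dat,
    d = datJ O (mE η R) (LE η R) top S hS → ∃ Q : Finset (ℤ × ℤ) → ℤ × ℤ → Prop,
    (∀ (a : ℤ × ℤ → ℂ), ∀ ω ⊆ d.B, ∀ e ∈ d.TT,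
      DM d.X (LCq p q) a d.Bb d.B d.TT d.fm id d.La d.b e ω ≠ 0 → Q ω e) ∧
    (∀ (a : ℤ × ℤ → ℂ) (M : ℝ), d.HV (LCq p q) a M → ∀ (s : Bool → ℂ) (a0 : ℤ),
      (∀ i, ‖s i‖ < 1) → (∀ i, ‖1 - s i‖ ≤ 16 * (1 - ‖s i‖)) → 2 ≤ a0 → a0 ≤ R' →
      (∀ i, K ≤ (1 - ‖s i‖) ^ ((3 : ℝ) / 2) * a0) →
      ‖d.tot (LCq p q) a s - d.tot0 (LCq p q) a - d.fst (LCq p q) a s‖ ≤
        C * M * ((a0 : ℝ) / R) ^ (1 + c)) ∧
    (∀ (i : Bool) (σ : ℝ) (a0 : ℤ), 1 / 4 ≤ σ → σ < 1 → 2 ≤ a0 → a0 ≤ R' →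
      K ≤ (1 - σ) ^ ((3 : ℝ) / 2) * a0 →
      Ex hf d.B (fun ω => ∑ e ∈ TF d.TT d.fm i, crn d.TT d.fm id d.La d.b d.rk Q
        (FlJ w h R' top i) σ e ω) ≤ C * ((a0 : ℝ) / R) * ((R' : ℝ) / R) ^ c) := by
  intro η hη
  obtain ⟨K, c, hK, hc, hmain⟩ := fineC
  rcases le_or_gt η 1 with hη1 | hη1
  · obtain ⟨Q, R2, hQ, hWal⟩ := hWal η hη hη1
    obtain ⟨C, R1, hC, hmain⟩ := hmain η Q hη hη1 hQ
    refine ⟨C, c, K, max (max R1 R2) (max ⌈64 / η⌉₊ 1), hC, hc, hK, ?_⟩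
    intro R hR w h O hSc R' hR' h4 top S hS p q hp hq d hd
    have hR1 : R1 ≤ R := ((le_max_left _ _).trans (le_max_left _ _)).trans hR
    have hR2 : R2 ≤ R := ((le_max_right _ _).trans (le_max_left _ _)).trans hR
    have hR3 : 64 / η ≤ R := (Nat.le_ceil _).trans
      (by exact_mod_cast ((le_max_left _ _).trans (le_max_right _ _)).trans hR)
    have hR4 : (R1 : ℤ) ≤ R' := by
      refine le_trans ?_ hR'
      exact_mod_cast (le_max_left _ _).trans (le_max_left _ _)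
    have hR5 : (1 : ℤ) ≤ R' := by
      refine le_trans ?_ hR'
      exact_mod_cast (le_max_right _ _).trans (le_max_right _ _)
    have h64 : 64 ≤ η * R := by
      rw [div_le_iff₀ hη] at hR3
      linarith
    have hR' : (1 : ℝ) ≤ R' := by exact_mod_cast hR5
    have G : GeoI w h (mE η R) (LE η R) 1 := geo_of hη hSc le_rfl (by push_cast; linarith)
    have hC' := mid_of hp hq
    have hm : 8 ≤ mE η R := by
      unfold mE
      rw [Int.le_floor]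
      push_cast
      linarith
    obtain ⟨x0, N, hW, hz⟩ := hWal R hR2 w h O hSc top S hS
    have hz := hz R' hR5
    subst hd
    cases top
    · exact ⟨_, hmain _ _ _ _ _ _ _ _ _ _ _ _ _ R R' (FlJ w h R' false) hR1 hR4 h4
        (cdatL G hSc.far hC' hm hW) hz⟩
    · exact ⟨_, hmain _ _ _ _ _ _ _ _ _ _ _ _ _ R R' (FlJ w h R' true) hR1 hR4 h4
        (cdatU G hSc.far hC' hm hW) hz⟩
  · refine ⟨1, 1, 1, 1, one_pos, one_pos, one_pos, ?_⟩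
    intro R hR w h O hSc
    exfalso
    have hR0 : (1 : ℝ) ≤ R := by exact_mod_cast hR
    have h1 := hSc.w1.trans hSc.w2
    rw [le_div_iff₀ hη] at h1
    have g1 : (R : ℝ) < η * R := by nlinarith
    have g2 : η * R * 1 < η * R * η := mul_lt_mul_of_pos_left hη1 (by linarith)
    linarith

end Pool.Agent.Q1.M6e
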