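import Mathlib
import Pool.Agent.Q1.M6e.FineB
import Pool.Agent.H39.R45.WalJ

set_option autoImplicit false
open Finset

/-! # The fields `irr`, `fst`, `crn` of `Fine` for the 45 degree rectangles, without hypotheses -/

namespace Pool.Agent.Q1.M6e

open Pool.Agent.H75.Perc Pool.Agent.H75.TwoArm Pool.Agent.H49.Perc
open Pool.Agent.H75.Four hiding ev
open Pool.Agent.H69.Q1 Pool.Agent.H39.Q1 Pool.Agent.H25.Q1.Add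
open Pool.Agent.H99.NC Pool.Agent.H60.Q1 Pool.Agent.H20.Q1 Pool.Agent.Q1
open Pool.Agent.H33.Q1 Pool.Agent.H74.R45 Pool.Agent.H13.R45 Pool.Agent.H13.Q1
open Pool.Agent.H64.Q1 Pool.Agent.Q1.M6f.Glue Pool.Agent.H25.Q1.Close Pool.Agent.Q1.M6f
open Pool.Agent.H95.R45 (Sc PotJ)
open Pool.Agent.H39.R45

/-- **The fields `irr`, `fst`, `crn`.** -/
theorem fineBW : ∀ η : ℝ, 0 < η → ∃ (C c K : ℝ) (R1 : ℕ), 0 < C ∧ 0 < c ∧ 0 < K ∧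
    ∀ R : ℕ, R1 ≤ R → ∀ (w h : ℤ) (O : Out w h), Sc η R O → ∀ R' : ℤ, R1 ≤ R' →
    4096 * (R' : ℝ) ≤ η * R →
    ∀ (top : Bool) (S : Finset (ℤ × ℤ)) (hS : S ⊆ RRJ w h top) (p q : ℤ × ℤ),
    Inn w h (η * R) p → Inn w h (η * R) q → ∀ d : Dat,
    d = datJ O (mE η R) (LE η R) top S hS → ∃ Q : Finset (ℤ × ℤ) → ℤ × ℤ → Prop,
    (∀ (a : ℤ × ℤ → ℂ), ∀ ω ⊆ d.B, ∀ e ∈ d.TT,
      DM d.X (LCq p q) a d.Bb d.B d.TT d.fm id d.La d.b e ω ≠ 0 → Q ω e) ∧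
    (∀ (a : ℤ × ℤ → ℂ) (M : ℝ), d.HV (LCq p q) a M → ∀ (s : Bool → ℂ) (a0 : ℤ),
      (∀ i, ‖s i‖ < 1) → (∀ i, ‖1 - s i‖ ≤ 16 * (1 - ‖s i‖)) → 2 ≤ a0 → a0 ≤ R' →
      (∀ i, K ≤ (1 - ‖s i‖) ^ ((3 : ℝ) / 2) * a0) →
      ‖d.tot (LCq p q) a s - d.tot0 (LCq p q) a - d.fst (LCq p q) a s‖ ≤
        C * M * ((a0 : ℝ) / R) ^ (1 + c)) ∧
    (∀ (i : Bool) (σ : ℝ) (a0 : ℤ), 1 / 4 ≤ σ → σ < 1 → 2 ≤ a0 → a0 ≤ R' →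
      K ≤ (1 - σ) ^ ((3 : ℝ) / 2) * a0 →
      Ex hf d.B (fun ω => ∑ e ∈ TF d.TT d.fm i, crn d.TT d.fm id d.La d.b d.rk Q
        (FlJ w h R' top i) σ e ω) ≤ C * ((a0 : ℝ) / R) * ((R' : ℝ) / R) ^ c) :=
  fineB wal45

end Pool.Agent.Q1.M6e
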