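import Mathlib
import Pool.Agent.Q1.M6e.FineBW

set_option autoImplicit false
open Finset

/-! # `Fine45` -/

namespace Pool.Agent.Q1.M6e

/-- **The inputs hold for the rectangles.** -/
theorem fine45 : Fine45 := by
  intro η hη
  obtain ⟨C1, hC1, h1⟩ := fineA η hη
  obtain ⟨C2, c, K, R1, hC2, hc, hK, h2⟩ := fineBW η hη
  refine ⟨C1 + C2, c, K, max R1 1, by positivity, hc, hK, ?_⟩
  intro R hR w h O hSc R' hR' h4 top S hS p q hp hq
  have hR1 : R1 ≤ R := (le_max_left _ _).trans hR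
  have hR2 : (R1 : ℤ) ≤ R' := le_trans (by exact_mod_cast le_max_left _ _) hR'
  have hR3 : (1 : ℤ) ≤ R' := le_trans (by exact_mod_cast le_max_right _ _) hR'
  have hR4 : (1 : ℝ) ≤ R' := by exact_mod_cast hR3
  obtain ⟨g1, g2, g3, g4⟩ := h1 R w h O hSc R' hR3 (by linarith) top S hS p q hp hq _ rfl
  obtain ⟨Q, g5, g6, g7⟩ := h2 R hR1 w h O hSc R' hR2 h4 top S hS p q hp hq _ rfl
  refine ⟨Q, g1, g2, g3, fun i => (g4 i).trans ?_, g5, ?_, ?_⟩
  · exact mul_le_mul_of_nonneg_right (by linarith) (Nat.cast_nonneg _)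
  · intro a M hV s a0 hs1 hs2 ha ha' hs3
    have hM : 0 ≤ M := (norm_nonneg _).trans (hV ∅ (empty_subset _) ∅ (empty_subset _))
    have ha0 : (2 : ℝ) ≤ a0 := by exact_mod_cast ha
    refine (g6 a M hV s a0 hs1 hs2 ha ha' hs3).trans ?_
    exact mul_le_mul_of_nonneg_right (mul_le_mul_of_nonneg_right (by linarith) hM) (by positivity)
  · intro i σ a0 hσ1 hσ2 ha ha' hs3
    have ha0 : (2 : ℝ) ≤ a0 := by exact_mod_cast ha
    refine (g7 i σ a0 hσ1 hσ2 ha ha' hs3).trans ?_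
    exact mul_le_mul_of_nonneg_right (mul_le_mul_of_nonneg_right (by linarith) (by positivity))
      (by positivity)

end Pool.Agent.Q1.M6e
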