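import Mathlib
import Pool.Agent.Q1.M6e.ApXL
import Pool.Agent.Q1.M6e.Pieces

set_option autoImplicit false
open Finset

/-! # The bound of the potential differences for every configuration of the layer and the ties -/

namespace Pool.Agent.Q1.M6e

open Pool.Agent.H75.Perc Pool.Agent.H75.TwoArm Pool.Agent.Q1 Pool.Agent.H33.Q1
open Pool.Agent.H74.R45 Pool.Agent.H13.R45 Pool.Agent.H39.Q1
open Pool.Agent.H95.R45 (Sc)

lemma BL_sub {w h m : ℤ} (hw : m + 1 ≤ w) (hh : m + 1 ≤ h) : BL w h m ⊆ RT 0 w 0 h := by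
  unfold BL
  intro e he
  obtain ⟨x, y, rfl⟩ : ∃ x y, e = lt (x, y) := by
    rcases mem_union.1 he with h1 | h1 <;> exact exists_lt (odd_RT h1)
  rw [mem_union, lt_mem_RT, lt_mem_RT] at he
  rw [lt_mem_RT]
  omega

lemma BU_sub {w h m : ℤ} (hw : m + 1 ≤ w) (hh : m + 1 ≤ h) :
    BU w h m ⊆ RT 0 w (-1) (h - 1) := by
  unfold BU
  intro e he
  obtain ⟨x, y, rfl⟩ : ∃ x y, e = lt (x, y) := by
    rcases mem_union.1 he with h1 | h1 <;> exact exists_lt (odd_RT h1)
  rw [mem_union, lt_mem_RT, lt_mem_RT] at he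
  rw [lt_mem_RT]
  omega

/-- **`HV45`.** -/
theorem hv45 : HV45 := by
  intro η hη
  obtain ⟨C1, hC1, R1, H1⟩ := VM_XL hη
  obtain ⟨C2, hC2, R2, H2⟩ := VM_XU hη
  refine ⟨max C1 C2, max (max R1 R2) ⌈2 / η⌉₊, ?_⟩
  intro R hR w h O hO top S hS p q hp hq
  have hR1 : R1 ≤ R := (le_max_left _ _).trans ((le_max_left _ _).trans hR)
  have hR2 : R2 ≤ R := (le_max_right _ _).trans ((le_max_left _ _).trans hR)
  have hR3 : 2 / η ≤ (R : ℝ) := (Nat.le_ceil _).trans (by
    exact_mod_cast (le_max_right (max R1 R2) ⌈2 / η⌉₊).trans hR)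
  have hηR : 2 ≤ η * R := by
    rw [div_le_iff₀ hη] at hR3; linarith
  set m : ℤ := mE η R with hm
  have hm0 : 0 ≤ m := by
    rw [hm]; unfold mE
    exact Int.floor_nonneg.2 (by linarith)
  have hm1 : (m : ℝ) ≤ η * R / 4 := by
    rw [hm]; unfold mE
    exact Int.floor_le _
  have hw : m + 1 ≤ w := by
    have := hO.w1
    have : ((m + 1 : ℤ) : ℝ) ≤ w := by push_cast; linarith
    exact_mod_cast this
  have hh : m + 1 ≤ h := by
    have := hO.h1
    have : ((m + 1 : ℤ) : ℝ) ≤ h := by push_cast; linarith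
    exact_mod_cast this
  have hRp : (0 : ℝ) ≤ (R : ℝ) ^ (2 / 3 : ℝ) := by positivity
  cases top with
  | false =>
    intro ω hω P _
    refine (H1 R hR1 w h O hO.w2 hO.h2 S hS m hm0 hm1 (BL w h m) (BL_sub hw hh)
      (Subset.refl _) p q hp hq ω hω P).trans ?_
    exact mul_le_mul_of_nonneg_right (le_max_left _ _) hRp
  | true =>
    intro ω hω P _
    refine (H2 R hR2 w h O hO.w2 hO.h2 S hS m hm0 hm1 (BU w h m) (BU_sub hw hh)
      (Subset.refl _) p q hp hq ω hω P).trans ?_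
    exact mul_le_mul_of_nonneg_right (le_max_right _ _) hRp

end Pool.Agent.Q1.M6e
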