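import Mathlib
import Pool.Agent.Q1.M6e.Pieces
import Pool.Agent.Q1.M6e.AsmEnv

set_option autoImplicit false
open Finset

/-!
# One natural row or column more

`Tm_flat` : main term of a flat tie. `env_first` : response of one environment to the weights `1/4` of one
family. `NR45_of` : the piece `NR45` from `Fine45` and `HV45`.
-/

namespace Pool.Agent.Q1.M6e

open Pool.Agent.H75.Perc Pool.Agent.H75.TwoArm Pool.Agent.H75.Four Pool.Agent.H49.Perc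
open Pool.Agent.H69.Q1 Pool.Agent.H39.Q1 Pool.Agent.H25.Q1.Add
open Pool.Agent.H99.NC Pool.Agent.H60.Q1 Pool.Agent.H20.Q1 Pool.Agent.H59.Q1 Pool.Agent.Q1
open Pool.Agent.H33.Q1 Pool.Agent.H74.R45 Pool.Agent.H13.R45 Pool.Agent.H13.Q1
open Pool.Agent.H64.Q1 Pool.Agent.Q1.M6f.Glue Pool.Agent.H25.Q1.Close Pool.Agent.Q1.M6f
open Pool.Agent.H95.R45 (Sc PotJ)

/-- **Main term of a flat tie.** -/
theorem Tm_flat : ∃ K C : ℝ, 0 < K ∧ 0 < C ∧
    ∀ {ι : Type} [DecidableEq ι] (X : Pool.Agent.Q1.Env) (W Bb B TT Cs FlT : Finset (ℤ × ℤ))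
      (fm : ℤ × ℤ → ι) (co : ι → Bool) (Wl La : ι → Finset (ℤ × ℤ)) (b o : ℤ × ℤ → ℤ × ℤ)
      (a : ℤ × ℤ → ℂ) (rk : ℤ × ℤ → ℤ) (i : ι) (δ : ℤ × ℤ) (ε : Bool × Bool) (h0 a0 R : ℤ)
      (M σ : ℝ) (s0 : ℂ) (s : ℤ × ℤ → ℂ) (e : ℤ × ℤ),
      Multi X W Bb B TT fm co Wl La b o → (∀ c ∈ Cs, FarM X TT fm co Wl La b o c) →
      FlatFam X W Bb TT Cs fm co Wl La b o rk i ε δ h0 FlT R → e ∈ FlT →
      (∀ ω ⊆ B, ∀ P ⊆ TT, ‖VM X Cs a Bb B TT fm co ω P‖ ≤ M) →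
      (∀ e' ∈ TF TT fm i, s e' = s0) → ‖s0‖ ≤ σ → 1 / 4 ≤ σ → σ < 1 → 2 ≤ a0 →
      K ≤ (1 - σ) ^ ((3 : ℝ) / 2) * a0 → a0 ≤ R →
      ‖Tm X Cs a Bb B TT fm co La b rk s e‖ ≤ 2 * M * (C * a0 / (R : ℝ) ^ 2) := by
  obtain ⟨K, C, hK0, hC0, hms⟩ := mass_le
  refine ⟨K, C, hK0, hC0, ?_⟩
  intro ι _ X W Bb B TT Cs FlT fm co Wl La b o a rk i δ ε h0 a0 R M σ s0 s e hM hc hF he hV hs hs0 hσ1
    hσ2 ha0 hK haR
  have hσ0 : 0 ≤ σ := by linarith
  have hM0 : 0 ≤ M := (norm_nonneg _).trans (hV ∅ (empty_subset _) ∅ (empty_subset _))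
  have heF := hF.sub he
  obtain ⟨heT, hei⟩ := mem_TF.1 heF
  set x := gm ε (b e) with hx
  have hxF : x ∈ FlX b ε FlT := mem_image.2 ⟨e, he, rfl⟩
  have hE := hF.env hM hxF
  unfold Tm
  have key : ∀ ω, ω ⊆ B → ‖FT (TF TT fm (fm e)) b rk s e (SM TT fm co La b e ω) *
      DM X Cs a Bb B TT fm co La b e ω‖ ≤ 2 * M * gS σ 1 1 x R (eta co La i ε ω) := by
    intro ω hω
    rw [norm_mul]
    by_cases hD : DM X Cs a Bb B TT fm co La b e ω = 0
    · rw [hD, norm_zero, mul_zero]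
      exact mul_nonneg (by linarith) (gS_nonneg hσ0)
    have hηL : eta co La i ε ω ⊆ Lx co La i ε := by
      have := push_gr (co := co) (La := La) (i := i) (ε := ε) (hM.la i) hω
      unfold eta Lx
      rw [← this]
      exact inter_subset_right
    have hDb : ‖DM X Cs a Bb B TT fm co La b e ω‖ ≤ 2 * M := by
      unfold DM
      refine (norm_sub_le _ _).trans ?_
      have g1 := hV ω hω _ (sdiff_subset (s := TT) (t := cls TT fm co La b ω e))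
      have g2 := hV ω hω TT (Subset.refl _)
      linarith
    rw [mul_comm]
    refine mul_le_mul hDb ?_ (norm_nonneg _) (by linarith)
    have hG := wallG_of_flat (m := 0) hM heT (by rw [hei]; exact hF.flat e he) le_rfl (by omega)
      (by rw [inR_iff]; omega) (by rw [hei]; exact hF.root e he)
    have hR : Rch x x R (eta co La i ε ω) := by
      obtain ⟨v, g1, g2⟩ := hM.far hc hG hω heT hD
      refine ⟨gm ε v, ?_, ?_⟩
      · rw [hx, Far_gm, gm_gm]; exact g1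
      · unfold eta
        rw [← hei]
        exact Co_gm g2
    rw [FT_coord hF.st heT hei hs, norm_mul, norm_pow, Complex.norm_real,
      Real.norm_of_nonneg (ind_nonneg _)]
    by_cases hf : ∀ v ∈ CS (Wx TT fm b i ε) (eta co La i ε ω) (gm ε (b e)), (gm ε (b e)).1 ≤ v.1
    · rw [ind_true hf, mul_one]
      refine (pow_le_pow_left₀ (norm_nonneg _) hs0 _).trans ?_
      exact gS_of (Or.inr rfl) hσ0 hσ2.le hE hηL (by omega) hf hR
    · rw [ind_false hf, mul_zero]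
      exact gS_nonneg hσ0
  refine (Ec_half_norm key).trans ?_
  rw [Ex_smul]
  refine mul_le_mul_of_nonneg_left ?_ (by linarith)
  rw [Ex_eta (hM.la i) (fun η => gS σ 1 1 x R η)]
  have e4 : Ex hf (Lx co La i ε) (gS σ 1 1 x R) = pS σ 1 1 R := Ex_gS hE.sub
  rw [e4]
  exact hms 1 (Or.inr rfl) 1 (Or.inl rfl) σ hσ1 hσ2 a0 ha0 hK R haR

/-- **Response of one environment to the weights `1/4` of one family.** -/
theorem env_first : ∃ K0 C0 : ℝ, 0 < K0 ∧ 0 < C0 ∧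
    ∀ (C c K : ℝ) (R : ℕ) (R' a0 : ℤ) (d : Dat) (Cs : Finset (ℤ × ℤ)) (FlT : Bool → Finset (ℤ × ℤ))
      (Q : Finset (ℤ × ℤ) → ℤ × ℤ → Prop) (a : ℤ × ℤ → ℂ) (M : ℝ) (i : Bool),
      0 < C → 0 < c → Fine C c K R R' d Cs FlT Q → d.HV Cs a M → 2 ≤ a0 → a0 ≤ R' →
      K0 ≤ (3 / 4 : ℝ) ^ ((3 : ℝ) / 2) * a0 → K ≤ (3 / 4 : ℝ) ^ ((3 : ℝ) / 2) * a0 → 0 < K →
      (a0 : ℝ) ≤ R →
      ‖d.tot Cs a (w4 i) - d.tot0 Cs a‖ ≤
        M * (C * ((a0 : ℝ) / R) + 2 * (C * R) * (C0 * a0 / (R' : ℝ) ^ 2) +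
          2 * (C * ((a0 : ℝ) / R) * ((R' : ℝ) / R) ^ c)) := by
  obtain ⟨K0, C0, hK0, hC0, hflat⟩ := Tm_flat
  refine ⟨K0, C0, hK0, hC0, ?_⟩
  intro C c K R R' a0 d Cs FlT Q a M i hC hc hFi hV ha0 haR' hK0' hK hKp haR
  have hM0 : 0 ≤ M := (norm_nonneg _).trans (hV ∅ (empty_subset _) ∅ (empty_subset _))
  have ha0R : (2 : ℝ) ≤ a0 := by exact_mod_cast ha0
  have hR0 : (0 : ℝ) < R := by linarith
  have hR'0 : (0 : ℝ) < R' := by exact_mod_cast (by omega : (0 : ℤ) < R')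
  have hw : ∀ j, ‖w4 i j‖ ≤ 1 / 4 := by
    intro j; unfold w4; split_ifs <;> norm_num
  have hw1 : ∀ j, ‖1 - w4 i j‖ ≤ 16 * (1 - ‖w4 i j‖) := by
    intro j; unfold w4; split_ifs <;> norm_num
  have hsq : (3 / 4 : ℝ) ^ ((3 : ℝ) / 2) ≤ 1 := Real.rpow_le_one (by norm_num) (by norm_num) (by norm_num)
  have hKj : ∀ j, K ≤ (1 - ‖w4 i j‖) ^ ((3 : ℝ) / 2) * a0 := by
    intro j
    refine hK.trans (mul_le_mul_of_nonneg_right ?_ (by linarith))
    refine Real.rpow_le_rpow (by norm_num) ?_ (by norm_num)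
    have := hw j
    linarith
  have h1 := hFi.fst a M hV (w4 i) a0 (fun j => (hw j).trans_lt (by norm_num)) hw1 ha0 haR' hKj
  -- error of the first order expansion
  have hb1 : C * M * ((a0 : ℝ) / R) ^ (1 + c) ≤ M * (C * ((a0 : ℝ) / R)) := by
    have g0 : (0 : ℝ) < (a0 : ℝ) / R := by positivity
    have g1 : (a0 : ℝ) / R ≤ 1 := (div_le_one hR0).2 haR
    have g2 : ((a0 : ℝ) / R) ^ (1 + c) ≤ ((a0 : ℝ) / R) ^ (1 : ℝ) :=
      Real.rpow_le_rpow_of_exponent_ge g0 g1 (by linarith)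
    rw [Real.rpow_one] at g2
    have g3 := mul_le_mul_of_nonneg_left g2 (mul_nonneg hC.le hM0)
    linarith
  -- the main terms
  have hFam := hFi.fam i
  have hs4 : ∀ e' ∈ TF d.TT d.fm i, (fun e => w4 i (d.fm e)) e' = 1 / 4 := by
    intro e' he'
    show w4 i (d.fm e') = 1 / 4
    unfold w4
    rw [if_pos (mem_TF.1 he').2]
  have hz : d.fst Cs a (w4 i) = ∑ e ∈ TF d.TT d.fm i,
      Tm d.X Cs a d.Bb d.B d.TT d.fm id d.La d.b d.rk (fun e => w4 i (d.fm e)) e := by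
    unfold Dat.fst
    refine (sum_subset (filter_subset _ _) fun e h1 h2 => ?_).symm
    refine Tm_zero ?_ h1
    show w4 i (d.fm e) = 0
    unfold w4
    rw [if_neg fun h3 => h2 (mem_TF.2 ⟨h1, h3⟩)]
  have hq : (3 / 4 : ℝ) = 1 - 1 / 4 := by norm_num
  rw [hq] at hK0' hK
  have hb2 : ‖d.fst Cs a (w4 i)‖ ≤ M * (2 * (C * R) * (C0 * a0 / (R' : ℝ) ^ 2) +
      2 * (C * ((a0 : ℝ) / R) * ((R' : ℝ) / R) ^ c)) := by
    rw [hz]
    refine (norm_sum_le _ _).trans ?_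
    rw [← sum_sdiff hFam.sub]
    have t1 : ∑ e ∈ FlT i, ‖Tm d.X Cs a d.Bb d.B d.TT d.fm id d.La d.b d.rk
        (fun e => w4 i (d.fm e)) e‖ ≤ (C * R) * (2 * M * (C0 * a0 / (R' : ℝ) ^ 2)) := by
      refine (sum_le_sum fun e he => hflat d.X d.W d.Bb d.B d.TT Cs (FlT i) d.fm id d.Wl d.La d.b d.o a
        d.rk i (d.δ i) (d.ε i) (d.h0 i) a0 R' M (1 / 4) (1 / 4) _ e hFi.mul hFi.far hFam he hV hs4
        (by norm_num) le_rfl (by norm_num) ha0 hK0' haR').trans ?_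
      rw [sum_const, nsmul_eq_mul]
      exact mul_le_mul_of_nonneg_right (hFi.card i) (by positivity)
    have t2 : ∑ e ∈ TF d.TT d.fm i \ FlT i, ‖Tm d.X Cs a d.Bb d.B d.TT d.fm id d.La d.b d.rk
        (fun e => w4 i (d.fm e)) e‖ ≤ 2 * M * (C * ((a0 : ℝ) / R) * ((R' : ℝ) / R) ^ c) := by
      have t3 := hFi.crn i (1 / 4) a0 le_rfl (by norm_num) ha0 haR' hK
      refine (sum_le_sum fun e he => Tm_crn hFam.st (mem_sdiff.1 he).1 (mem_sdiff.1 he).2 hV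
        (hFi.irr a) hs4 (by norm_num : ‖(1 / 4 : ℂ)‖ ≤ (1 / 4 : ℝ))).trans ?_
      rw [← mul_sum]
      refine mul_le_mul_of_nonneg_left (le_trans ?_ t3) (by linarith)
      rw [Ex_sum]
      refine sum_le_sum_of_subset_of_nonneg sdiff_subset fun e _ _ => ?_
      refine Ex_nonneg hf_pb fun ω _ => ?_
      unfold crn
      exact mul_nonneg (pow_nonneg (by norm_num) _) (ind_nonneg _)
    refine (add_le_add t2 t1).trans (le_of_eq ?_)
    ring
  have e1 : d.tot Cs a (w4 i) - d.tot0 Cs a =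
      (d.tot Cs a (w4 i) - d.tot0 Cs a - d.fst Cs a (w4 i)) + d.fst Cs a (w4 i) := by ring
  rw [e1]
  refine (norm_add_le _ _).trans ((add_le_add (h1.trans hb1) hb2).trans (le_of_eq ?_))
  ring

/-- one corner -/
lemma HV_one {d : Dat} {a : ℤ × ℤ → ℂ} {c : ℤ × ℤ}
    (hM : Multi d.X d.W d.Bb d.B d.TT d.fm id d.Wl d.La d.b d.o) (ha : ‖a c‖ ≤ 1) :
    d.HV {c} a 1 := by
  intro ω hω P hP
  unfold VM
  refine (Ec_half_norm (g := fun _ => (1 : ℝ)) fun ω' hω' => ?_).trans (le_of_eq (Ex_const _ _ _))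
  unfold Pool.Agent.H39.Q1.U
  rw [sum_singleton, norm_mul]
  have h1 : ω ∪ ω' ∪ opn d.TT d.fm id P ⊆ d.X.E := by
    refine union_subset (union_subset ?_ ?_) ?_
    · exact hω.trans (hM.bB.trans hM.bE)
    · exact hω'.trans (sdiff_subset.trans hM.bE)
    · unfold opn
      exact (filter_subset _ _).trans hM.tE
  calc ‖a c‖ * ‖d.X.incO (ω ∪ ω' ∪ opn d.TT d.fm id P) c‖ ≤ 1 * 1 :=
        mul_le_mul ha (Pool.Agent.Q1.Env.incO_norm h1 c) (norm_nonneg _) (by norm_num)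
    _ = 1 := one_mul 1

/-- the path to the vertex below -/
lemma LCq_one (p : ℤ × ℤ) : LCq p (p.1, p.2 - 1) = {ve (p.1, p.2 - 1)} := by
  ext c
  unfold LCq
  rw [mem_LC, mem_singleton]
  constructor
  · rintro (⟨i, ⟨h1, h2⟩, rfl⟩ | ⟨l, ⟨h1, h2⟩, rfl⟩)
    · simp only at h1 h2
      omega
    · simp only at h1 h2 ⊢
      have : l = p.2 - 1 := by omega
      rw [this]
  · rintro rfl
    right
    exact ⟨p.2 - 1, ⟨by simp only; omega, by simp only; omega⟩, rfl⟩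

/-- **(F6)** -/
theorem NR45_of (hFine : Fine45) (hHV : HV45) : NR45 := by
  intro η hη
  obtain ⟨C, c, K, R1, hC, hc, hK, hF⟩ := hFine η hη
  obtain ⟨C2, R2, hH⟩ := hHV η hη
  obtain ⟨K0, C0, hK0, hC0, henv⟩ := env_first
  have hk : (0 : ℝ) < (3 / 4 : ℝ) ^ ((3 : ℝ) / 2) := by positivity
  set k34 : ℝ := (3 / 4 : ℝ) ^ ((3 : ℝ) / 2) with hk34
  obtain ⟨n, hn⟩ := exists_nat_ge (max K0 K / k34)
  set a0 : ℤ := (n : ℤ) + 2 with ha0
  have ha0R : (a0 : ℝ) = n + 2 := by rw [ha0]; push_cast; ring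
  have hn0 : (0 : ℝ) ≤ n := Nat.cast_nonneg _
  have hKa : max K0 K ≤ k34 * a0 := by
    rw [div_le_iff₀ hk] at hn
    rw [ha0R]
    nlinarith
  set C3 : ℝ := C * a0 + 2 * C * C0 * a0 * (8192 / η) ^ 2 + 2 * C * a0 * (η / 4096) ^ c with hC3
  have ha00 : (0 : ℝ) < a0 := by rw [ha0R]; linarith
  have hC30 : 0 < C3 := by rw [hC3]; positivity
  obtain ⟨R3, hR3⟩ := exists_nat_ge (4096 * (max (R1 : ℝ) (max a0 2)) / η)
  refine ⟨(|C2| + 1) * C3, max (max R1 R2) (max R3 (n + 2)), ?_⟩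
  intro R hR w h O hO top S hS p q hp hq i d hd
  have r1 : R1 ≤ R := by omega
  have r2 : R2 ≤ R := by omega
  have r3 : R3 ≤ R := by omega
  have r4 : n + 2 ≤ R := by omega
  have r4' : (a0 : ℝ) ≤ R := by
    rw [ha0R]; exact_mod_cast r4
  have hR0 : (0 : ℝ) < R := by linarith
  set R' : ℤ := ⌊η * R / 4096⌋ with hR'
  have s1 : (R' : ℝ) ≤ η * R / 4096 := Int.floor_le _
  have s2 : η * R / 4096 < R' + 1 := Int.lt_floor_add_one _
  have s3 : max (R1 : ℝ) (max a0 2) ≤ η * R / 4096 := by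
    have h1 : 4096 * (max (R1 : ℝ) (max a0 2)) / η ≤ R := hR3.trans (by exact_mod_cast r3)
    rw [div_le_iff₀ hη] at h1
    linarith
  have s4 : (R1 : ℤ) ≤ R' := by
    rw [hR', Int.le_floor]
    push_cast
    exact (le_max_left _ _).trans s3
  have s5 : a0 ≤ R' := by
    rw [hR', Int.le_floor]
    exact ((le_max_left _ _).trans (le_max_right _ _)).trans s3
  have s6 : (2 : ℝ) ≤ η * R / 4096 := ((le_max_right _ _).trans (le_max_right _ _)).trans s3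
  have s7 : η * R / 8192 ≤ R' := by linarith
  have s8 : (0 : ℝ) < η * R / 8192 := by positivity
  have hR'0 : (0 : ℝ) < R' := by linarith
  obtain ⟨Q, hFi⟩ := hF R r1 w h O hO R' s4 (by linarith) top S hS p q hp hq
  rw [← hd] at hFi
  -- the bound
  have hB : C * ((a0 : ℝ) / R) + 2 * (C * R) * (C0 * a0 / (R' : ℝ) ^ 2) +
      2 * (C * ((a0 : ℝ) / R) * ((R' : ℝ) / R) ^ c) ≤ C3 / R := by
    have b1 : (C0 * a0 / (R' : ℝ) ^ 2) ≤ C0 * a0 / (η * R / 8192) ^ 2 :=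
      div_le_div_of_nonneg_left (by positivity) (by positivity)
        (pow_le_pow_left₀ s8.le s7 2)
    have b2 : ((R' : ℝ) / R) ^ c ≤ (η / 4096) ^ c := by
      refine Real.rpow_le_rpow (by positivity) ?_ hc.le
      rw [div_le_iff₀ hR0]
      linarith
    have b3 : 2 * (C * R) * (C0 * a0 / (R' : ℝ) ^ 2) ≤
        2 * (C * R) * (C0 * a0 / (η * R / 8192) ^ 2) :=
      mul_le_mul_of_nonneg_left b1 (by positivity)
    have b4 : 2 * (C * ((a0 : ℝ) / R) * ((R' : ℝ) / R) ^ c) ≤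
        2 * (C * ((a0 : ℝ) / R) * (η / 4096) ^ c) :=
      mul_le_mul_of_nonneg_left (mul_le_mul_of_nonneg_left b2 (by positivity)) (by norm_num)
    have b5 : 2 * (C * R) * (C0 * a0 / (η * R / 8192) ^ 2) = 2 * C * C0 * a0 * (8192 / η) ^ 2 / R := by
      field_simp
    have b6 : C3 / R = C * ((a0 : ℝ) / R) + 2 * C * C0 * a0 * (8192 / η) ^ 2 / R +
        2 * (C * ((a0 : ℝ) / R) * (η / 4096) ^ c) := by
      rw [hC3]; ring
    rw [b6]
    linarith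
  have main : ∀ M : ℝ, d.HV (LCq p q) (Laq p q) M →
      ‖d.tot (LCq p q) (Laq p q) (w4 i) - d.tot0 (LCq p q) (Laq p q)‖ ≤ M * (C3 / R) := by
    intro M hV
    have hM0 : 0 ≤ M := (norm_nonneg _).trans (hV ∅ (empty_subset _) ∅ (empty_subset _))
    refine (henv C c K R R' a0 d (LCq p q) (FlJ w h R' top) Q (Laq p q) M i hC hc hFi hV (by omega)
      s5 ((le_max_left _ _).trans hKa) ((le_max_right _ _).trans hKa) hK r4').trans ?_
    exact mul_le_mul_of_nonneg_left hB hM0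
  constructor
  · have hV := hH R r2 w h O hO top S hS p q hp hq
    rw [← hd] at hV
    refine (main _ hV).trans ?_
    have e1 : C2 * (R : ℝ) ^ (2 / 3 : ℝ) * (C3 / R) = C2 * C3 * (R : ℝ) ^ (-(1 / 3) : ℝ) := by
      have e2 : (R : ℝ) ^ (-(1 / 3) : ℝ) = (R : ℝ) ^ (2 / 3 : ℝ) / R := by
        have e3 : (-(1 / 3) : ℝ) = 2 / 3 - 1 := by norm_num
        rw [e3, Real.rpow_sub_one hR0.ne']
      rw [e2]; ring
    rw [e1]
    refine mul_le_mul_of_nonneg_right ?_ (Real.rpow_nonneg hR0.le _)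
    refine mul_le_mul_of_nonneg_right ?_ hC30.le
    have := le_abs_self C2
    linarith
  · intro hq2
    have hV : d.HV (LCq p q) (Laq p q) 1 := by
      rw [hq2, LCq_one]
      refine HV_one hFi.mul (le_of_eq ?_)
      unfold Laq
      exact norm_La _ _ _ _ _
    refine (main 1 hV).trans ?_
    rw [one_mul, Real.rpow_neg_one, ← div_eq_mul_inv]
    refine div_le_div_of_nonneg_right ?_ hR0.le
    have h1 := abs_nonneg C2
    nlinarith

end Pool.Agent.Q1.M6e
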