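import Mathlib
import Pool.Agent.Q1.M6e.ApXL
import Pool.Agent.H74.Win.PotW
import Pool.Agent.H46.Sp.Def

set_option autoImplicit false
open Finset

/-! # The hypothesis `hM` for windows

`Lk T d p q` : **linked points**, the rectangle spanned by `p` and `q`, enlarged by `d`, consists of
tiles with the property `T`. All relations between potentials are additive in `(p, q)`, they are stated
for linked points; `Chn` : chains of linked points.

`VM_lk` : the bound of `VM` for a plane environment, linked points, and a layer `B` near the outside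
of `T`. `ap_lk` : the bound of the increment. `PotW.pot` : restriction of a potential of a row convex
polygon to a rectangle. -/

namespace Pool.Agent.Q1.M6e

open Pool.Agent.H75.Perc Pool.Agent.H75.TwoArm Pool.Agent.H33.Q1 Pool.Agent.H74.R45
open Pool.Agent.H99.NC Pool.Agent.H39.Q1 Pool.Agent.Q1.M6c Pool.Agent.H69.Q1

/-- **Linked points.** The tiles of the rectangle spanned by `p` and `q`, enlarged by `d`, have the
property `T`. -/
def Lk (T : ℤ → ℤ → Prop) (d : ℝ) (p q : ℤ × ℤ) : Prop :=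
  ∀ x y : ℤ, ((p.1 : ℝ) - d ≤ x ∨ (q.1 : ℝ) - d ≤ x) →
    ((x : ℝ) + 1 ≤ p.1 + d ∨ (x : ℝ) + 1 ≤ q.1 + d) →
    ((p.2 : ℝ) - d ≤ y ∨ (q.2 : ℝ) - d ≤ y) →
    ((y : ℝ) + 1 ≤ p.2 + d ∨ (y : ℝ) + 1 ≤ q.2 + d) → T x y

section lk

variable {T T' : ℤ → ℤ → Prop} {d d' : ℝ} {p q : ℤ × ℤ}

lemma Lk.symm (h : Lk T d p q) : Lk T d q p := fun x y h1 h2 h3 h4 =>
  h x y h1.symm h2.symm h3.symm h4.symm

lemma Lk.mono (h : Lk T d p q) (hd : d' ≤ d) : Lk T d' p q := by
  intro x y h1 h2 h3 h4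
  refine h x y ?_ ?_ ?_ ?_
  · rcases h1 with h1 | h1
    · left; linarith
    · right; linarith
  · rcases h2 with h1 | h1
    · left; linarith
    · right; linarith
  · rcases h3 with h1 | h1
    · left; linarith
    · right; linarith
  · rcases h4 with h1 | h1
    · left; linarith
    · right; linarith

lemma Lk.imp (h : Lk T d p q) (hT : ∀ x y, T x y → T' x y) : Lk T' d p q :=
  fun x y h1 h2 h3 h4 => hT x y (h x y h1 h2 h3 h4)

/-- integer form -/
lemma Lk.int (h : Lk T d p q) {n : ℤ} (hn : (n : ℝ) ≤ d) {x y : ℤ} (h1 : min p.1 q.1 - n ≤ x)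
    (h2 : x < max p.1 q.1 + n) (h3 : min p.2 q.2 - n ≤ y) (h4 : y < max p.2 q.2 + n) : T x y := by
  have key : ∀ a b : ℤ, a ≤ b → (a : ℝ) ≤ b := fun a b h => by exact_mod_cast h
  refine h x y ?_ ?_ ?_ ?_
  · rcases le_total p.1 q.1 with h5 | h5
    · left
      have := key (p.1 - n) x (by omega)
      push_cast at this; linarith
    · right
      have := key (q.1 - n) x (by omega)
      push_cast at this; linarith
  · rcases le_total p.1 q.1 with h5 | h5
    · right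
      have := key (x + 1) (q.1 + n) (by omega)
      push_cast at this; linarith
    · left
      have := key (x + 1) (p.1 + n) (by omega)
      push_cast at this; linarith
  · rcases le_total p.2 q.2 with h5 | h5
    · left
      have := key (p.2 - n) y (by omega)
      push_cast at this; linarith
    · right
      have := key (q.2 - n) y (by omega)
      push_cast at this; linarith
  · rcases le_total p.2 q.2 with h5 | h5
    · right
      have := key (y + 1) (q.2 + n) (by omega)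
      push_cast at this; linarith
    · left
      have := key (y + 1) (p.2 + n) (by omega)
      push_cast at this; linarith

/-- the converse of `Lk.int` -/
lemma Lk.of_int {n : ℤ} (hn : d ≤ n) (h : ∀ x y : ℤ, min p.1 q.1 - n ≤ x → x < max p.1 q.1 + n →
    min p.2 q.2 - n ≤ y → y < max p.2 q.2 + n → T x y) : Lk T d p q := by
  have key : ∀ a b : ℤ, (a : ℝ) ≤ b → a ≤ b := fun a b h => by exact_mod_cast h
  intro x y h1 h2 h3 h4
  refine h x y ?_ ?_ ?_ ?_
  · rcases h1 with h1 | h1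
    · have := key (p.1 - n) x (by push_cast; linarith)
      omega
    · have := key (q.1 - n) x (by push_cast; linarith)
      omega
  · rcases h2 with h1 | h1
    · have := key (x + 1) (p.1 + n) (by push_cast; linarith)
      omega
    · have := key (x + 1) (q.1 + n) (by push_cast; linarith)
      omega
  · rcases h3 with h1 | h1
    · have := key (p.2 - n) y (by push_cast; linarith)
      omega
    · have := key (q.2 - n) y (by push_cast; linarith)
      omega
  · rcases h4 with h1 | h1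
    · have := key (y + 1) (p.2 + n) (by push_cast; linarith)
      omega
    · have := key (y + 1) (q.2 + n) (by push_cast; linarith)
      omega

/-- the corners of the path of linked points are far from the outside of `T` -/
lemma Lk.corner (h : Lk T d p q) {n : ℤ} (hn : (n : ℝ) + 1 ≤ d) {c : ℤ × ℤ}
    (hc : c ∈ LC p.1 p.2 q.1 q.2) : ∃ i l : ℤ, (c = he (i, l) ∨ c = ve (i, l)) ∧
      (min p.1 q.1 ≤ i ∧ i ≤ max p.1 q.1) ∧ (min p.2 q.2 ≤ l ∧ l ≤ max p.2 q.2) ∧
      ∀ x y, |x - i| ≤ n → |y - l| ≤ n → T x y := by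
  have hn' : ((n + 1 : ℤ) : ℝ) ≤ d := by push_cast; exact hn
  rcases LC_sub (x0 := min p.1 q.1) (x1 := max p.1 q.1) (y0 := min p.2 q.2) (y1 := max p.2 q.2)
    (min_le_left _ _) (le_max_left _ _) (min_le_left _ _) (le_max_left _ _) (min_le_right _ _)
    (le_max_right _ _) (min_le_right _ _) (le_max_right _ _) hc with
    ⟨i, l, rfl, h1, h2, h3, h4⟩ | ⟨i, l, rfl, h1, h2, h3, h4⟩
  · refine ⟨i, l, Or.inl rfl, ⟨h1, h2.le⟩, ⟨h3, h4⟩, fun x y hx hy => ?_⟩
    rw [abs_le] at hx hy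
    exact h.int hn' (by omega) (by omega) (by omega) (by omega)
  · refine ⟨i, l, Or.inr rfl, ⟨h1, h2⟩, ⟨h3, h4.le⟩, fun x y hx hy => ?_⟩
    rw [abs_le] at hx hy
    exact h.int hn' (by omega) (by omega) (by omega) (by omega)

end lk

/-- deep points of a rectangle are linked -/
lemma Lk.of_Inn {w h : ℤ} {d : ℝ} {p q : ℤ × ℤ} (hp : Inn w h d p) (hq : Inn w h d q) :
    Lk (fun x y => 0 ≤ x ∧ x < w ∧ 0 ≤ y ∧ y < h) d p q := by
  obtain ⟨p1, p2, p3, p4⟩ := hp
  obtain ⟨q1, q2, q3, q4⟩ := hq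
  intro x y h1 h2 h3 h4
  refine ⟨?_, ?_, ?_, ?_⟩
  · have : ((0 : ℤ) : ℝ) ≤ x := by
      rcases h1 with h1 | h1 <;> (push_cast; linarith)
    exact_mod_cast this
  · have : ((x + 1 : ℤ) : ℝ) ≤ w := by
      rcases h2 with h1 | h1 <;> (push_cast; linarith)
    have : x + 1 ≤ w := by exact_mod_cast this
    omega
  · have : ((0 : ℤ) : ℝ) ≤ y := by
      rcases h3 with h1 | h1 <;> (push_cast; linarith)
    exact_mod_cast this
  · have : ((y + 1 : ℤ) : ℝ) ≤ h := by
      rcases h4 with h1 | h1 <;> (push_cast; linarith)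
    have : y + 1 ≤ h := by exact_mod_cast this
    omega

/-! ### Chains -/

/-- chains of `k` linked pairs -/
def Chn (T : ℤ → ℤ → Prop) (d : ℝ) : ℕ → ℤ × ℤ → ℤ × ℤ → Prop
  | 0, p, q => p = q
  | k + 1, p, q => ∃ r, Lk T d p r ∧ Chn T d k r q

/-- additive relations along chains -/
theorem Chn.bound {T : ℤ → ℤ → Prop} {d M : ℝ} {F : ℤ × ℤ → ℤ × ℤ → ℂ}
    (hadd : ∀ p q r, F p r = F p q + F q r) (hM : ∀ p q, Lk T d p q → ‖F p q‖ ≤ M) {k : ℕ} :
    ∀ {p q : ℤ × ℤ}, Chn T d k p q → ‖F p q‖ ≤ k * M := by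
  induction k with
  | zero =>
    intro p q h
    have h1 : p = q := h
    subst h1
    have h2 : F p p = 0 := by
      have := hadd p p p
      linear_combination -this
    rw [h2, norm_zero, Nat.cast_zero, zero_mul]
  | succ k ih =>
    intro p q h
    obtain ⟨r, h1, h2⟩ := h
    rw [hadd p r q]
    refine (norm_add_le _ _).trans ?_
    have := ih h2
    have h3 := hM p r h1
    push_cast
    linarith

/-! ### The bounds -/

section box

variable {T : ℤ → ℤ → Prop} {η R : ℝ} {p q : ℤ × ℤ}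

/-- numbers used for linked points -/
lemma lk_num (hη : 0 < η) (hR : 4 / min η 1 ≤ R) (h1 : |((p.1 : ℝ) - q.1)| ≤ R / η)
    (h2 : |((p.2 : ℝ) - q.2)| ≤ R / η) : ∃ n : ℤ, 0 ≤ n ∧ (n : ℝ) ≤ η * R / 2 ∧
      ((max p.1 q.1 + n : ℤ) : ℝ) - (min p.1 q.1 - n : ℤ) ≤ R / (min η 1 / 4) ∧
      ((max p.2 q.2 + n : ℤ) : ℝ) - (min p.2 q.2 - n : ℤ) ≤ R / (min η 1 / 4) ∧
      Dp (min η 1 / 4 * R) (min p.1 q.1 - n) (max p.1 q.1 + n) (min p.2 q.2 - n)
        (max p.2 q.2 + n) p.1 p.2 ∧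
      Dp (min η 1 / 4 * R) (min p.1 q.1 - n) (max p.1 q.1 + n) (min p.2 q.2 - n)
        (max p.2 q.2 + n) q.1 q.2 := by
  set η1 : ℝ := min η 1 with hη1
  have e0 : 0 < η1 := lt_min hη one_pos
  have e1 : η1 ≤ η := min_le_left _ _
  have e2 : η1 ≤ 1 := min_le_right _ _
  have hR1 : 4 ≤ η1 * R := by
    rw [div_le_iff₀ e0] at hR; linarith
  have hR0 : 0 < R := lt_of_lt_of_le (by positivity) hR
  set n : ℤ := ⌊η1 * R / 2⌋ with hn
  have n1 : (n : ℝ) ≤ η1 * R / 2 := Int.floor_le _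
  have n2 : η1 * R / 2 < n + 1 := Int.lt_floor_add_one _
  have n3 : 0 ≤ n := Int.floor_nonneg.2 (by positivity)
  have n4 : η1 / 4 * R ≤ n := by linarith
  have hs : R / η + η1 * R ≤ R / (η1 / 4) := by
    have f1 : R / η ≤ R / η1 := div_le_div_of_nonneg_left hR0.le e0 e1
    have f2 : R / (η1 / 4) = 4 * (R / η1) := by field_simp
    have f3 : R ≤ R / η1 := by
      rw [le_div_iff₀ e0]; nlinarith
    have f4 : η1 * R ≤ R := by nlinarith
    rw [f2]
    have f5 : 0 ≤ R / η1 := by positivity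
    linarith
  have hm : ∀ a b : ℤ, |((a : ℝ) - b)| ≤ R / η →
      ((max a b + n : ℤ) : ℝ) - (min a b - n : ℤ) ≤ R / (η1 / 4) := by
    intro a b hab
    obtain ⟨g1, g2⟩ := abs_le.1 hab
    rcases le_total a b with h | h
    · rw [max_eq_right h, min_eq_left h]; push_cast; linarith
    · rw [max_eq_left h, min_eq_right h]; push_cast; linarith
  have key : ∀ a b : ℤ, a ≤ b → (a : ℝ) ≤ b := fun a b h => by exact_mod_cast h
  have l1 := key _ _ (min_le_left p.1 q.1)
  have l2 := key _ _ (min_le_right p.1 q.1)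
  have l3 := key _ _ (le_max_left p.1 q.1)
  have l4 := key _ _ (le_max_right p.1 q.1)
  have l5 := key _ _ (min_le_left p.2 q.2)
  have l6 := key _ _ (min_le_right p.2 q.2)
  have l7 := key _ _ (le_max_left p.2 q.2)
  have l8 := key _ _ (le_max_right p.2 q.2)
  refine ⟨n, n3, ?_, hm _ _ h1, hm _ _ h2, ⟨⟨?_, ?_⟩, ?_, ?_⟩, ⟨⟨?_, ?_⟩, ?_, ?_⟩⟩
  · nlinarith
  all_goals first | (rw [Int.cast_sub]; linarith) | (rw [Int.cast_add]; linarith)

end box

/-- **The increment between linked points.** -/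
theorem ap_lk {η : ℝ} (hη : 0 < η) : ∃ C : ℝ, 0 < C ∧ ∃ R0 : ℝ, ∀ X, PlaneK X →
    ∀ (T : ℤ → ℤ → Prop), (∀ x y, T x y → lt (x, y) ∈ X.E) → ∀ (p q : ℤ × ℤ) (R : ℝ), R0 ≤ R →
    |((p.1 : ℝ) - q.1)| ≤ R / η → |((p.2 : ℝ) - q.2)| ≤ R / η → Lk T (η * R) p q →
    ‖∑ c ∈ LC p.1 p.2 q.1 q.2, La p.1 p.2 q.1 q.2 c * X.inc c‖ ≤ C * R ^ (2 / 3 : ℝ) := by
  obtain ⟨C, hC, R0, H⟩ := ap_path (η := min η 1 / 4) (by have := lt_min hη one_pos; positivity)
  refine ⟨C, hC, max R0 (4 / min η 1), ?_⟩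
  intro X hX T hT p q R hR h1 h2 hL
  obtain ⟨n, n0, n1, s1, s2, d1, d2⟩ := lk_num hη ((le_max_right _ _).trans hR) h1 h2
  have hnd : (n : ℝ) ≤ η * R := by
    have : (0 : ℝ) ≤ n := by exact_mod_cast n0
    linarith
  exact H X hX _ _ _ _ R ((le_max_left _ _).trans hR)
    (fun x y k1 k2 k3 k4 => hT x y (hL.int hnd k1 k2 k3 k4)) s1 s2 _ _ _ _ d1 d2

/-- **`hM` for linked points.** `B` : a layer of labels at distance at most `n` from the outside
of `T`. -/
theorem VM_lk {η : ℝ} (hη : 0 < η) : ∃ C : ℝ, 0 < C ∧ ∃ R0 : ℝ, ∀ X, PlaneK X →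
    ∀ (Bb B TT : Finset (ℤ × ℤ)), Bb ⊆ X.E → Disjoint Bb TT → TT ⊆ X.E → B ⊆ Bb →
    ∀ {ι : Type} [DecidableEq ι] (fm : ℤ × ℤ → ι) (co : ι → Bool)
    (T : ℤ → ℤ → Prop) (n : ℤ) (p q : ℤ × ℤ) (R : ℝ), R0 ≤ R →
    (∀ x y, T x y → lt (x, y) ∈ Bb) →
    (∀ x y, lt (x, y) ∈ B → ∃ x' y', ¬ T x' y' ∧ |x - x'| ≤ n ∧ |y - y'| ≤ n) →
    2 * (n : ℝ) ≤ η * R →
    |((p.1 : ℝ) - q.1)| ≤ R / η → |((p.2 : ℝ) - q.2)| ≤ R / η → Lk T (η * R) p q →
    ∀ ω ⊆ B, ∀ P, ‖VM X (LC p.1 p.2 q.1 q.2) (La p.1 p.2 q.1 q.2) Bb B TT fm co ω P‖ ≤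
      C * R ^ (2 / 3 : ℝ) := by
  obtain ⟨C, hC, R0, H⟩ := VM_bound (η := min η 1 / 4) (by have := lt_min hη one_pos; positivity)
  refine ⟨C, hC, max R0 (4 / min η 1), ?_⟩
  intro X hX Bb B TT b1 b2 b3 b4 ι _ fm co T n p q R hR hT hB hn h1 h2 hL ω hω P
  obtain ⟨k, k0, k1, s1, s2, d1, d2⟩ := lk_num hη ((le_max_right _ _).trans hR) h1 h2
  have hk : ((k + max n 0 : ℤ) : ℝ) ≤ η * R := by
    push_cast
    have : max (n : ℝ) 0 ≤ η * R / 2 := by
      refine max_le (by linarith) ?_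
      have : (0 : ℝ) ≤ k := by exact_mod_cast k0
      linarith
    linarith
  refine H X hX Bb B TT b1 b2 b3 b4 fm co _ _ _ _ R ((le_max_left _ _).trans hR) ?_ s1 s2 _ _ _ _
    d1 d2 ω hω P
  intro x y e1 e2 e3 e4
  refine mem_sdiff.2 ⟨hT x y (hL.int hk (by omega) (by omega) (by omega) (by omega)), fun h5 => ?_⟩
  obtain ⟨x', y', h6, h7, h8⟩ := hB x y h5
  rw [abs_le] at h7 h8
  exact h6 (hL.int hk (by omega) (by omega) (by omega) (by omega))

/-! ### Potentials -/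

open Pool.Agent.H74.Win (PotW)

/-- restriction of a potential of a row convex polygon to a rectangle -/
theorem potW_rect {F : ℤ × ℤ → ℂ} {H : ℤ → ℤ → ℂ} {a b L M : ℤ → ℤ} {y0 y1 : ℤ}
    (hP : PotW F H a b L M y0 y1) {x0 x1 z0 z1 : ℤ} (h0 : y0 ≤ z0) (h1 : z1 ≤ y1)
    (hL : ∀ y, z0 ≤ y → y ≤ z1 → L y ≤ x0 ∧ x1 ≤ M y)
    (ha : ∀ y, z0 ≤ y → y < z1 → a y ≤ x0 ∧ x1 ≤ b y) : Pot F H x0 x1 z0 z1 := by
  refine ⟨fun x y e1 e2 e3 e4 => ?_, fun x y e1 e2 e3 e4 => ?_⟩
  · have := hL y e3 e4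
    exact hP.hor x y (by omega) (by omega) (by omega) (by omega)
  · have := ha y e3 e4
    exact hP.ver x y (by omega) (by omega) (by omega) (by omega)

section win

open Pool.Agent.H46.Sp

variable {D : Win} {p q : ℤ × ℤ} {F : ℤ × ℤ → ℂ} {H : ℤ → ℤ → ℂ}

/-- the environments of a window are plane environments -/
theorem planeK_XJ (O : Pool.Agent.H46.Sp.Out D) {j : ℤ} (h0 : 0 ≤ j) : PlaneK (Win.XJ O j h0) := by
  unfold Win.XJ
  exact planeK_plane

/-- tiles of the window `P` -/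
def InP (D : Win) (x y : ℤ) : Prop := 0 ≤ y ∧ y < D.h ∧ D.a y ≤ x ∧ x < D.b y

/-- tiles of `P - (0,1)` -/
def InQ (D : Win) (x y : ℤ) : Prop := -1 ≤ y ∧ y + 1 < D.h ∧ D.a (y + 1) ≤ x ∧ x < D.b (y + 1)

lemma InP.U {x y : ℤ} (h : InP D x y) : D.InU x y := by
  obtain ⟨h1, h2, h3, h4⟩ := h
  have k1 := Win.m_le_a (D := D) (y := y) h1
  have k2 := Win.b_le_M (D := D) (y := y) h1
  exact ⟨by omega, h2, by omega, by omega⟩

lemma InQ.U {x y : ℤ} (h : InQ D x y) : D.InU x y := by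
  obtain ⟨h1, h2, h3, h4⟩ := h
  have k1 := Win.m_le_a' (D := D) (y := y) h2
  have k2 := Win.b_le_M' (D := D) (y := y) h2
  exact ⟨h1, by omega, by omega, by omega⟩

/-- the lower potential on the rectangle of linked points -/
theorem potL_lk (hP : PotW F H D.a D.b (fun y => D.m (y - 1)) (fun y => D.M (y - 1)) 0 D.h)
    {n : ℤ} (hn : 0 ≤ n) (hL : Lk (InP D) ((n : ℝ) + 1) p q) :
    Pot F H (min p.1 q.1 - n) (max p.1 q.1 + n) (min p.2 q.2 - n) (max p.2 q.2 + n) := by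
  have hn1 : ((n + 1 : ℤ) : ℝ) ≤ (n : ℝ) + 1 := by push_cast; exact le_rfl
  have key : ∀ x y, min p.1 q.1 - n - 1 ≤ x → x ≤ max p.1 q.1 + n → min p.2 q.2 - n - 1 ≤ y →
      y ≤ max p.2 q.2 + n → InP D x y := fun x y e1 e2 e3 e4 =>
    hL.int hn1 (by omega) (by omega) (by omega) (by omega)
  have g1 := key (min p.1 q.1 - n - 1) (min p.2 q.2 - n - 1) le_rfl (by omega) le_rfl (by omega)
  have g2 := key (min p.1 q.1 - n - 1) (max p.2 q.2 + n) le_rfl (by omega) (by omega) le_rfl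
  refine potW_rect hP (by have := g1.1; omega) g2.2.1.le (fun y e1 e2 => ?_) (fun y e1 e2 => ?_)
  · have u1 := key (min p.1 q.1 - n - 1) y le_rfl (by omega) (by omega) (by omega)
    have u2 := key (max p.1 q.1 + n) y (by omega) le_rfl (by omega) (by omega)
    have v1 := key (min p.1 q.1 - n - 1) (y - 1) le_rfl (by omega) (by omega) (by omega)
    have v2 := key (max p.1 q.1 + n) (y - 1) (by omega) le_rfl (by omega) (by omega)
    have w1 := v1.U
    have w2 := v2.U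
    obtain ⟨-, -, w3, -⟩ := w1
    obtain ⟨-, -, -, w4⟩ := w2
    omega
  · obtain ⟨-, -, u1, -⟩ := key (min p.1 q.1 - n - 1) y le_rfl (by omega) (by omega) (by omega)
    obtain ⟨-, -, -, u2⟩ := key (max p.1 q.1 + n) y (by omega) le_rfl (by omega) (by omega)
    omega

/-- the upper potential on the rectangle of linked points -/
theorem potU_lk (hP : PotW F H (fun y => D.a (y + 1)) (fun y => D.b (y + 1)) (fun y => D.m y)
      (fun y => D.M y) (-1) (D.h - 1)) {n : ℤ} (hn : 0 ≤ n) (hL : Lk (InQ D) ((n : ℝ) + 1) p q) :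
    Pot F H (min p.1 q.1 - n) (max p.1 q.1 + n) (min p.2 q.2 - n) (max p.2 q.2 + n) := by
  have hn1 : ((n + 1 : ℤ) : ℝ) ≤ (n : ℝ) + 1 := by push_cast; exact le_rfl
  have key : ∀ x y, min p.1 q.1 - n - 1 ≤ x → x ≤ max p.1 q.1 + n → min p.2 q.2 - n - 1 ≤ y →
      y ≤ max p.2 q.2 + n → InQ D x y := fun x y e1 e2 e3 e4 =>
    hL.int hn1 (by omega) (by omega) (by omega) (by omega)
  have g1 := key (min p.1 q.1 - n - 1) (min p.2 q.2 - n - 1) le_rfl (by omega) le_rfl (by omega)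
  have g2 := key (min p.1 q.1 - n - 1) (max p.2 q.2 + n) le_rfl (by omega) (by omega) le_rfl
  refine potW_rect hP (by have := g1.1; omega) (by have := g2.2.1; omega) (fun y e1 e2 => ?_)
    (fun y e1 e2 => ?_)
  · have u1 := key (min p.1 q.1 - n - 1) y le_rfl (by omega) (by omega) (by omega)
    have u2 := key (max p.1 q.1 + n) y (by omega) le_rfl (by omega) (by omega)
    have w1 := u1.U
    have w2 := u2.U
    obtain ⟨-, -, w3, -⟩ := w1
    obtain ⟨-, -, -, w4⟩ := w2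
    omega
  · obtain ⟨-, -, u1, -⟩ := key (min p.1 q.1 - n - 1) y le_rfl (by omega) (by omega) (by omega)
    obtain ⟨-, -, -, u2⟩ := key (max p.1 q.1 + n) y (by omega) le_rfl (by omega) (by omega)
    omega

/-- **The sum along the path of linked points, lower potential.** -/
theorem sumL_lk (hP : PotW F H D.a D.b (fun y => D.m (y - 1)) (fun y => D.M (y - 1)) 0 D.h)
    {d : ℝ} (hd : 1 ≤ d) (hL : Lk (InP D) d p q) :
    ∑ c ∈ LC p.1 p.2 q.1 q.2, La p.1 p.2 q.1 q.2 c * F c = inc2 H p q := by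
  have h := potL_lk hP le_rfl (hL.mono (d' := ((0 : ℤ) : ℝ) + 1) (by push_cast; linarith))
  exact LC_sum h (by omega) (by omega) (by omega) (by omega) (by omega) (by omega) (by omega)
    (by omega)

/-- **The sum along the path of linked points, upper potential.** -/
theorem sumU_lk (hP : PotW F H (fun y => D.a (y + 1)) (fun y => D.b (y + 1)) (fun y => D.m y)
      (fun y => D.M y) (-1) (D.h - 1)) {d : ℝ} (hd : 1 ≤ d) (hL : Lk (InQ D) d p q) :
    ∑ c ∈ LC p.1 p.2 q.1 q.2, La p.1 p.2 q.1 q.2 c * F c = inc2 H p q := by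
  have h := potU_lk hP le_rfl (hL.mono (d' := ((0 : ℤ) : ℝ) + 1) (by push_cast; linarith))
  exact LC_sum h (by omega) (by omega) (by omega) (by omega) (by omega) (by omega) (by omega)
    (by omega)

end win

end Pool.Agent.Q1.M6e
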