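import Mathlib
import Pool.Agent.Q1.M6e.FineF
import Pool.Agent.Q1.M6e.HV45of
import Pool.Agent.Q1.M6e.LRof
import Pool.Agent.Q1.M6e.NR45of
import Pool.Agent.Q1.M6e.Comb

set_option autoImplicit false
open Finset

/-! # Theorem C for the 45 degree rectangles -/

namespace Pool.Agent.Q1.M6e

open Pool.Agent.H95.R45 (C45 N45 M45)

/-- linear response for every frozen state -/
theorem lr45 : LR45 := LR45_of fine45 hv45

/-- one natural row or column more, every frozen state -/
theorem nr45 : NR45 := NR45_of fine45 hv45

/-- **Chapter C** -/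
theorem c45 (hD : DL45) : C45 := C45_of lr45 hD

/-- **Chapter C**, real weights -/
theorem n45 (hD : DL45) : N45 := N45_of nr45 hD

/-- **Chapter C**, one edge -/
theorem m45 (hD : DL45) : M45 := M45_of nr45 hD

end Pool.Agent.Q1.M6e
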