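import Mathlib

/-!
# Abstract mixing lemma (M6e)

States at scale `j` (`j = 0` outermost, `j = J` innermost) form a finite type `Y j`, `p j` is a
sub-Markov kernel from scale `j` to scale `j + 1` (reveal one more annulus), `f j`, `g j` are two
nonnegative harmonic functions, both bounded by `b j`.  A state may be `good` (well separated).
If from good states there is a common component of the kernel carrying a fraction `θ` of `g`
(Doeblin), and bad states carry little weight, then `f` and `g` are proportional up to a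
geometrically small error.
-/

namespace Pool.Agent.Q1.M6e

open Finset

/-- One step of the mixing recursion. -/
theorem mix_step {Y Z : Type*} [Fintype Y] [Fintype Z]
    (p : Y → Z → ℝ) (hp : ∀ y z, 0 ≤ p y z)
    (f g : Z → ℝ) (hg0 : ∀ z, 0 ≤ g z)
    (goodY : Y → Prop) (goodZ : Z → Prop) [DecidablePred goodZ]
    (b b' θ ε m M δ : ℝ) (hθ0 : 0 ≤ θ) (hε : 0 ≤ ε) (hδ : 0 ≤ δ)
    (hθ1 : θ ≤ 1) (hmM : m ≤ M)
    (hgb : ∀ y, ∑ z, p y z * g z ≤ b)
    -- bounds at the inner scale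
    (hgoodU : ∀ z, goodZ z → f z ≤ M * g z) (hgoodL : ∀ z, goodZ z → m * g z ≤ f z)
    (hallU : ∀ z, f z ≤ M * g z + δ * b') (hallL : ∀ z, m * g z - δ * b' ≤ f z)
    -- bad states
    (hbad1 : ∀ y, goodY y → ∑ z with ¬ goodZ z, p y z * b' ≤ ε * ∑ z, p y z * g z)
    (hbad2 : ∀ y, ∑ z with ¬ goodZ z, p y z * b' ≤ ε * b)
    -- Doeblin
    (u : Z → ℝ) (hu : ∀ z, 0 ≤ u z) (hug : ∀ z, ¬ goodZ z → u z = 0) (hupos : 0 < ∑ z, u z * g z)
    (hdoe : ∀ y, goodY y → ∃ a : ℝ, 0 ≤ a ∧ (∀ z, a * u z ≤ p y z) ∧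
      θ * ∑ z, p y z * g z ≤ a * ∑ z, u z * g z) :
    ∃ m' M' : ℝ, m' ≤ M' ∧ m - ε * δ ≤ m' ∧ M' ≤ M + ε * δ ∧
      M' - m' = (1 - θ) * (M - m) + 2 * (ε * δ) ∧
      (∀ y, goodY y → ∑ z, p y z * f z ≤ M' * ∑ z, p y z * g z) ∧
      (∀ y, goodY y → m' * ∑ z, p y z * g z ≤ ∑ z, p y z * f z) ∧
      (∀ y, ∑ z, p y z * f z ≤ M' * (∑ z, p y z * g z) + (θ * (M - m) + ε * δ) * b) ∧
      (∀ y, m' * (∑ z, p y z * g z) - (θ * (M - m) + ε * δ) * b ≤ ∑ z, p y z * f z) := by
  set G : Y → ℝ := fun y => ∑ z, p y z * g z with hG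
  set F : Y → ℝ := fun y => ∑ z, p y z * f z with hF
  have hG0 : ∀ y, 0 ≤ G y := fun y => sum_nonneg fun z _ => mul_nonneg (hp y z) (hg0 z)
  set Uf := ∑ z, u z * f z with hUf
  set Ug := ∑ z, u z * g z with hUg
  set q := Uf / Ug with hq
  have hUfq : Uf = q * Ug := by rw [hq]; field_simp
  have hqM : q ≤ M := by
    rw [hq, div_le_iff₀ hupos, hUf, hUg, mul_sum]
    refine sum_le_sum fun z _ => ?_
    by_cases hz : goodZ z
    · calc u z * f z ≤ u z * (M * g z) := mul_le_mul_of_nonneg_left (hgoodU z hz) (hu z)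
        _ = M * (u z * g z) := by ring
    · rw [hug z hz]; simp
  have hqm : m ≤ q := by
    rw [hq, le_div_iff₀ hupos, hUf, hUg, mul_sum]
    refine sum_le_sum fun z _ => ?_
    by_cases hz : goodZ z
    · calc m * (u z * g z) = u z * (m * g z) := by ring
        _ ≤ u z * f z := mul_le_mul_of_nonneg_left (hgoodL z hz) (hu z)
    · rw [hug z hz]; simp
  -- general bounds with weights w ≥ 0
  have genU : ∀ w : Z → ℝ, (∀ z, 0 ≤ w z) →
      ∑ z, w z * f z ≤ M * ∑ z, w z * g z + δ * ∑ z with ¬ goodZ z, w z * b' := by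
    intro w hw
    have h1 : ∀ z, w z * f z ≤ M * (w z * g z) + (if ¬ goodZ z then δ * (w z * b') else 0) := by
      intro z
      by_cases hz : goodZ z
      · simp only [hz, not_true_eq_false, if_false, add_zero]
        calc w z * f z ≤ w z * (M * g z) := mul_le_mul_of_nonneg_left (hgoodU z hz) (hw z)
          _ = M * (w z * g z) := by ring
      · simp only [hz, not_false_eq_true, if_true]
        calc w z * f z ≤ w z * (M * g z + δ * b') := mul_le_mul_of_nonneg_left (hallU z) (hw z)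
          _ = M * (w z * g z) + δ * (w z * b') := by ring
    calc ∑ z, w z * f z ≤ ∑ z, (M * (w z * g z) + (if ¬ goodZ z then δ * (w z * b') else 0)) :=
          sum_le_sum fun z _ => h1 z
      _ = _ := by rw [sum_add_distrib, ← mul_sum, ← sum_filter, ← mul_sum]
  have genL : ∀ w : Z → ℝ, (∀ z, 0 ≤ w z) →
      m * ∑ z, w z * g z - δ * ∑ z with ¬ goodZ z, w z * b' ≤ ∑ z, w z * f z := by
    intro w hw
    have h1 : ∀ z, m * (w z * g z) - (if ¬ goodZ z then δ * (w z * b') else 0) ≤ w z * f z := by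
      intro z
      by_cases hz : goodZ z
      · simp only [hz, not_true_eq_false, if_false, sub_zero]
        calc m * (w z * g z) = w z * (m * g z) := by ring
          _ ≤ w z * f z := mul_le_mul_of_nonneg_left (hgoodL z hz) (hw z)
      · simp only [hz, not_false_eq_true, if_true]
        calc m * (w z * g z) - δ * (w z * b') = w z * (m * g z - δ * b') := by ring
          _ ≤ w z * f z := mul_le_mul_of_nonneg_left (hallL z) (hw z)
    calc m * ∑ z, w z * g z - δ * ∑ z with ¬ goodZ z, w z * b'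
        = ∑ z, (m * (w z * g z) - (if ¬ goodZ z then δ * (w z * b') else 0)) := by
          rw [sum_sub_distrib, ← mul_sum, ← sum_filter, ← mul_sum]
      _ ≤ _ := sum_le_sum fun z _ => h1 z
  -- Doeblin bounds for good states
  have goodU : ∀ y, goodY y → F y ≤ (M - θ * (M - q) + ε * δ) * G y := by
    intro y hy
    obtain ⟨a, ha0, hau, haθ⟩ := hdoe y hy
    have hw := genU (fun z => p y z - a * u z) (fun z => by linarith [hau z])
    have e1 : ∑ z, (p y z - a * u z) * f z = F y - a * Uf := by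
      rw [hF, hUf, mul_sum, ← sum_sub_distrib]; exact sum_congr rfl fun z _ => by ring
    have e2 : ∑ z, (p y z - a * u z) * g z = G y - a * Ug := by
      rw [hG, hUg, mul_sum, ← sum_sub_distrib]; exact sum_congr rfl fun z _ => by ring
    have e3 : ∑ z with ¬ goodZ z, (p y z - a * u z) * b' ≤ ε * G y := by
      refine le_trans (le_of_eq (sum_congr rfl fun z hz => ?_)) (hbad1 y hy)
      rw [hug z (mem_filter.1 hz).2]; ring
    rw [e1, e2] at hw
    have h2 : δ * ∑ z with ¬ goodZ z, (p y z - a * u z) * b' ≤ δ * (ε * G y) :=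
      mul_le_mul_of_nonneg_left e3 hδ
    have h3 : θ * G y * (M - q) ≤ a * Ug * (M - q) :=
      mul_le_mul_of_nonneg_right haθ (by linarith)
    rw [hUfq] at hw
    nlinarith [hw, h2, h3]
  have goodL : ∀ y, goodY y → (m + θ * (q - m) - ε * δ) * G y ≤ F y := by
    intro y hy
    obtain ⟨a, ha0, hau, haθ⟩ := hdoe y hy
    have hw := genL (fun z => p y z - a * u z) (fun z => by linarith [hau z])
    have e1 : ∑ z, (p y z - a * u z) * f z = F y - a * Uf := by
      rw [hF, hUf, mul_sum, ← sum_sub_distrib]; exact sum_congr rfl fun z _ => by ring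
    have e2 : ∑ z, (p y z - a * u z) * g z = G y - a * Ug := by
      rw [hG, hUg, mul_sum, ← sum_sub_distrib]; exact sum_congr rfl fun z _ => by ring
    have e3 : ∑ z with ¬ goodZ z, (p y z - a * u z) * b' ≤ ε * G y := by
      refine le_trans (le_of_eq (sum_congr rfl fun z hz => ?_)) (hbad1 y hy)
      rw [hug z (mem_filter.1 hz).2]; ring
    rw [e1, e2] at hw
    have h2 : δ * ∑ z with ¬ goodZ z, (p y z - a * u z) * b' ≤ δ * (ε * G y) :=
      mul_le_mul_of_nonneg_left e3 hδ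
    have h3 : θ * G y * (q - m) ≤ a * Ug * (q - m) :=
      mul_le_mul_of_nonneg_right haθ (by linarith)
    rw [hUfq] at hw
    nlinarith [hw, h2, h3]
  have hθL : θ * (M - q) ≤ θ * (M - m) := mul_le_mul_of_nonneg_left (by linarith) hθ0
  have hθL' : θ * (q - m) ≤ θ * (M - m) := mul_le_mul_of_nonneg_left (by linarith) hθ0
  have hθq : 0 ≤ θ * (M - q) := mul_nonneg hθ0 (by linarith)
  have hθq' : 0 ≤ θ * (q - m) := mul_nonneg hθ0 (by linarith)
  have hεδ : 0 ≤ ε * δ := mul_nonneg hε hδ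
  refine ⟨m + θ * (q - m) - ε * δ, M - θ * (M - q) + ε * δ, ?_, by linarith, by linarith,
    by ring, goodU, goodL, ?_, ?_⟩
  · nlinarith [mul_nonneg (sub_nonneg.2 hθ1) (sub_nonneg.2 hmM)]
  · intro y
    have hw := genU (p y) (hp y)
    have h2 : δ * ∑ z with ¬ goodZ z, p y z * b' ≤ δ * (ε * b) :=
      mul_le_mul_of_nonneg_left (hbad2 y) hδ
    have h3 : θ * (M - q) * G y ≤ θ * (M - m) * b := by
      calc θ * (M - q) * G y ≤ θ * (M - m) * G y := mul_le_mul_of_nonneg_right hθL (hG0 y)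
        _ ≤ θ * (M - m) * b := mul_le_mul_of_nonneg_left (hgb y)
            (mul_nonneg hθ0 (by linarith))
    have h4 : 0 ≤ ε * δ * G y := mul_nonneg hεδ (hG0 y)
    change F y ≤ (M - θ * (M - q) + ε * δ) * G y + (θ * (M - m) + ε * δ) * b
    change F y ≤ M * G y + _ at hw
    nlinarith [hw, h2, h3, h4]
  · intro y
    have hw := genL (p y) (hp y)
    have h2 : δ * ∑ z with ¬ goodZ z, p y z * b' ≤ δ * (ε * b) :=
      mul_le_mul_of_nonneg_left (hbad2 y) hδ
    have h3 : θ * (q - m) * G y ≤ θ * (M - m) * b := by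
      calc θ * (q - m) * G y ≤ θ * (M - m) * G y := mul_le_mul_of_nonneg_right hθL' (hG0 y)
        _ ≤ θ * (M - m) * b := mul_le_mul_of_nonneg_left (hgb y)
            (mul_nonneg hθ0 (by linarith))
    have h4 : 0 ≤ ε * δ * G y := mul_nonneg hεδ (hG0 y)
    change (m + θ * (q - m) - ε * δ) * G y - (θ * (M - m) + ε * δ) * b ≤ F y
    change m * G y - _ ≤ F y at hw
    nlinarith [hw, h2, h3, h4]

/-- **Mixing lemma.**  `f` and `g` are proportional up to `(1 - θ/2)^J`. -/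
theorem mixing (Y : ℕ → Type*) [∀ j, Fintype (Y j)] (J : ℕ)
    (p : ∀ j, Y j → Y (j + 1) → ℝ) (hp : ∀ j y z, 0 ≤ p j y z)
    (f g : ∀ j, Y j → ℝ) (hf0 : ∀ j y, 0 ≤ f j y) (hg0 : ∀ j y, 0 ≤ g j y)
    (hf : ∀ j < J, ∀ y, f j y = ∑ z, p j y z * f (j + 1) z)
    (hg : ∀ j < J, ∀ y, g j y = ∑ z, p j y z * g (j + 1) z)
    (good : ∀ j, Y j → Prop) [∀ j, DecidablePred (good j)] (b : ℕ → ℝ) (hb : ∀ j, 0 ≤ b j)
    (hfb : ∀ y, f J y ≤ b J) (hgb : ∀ j y, g j y ≤ b j)
    {θ ε K : ℝ} (hθ0 : 0 ≤ θ) (hθ1 : θ ≤ 1) (hε : 0 ≤ ε) (hε1 : ε ≤ 1 / 10) (hK : 0 ≤ K)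
    (hJ : ∀ y, good J y → f J y ≤ K * g J y)
    (hbad1 : ∀ j < J, ∀ y, good j y →
      ∑ z with ¬ good (j + 1) z, p j y z * b (j + 1)
        ≤ ε * g j y)
    (hbad2 : ∀ j < J, ∀ y,
      ∑ z with ¬ good (j + 1) z, p j y z * b (j + 1)
        ≤ ε * b j)
    (u : ∀ j, Y j → ℝ) (hu : ∀ j y, 0 ≤ u j y) (hug : ∀ j y, ¬ good j y → u j y = 0)
    (hupos : ∀ j < J, 0 < ∑ z, u (j + 1) z * g (j + 1) z)
    (hdoe : ∀ j < J, ∀ y, good j y → ∃ a : ℝ, 0 ≤ a ∧ (∀ z, a * u (j + 1) z ≤ p j y z) ∧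
      θ * g j y ≤ a * ∑ z, u (j + 1) z * g (j + 1) z) :
    ∃ q : ℝ, ∀ y, |f 0 y - q * g 0 y| ≤ (1 - θ / 2) ^ J * (2 * K + 1) * b 0 := by
  -- induction from the inside
  have key : ∀ k ≤ J, ∃ m M δ : ℝ, m ≤ M ∧ 0 ≤ δ ∧
      (M - m) + δ / 2 ≤ (1 - θ / 2) ^ k * (K + 1 / 2) ∧
      (∀ y, good (J - k) y → f (J - k) y ≤ M * g (J - k) y) ∧
      (∀ y, good (J - k) y → m * g (J - k) y ≤ f (J - k) y) ∧
      (∀ y, f (J - k) y ≤ M * g (J - k) y + δ * b (J - k)) ∧
      (∀ y, m * g (J - k) y - δ * b (J - k) ≤ f (J - k) y) := by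
    intro k
    induction k with
    | zero =>
      intro _
      refine ⟨0, K, 1, hK, zero_le_one, by norm_num, hJ, ?_, ?_, ?_⟩
      · intro y _; simpa using hf0 J y
      · intro y
        have h1 := hfb y
        have h2 := mul_nonneg hK (hg0 J y)
        simp only [Nat.sub_zero]; linarith
      · intro y
        have h1 := hf0 J y
        have h2 := hb J
        simp only [Nat.sub_zero]; linarith
    | succ k ih =>
      intro hk
      obtain ⟨m, M, δ, hmM, hδ, hL, h1, h2, h3, h4⟩ := ih (by omega)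
      obtain ⟨j, hj⟩ : ∃ j, J - k = j + 1 := ⟨J - k - 1, by omega⟩
      have hj' : J - (k + 1) = j := by omega
      have hjJ : j < J := by omega
      rw [hj] at h1 h2 h3 h4
      rw [hj']
      obtain ⟨m', M', a1, a2, a3, a4, a5, a6, a7, a8⟩ :=
        mix_step (p j) (hp j) (f (j + 1)) (g (j + 1)) (hg0 _) (good j) (good (j + 1))
          (b j) (b (j + 1)) θ ε m M δ hθ0 hε hδ hθ1 hmM
          (fun y => by rw [← hg j hjJ y]; exact hgb j y) h1 h2 h3 h4
          (fun y hy => by rw [← hg j hjJ y]; exact hbad1 j hjJ y hy)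
          (fun y => hbad2 j hjJ y) (u (j + 1)) (hu _) (hug _) (hupos j hjJ)
          (fun y hy => by
            obtain ⟨a, b1, b2, b3⟩ := hdoe j hjJ y hy
            exact ⟨a, b1, b2, by rw [← hg j hjJ y]; exact b3⟩)
      refine ⟨m', M', θ * (M - m) + ε * δ, a1,
        add_nonneg (mul_nonneg hθ0 (by linarith)) (mul_nonneg hε hδ), ?_, ?_, ?_, ?_, ?_⟩
      · rw [a4, pow_succ]
        have hLn : 0 ≤ M - m := by linarith
        have : (1 - θ) * (M - m) + 2 * (ε * δ) + (θ * (M - m) + ε * δ) / 2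
            ≤ (1 - θ / 2) * ((M - m) + δ / 2) := by
          have : 5 / 2 * (ε * δ) ≤ 1 / 4 * δ := by nlinarith
          nlinarith
        calc _ ≤ (1 - θ / 2) * ((M - m) + δ / 2) := this
          _ ≤ (1 - θ / 2) * ((1 - θ / 2) ^ k * (K + 1 / 2)) :=
              mul_le_mul_of_nonneg_left hL (by linarith)
          _ = _ := by ring
      · intro y hy; rw [hf j hjJ y, hg j hjJ y]; exact a5 y hy
      · intro y hy; rw [hf j hjJ y, hg j hjJ y]; exact a6 y hy
      · intro y; rw [hf j hjJ y, hg j hjJ y]; exact a7 y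
      · intro y; rw [hf j hjJ y, hg j hjJ y]; exact a8 y
  obtain ⟨m, M, δ, hmM, hδ, hL, -, -, h3, h4⟩ := key J le_rfl
  rw [Nat.sub_self] at h3 h4
  refine ⟨m, fun y => ?_⟩
  have hLn : 0 ≤ M - m := by linarith
  have e3 := h3 y
  have e4 := h4 y
  have hgy := hgb 0 y
  have hg0y := hg0 0 y
  have h5 : (M - m) * g 0 y ≤ (M - m) * b 0 := mul_le_mul_of_nonneg_left hgy hLn
  have h6 : 2 * ((M - m) + δ / 2) * b 0 ≤ 2 * ((1 - θ / 2) ^ J * (K + 1 / 2)) * b 0 :=
    mul_le_mul_of_nonneg_right (by linarith) (hb 0)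
  have h7 : 0 ≤ (M - m) * b 0 := mul_nonneg hLn (hb 0)
  rw [abs_le]
  constructor
  · nlinarith
  · nlinarith

end Pool.Agent.Q1.M6e
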