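import Mathlib

/-!
Abstract two-copy lemma (Q1, module M6e, chapter C of Route 3; helper8, helper15, helper20, helper86).

Two chains with common regeneration data `Uf`, `Ug`.  At a good state `y` a part `r` of the
kernel is such that the sums of `r * f` and `r * g` are proportional to `Uf`, `Ug` with the same factor.
The antisymmetrised product `f y * g' y' - f' y' * g y` then loses a factor `1 - θ^2` at every level at
which both copies are good; levels at which one copy is bad are paid by the majorants `G`, `G'`.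
-/

namespace Pool.Agent.Q1.M6e

open Finset

structure Chn (n : ℕ) (θ κ : ℝ) (Uf : ℕ → ℂ) (Ug : ℕ → ℝ) where
  /-- states at level `j` -/
  Y : ℕ → Type
  /-- finitely many -/
  inst : ∀ j, Fintype (Y j)
  /-- kernel -/
  p : ∀ j, Y j → Y (j + 1) → ℝ
  p0 : ∀ j, j < n → ∀ y z, 0 ≤ p j y z
  f : ∀ j, Y j → ℂ
  g : ∀ j, Y j → ℝ
  G : ∀ j, Y j → ℝ
  bad : ∀ j, Y j → Prop
  f_eq : ∀ j, j < n → ∀ y, f j y = (@Finset.univ _ (inst (j + 1))).sum fun z => (p j y z : ℂ) * f (j + 1) z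
  g_eq : ∀ j, j < n → ∀ y, g j y = (@Finset.univ _ (inst (j + 1))).sum fun z => p j y z * g (j + 1) z
  f_le : ∀ y, ‖f n y‖ ≤ g n y
  g_le : ∀ y, g n y ≤ G n y
  G_ge : ∀ j, j < n → ∀ y, ((@Finset.univ _ (inst (j + 1))).sum fun z => p j y z * G (j + 1) z) ≤ G j y
  G_bad : ∀ j, j < n → ∀ y, bad j y →
    κ * ((@Finset.univ _ (inst (j + 1))).sum fun z => p j y z * G (j + 1) z) ≤ G j y
  good : ∀ j, j < n → ∀ y, ¬ bad j y → ∃ (r : Y (j + 1) → ℝ) (a : ℝ), (∀ z, 0 ≤ r z) ∧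
    (∀ z, r z ≤ p j y z) ∧
    ((@Finset.univ _ (inst (j + 1))).sum fun z => (r z : ℂ) * f (j + 1) z) = a * Uf j ∧
    ((@Finset.univ _ (inst (j + 1))).sum fun z => r z * g (j + 1) z) = a * Ug j ∧
    θ * g j y ≤ a * Ug j

namespace Chn

variable {n : ℕ} {θ κ : ℝ} {Uf : ℕ → ℂ} {Ug : ℕ → ℝ}

attribute [instance] Chn.inst

lemma norm_f_le (C : Chn n θ κ Uf Ug) : ∀ m j, j + m = n → ∀ y, ‖C.f j y‖ ≤ C.g j y := by
  intro m
  induction m with
  | zero =>
    intro j hj y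
    obtain rfl : j = n := by omega
    exact C.f_le y
  | succ m ih =>
    intro j hj y
    have hjn : j < n := by omega
    rw [C.f_eq j hjn, C.g_eq j hjn]
    refine (norm_sum_le _ _).trans (Finset.sum_le_sum fun z _ => ?_)
    rw [norm_mul, Complex.norm_real, Real.norm_of_nonneg (C.p0 j hjn y z)]
    exact mul_le_mul_of_nonneg_left (ih (j + 1) (by omega) z) (C.p0 j hjn y z)

lemma g_nonneg (C : Chn n θ κ Uf Ug) (m j : ℕ) (h : j + m = n) (y : C.Y j) : 0 ≤ C.g j y :=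
  (norm_nonneg _).trans (C.norm_f_le m j h y)

lemma g_le_G (C : Chn n θ κ Uf Ug) : ∀ m j, j + m = n → ∀ y, C.g j y ≤ C.G j y := by
  intro m
  induction m with
  | zero =>
    intro j hj y
    obtain rfl : j = n := by omega
    exact C.g_le y
  | succ m ih =>
    intro j hj y
    have hjn : j < n := by omega
    rw [C.g_eq j hjn]
    refine le_trans (Finset.sum_le_sum fun z _ => ?_) (C.G_ge j hjn y)
    exact mul_le_mul_of_nonneg_left (ih (j + 1) (by omega) z) (C.p0 j hjn y z)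

/-- antisymmetrised product -/
noncomputable def An (C D : Chn n θ κ Uf Ug) (j : ℕ) (y : C.Y j) (y' : D.Y j) : ℂ :=
  C.f j y * D.g j y' - D.f j y' * C.g j y

lemma norm_An_le (C D : Chn n θ κ Uf Ug) (m j : ℕ) (h : j + m = n) (y : C.Y j) (y' : D.Y j) :
    ‖An C D j y y'‖ ≤ 2 * (C.g j y * D.g j y') := by
  have h1 := C.norm_f_le m j h y
  have h2 := D.norm_f_le m j h y'
  have h3 := C.g_nonneg m j h y
  have h4 := D.g_nonneg m j h y'
  unfold An
  refine (norm_sub_le _ _).trans ?_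
  rw [norm_mul, norm_mul, Complex.norm_real, Complex.norm_real, Real.norm_of_nonneg h3,
    Real.norm_of_nonneg h4]
  nlinarith [mul_le_mul_of_nonneg_right h1 h4, mul_le_mul_of_nonneg_right h2 h3]

/-- bilinear expansion for arbitrary weights -/
lemma sum_An (C D : Chn n θ κ Uf Ug) (j : ℕ) (r : C.Y (j + 1) → ℝ) (r' : D.Y (j + 1) → ℝ) :
    (∑ z, ∑ z', ((r z * r' z' : ℝ) : ℂ) * An C D (j + 1) z z')
      = (∑ z, (r z : ℂ) * C.f (j + 1) z) * ((∑ z', r' z' * D.g (j + 1) z' : ℝ) : ℂ)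
        - (∑ z', (r' z' : ℂ) * D.f (j + 1) z') * ((∑ z, r z * C.g (j + 1) z : ℝ) : ℂ) := by
  rw [Complex.ofReal_sum, Complex.ofReal_sum, Finset.sum_mul_sum, Finset.sum_mul_sum,
    Finset.sum_comm (s := (Finset.univ : Finset (D.Y (j + 1)))), ← Finset.sum_sub_distrib]
  refine Finset.sum_congr rfl fun z _ => ?_
  rw [← Finset.sum_sub_distrib]
  refine Finset.sum_congr rfl fun z' _ => ?_
  unfold An
  push_cast
  ring

lemma An_eq (C D : Chn n θ κ Uf Ug) (j : ℕ) (hj : j < n) (y : C.Y j) (y' : D.Y j) :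
    An C D j y y' = ∑ z, ∑ z', ((C.p j y z * D.p j y' z' : ℝ) : ℂ) * An C D (j + 1) z z' := by
  rw [sum_An, ← C.f_eq j hj, ← D.f_eq j hj, ← C.g_eq j hj, ← D.g_eq j hj]
  rfl

lemma sum_mul_eq {A B : Type} [Fintype A] [Fintype B] (u : A → ℝ) (v : B → ℝ) (x : A → ℝ) (w : B → ℝ) :
    (∑ z, ∑ z', (u z * v z') * (x z * w z')) = (∑ z, u z * x z) * (∑ z', v z' * w z') := by
  rw [Finset.sum_mul_sum]
  refine Finset.sum_congr rfl fun z _ => Finset.sum_congr rfl fun z' _ => by ring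

/-- **Two-copy lemma.** -/
theorem two_copy (C D : Chn n θ κ Uf Ug) (hθ0 : 0 ≤ θ) (hθ1 : θ ≤ 1) (hκ : 1 ≤ κ) :
    ∀ m j, j + m = n → ∀ (k : ℕ) (y : C.Y j) (y' : D.Y j),
      ‖An C D j y y'‖ ≤ 2 * ((1 - θ ^ 2) ^ k * (C.g j y * D.g j y')
        + κ ^ k / κ ^ m * (C.G j y * D.G j y')) := by
  have hκ0 : 0 < κ := by linarith
  have hlam : 0 ≤ 1 - θ ^ 2 := by nlinarith
  intro m
  induction m with
  | zero =>
    intro j hj k y y'
    have h1 := norm_An_le C D 0 j hj y y'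
    have h2 := C.g_nonneg 0 j hj y
    have h3 := D.g_nonneg 0 j hj y'
    have h4 := C.g_le_G 0 j hj y
    have h5 := D.g_le_G 0 j hj y'
    have h6 : C.g j y * D.g j y' ≤ C.G j y * D.G j y' := by
      apply mul_le_mul h4 h5 h3 (h2.trans h4)
    have h7 : 0 ≤ C.g j y * D.g j y' := mul_nonneg h2 h3
    have h8 : 1 ≤ κ ^ k / κ ^ 0 := by rw [pow_zero, div_one]; exact one_le_pow₀ hκ
    have h9 : 0 ≤ (1 - θ ^ 2) ^ k * (C.g j y * D.g j y') := mul_nonneg (pow_nonneg hlam k) h7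
    nlinarith [mul_le_mul_of_nonneg_right h8 (h7.trans h6)]
  | succ m ih =>
    intro j hj k y y'
    have hjn : j < n := by omega
    have hj1 : (j + 1) + m = n := by omega
    have g0 := C.g_nonneg (m + 1) j hj y
    have g0' := D.g_nonneg (m + 1) j hj y'
    have gG := C.g_le_G (m + 1) j hj y
    have gG' := D.g_le_G (m + 1) j hj y'
    have G0 := g0.trans gG
    have G0' := g0'.trans gG'
    -- sums of G
    have GS := C.G_ge j hjn y
    have GS' := D.G_ge j hjn y'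
    have GS0 : 0 ≤ ∑ z, C.p j y z * C.G (j + 1) z :=
      Finset.sum_nonneg fun z _ => mul_nonneg (C.p0 j hjn y z)
        ((C.g_nonneg m (j + 1) hj1 z).trans (C.g_le_G m (j + 1) hj1 z))
    have GS0' : 0 ≤ ∑ z, D.p j y' z * D.G (j + 1) z :=
      Finset.sum_nonneg fun z _ => mul_nonneg (D.p0 j hjn y' z)
        ((D.g_nonneg m (j + 1) hj1 z).trans (D.g_le_G m (j + 1) hj1 z))
    by_cases hb : C.bad j y ∨ D.bad j y'
    · -- one bad
      have key : κ * ((∑ z, C.p j y z * C.G (j + 1) z) * (∑ z, D.p j y' z * D.G (j + 1) z))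
          ≤ C.G j y * D.G j y' := by
        rcases hb with hb | hb
        · have h := C.G_bad j hjn y hb
          calc κ * ((∑ z, C.p j y z * C.G (j + 1) z) * (∑ z, D.p j y' z * D.G (j + 1) z))
              = (κ * (∑ z, C.p j y z * C.G (j + 1) z)) * (∑ z, D.p j y' z * D.G (j + 1) z) := by ring
            _ ≤ _ := mul_le_mul h GS' GS0' G0
        · have h := D.G_bad j hjn y' hb
          calc κ * ((∑ z, C.p j y z * C.G (j + 1) z) * (∑ z, D.p j y' z * D.G (j + 1) z))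
              = (∑ z, C.p j y z * C.G (j + 1) z) * (κ * (∑ z, D.p j y' z * D.G (j + 1) z)) := by ring
            _ ≤ _ := mul_le_mul GS h (mul_nonneg hκ0.le GS0') G0
      rw [An_eq C D j hjn]
      have b1 : ‖∑ z, ∑ z', ((C.p j y z * D.p j y' z' : ℝ) : ℂ) * An C D (j + 1) z z'‖
          ≤ ∑ z, ∑ z', (C.p j y z * D.p j y' z') * (2 * ((1 - θ ^ 2) ^ k * (C.g (j + 1) z * D.g (j + 1) z')
            + κ ^ k / κ ^ m * (C.G (j + 1) z * D.G (j + 1) z'))) := by
        refine (norm_sum_le _ _).trans (Finset.sum_le_sum fun z _ => ?_)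
        refine (norm_sum_le _ _).trans (Finset.sum_le_sum fun z' _ => ?_)
        have hp : 0 ≤ C.p j y z * D.p j y' z' := mul_nonneg (C.p0 j hjn y z) (D.p0 j hjn y' z')
        rw [norm_mul, Complex.norm_real, Real.norm_of_nonneg hp]
        exact mul_le_mul_of_nonneg_left (ih (j + 1) hj1 k z z') hp
      refine b1.trans ?_
      have b2 : (∑ z, ∑ z', (C.p j y z * D.p j y' z') * (2 * ((1 - θ ^ 2) ^ k * (C.g (j + 1) z * D.g (j + 1) z')
            + κ ^ k / κ ^ m * (C.G (j + 1) z * D.G (j + 1) z'))))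
          = 2 * ((1 - θ ^ 2) ^ k * (C.g j y * D.g j y')
            + κ ^ k / κ ^ m * ((∑ z, C.p j y z * C.G (j + 1) z) * (∑ z, D.p j y' z * D.G (j + 1) z))) := by
        rw [C.g_eq j hjn, D.g_eq j hjn, ← sum_mul_eq, ← sum_mul_eq, Finset.mul_sum, Finset.mul_sum,
          ← Finset.sum_add_distrib, Finset.mul_sum]
        refine Finset.sum_congr rfl fun z _ => ?_
        rw [Finset.mul_sum, Finset.mul_sum, ← Finset.sum_add_distrib, Finset.mul_sum]
        refine Finset.sum_congr rfl fun z' _ => by ring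
      rw [b2]
      have b3 : κ ^ k / κ ^ m * ((∑ z, C.p j y z * C.G (j + 1) z) * (∑ z, D.p j y' z * D.G (j + 1) z))
          ≤ κ ^ k / κ ^ (m + 1) * (C.G j y * D.G j y') := by
        have e : κ ^ k / κ ^ m = κ ^ k / κ ^ (m + 1) * κ := by
          rw [pow_succ]; field_simp
        rw [e, mul_assoc]
        exact mul_le_mul_of_nonneg_left key (by positivity)
      linarith
    · -- both good
      push Not at hb
      rcases k with _ | k
      · have h1 := norm_An_le C D (m + 1) j hj y y'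
        have h9 : 0 ≤ κ ^ 0 / κ ^ (m + 1) * (C.G j y * D.G j y') := by positivity
        rw [pow_zero, one_mul]
        linarith
      obtain ⟨r, a, r0, rp, rf, rg, ra⟩ := C.good j hjn y hb.1
      obtain ⟨r', a', r0', rp', rf', rg', ra'⟩ := D.good j hjn y' hb.2
      have hz : (∑ z, ∑ z', ((r z * r' z' : ℝ) : ℂ) * An C D (j + 1) z z') = 0 := by
        rw [sum_An, rf, rf', rg, rg']
        push_cast
        ring
      have e1 : An C D j y y' = ∑ z, ∑ z', ((C.p j y z * D.p j y' z' - r z * r' z' : ℝ) : ℂ)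
          * An C D (j + 1) z z' := by
        rw [← sub_zero (An C D j y y'), ← hz, An_eq C D j hjn, ← Finset.sum_sub_distrib]
        refine Finset.sum_congr rfl fun z _ => ?_
        rw [← Finset.sum_sub_distrib]
        refine Finset.sum_congr rfl fun z' _ => ?_
        push_cast
        ring
      rw [e1]
      have hnn : ∀ z z', 0 ≤ C.p j y z * D.p j y' z' - r z * r' z' := fun z z' =>
        sub_nonneg.2 (mul_le_mul (rp z) (rp' z') (r0' z') (C.p0 j hjn y z))
      have b1 : ‖∑ z, ∑ z', ((C.p j y z * D.p j y' z' - r z * r' z' : ℝ) : ℂ) * An C D (j + 1) z z'‖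
          ≤ ∑ z, ∑ z', (C.p j y z * D.p j y' z' - r z * r' z') *
            (2 * ((1 - θ ^ 2) ^ k * (C.g (j + 1) z * D.g (j + 1) z')
            + κ ^ k / κ ^ m * (C.G (j + 1) z * D.G (j + 1) z'))) := by
        refine (norm_sum_le _ _).trans (Finset.sum_le_sum fun z _ => ?_)
        refine (norm_sum_le _ _).trans (Finset.sum_le_sum fun z' _ => ?_)
        rw [norm_mul, Complex.norm_real, Real.norm_of_nonneg (hnn z z')]
        exact mul_le_mul_of_nonneg_left (ih (j + 1) hj1 k z z') (hnn z z')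
      refine b1.trans ?_
      have b2 : (∑ z, ∑ z', (C.p j y z * D.p j y' z' - r z * r' z') *
            (2 * ((1 - θ ^ 2) ^ k * (C.g (j + 1) z * D.g (j + 1) z')
            + κ ^ k / κ ^ m * (C.G (j + 1) z * D.G (j + 1) z'))))
          ≤ 2 * ((1 - θ ^ 2) ^ k * (C.g j y * D.g j y' - (a * Ug j) * (a' * Ug j))
            + κ ^ k / κ ^ m * ((∑ z, C.p j y z * C.G (j + 1) z) * (∑ z, D.p j y' z * D.G (j + 1) z))) := by
        rw [C.g_eq j hjn, D.g_eq j hjn, ← rg, ← rg', ← sum_mul_eq, ← sum_mul_eq, ← sum_mul_eq,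
          ← Finset.sum_sub_distrib, Finset.mul_sum, Finset.mul_sum,
          ← Finset.sum_add_distrib, Finset.mul_sum]
        refine Finset.sum_le_sum fun z _ => ?_
        rw [← Finset.sum_sub_distrib, Finset.mul_sum, Finset.mul_sum, ← Finset.sum_add_distrib,
          Finset.mul_sum]
        refine Finset.sum_le_sum fun z' _ => ?_
        have q1 : 0 ≤ κ ^ k / κ ^ m * (r z * r' z' * (C.G (j + 1) z * D.G (j + 1) z')) := by
          have := (C.g_nonneg m (j + 1) hj1 z).trans (C.g_le_G m (j + 1) hj1 z)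
          have := (D.g_nonneg m (j + 1) hj1 z').trans (D.g_le_G m (j + 1) hj1 z')
          have := r0 z
          have := r0' z'
          positivity
        nlinarith [q1]
      refine b2.trans ?_
      have b3 : θ ^ 2 * (C.g j y * D.g j y') ≤ (a * Ug j) * (a' * Ug j) := by
        calc θ ^ 2 * (C.g j y * D.g j y') = (θ * C.g j y) * (θ * D.g j y') := by ring
          _ ≤ (a * Ug j) * (a' * Ug j) :=
            mul_le_mul ra ra' (mul_nonneg hθ0 g0') ((mul_nonneg hθ0 g0).trans ra)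
      have b4 : (1 - θ ^ 2) ^ k * (C.g j y * D.g j y' - (a * Ug j) * (a' * Ug j))
          ≤ (1 - θ ^ 2) ^ (k + 1) * (C.g j y * D.g j y') := by
        have e : (1 - θ ^ 2) ^ (k + 1) * (C.g j y * D.g j y')
            = (1 - θ ^ 2) ^ k * ((1 - θ ^ 2) * (C.g j y * D.g j y')) := by
          rw [pow_succ, mul_assoc]
        rw [e]
        refine mul_le_mul_of_nonneg_left ?_ (pow_nonneg hlam k)
        linarith
      have b5 : κ ^ k / κ ^ m * ((∑ z, C.p j y z * C.G (j + 1) z) * (∑ z, D.p j y' z * D.G (j + 1) z))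
          ≤ κ ^ (k + 1) / κ ^ (m + 1) * (C.G j y * D.G j y') := by
        have e : κ ^ (k + 1) / κ ^ (m + 1) = κ ^ k / κ ^ m := by
          rw [pow_succ, pow_succ]; field_simp
        rw [e]
        exact mul_le_mul_of_nonneg_left (mul_le_mul GS GS' GS0' G0) (by positivity)
      linarith

/-- Ratio form: if the reference state `y'` of `D` satisfies `c * H ≤ g'`, then `f` is
proportional to `g` up to the error, with the ratio of the reference state. -/
theorem ratio (C D : Chn n θ κ Uf Ug) (hθ0 : 0 ≤ θ) (hθ1 : θ ≤ 1) (hκ : 1 ≤ κ)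
    (k : ℕ) {H c B : ℝ} (hc : 0 < c) (hH : 0 < H) (hB : 0 ≤ B) (y : C.Y 0) (y' : D.Y 0)
    (hg : C.g 0 y ≤ H) (hG : C.G 0 y ≤ B * H) (hG' : D.G 0 y' ≤ B * D.g 0 y')
    (href : c * H ≤ D.g 0 y') :
    ‖C.f 0 y - D.f 0 y' / (D.g 0 y' : ℂ) * (C.g 0 y : ℂ)‖
      ≤ 2 * ((1 - θ ^ 2) ^ k + κ ^ k / κ ^ n * B ^ 2) * H := by
  have hκ0 : 0 < κ := by linarith
  have hlam : 0 ≤ 1 - θ ^ 2 := by nlinarith
  have hg' : 0 < D.g 0 y' := lt_of_lt_of_le (mul_pos hc hH) href
  have h := two_copy C D hθ0 hθ1 hκ n 0 (by omega) k y y'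
  have g0 := C.g_nonneg n 0 (by omega) y
  have G0 := g0.trans (C.g_le_G n 0 (by omega) y)
  have G0' := hg'.le.trans (D.g_le_G n 0 (by omega) y')
  have e : An C D 0 y y' = (C.f 0 y - D.f 0 y' / (D.g 0 y' : ℂ) * (C.g 0 y : ℂ)) * (D.g 0 y' : ℂ) := by
    unfold An
    have : (D.g 0 y' : ℂ) ≠ 0 := by exact_mod_cast hg'.ne'
    field_simp
  rw [e, norm_mul, Complex.norm_real, Real.norm_of_nonneg hg'.le] at h
  have h2 : 2 * ((1 - θ ^ 2) ^ k * (C.g 0 y * D.g 0 y') + κ ^ k / κ ^ n * (C.G 0 y * D.G 0 y'))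
      ≤ 2 * ((1 - θ ^ 2) ^ k + κ ^ k / κ ^ n * B ^ 2) * H * D.g 0 y' := by
    have i1 : (1 - θ ^ 2) ^ k * (C.g 0 y * D.g 0 y') ≤ (1 - θ ^ 2) ^ k * (H * D.g 0 y') :=
      mul_le_mul_of_nonneg_left (mul_le_mul_of_nonneg_right hg hg'.le) (pow_nonneg hlam k)
    have i2 : κ ^ k / κ ^ n * (C.G 0 y * D.G 0 y') ≤ κ ^ k / κ ^ n * ((B * H) * (B * D.g 0 y')) :=
      mul_le_mul_of_nonneg_left (mul_le_mul hG hG' G0' (mul_nonneg hB hH.le)) (by positivity)
    nlinarith [i1, i2]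
  exact le_of_mul_le_mul_right (h.trans h2) hg'

/-- Two systems compared through a common reference: the ratio does not depend on the system. -/
theorem ratio_rate (C D : Chn n θ κ Uf Ug) (hθ0 : 0 ≤ θ) (hθ1 : θ ≤ 1)
    {K : ℝ} (hK : 1 ≤ K) (hκ : κ = K ^ 8) {H c c' : ℝ} (hc : 0 < c) (hc' : 0 < c') (hH : 0 < H)
    (y : C.Y 0) (y' : D.Y 0) (hg : C.g 0 y ≤ H) (hG : C.G 0 y ≤ (c' * K ^ n) * H)
    (hG' : D.G 0 y' ≤ (c' * K ^ n) * D.g 0 y') (href : c * H ≤ D.g 0 y') :
    ‖C.f 0 y - D.f 0 y' / (D.g 0 y' : ℂ) * (C.g 0 y : ℂ)‖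
      ≤ 2 * ((1 - θ ^ 2) ^ (n / 2) + c' ^ 2 / K ^ (2 * n)) * H := by
  have hK0 : 0 < K := by linarith
  have h := ratio C D hθ0 hθ1 (by rw [hκ]; exact one_le_pow₀ hK) (n / 2) hc hH
    (by positivity : (0 : ℝ) ≤ c' * K ^ n) y y' hg hG hG' href
  refine h.trans (mul_le_mul_of_nonneg_right (mul_le_mul_of_nonneg_left ?_ (by norm_num)) hH.le)
  refine add_le_add le_rfl ?_
  rw [hκ, mul_pow, div_mul_eq_mul_div, div_le_div_iff₀ (by positivity) (by positivity), ← pow_mul,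
    ← pow_mul, ← pow_mul]
  have e1 : K ^ (8 * (n / 2)) * (c' ^ 2 * K ^ (n * 2)) * K ^ (2 * n)
      = c' ^ 2 * K ^ (8 * (n / 2) + n * 2 + 2 * n) := by
    rw [pow_add, pow_add]; ring
  rw [e1]
  refine mul_le_mul_of_nonneg_left (pow_le_pow_right₀ hK ?_) (by positivity)
  omega

end Chn

/-- Construction of the majorant from one-step survival bounds: `al j` = (indicator of) alive,
`s` = bound of the one-step survival, `s / κ` for bad states. -/
theorem survG {n : ℕ} {κ s H : ℝ} (hs : 0 ≤ s) (hH : 0 ≤ H)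
    {Y : ℕ → Type} [∀ j, Fintype (Y j)] (p : ∀ j, Y j → Y (j + 1) → ℝ) (bad : ∀ j, Y j → Prop)
    (al : ∀ j, Y j → ℝ)
    (h1 : ∀ j, j < n → ∀ y, ∑ z, p j y z * al (j + 1) z ≤ s * al j y)
    (h2 : ∀ j, j < n → ∀ y, bad j y → κ * ∑ z, p j y z * al (j + 1) z ≤ s * al j y) :
    (∀ j, j < n → ∀ y, ∑ z, p j y z * (H * s ^ (n - (j + 1)) * al (j + 1) z)
        ≤ H * s ^ (n - j) * al j y) ∧
    (∀ j, j < n → ∀ y, bad j y → κ * ∑ z, p j y z * (H * s ^ (n - (j + 1)) * al (j + 1) z)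
        ≤ H * s ^ (n - j) * al j y) := by
  have e : ∀ j, ∀ y : Y j, ∑ z, p j y z * (H * s ^ (n - (j + 1)) * al (j + 1) z)
      = H * s ^ (n - (j + 1)) * ∑ z, p j y z * al (j + 1) z := by
    intro j y
    rw [Finset.mul_sum]
    exact Finset.sum_congr rfl fun z _ => by ring
  have e2 : ∀ j, j < n → s ^ (n - j) = s ^ (n - (j + 1)) * s := by
    intro j hj
    rw [← pow_succ]
    congr 1
    omega
  constructor
  · intro j hj y
    rw [e, e2 j hj]
    have := mul_le_mul_of_nonneg_left (h1 j hj y) (mul_nonneg hH (pow_nonneg hs (n - (j + 1))))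
    linarith
  · intro j hj y hb
    rw [e, e2 j hj]
    have := mul_le_mul_of_nonneg_left (h2 j hj y hb) (mul_nonneg hH (pow_nonneg hs (n - (j + 1))))
    linarith

end Pool.Agent.Q1.M6e
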